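import Mathlib

set_option autoImplicit false

/-!
Divisor bound and counting of integer matrices of determinant one.
-/

namespace MDiv

open Finset

lemma succ_pow_le (e : ℕ) : (e + 1) ^ 8 ≤ 8 ^ 8 * 2 ^ e := by
  set q := e / 8 with hq
  have h1 : e + 1 ≤ 8 * 2 ^ q := by
    have h2 : q + 1 ≤ 2 ^ q := Nat.lt_two_pow_self
    have h3 : e < 8 * (q + 1) := by omega
    nlinarith
  calc (e+1)^8 ≤ (8 * 2^q)^8 := Nat.pow_le_pow_left h1 8
    _ = 8^8 * 2^(8 * q) := by rw [mul_pow, ← pow_mul, mul_comm q 8]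
    _ ≤ 8^8 * 2^e := by
        apply Nat.mul_le_mul_left
        apply Nat.pow_le_pow_right (by norm_num)
        omega

/-- the constant in the divisor bound -/
@[irreducible] def Cd : ℕ := (8 ^ 8) ^ 256

lemma Cd_pos : 1 ≤ Cd := by
  unfold Cd
  exact Nat.one_le_pow _ _ (by positivity)

lemma divisor_bound (n : ℕ) (hn : n ≠ 0) : n.divisors.card ^ 8 ≤ Cd * n := by
  rw [Nat.card_divisors hn, ← Finset.prod_pow]
  have h1 : ∀ p ∈ n.primeFactors, (n.factorization p + 1) ^ 8 ≤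
      (if p < 256 then 8 ^ 8 else 1) * p ^ (n.factorization p) := by
    intro p hp
    have hp2 : 2 ≤ p := (Nat.prime_of_mem_primeFactors hp).two_le
    split_ifs with h
    · refine (succ_pow_le _).trans ?_
      apply Nat.mul_le_mul_left
      exact Nat.pow_le_pow_left hp2 _
    · rw [one_mul]
      have h2 : n.factorization p + 1 ≤ 2 ^ (n.factorization p) := Nat.lt_two_pow_self
      calc _ ≤ (2 ^ (n.factorization p)) ^ 8 := Nat.pow_le_pow_left h2 8
        _ = (2 ^ 8) ^ (n.factorization p) := by rw [← pow_mul, ← pow_mul, mul_comm]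
        _ ≤ _ := by
          apply Nat.pow_le_pow_left
          norm_num
          omega
  calc _ ≤ ∏ p ∈ n.primeFactors, ((if p < 256 then 8 ^ 8 else 1) * p ^ (n.factorization p)) :=
        Finset.prod_le_prod (fun _ _ => Nat.zero_le _) h1
    _ = (∏ p ∈ n.primeFactors, (if p < 256 then 8 ^ 8 else 1)) * n := by
        rw [Finset.prod_mul_distrib]
        congr 1
        exact Nat.prod_factorization_pow_eq_self hn
    _ ≤ Cd * n := by
        apply Nat.mul_le_mul_right
        rw [← Finset.prod_filter, Finset.prod_const]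
        unfold Cd
        apply Nat.pow_le_pow_right (by norm_num)
        calc _ ≤ (Finset.range 256).card := by
              apply Finset.card_le_card
              intro p hp
              rw [Finset.mem_filter] at hp
              rw [Finset.mem_range]; exact hp.2
          _ = 256 := Finset.card_range 256

structure M2 where
  (a b c d : ℤ)
deriving DecidableEq

def M2.eqv : M2 ≃ ℤ × ℤ × ℤ × ℤ where
  toFun g := (g.a, g.b, g.c, g.d)
  invFun x := ⟨x.1, x.2.1, x.2.2.1, x.2.2.2⟩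
  left_inv _ := rfl
  right_inv _ := rfl

lemma M2.ext' {g h : M2} (ha : g.a = h.a) (hb : g.b = h.b) (hc : g.c = h.c) (hd : g.d = h.d) :
    g = h := by
  cases g; cases h; simp_all

/-- all integer matrices with entries at most `N` in absolute value -/
noncomputable def mb (N : ℕ) : Finset M2 :=
  ((Finset.Icc (-(N:ℤ)) N) ×ˢ (Finset.Icc (-(N:ℤ)) N) ×ˢ (Finset.Icc (-(N:ℤ)) N) ×ˢ
    (Finset.Icc (-(N:ℤ)) N)).map M2.eqv.symm.toEmbedding

/-- unimodular matrices with entries at most `N` in absolute value -/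
noncomputable def slb (N : ℕ) : Finset M2 := (mb N).filter (fun g => g.a * g.d - g.b * g.c = 1)

lemma mem_mb (N : ℕ) (g : M2) :
    g ∈ mb N ↔ |g.a| ≤ N ∧ |g.b| ≤ N ∧ |g.c| ≤ N ∧ |g.d| ≤ N := by
  unfold mb
  rw [Finset.mem_map]
  simp only [abs_le]
  constructor
  · rintro ⟨x, hx, rfl⟩
    simp only [Finset.mem_product, Finset.mem_Icc] at hx
    exact hx
  · intro h
    refine ⟨(g.a, g.b, g.c, g.d), ?_, rfl⟩
    simp only [Finset.mem_product, Finset.mem_Icc]
    exact h

lemma mem_slb (N : ℕ) (g : M2) :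
    g ∈ slb N ↔ (|g.a| ≤ N ∧ |g.b| ≤ N ∧ |g.c| ≤ N ∧ |g.d| ≤ N) ∧ g.a * g.d - g.b * g.c = 1 := by
  unfold slb
  rw [Finset.mem_filter, mem_mb]

/-- the sup norm of an integer vector as a natural number -/
def sn (x y : ℤ) : ℕ := max x.natAbs y.natAbs

lemma abs_fst_le_sn (x y : ℤ) : |x| ≤ sn x y := by
  unfold sn; rw [Int.abs_eq_natAbs]; exact_mod_cast le_max_left _ _

lemma abs_snd_le_sn (x y : ℤ) : |y| ≤ sn x y := by
  unfold sn; rw [Int.abs_eq_natAbs]; exact_mod_cast le_max_right _ _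

lemma sn_le {x y : ℤ} {n : ℕ} : sn x y ≤ n ↔ |x| ≤ n ∧ |y| ≤ n := by
  unfold sn
  rw [max_le_iff, Int.abs_eq_natAbs, Int.abs_eq_natAbs]
  constructor
  · rintro ⟨h1, h2⟩; constructor <;> omega
  · rintro ⟨h1, h2⟩; constructor <;> omega

lemma sn_pos {x y : ℤ} (h : ¬ (x = 0 ∧ y = 0)) : 0 < sn x y := by
  unfold sn
  rw [lt_max_iff]
  by_contra hcon
  push Not at hcon
  apply h
  constructor <;> omega

/-- multiplicity: number of unimodular matrices with given image of a primitive row vector -/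
lemma mult_bound (N : ℕ) (y1 y2 : ℤ) (hy : IsCoprime y1 y2) (w1 w2 : ℤ) :
    (((slb N).filter (fun g => y1 * g.a + y2 * g.c = w1 ∧ y1 * g.b + y2 * g.d = w2)).card : ℝ) ≤
      4 * N / sn w1 w2 + 1 := by
  classical
  set S := (slb N).filter (fun g => y1 * g.a + y2 * g.c = w1 ∧ y1 * g.b + y2 * g.d = w2) with hS
  rcases S.eq_empty_or_nonempty with h | ⟨g0, hg0⟩
  · rw [h]; simp; positivity
  rw [hS, Finset.mem_filter, mem_slb] at hg0
  obtain ⟨⟨⟨ha0, hb0, hc0, hd0⟩, hdet0⟩, hw1, hw2⟩ := hg0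
  obtain ⟨u, v, huv⟩ := hy
  have hyne : ¬ (y1 = 0 ∧ y2 = 0) := by
    rintro ⟨h1, h2⟩; rw [h1, h2] at huv; simp at huv
  have hwcop : IsCoprime w1 w2 := by
    refine ⟨u * g0.d - v * g0.b, -u * g0.c + v * g0.a, ?_⟩
    have h1 : w1 * g0.d - w2 * g0.c = y1 := by rw [← hw1, ← hw2]; linear_combination y1 * hdet0
    have h2 : -w1 * g0.b + w2 * g0.a = y2 := by rw [← hw1, ← hw2]; linear_combination y2 * hdet0
    calc (u * g0.d - v * g0.b) * w1 + (-u * g0.c + v * g0.a) * w2 =
          u * (w1 * g0.d - w2 * g0.c) + v * (-w1 * g0.b + w2 * g0.a) := by ring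
      _ = 1 := by rw [h1, h2]; exact huv
  have hwne : ¬ (w1 = 0 ∧ w2 = 0) := by
    rintro ⟨h1, h2⟩; rw [h1, h2] at hwcop
    obtain ⟨a, b, hab⟩ := hwcop
    simp at hab
  have hω : 0 < sn w1 w2 := sn_pos hwne
  set T := 2 * N / sn w1 w2 with hT
  have hsub : S ⊆ (Finset.Icc (-(T:ℤ)) T).image (fun t => (⟨g0.a - y2 * t * w1, g0.b - y2 * t * w2,
      g0.c + y1 * t * w1, g0.d + y1 * t * w2⟩ : M2)) := by
    intro g hg
    rw [hS, Finset.mem_filter, mem_slb] at hg
    obtain ⟨⟨⟨ha, hb, hc, hd⟩, hdet⟩, hg1, hg2⟩ := hg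
    -- τ1, τ2
    set τ1 := u * (g.c - g0.c) - v * (g.a - g0.a) with hτ1
    set τ2 := u * (g.d - g0.d) - v * (g.b - g0.b) with hτ2
    have e1 : y1 * (g.a - g0.a) + y2 * (g.c - g0.c) = 0 := by linear_combination hg1 - hw1
    have e2 : y1 * (g.b - g0.b) + y2 * (g.d - g0.d) = 0 := by linear_combination hg2 - hw2
    have f1 : g.a = g0.a - y2 * τ1 := by
      rw [hτ1]; linear_combination (-(g.a - g0.a)) * huv + u * e1
    have f2 : g.c = g0.c + y1 * τ1 := by
      rw [hτ1]; linear_combination (-(g.c - g0.c)) * huv + v * e1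
    have f3 : g.b = g0.b - y2 * τ2 := by
      rw [hτ2]; linear_combination (-(g.b - g0.b)) * huv + u * e2
    have f4 : g.d = g0.d + y1 * τ2 := by
      rw [hτ2]; linear_combination (-(g.d - g0.d)) * huv + v * e2
    have h3 : τ2 * w1 = τ1 * w2 := by
      rw [f1, f2, f3, f4] at hdet
      rw [← hw1, ← hw2]
      linear_combination hdet - hdet0
    obtain ⟨a, b, hab⟩ := hwcop
    set t := a * τ1 + b * τ2 with ht
    have g1 : τ1 = t * w1 := by rw [ht]; linear_combination (-τ1) * hab - b * h3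
    have g2 : τ2 = t * w2 := by rw [ht]; linear_combination (-τ2) * hab + a * h3
    rw [Finset.mem_image]
    refine ⟨t, ?_, ?_⟩
    · -- bound on t
      have hbound : ∀ y w x x0 : ℤ, |x| ≤ N → |x0| ≤ N → (x - x0 = y * (t * w) ∨ x - x0 = -(y * (t * w))) →
          |y| * (|t| * |w|) ≤ 2 * N := by
        intro y w x x0 hx hx0 h
        have h5 : |x - x0| ≤ 2 * N := by
          have := abs_sub x x0
          linarith
        have h6 : |x - x0| = |y| * (|t| * |w|) := by
          rcases h with h | h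
          · rw [h, abs_mul, abs_mul]
          · rw [h, abs_neg, abs_mul, abs_mul]
        rw [h6] at h5; exact h5
      have b11 := hbound y1 w1 g.c g0.c hc hc0 (Or.inl (by rw [f2, g1]; ring))
      have b12 := hbound y1 w2 g.d g0.d hd hd0 (Or.inl (by rw [f4, g2]; ring))
      have b21 := hbound y2 w1 g.a g0.a ha ha0 (Or.inr (by rw [f1, g1]; ring))
      have b22 := hbound y2 w2 g.b g0.b hb hb0 (Or.inr (by rw [f3, g2]; ring))
      have key : |t| * (sn w1 w2 : ℤ) ≤ 2 * N := by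
        have hy' : ∃ y : ℤ, 1 ≤ |y| ∧ |y| * (|t| * |w1|) ≤ 2 * N ∧ |y| * (|t| * |w2|) ≤ 2 * N := by
          by_cases hy1 : y1 = 0
          · refine ⟨y2, ?_, b21, b22⟩
            apply Int.one_le_abs
            intro h; exact hyne ⟨hy1, h⟩
          · exact ⟨y1, Int.one_le_abs hy1, b11, b12⟩
        obtain ⟨y, hy1, hyw1, hyw2⟩ := hy'
        have h7 : |t| * |w1| ≤ 2 * N := by
          have : 0 ≤ |t| * |w1| := by positivity
          calc |t| * |w1| = 1 * (|t| * |w1|) := (one_mul _).symm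
            _ ≤ |y| * (|t| * |w1|) := mul_le_mul_of_nonneg_right hy1 this
            _ ≤ _ := hyw1
        have h8 : |t| * |w2| ≤ 2 * N := by
          have : 0 ≤ |t| * |w2| := by positivity
          calc |t| * |w2| = 1 * (|t| * |w2|) := (one_mul _).symm
            _ ≤ |y| * (|t| * |w2|) := mul_le_mul_of_nonneg_right hy1 this
            _ ≤ _ := hyw2
        unfold sn
        rw [Int.abs_eq_natAbs w1] at h7
        rw [Int.abs_eq_natAbs w2] at h8
        rcases max_choice w1.natAbs w2.natAbs with h | h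
        · rw [h]; exact h7
        · rw [h]; exact h8
      have h9 : t.natAbs ≤ T := by
        rw [hT, Nat.le_div_iff_mul_le hω]
        rw [Int.abs_eq_natAbs] at key
        exact_mod_cast key
      rw [Finset.mem_Icc]
      constructor <;> omega
    · apply M2.ext'
      · simp only; rw [f1, g1]; ring
      · simp only; rw [f3, g2]; ring
      · simp only; rw [f2, g1]; ring
      · simp only; rw [f4, g2]; ring
  have hcard : S.card ≤ 2 * T + 1 := by
    refine (Finset.card_le_card hsub).trans (Finset.card_image_le.trans ?_)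
    rw [Int.card_Icc]; omega
  have hT' : (T:ℝ) ≤ 2 * N / sn w1 w2 := by
    rw [hT]
    have := @Nat.cast_div_le ℝ _ _ _ (2*N) (sn w1 w2)
    push_cast at this
    exact this
  calc (S.card : ℝ) ≤ 2 * T + 1 := by exact_mod_cast hcard
    _ ≤ 2 * (2 * N / sn w1 w2) + 1 := by gcongr
    _ = _ := by ring

lemma inv_sn_sum (N : ℕ) :
    ∑ w ∈ ((Finset.Icc (-(N:ℤ)) N) ×ˢ (Finset.Icc (-(N:ℤ)) N)), (1:ℝ) / sn w.1 w.2 ≤ 12 * N := by
  classical
  have h1 : ∀ w ∈ ((Finset.Icc (-(N:ℤ)) N) ×ˢ (Finset.Icc (-(N:ℤ)) N)), (1:ℝ) / sn w.1 w.2 ≤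
      (if |w.2| ≤ |w.1| then (1:ℝ) / |w.1| else 0) + (if |w.1| ≤ |w.2| then (1:ℝ)/|w.2| else 0) := by
    intro w _
    unfold sn
    rcases le_total w.1.natAbs w.2.natAbs with h | h
    · rw [max_eq_right h]
      have h2 : |w.1| ≤ |w.2| := by rw [Int.abs_eq_natAbs, Int.abs_eq_natAbs]; omega
      rw [if_pos h2]
      have h3 : ((w.2.natAbs : ℕ) : ℝ) = |(w.2:ℝ)| := by
        rw [Nat.cast_natAbs]; push_cast; rfl
      rw [h3]
      have : (0:ℝ) ≤ (if |w.2| ≤ |w.1| then (1:ℝ) / |w.1| else 0) := by split_ifs <;> positivity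
      push_cast at *
      linarith
    · rw [max_eq_left h]
      have h2 : |w.2| ≤ |w.1| := by rw [Int.abs_eq_natAbs, Int.abs_eq_natAbs]; omega
      rw [if_pos h2]
      have h3 : ((w.1.natAbs : ℕ) : ℝ) = |(w.1:ℝ)| := by
        rw [Nat.cast_natAbs]; push_cast; rfl
      rw [h3]
      have : (0:ℝ) ≤ (if |w.1| ≤ |w.2| then (1:ℝ) / |w.2| else 0) := by split_ifs <;> positivity
      push_cast at *
      linarith
  have h2 : ∀ x : ℤ, |x| ≤ N → ∑ y ∈ Finset.Icc (-(N:ℤ)) N, (if |y| ≤ |x| then (1:ℝ) / |(x:ℝ)| else 0) ≤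
      if x = 0 then 0 else 3 := by
    intro x hx
    split_ifs with h0
    · subst h0; simp
    · rw [← Finset.sum_filter, Finset.sum_const, nsmul_eq_mul]
      have h3 : ((Finset.Icc (-(N:ℤ)) N).filter (fun y => |y| ≤ |x|)).card ≤ 2 * x.natAbs + 1 := by
        calc _ ≤ (Finset.Icc (-(x.natAbs:ℤ)) x.natAbs).card := by
              apply Finset.card_le_card
              intro y hy
              rw [Finset.mem_filter, Int.abs_eq_natAbs, Int.abs_eq_natAbs] at hy
              rw [Finset.mem_Icc]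
              constructor <;> omega
          _ = _ := by rw [Int.card_Icc]; omega
      have h4 : (((Finset.Icc (-(N:ℤ)) N).filter (fun y => |y| ≤ |x|)).card : ℝ) ≤ 2 * |(x:ℝ)| + 1 := by
        have h5 : ((x.natAbs : ℕ) : ℝ) = |(x:ℝ)| := by
          rw [Nat.cast_natAbs]; push_cast; rfl
        rw [← h5]; exact_mod_cast h3
      have h6 : (1:ℝ) ≤ |(x:ℝ)| := by exact_mod_cast Int.one_le_abs h0
      calc _ ≤ (2 * |(x:ℝ)| + 1) * (1 / |(x:ℝ)|) := by gcongr
        _ ≤ 3 := by rw [mul_one_div, div_le_iff₀ (by linarith)]; linarith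
  have h3 : ∑ x ∈ Finset.Icc (-(N:ℤ)) N, (if x = 0 then (0:ℝ) else 3) ≤ 6 * N := by
    have : ∑ x ∈ Finset.Icc (-(N:ℤ)) N, (if x = 0 then (0:ℝ) else 3) =
        ∑ x ∈ (Finset.Icc (-(N:ℤ)) N).erase 0, (3:ℝ) := by
      rw [← Finset.sum_erase_add _ _ (by simp : (0:ℤ) ∈ Finset.Icc (-(N:ℤ)) N), if_pos rfl, add_zero]
      apply Finset.sum_congr rfl
      intro x hx
      rw [if_neg (Finset.ne_of_mem_erase hx)]
    rw [this, Finset.sum_const, nsmul_eq_mul, Finset.card_erase_of_mem (by simp), Int.card_Icc]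
    have : ((N:ℤ) + 1 - -(N:ℤ)).toNat - 1 = 2 * N := by omega
    rw [this]; push_cast; linarith
  refine (Finset.sum_le_sum h1).trans ?_
  rw [Finset.sum_add_distrib]
  have h4 : ∑ w ∈ ((Finset.Icc (-(N:ℤ)) N) ×ˢ (Finset.Icc (-(N:ℤ)) N)),
      (if |w.2| ≤ |w.1| then (1:ℝ) / |w.1| else 0) ≤ 6 * N := by
    rw [Finset.sum_product]
    refine le_trans (Finset.sum_le_sum fun x hx => ?_) h3
    rw [Finset.mem_Icc] at hx
    have := h2 x (abs_le.mpr hx)
    push_cast at this ⊢
    exact this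
  have h5 : ∑ w ∈ ((Finset.Icc (-(N:ℤ)) N) ×ˢ (Finset.Icc (-(N:ℤ)) N)),
      (if |w.1| ≤ |w.2| then (1:ℝ) / |w.2| else 0) ≤ 6 * N := by
    rw [Finset.sum_product_right]
    refine le_trans (Finset.sum_le_sum fun x hx => ?_) h3
    rw [Finset.mem_Icc] at hx
    have := h2 x (abs_le.mpr hx)
    push_cast at this ⊢
    exact this
  linarith

lemma card_slb (N : ℕ) : ((slb N).card : ℝ) ≤ 60 * (N:ℝ)^2 := by
  classical
  have h1 : ∀ g ∈ slb N, (g.a, g.b) ∈ ((Finset.Icc (-(N:ℤ)) N) ×ˢ (Finset.Icc (-(N:ℤ)) N)) := by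
    intro g hg
    rw [mem_slb] at hg
    rw [Finset.mem_product, Finset.mem_Icc, Finset.mem_Icc]
    exact ⟨abs_le.mp hg.1.1, abs_le.mp hg.1.2.1⟩
  rw [Finset.card_eq_sum_card_fiberwise (f := fun g : M2 => (g.a, g.b))
    (t := ((Finset.Icc (-(N:ℤ)) N) ×ˢ (Finset.Icc (-(N:ℤ)) N))) h1]
  push_cast
  have h2 : ∀ w ∈ ((Finset.Icc (-(N:ℤ)) N) ×ˢ (Finset.Icc (-(N:ℤ)) N)),
      (((slb N).filter (fun g : M2 => (g.a, g.b) = w)).card : ℝ) ≤ 5 * N * (1 / sn w.1 w.2) := by
    intro w hw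
    rw [Finset.mem_product, Finset.mem_Icc, Finset.mem_Icc] at hw
    have h3 := mult_bound N 1 0 isCoprime_one_left w.1 w.2
    have h4 : (slb N).filter (fun g : M2 => (g.a, g.b) = w) =
        (slb N).filter (fun g => 1 * g.a + 0 * g.c = w.1 ∧ 1 * g.b + 0 * g.d = w.2) := by
      apply Finset.filter_congr
      intro g _
      constructor
      · intro h; rw [← h]; simp
      · intro h
        have h1 := h.1; have h2 := h.2
        simp at h1 h2
        exact Prod.ext h1 h2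
    rw [h4]
    by_cases h0 : w.1 = 0 ∧ w.2 = 0
    · have : (slb N).filter (fun g => 1 * g.a + 0 * g.c = w.1 ∧ 1 * g.b + 0 * g.d = w.2) = ∅ := by
        apply Finset.filter_eq_empty_iff.mpr
        intro g hg
        rw [mem_slb] at hg
        rintro ⟨h5, h6⟩
        rw [h0.1] at h5; rw [h0.2] at h6
        have h7 : g.a = 0 := by linarith
        have h8 : g.b = 0 := by linarith
        have := hg.2
        rw [h7, h8] at this
        simp at this
      rw [this]; simp; positivity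
    · have hω := sn_pos h0
      have hω' : (0:ℝ) < sn w.1 w.2 := by exact_mod_cast hω
      have hωN : ((sn w.1 w.2 : ℕ) : ℝ) ≤ N := by
        have : sn w.1 w.2 ≤ N := sn_le.mpr ⟨abs_le.mpr hw.1, abs_le.mpr hw.2⟩
        exact_mod_cast this
      refine h3.trans ?_
      rw [mul_one_div, ← sub_nonneg]
      have : 5 * (N:ℝ) / sn w.1 w.2 - (4 * N / sn w.1 w.2 + 1) = (N - sn w.1 w.2) / sn w.1 w.2 := by
        field_simp; ring
      rw [this]
      apply div_nonneg _ hω'.le
      linarith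
  refine (Finset.sum_le_sum h2).trans ?_
  rw [← Finset.mul_sum]
  have := inv_sn_sum N
  calc _ ≤ 5 * (N:ℝ) * (12 * N) := by gcongr
    _ = _ := by ring

/-- first column of `g1 * g2 * (a3, c3)` -/
noncomputable def colA (g1 g2 g3 : M2) : ℝ :=
  g1.a * (g2.a * g3.a + g2.b * g3.c) + g1.b * (g2.c * g3.a + g2.d * g3.c)

noncomputable def colC (g1 g2 g3 : M2) : ℝ :=
  g1.c * (g2.a * g3.a + g2.b * g3.c) + g1.d * (g2.c * g3.a + g2.d * g3.c)

lemma pow_u (a u : ℕ) : ((2:ℝ) ^ (a * u)) = ((2:ℝ) ^ u) ^ a := by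
  rw [← pow_mul]; ring_nf

end MDiv
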