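import Mathlib
import Pool.Agent.Hhelper92.Mult.SL2

set_option autoImplicit false

/-!
The family `fy` of unimodular matrices attached to Farey fractions, its size and the number of its
exceptional members.
-/

namespace MDiv

open Finset

lemma card_sep_real (R : Finset ℝ) (x0 l σ : ℝ) (hσ : 0 < σ) (hR : ∀ x ∈ R, x0 ≤ x ∧ x ≤ x0 + l)
    (hl : 0 ≤ l)
    (hsep : ∀ x ∈ R, ∀ y ∈ R, |x - y| < σ → x = y) : (R.card : ℝ) ≤ l / σ + 1 := by
  classical
  have h1 : R.card ≤ (Finset.Icc (0:ℤ) ⌊l / σ⌋).card := by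
    apply Finset.card_le_card_of_injOn (fun x => ⌊(x - x0) / σ⌋)
    · intro x hx
      have h2 := hR x hx
      rw [Finset.mem_coe, Finset.mem_Icc]
      constructor
      · apply Int.floor_nonneg.mpr
        apply div_nonneg _ hσ.le
        linarith [h2.1]
      · apply Int.floor_le_floor
        apply div_le_div_of_nonneg_right _ hσ.le
        linarith [h2.2]
    · intro x hx y hy hxy
      simp only at hxy
      apply hsep x hx y hy
      have h3 := Int.floor_le ((x - x0) / σ)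
      have h4 := Int.lt_floor_add_one ((x - x0) / σ)
      have h5 := Int.floor_le ((y - x0) / σ)
      have h6 := Int.lt_floor_add_one ((y - x0) / σ)
      rw [hxy] at h3 h4
      rw [div_lt_iff₀ hσ] at h4 h6
      rw [le_div_iff₀ hσ] at h3 h5
      rw [abs_lt]
      constructor <;> nlinarith
  rw [Int.card_Icc] at h1
  have h2 : 0 ≤ ⌊l / σ⌋ := Int.floor_nonneg.mpr (by positivity)
  have h3 : ((⌊l/σ⌋ + 1 - 0).toNat : ℝ) = ⌊l/σ⌋ + 1 := by
    have : ((⌊l/σ⌋ + 1 - 0).toNat : ℤ) = ⌊l/σ⌋ + 1 := by omega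
    exact_mod_cast this
  calc (R.card : ℝ) ≤ ((⌊l/σ⌋ + 1 - 0).toNat : ℝ) := by exact_mod_cast h1
    _ = ⌊l/σ⌋ + 1 := h3
    _ ≤ _ := by
      have := Int.floor_le (l/σ)
      linarith

/-- Farey matrices of level `L` with `-b/a ∈ [α, β]`. -/
noncomputable def fy (L K X1 : ℕ) (α β : ℝ) : Finset M2 :=
  (mb (X1 * L + 1)).filter (fun g => g.a * g.d - g.b * g.c = 1 ∧ 1 ≤ g.a ∧ g.a ≤ L ∧
    (L:ℤ) ≤ K * g.a ∧ 0 ≤ g.c ∧ g.c ≤ g.a ∧ α ≤ -(g.b:ℝ) / g.a ∧ -(g.b:ℝ) / g.a ≤ β)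

lemma mem_fy {L K X1 : ℕ} {α β : ℝ} {g : M2} (hX1 : 1 ≤ X1) (hα : -(X1:ℝ) ≤ α) (hβ : β ≤ X1) :
    g ∈ fy L K X1 α β ↔ g.a * g.d - g.b * g.c = 1 ∧ 1 ≤ g.a ∧ g.a ≤ L ∧
    (L:ℤ) ≤ K * g.a ∧ 0 ≤ g.c ∧ g.c ≤ g.a ∧ α ≤ -(g.b:ℝ) / g.a ∧ -(g.b:ℝ) / g.a ≤ β := by
  unfold fy
  rw [Finset.mem_filter]
  constructor
  · intro h; exact h.2
  · intro h
    refine ⟨?_, h⟩
    obtain ⟨hdet, ha1, haL, _, hc0, hca, h1, h2⟩ := h
    have ha' : (0:ℝ) < g.a := by exact_mod_cast ha1
    have hb : |g.b| ≤ X1 * g.a := by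
      have h3 : |(g.b:ℝ)| ≤ X1 * g.a := by
        rw [abs_le]
        have h4 : -(X1:ℝ) ≤ -(g.b:ℝ)/g.a := hα.trans h1
        have h5 : -(g.b:ℝ)/g.a ≤ X1 := h2.trans hβ
        rw [le_div_iff₀ ha'] at h4
        rw [div_le_iff₀ ha'] at h5
        constructor <;> linarith
      exact_mod_cast h3
    have hX1z : (1:ℤ) ≤ X1 := by exact_mod_cast hX1
    have hbL : |g.b| ≤ X1 * L := hb.trans (by gcongr)
    have hL1 : (1:ℤ) ≤ L := by linarith
    have hXL : (L:ℤ) ≤ X1 * L := by nlinarith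
    rw [mem_mb]
    push_cast
    refine ⟨?_, ?_, ?_, ?_⟩
    · rw [abs_of_pos (by linarith)]; linarith
    · linarith
    · rw [abs_of_nonneg hc0]; linarith
    · have h6 : g.a * |g.d| ≤ g.a * (X1 * L + 1) := by
        calc g.a * |g.d| = |g.a * g.d| := by rw [abs_mul, abs_of_pos (by linarith : 0 < g.a)]
          _ = |1 + g.b * g.c| := by congr 1; linarith
          _ ≤ |1| + |g.b * g.c| := abs_add_le _ _
          _ = 1 + |g.b| * g.c := by rw [abs_mul, abs_of_nonneg hc0, abs_one]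
          _ ≤ 1 + (X1 * L) * g.a := by gcongr
          _ ≤ g.a * (X1 * L + 1) := by nlinarith
      exact le_of_mul_le_mul_left h6 (by linarith)

lemma fy_fiber_inj {g g' : M2} (hdet : g.a * g.d - g.b * g.c = 1)
    (hdet' : g'.a * g'.d - g'.b * g'.c = 1) (ha1 : 1 ≤ g.a) (hc0 : 0 ≤ g.c) (hca : g.c ≤ g.a)
    (hc0' : 0 ≤ g'.c) (hca' : g'.c ≤ g'.a) (hea : g.a = g'.a) (heb : g.b = g'.b)
    (hec : (g.c = g.a) ↔ (g'.c = g'.a)) : g = g' := by
  have h1 : g.a ∣ g.b * (g.c - g'.c) := by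
    refine ⟨g.d - g'.d, ?_⟩
    rw [← hea, ← heb] at hdet'
    linear_combination hdet' - hdet
  have hcop : IsCoprime g.a g.b := ⟨g.d, -g.c, by linarith⟩
  have h2 : g.a ∣ g.c - g'.c := hcop.dvd_of_dvd_mul_left h1
  have h3 : g.c = g'.c := by
    obtain ⟨m, hm⟩ := h2
    by_cases h : g.c = g.a
    · have := hec.mp h
      rw [h, this, hea]
    · have h' : ¬ g'.c = g'.a := fun h'' => h (hec.mpr h'')
      have h4 : g.c < g.a := lt_of_le_of_ne hca h
      have h5 : g'.c < g.a := by rw [hea]; exact lt_of_le_of_ne hca' h'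
      have hm0 : m = 0 := by
        have h6 : g.a * m < g.a * 1 := by linarith
        have h7 : g.a * (-1) < g.a * m := by linarith
        have h8 : m < 1 := lt_of_mul_lt_mul_left h6 (by linarith)
        have h9 : -1 < m := lt_of_mul_lt_mul_left h7 (by linarith)
        omega
      rw [hm0] at hm
      linarith
  have h4 : g.d = g'.d := by
    have : g.a * (g.d - g'.d) = 0 := by
      rw [← hea, ← heb, ← h3] at hdet'
      linear_combination hdet - hdet'
    rcases mul_eq_zero.mp this with h | h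
    · omega
    · omega
  exact M2.ext' hea heb h3 h4

/-- the number of Farey matrices close to a given point -/
lemma fy_near (L K X1 : ℕ) (α β : ℝ) (hX1 : 1 ≤ X1) (hα : -(X1:ℝ) ≤ α) (hβ : β ≤ X1) (ξ l : ℝ)
    (hl : 0 ≤ l) :
    (((fy L K X1 α β).filter (fun g => |-(g.b:ℝ)/g.a - ξ| ≤ l)).card : ℝ) ≤
      2 * (2 * l * (L:ℝ)^2 + 1) := by
  classical
  set S := (fy L K X1 α β).filter (fun g => |-(g.b:ℝ)/g.a - ξ| ≤ l) with hS
  rcases S.eq_empty_or_nonempty with hemp | hne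
  · rw [hemp]; simp; positivity
  have hL : 1 ≤ L := by
    obtain ⟨g, hg⟩ := hne
    rw [hS, Finset.mem_filter, mem_fy hX1 hα hβ] at hg
    have h1 := hg.1.2.1
    have h2 := hg.1.2.2.1
    have : (1:ℤ) ≤ L := h1.trans h2
    exact_mod_cast this
  have hL' : (0:ℝ) < L := by exact_mod_cast hL
  set R := S.image (fun g => -(g.b:ℝ)/g.a) with hR
  have hsep : ∀ x ∈ R, ∀ y ∈ R, |x - y| < 1 / (L:ℝ)^2 → x = y := by
    intro x hx y hy hxy
    rw [hR, Finset.mem_image] at hx hy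
    obtain ⟨g, hg, rfl⟩ := hx
    obtain ⟨g', hg', rfl⟩ := hy
    rw [hS, Finset.mem_filter, mem_fy hX1 hα hβ] at hg hg'
    have ha : (0:ℝ) < g.a := by exact_mod_cast hg.1.2.1
    have ha' : (0:ℝ) < g'.a := by exact_mod_cast hg'.1.2.1
    have haL : (g.a:ℝ) ≤ L := by exact_mod_cast hg.1.2.2.1
    have haL' : (g'.a:ℝ) ≤ L := by exact_mod_cast hg'.1.2.2.1
    have h1 : -(g.b:ℝ)/g.a - -(g'.b:ℝ)/g'.a = ((g'.b * g.a - g.b * g'.a : ℤ) : ℝ) / (g.a * g'.a) := by
      push_cast; field_simp; ring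
    by_contra hne'
    have h2 : g'.b * g.a - g.b * g'.a ≠ 0 := by
      intro h3
      rw [h3] at h1
      simp at h1
      apply hne'
      linarith
    have h3 : (1:ℝ) ≤ |((g'.b * g.a - g.b * g'.a : ℤ) : ℝ)| := by
      exact_mod_cast Int.one_le_abs h2
    rw [h1, abs_div, abs_of_pos (by positivity : (0:ℝ) < g.a * g'.a)] at hxy
    have h4 : 1 / (L:ℝ)^2 ≤ |((g'.b * g.a - g.b * g'.a : ℤ) : ℝ)| / (g.a * g'.a) := by
      rw [div_le_div_iff₀ (by positivity) (by positivity)]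
      calc 1 * ((g.a:ℝ) * g'.a) ≤ 1 * ((L:ℝ) * L) := by gcongr
        _ ≤ |((g'.b * g.a - g.b * g'.a : ℤ) : ℝ)| * (L:ℝ)^2 := by
            rw [← sq]; gcongr
    linarith
  have hRc : (R.card : ℝ) ≤ 2 * l * (L:ℝ)^2 + 1 := by
    have h1 := card_sep_real R (ξ - l) (2 * l) (1 / (L:ℝ)^2) (by positivity) (by
      intro x hx
      rw [hR, Finset.mem_image] at hx
      obtain ⟨g, hg, rfl⟩ := hx
      rw [hS, Finset.mem_filter] at hg
      have := abs_le.mp hg.2
      constructor <;> linarith [this.1, this.2]) (by linarith) hsep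
    rw [div_div_eq_mul_div, div_one] at h1
    exact h1
  have hSc : S.card ≤ 2 * R.card := by
    have h1 : S.card ≤ (R ×ˢ (Finset.univ : Finset Bool)).card := by
      apply Finset.card_le_card_of_injOn (fun g : M2 => (-(g.b:ℝ)/g.a, decide (g.c = g.a)))
      · intro g hg
        rw [Finset.mem_coe, Finset.mem_product]
        exact ⟨Finset.mem_image_of_mem _ hg, Finset.mem_univ _⟩
      · intro g hg g' hg' he
        simp only [Prod.mk.injEq, decide_eq_decide] at he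
        rw [Finset.mem_coe, hS, Finset.mem_filter, mem_fy hX1 hα hβ] at hg hg'
        obtain ⟨⟨hdet, ha1, haL, hLK, hc0, hca, h1, h2⟩, _⟩ := hg
        obtain ⟨⟨hdet', ha1', haL', hLK', hc0', hca', h1', h2'⟩, _⟩ := hg'
        have ha : (0:ℝ) < g.a := by exact_mod_cast ha1
        have ha' : (0:ℝ) < g'.a := by exact_mod_cast ha1'
        have h3 : g.b * g'.a = g'.b * g.a := by
          have := he.1
          rw [div_eq_div_iff ha.ne' ha'.ne'] at this
          have h4 : ((g.b * g'.a : ℤ) : ℝ) = ((g'.b * g.a : ℤ) : ℝ) := by push_cast; linarith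
          exact_mod_cast h4
        have hcop : IsCoprime g.a g.b := ⟨g.d, -g.c, by linarith⟩
        have hcop' : IsCoprime g'.a g'.b := ⟨g'.d, -g'.c, by linarith⟩
        have h4 : g.a ∣ g'.a := by
          apply hcop.dvd_of_dvd_mul_left
          exact ⟨g'.b, by linarith⟩
        have h5 : g'.a ∣ g.a := by
          apply hcop'.dvd_of_dvd_mul_left
          exact ⟨g.b, by linarith⟩
        have h6 : g.a = g'.a := Int.dvd_antisymm (by omega) (by omega) h4 h5
        have h7 : g.b = g'.b := by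
          rw [← h6] at h3
          have : g.a * (g.b - g'.b) = 0 := by linear_combination h3
          rcases mul_eq_zero.mp this with h | h <;> omega
        exact fy_fiber_inj hdet hdet' ha1 hc0 hca hc0' hca' h6 h7 he.2
    rw [Finset.card_product] at h1
    simp at h1
    omega
  have : (S.card : ℝ) ≤ 2 * R.card := by exact_mod_cast hSc
  linarith

/-- the size of the Farey family -/
lemma card_fy (L K X1 : ℕ) (α β : ℝ) (hX1 : 1 ≤ X1) (hα : -(X1:ℝ) ≤ α) (hβ : β ≤ X1)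
    (hαβ : α ≤ β) :
    ((fy L K X1 α β).card : ℝ) ≤ 2 * ((β - α) * (L:ℝ)^2 + 1) := by
  classical
  have h1 := fy_near L K X1 α β hX1 hα hβ ((α + β)/2) ((β - α)/2) (by linarith)
  have h2 : (fy L K X1 α β).filter (fun g => |-(g.b:ℝ)/g.a - (α + β)/2| ≤ (β - α)/2) = fy L K X1 α β := by
    apply Finset.filter_true_of_mem
    intro g hg
    rw [mem_fy hX1 hα hβ] at hg
    obtain ⟨_, _, _, _, _, _, h1, h2⟩ := hg
    rw [abs_le]; constructor <;> linarith
  rw [h2] at h1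
  calc _ ≤ _ := h1
    _ = _ := by ring

end MDiv
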