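import Mathlib

set_option autoImplicit false

/-!
Basic facts on the additive character `e t = exp (2 π i t)` and the distance `nd t` to the nearest
integer.
-/

namespace MDiv

open Finset

noncomputable def e (t : ℝ) : ℂ := Complex.exp (2 * Real.pi * t * Complex.I)

noncomputable def nd (t : ℝ) : ℝ := |t - round t|

lemma e_zero : e 0 = 1 := by simp [e]

lemma e_add (s t : ℝ) : e (s + t) = e s * e t := by
  unfold e
  rw [← Complex.exp_add]; congr 1; push_cast; ring

lemma e_neg (t : ℝ) : e (-t) = (starRingEnd ℂ) (e t) := by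
  unfold e
  rw [← Complex.exp_conj]
  congr 1
  have h1 : (2 * (Real.pi : ℂ) * (t : ℂ) * Complex.I) = ((2 * Real.pi * t : ℝ) : ℂ) * Complex.I := by
    push_cast; ring
  rw [h1, map_mul, Complex.conj_ofReal, Complex.conj_I]
  push_cast; ring

lemma norm_e (t : ℝ) : ‖e t‖ = 1 := by
  unfold e
  have : (2 * (Real.pi : ℂ) * (t : ℂ) * Complex.I) = ((2 * Real.pi * t : ℝ) : ℂ) * Complex.I := by
    push_cast; ring
  rw [this, Complex.norm_exp_ofReal_mul_I]

lemma e_int (k : ℤ) : e k = 1 := by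
  unfold e
  have : (2 * (Real.pi : ℂ) * ((k : ℝ) : ℂ) * Complex.I) = (k : ℂ) * (2 * Real.pi * Complex.I) := by
    push_cast; ring
  rw [this, Complex.exp_int_mul_two_pi_mul_I]

lemma e_sum {ι : Type*} (s : Finset ι) (f : ι → ℝ) : e (∑ i ∈ s, f i) = ∏ i ∈ s, e (f i) := by
  classical
  induction s using Finset.induction_on with
  | empty => simp [e_zero]
  | insert a s ha ih => rw [Finset.sum_insert ha, Finset.prod_insert ha, e_add, ih]

lemma e_nat_mul (j : ℕ) (t : ℝ) : e (j * t) = (e t) ^ j := by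
  unfold e
  rw [← Complex.exp_nat_mul]; congr 1; push_cast; ring

lemma e_sub (s t : ℝ) : e (s - t) = e s * (starRingEnd ℂ) (e t) := by
  rw [sub_eq_add_neg, e_add, e_neg]

lemma nd_nonneg (t : ℝ) : 0 ≤ nd t := abs_nonneg _

lemma nd_le_half (t : ℝ) : nd t ≤ 1 / 2 := abs_sub_round t

lemma nd_le (t : ℝ) (k : ℤ) : nd t ≤ |t - k| := round_le t k

lemma nd_le_abs (t : ℝ) : nd t ≤ |t| := by simpa using nd_le t 0

lemma nd_add_le (s t : ℝ) : nd (s + t) ≤ nd s + nd t := by
  calc nd (s + t) ≤ |s + t - ((round s + round t : ℤ) : ℝ)| := nd_le _ _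
    _ = |(s - round s) + (t - round t)| := by push_cast; ring_nf
    _ ≤ _ := abs_add_le _ _

lemma nd_neg (t : ℝ) : nd (-t) = nd t := by
  apply le_antisymm
  · calc nd (-t) ≤ |-t - ((-round t : ℤ) : ℝ)| := nd_le _ _
      _ = |t - round t| := by rw [← abs_neg]; push_cast; ring_nf
  · calc nd t ≤ |t - ((-round (-t) : ℤ) : ℝ)| := nd_le _ _
      _ = |-t - round (-t)| := by rw [← abs_neg]; push_cast; ring_nf

lemma nd_sub_le (s t : ℝ) : nd (s - t) ≤ nd s + nd t := by
  rw [sub_eq_add_neg, ← nd_neg t]; exact nd_add_le _ _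

lemma nd_add_int (t : ℝ) (k : ℤ) : nd (t + k) = nd t := by
  unfold nd
  rw [round_add_intCast]; push_cast; congr 1; ring

lemma nd_sub_int (t : ℝ) (k : ℤ) : nd (t - k) = nd t := by
  have := nd_add_int t (-k)
  push_cast at this
  rw [← sub_eq_add_neg] at this
  exact this

lemma nd_int_add (t : ℝ) (k : ℤ) : nd (k + t) = nd t := by rw [add_comm, nd_add_int]

lemma nd_le_of_abs_sub_le (s t : ℝ) : nd s ≤ nd t + |s - t| := by
  have h1 : nd (t + (s - t)) ≤ nd t + nd (s - t) := nd_add_le _ _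
  have h2 : nd (s - t) ≤ |s - t| := nd_le_abs _
  have h3 : t + (s - t) = s := by ring
  rw [h3] at h1
  linarith

lemma e_sub_int (t : ℝ) (k : ℤ) : e (t - k) = e t := by
  have := e_add t (-k : ℝ)
  have h2 : e (-k : ℝ) = 1 := by
    have := e_int (-k); push_cast at this; exact this
  rw [h2, mul_one] at this
  rw [← this]; congr 1

lemma norm_e_sub_one (t : ℝ) : ‖e t - 1‖ = 2 * |Real.sin (Real.pi * t)| := by
  have h1 : e t = e (t/2) * e (t/2) := by rw [← e_add]; congr 1; ring
  have h2 : (1:ℂ) = e (t/2) * e (-(t/2)) := by rw [← e_add]; simp [e_zero]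
  have h3 : e t - 1 = e (t/2) * (e (t/2) - e (-(t/2))) := by
    rw [h1]; conv_lhs => rw [h2]
    ring
  have h4 : e (t/2) - e (-(t/2)) = 2 * Complex.sin (Real.pi * t) * Complex.I := by
    unfold e
    rw [Complex.sin]
    have : (2 * (Real.pi:ℂ) * ((t/2 : ℝ) : ℂ) * Complex.I) = (Real.pi:ℂ) * t * Complex.I := by
      push_cast; ring
    rw [this]
    have : (2 * (Real.pi:ℂ) * ((-(t/2) : ℝ) : ℂ) * Complex.I) = -(Real.pi:ℂ) * t * Complex.I := by
      push_cast; ring
    rw [this]
    have hI : Complex.I * Complex.I = -1 := Complex.I_mul_I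
    have : -(Real.pi:ℂ) * t * Complex.I = -((Real.pi:ℂ) * t) * Complex.I := by ring
    rw [this]
    linear_combination (-(Complex.exp (-(↑Real.pi * ↑t) * Complex.I)) + Complex.exp (↑Real.pi * ↑t * Complex.I)) * hI
  rw [h3, norm_mul, norm_e, one_mul, h4]
  rw [norm_mul, norm_mul, Complex.norm_I, mul_one]
  have : Complex.sin (Real.pi * t) = ((Real.sin (Real.pi * t) : ℝ) : ℂ) := by push_cast; rfl
  rw [this, Complex.norm_real]
  simp

lemma abs_sin_pi_ge (t : ℝ) : 2 * nd t ≤ |Real.sin (Real.pi * t)| := by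
  set r := t - round t with hr
  have h1 : |r| ≤ 1/2 := abs_sub_round t
  have h2 : |Real.sin (Real.pi * t)| = |Real.sin (Real.pi * r)| := by
    have : Real.pi * r = Real.pi * t - (round t : ℤ) * Real.pi := by rw [hr]; ring
    rw [this, Real.sin_sub_int_mul_pi, abs_mul]
    simp [abs_zpow]
  have h3 : |Real.sin (Real.pi * r)| = Real.sin (Real.pi * |r|) := by
    rcases le_total 0 r with h | h
    · rw [abs_of_nonneg h]
      apply abs_of_nonneg
      apply Real.sin_nonneg_of_nonneg_of_le_pi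
      · positivity
      · rw [abs_of_nonneg h] at h1
        nlinarith [Real.pi_pos]
    · rw [abs_of_nonpos h]
      have : Real.sin (Real.pi * r) = - Real.sin (Real.pi * -r) := by
        rw [mul_neg, Real.sin_neg, neg_neg]
      rw [this, abs_neg]
      apply abs_of_nonneg
      apply Real.sin_nonneg_of_nonneg_of_le_pi
      · have : 0 ≤ -r := by linarith
        positivity
      · rw [abs_of_nonpos h] at h1
        nlinarith [Real.pi_pos]
  rw [h2, h3]
  have h4 : 2 / Real.pi * (Real.pi * |r|) ≤ Real.sin (Real.pi * |r|) := by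
    apply Real.mul_le_sin
    · positivity
    · nlinarith [Real.pi_pos]
  have h5 : 2 / Real.pi * (Real.pi * |r|) = 2 * |r| := by
    field_simp
  rw [h5] at h4
  exact h4

/-- the Dirichlet kernel -/
noncomputable def dk (M : ℕ) (t : ℝ) : ℂ := ∑ j ∈ range M, e (j * t)

lemma norm_dk_le (M : ℕ) (t : ℝ) : ‖dk M t‖ ≤ M := by
  unfold dk
  calc _ ≤ ∑ j ∈ range M, ‖e (j * t)‖ := norm_sum_le _ _
    _ = M := by simp [norm_e]

lemma norm_dk_le_inv (M : ℕ) (t : ℝ) (ht : 0 < nd t) : ‖dk M t‖ ≤ 1 / (2 * nd t) := by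
  have h0 : e t ≠ 1 := by
    intro h
    have h1 := norm_e_sub_one t
    rw [h] at h1
    simp at h1
    have h2 := abs_sin_pi_ge t
    rw [h1] at h2
    simp at h2
    linarith
  have h1 : dk M t = ((e t) ^ M - 1) / (e t - 1) := by
    unfold dk
    rw [← geom_sum_eq h0]
    apply Finset.sum_congr rfl
    intro j _
    exact e_nat_mul j t
  rw [h1, norm_div]
  have h2 : ‖(e t)^M - 1‖ ≤ 2 := by
    calc _ ≤ ‖(e t)^M‖ + ‖(1:ℂ)‖ := norm_sub_le _ _
      _ = 2 := by rw [norm_pow, norm_e]; norm_num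
  have h3 : 4 * nd t ≤ ‖e t - 1‖ := by
    rw [norm_e_sub_one]
    have := abs_sin_pi_ge t
    linarith
  calc ‖e t ^ M - 1‖ / ‖e t - 1‖ ≤ 2 / (4 * nd t) := by
        apply div_le_div₀ (by norm_num) h2 (by positivity) h3
    _ = _ := by field_simp; norm_num

lemma dk_periodic (M : ℕ) (t : ℝ) (k : ℤ) : dk M (t - k) = dk M t := by
  unfold dk
  apply Finset.sum_congr rfl
  intro j _
  have : (j:ℝ) * (t - k) = j * t - ((j * k : ℤ) : ℝ) := by push_cast; ring
  rw [this, e_sub_int]

lemma norm_dk_ge (M : ℕ) (t : ℝ) (ht : nd t ≤ 1 / (6 * M)) : (M:ℝ) / 2 ≤ ‖dk M t‖ := by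
  rcases Nat.eq_zero_or_pos M with h0 | hM
  · subst h0; simp
  have hM' : (0:ℝ) < M := by exact_mod_cast hM
  rw [← dk_periodic M t (round t)]
  set r := t - round t with hr
  have hr1 : |r| ≤ 1/(6*M) := ht
  calc (M:ℝ)/2 = ∑ j ∈ range M, (1/2 : ℝ) := by simp; ring
    _ ≤ ∑ j ∈ range M, (e (j * r)).re := by
        apply Finset.sum_le_sum
        intro j hj
        have hj' : (j:ℝ) ≤ M := by exact_mod_cast (Finset.mem_range.mp hj).le
        have h1 : (e (j*r)).re = Real.cos (2 * Real.pi * (j * r)) := by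
          unfold e
          have : (2 * (Real.pi : ℂ) * ((j * r : ℝ) : ℂ) * Complex.I) = ((2 * Real.pi * (j*r) : ℝ) : ℂ) * Complex.I := by
            push_cast; ring
          rw [this, Complex.exp_ofReal_mul_I_re]
        rw [h1, ← Real.cos_abs]
        have h2 : |2 * Real.pi * (j * r)| ≤ Real.pi / 3 := by
          rw [abs_mul, abs_mul (j:ℝ) r, abs_of_pos (by positivity : (0:ℝ) < 2 * Real.pi), abs_of_nonneg (by positivity : (0:ℝ) ≤ j)]
          have : (j:ℝ) * |r| ≤ 1/6 := by
            calc (j:ℝ) * |r| ≤ M * (1/(6*M)) := by gcongr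
              _ = 1/6 := by field_simp
          nlinarith [Real.pi_pos]
        calc (1/2 : ℝ) = Real.cos (Real.pi/3) := by rw [Real.cos_pi_div_three]
          _ ≤ _ := by
            apply Real.cos_le_cos_of_nonneg_of_le_pi (abs_nonneg _) _ h2
            linarith [Real.pi_pos]
    _ = (dk M r).re := by unfold dk; rw [Complex.re_sum]
    _ ≤ ‖dk M r‖ := Complex.re_le_norm _

end MDiv
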