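import Mathlib
import Pool.Agent.Hhelper92.Mult.Basic

set_option autoImplicit false

/-!
Counting points of a finite family near a given point of the torus by exponential sums, and a
multidimensional large sieve type inequality.
-/

namespace MDiv

open Finset

/-- integer version of the box `[0, M)^ι` -/
noncomputable def box (ι : Type*) [Fintype ι] [DecidableEq ι] (M : ℕ) : Finset (ι → ℤ) :=
  Fintype.piFinset (fun _ => Finset.Ico (0:ℤ) M)

/-- the symmetric box `[-N, N]^ι` -/
noncomputable def sbox (ι : Type*) [Fintype ι] [DecidableEq ι] (N : ℕ) : Finset (ι → ℤ) :=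
  Fintype.piFinset (fun _ => Finset.Icc (-(N:ℤ)) N)

lemma dk_eq_int (M : ℕ) (t : ℝ) : dk M t = ∑ j ∈ Finset.Ico (0:ℤ) M, e ((j:ℝ) * t) := by
  unfold dk
  apply Finset.sum_nbij (fun j : ℕ => (j:ℤ))
  · intro a ha
    simp only [Finset.mem_range] at ha
    simp only [Finset.mem_Ico]
    constructor
    · positivity
    · exact_mod_cast ha
  · intro a _ b _ hab
    simpa using hab
  · intro b hb
    simp only [Finset.coe_Ico, Set.mem_Ico] at hb
    refine ⟨b.toNat, ?_, ?_⟩
    · simp only [Finset.coe_range, Set.mem_Iio]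
      omega
    · simp only
      omega
  · intro a _
    simp

variable {ι : Type*} [Fintype ι] [DecidableEq ι]

lemma card_box (M : ℕ) : (box ι M).card = M ^ (Fintype.card ι) := by
  unfold box
  rw [Fintype.card_piFinset]
  simp [Finset.prod_const, Finset.card_univ]

lemma prod_dk (M : ℕ) (v : ι → ℝ) :
    ∏ i, dk M (v i) = ∑ j ∈ box ι M, e (∑ i, (j i : ℝ) * v i) := by
  simp only [dk_eq_int]
  rw [Finset.prod_univ_sum]
  unfold box
  apply Finset.sum_congr rfl
  intro j _
  rw [e_sum]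

lemma norm_sq_sum_eq {J : Type*} (S : Finset J) (a : J → ℂ) :
    (((‖∑ j ∈ S, a j‖ ^ 2 : ℝ)) : ℂ) = ∑ j ∈ S, ∑ j' ∈ S, a j * (starRingEnd ℂ) (a j') := by
  rw [← Finset.sum_mul_sum, ← map_sum]
  rw [Complex.mul_conj, Complex.normSq_eq_norm_sq]

omit [DecidableEq ι] in
lemma e_sum_sub (j j' : ι → ℤ) (v : ι → ℝ) :
    e (∑ i, (j i : ℝ) * v i) * (starRingEnd ℂ) (e (∑ i, (j' i : ℝ) * v i)) =
      e (∑ i, ((j i - j' i : ℤ) : ℝ) * v i) := by
  rw [← e_sub, ← Finset.sum_sub_distrib]
  congr 1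
  apply Finset.sum_congr rfl
  intro i _
  push_cast; ring

lemma sum_sq_le {Γ : Type*} (S : Finset Γ) (z : Γ → ι → ℝ) (ζ : ι → ℝ) (M : ℕ) :
    ∑ γ ∈ S, ‖∏ i, dk M (z γ i - ζ i)‖ ^ 2 ≤
      ∑ j ∈ box ι M, ∑ j' ∈ box ι M, ‖∑ γ ∈ S, e (∑ i, ((j i - j' i : ℤ) : ℝ) * z γ i)‖ := by
  have h1 : ((∑ γ ∈ S, ‖∏ i, dk M (z γ i - ζ i)‖ ^ 2 : ℝ) : ℂ) =
      ∑ j ∈ box ι M, ∑ j' ∈ box ι M, e (-(∑ i, ((j i - j' i : ℤ) : ℝ) * ζ i)) *
        ∑ γ ∈ S, e (∑ i, ((j i - j' i : ℤ) : ℝ) * z γ i) := by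
    rw [Complex.ofReal_sum]
    have h2 : ∀ γ ∈ S, (((‖∏ i, dk M (z γ i - ζ i)‖ ^ 2 : ℝ)) : ℂ) =
        ∑ j ∈ box ι M, ∑ j' ∈ box ι M, e (∑ i, ((j i - j' i : ℤ) : ℝ) * (z γ i - ζ i)) := by
      intro γ _
      rw [prod_dk, norm_sq_sum_eq]
      apply Finset.sum_congr rfl; intro j _
      apply Finset.sum_congr rfl; intro j' _
      exact e_sum_sub j j' _
    rw [Finset.sum_congr rfl h2, Finset.sum_comm]
    apply Finset.sum_congr rfl; intro j _
    rw [Finset.sum_comm]
    apply Finset.sum_congr rfl; intro j' _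
    rw [Finset.mul_sum]
    apply Finset.sum_congr rfl; intro γ _
    rw [← e_add]
    congr 1
    rw [neg_add_eq_sub, ← Finset.sum_sub_distrib]
    apply Finset.sum_congr rfl; intro i _
    ring
  have h3 : ∑ γ ∈ S, ‖∏ i, dk M (z γ i - ζ i)‖ ^ 2 =
      ‖((∑ γ ∈ S, ‖∏ i, dk M (z γ i - ζ i)‖ ^ 2 : ℝ) : ℂ)‖ := by
    rw [Complex.norm_real, Real.norm_of_nonneg]
    positivity
  rw [h3, h1]
  refine (norm_sum_le _ _).trans (Finset.sum_le_sum fun j _ => ?_)
  refine (norm_sum_le _ _).trans (Finset.sum_le_sum fun j' _ => ?_)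
  rw [norm_mul, norm_e, one_mul]

/-- Counting points close to `ζ` modulo one by exponential sums. -/
theorem count_le_of_expsum {Γ : Type*} (S : Finset Γ) (z : Γ → ι → ℝ) (ζ : ι → ℝ) (M : ℕ)
    (hM : 0 < M) (W : ℝ) (hW0 : 0 ≤ W)
    (hW : ∀ h : ι → ℤ, h ≠ 0 → (∀ i, |h i| < M) → ‖∑ γ ∈ S, e (∑ i, (h i : ℝ) * z γ i)‖ ≤ W) :
    ((S.filter (fun γ => ∀ i, nd (z γ i - ζ i) ≤ 1 / (6 * M))).card : ℝ) ≤
      4 ^ (Fintype.card ι) * (S.card / (M:ℝ) ^ (Fintype.card ι) + W) := by
  classical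
  set D := Fintype.card ι with hD
  have hM' : (0:ℝ) < M := by exact_mod_cast hM
  have h1 : ((S.filter (fun γ => ∀ i, nd (z γ i - ζ i) ≤ 1 / (6 * M))).card : ℝ) ≤
      ∑ γ ∈ S, (4 / (M:ℝ)^2) ^ D * ‖∏ i, dk M (z γ i - ζ i)‖ ^ 2 := by
    rw [Finset.card_filter]
    push_cast
    apply Finset.sum_le_sum
    intro γ _
    split_ifs with h
    · rw [norm_prod, ← Finset.prod_pow]
      have : (4 / (M:ℝ)^2) ^ D = ∏ _i : ι, (4 / (M:ℝ)^2) := by
        rw [Finset.prod_const, Finset.card_univ]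
      rw [this, ← Finset.prod_mul_distrib]
      calc (1:ℝ) = ∏ _i : ι, (1:ℝ) := by simp
        _ ≤ _ := by
          apply Finset.prod_le_prod
          · intro i _; norm_num
          · intro i _
            have h2 := norm_dk_ge M _ (h i)
            have h3 : ((M:ℝ)/2)^2 ≤ ‖dk M (z γ i - ζ i)‖^2 := by
              apply pow_le_pow_left₀ (by positivity) h2
            calc (1:ℝ) = 4 / (M:ℝ)^2 * ((M:ℝ)/2)^2 := by field_simp; norm_num
              _ ≤ _ := by gcongr
    · positivity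
  rw [← Finset.mul_sum] at h1
  have h2 := sum_sq_le S z ζ M
  have h3 : ∑ j ∈ box ι M, ∑ j' ∈ box ι M, ‖∑ γ ∈ S, e (∑ i, ((j i - j' i : ℤ) : ℝ) * z γ i)‖ ≤
      (M:ℝ)^D * S.card + (M:ℝ)^D * (M:ℝ)^D * W := by
    have h4 : ∀ j ∈ box ι M, ∑ j' ∈ box ι M, ‖∑ γ ∈ S, e (∑ i, ((j i - j' i : ℤ) : ℝ) * z γ i)‖ ≤
        S.card + (M:ℝ)^D * W := by
      intro j hj
      rw [← Finset.add_sum_erase _ _ hj]
      apply add_le_add
      · simp [e_zero]
      · calc _ ≤ ∑ j' ∈ (box ι M).erase j, W := by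
              apply Finset.sum_le_sum
              intro j' hj'
              rw [Finset.mem_erase] at hj'
              apply hW (fun i => j i - j' i)
              · intro h0
                apply hj'.1
                funext i
                have := congrFun h0 i
                simp at this
                omega
              · intro i
                unfold box at hj hj'
                rw [Fintype.mem_piFinset] at hj
                have h5 := hj i
                have h6 := (Fintype.mem_piFinset.mp hj'.2) i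
                rw [Finset.mem_Ico] at h5 h6
                rw [abs_lt]
                constructor <;> omega
          _ = ((box ι M).erase j).card * W := by rw [Finset.sum_const, nsmul_eq_mul]
          _ ≤ (M:ℝ)^D * W := by
              apply mul_le_mul_of_nonneg_right _ hW0
              have : ((box ι M).erase j).card ≤ (box ι M).card := Finset.card_erase_le
              rw [card_box] at this
              exact_mod_cast this
    calc _ ≤ ∑ j ∈ box ι M, (S.card + (M:ℝ)^D * W) := Finset.sum_le_sum h4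
      _ = _ := by
        rw [Finset.sum_const, nsmul_eq_mul, card_box]
        push_cast; ring
  calc _ ≤ (4 / (M:ℝ)^2) ^ D * ((M:ℝ)^D * S.card + (M:ℝ)^D * (M:ℝ)^D * W) := by
        refine h1.trans ?_
        gcongr
        exact h2.trans h3
    _ = _ := by
        rw [div_pow, ← pow_mul, mul_comm 2 D, pow_mul]
        have : (M:ℝ)^D ≠ 0 := by positivity
        field_simp

/-- pointwise bound for the square of the Dirichlet kernel -/
noncomputable def acoef (N c : ℕ) : ℝ :=
  if c = 0 then 16 * (N:ℝ)^2 else (N:ℝ)^2 / (c:ℝ)^2 + (N:ℝ)^2 / ((N:ℝ) - c)^2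

lemma acoef_nonneg (N c : ℕ) : 0 ≤ acoef N c := by
  unfold acoef; split_ifs <;> positivity

lemma sum_inv_sq_le' (m : ℕ) : ∑ c ∈ Finset.Icc 1 (m+1), (1:ℝ) / (c:ℝ)^2 ≤ 2 - 1 / (m + 1) := by
  induction m with
  | zero => norm_num
  | succ m ih =>
    rw [Finset.sum_Icc_succ_top (by omega)]
    have h1 : (1:ℝ) / ((m+1+1:ℕ):ℝ)^2 ≤ 1 / (m+1) - 1/(m+1+1) := by
      push_cast
      rw [div_sub_div _ _ (by positivity) (by positivity), div_le_div_iff₀ (by positivity) (by positivity)]
      have : (0:ℝ) ≤ m := by positivity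
      nlinarith [sq_nonneg (m:ℝ), mul_nonneg this this]
    push_cast at *
    linarith

lemma sum_inv_sq_le (m : ℕ) : ∑ c ∈ Finset.Icc 1 m, (1:ℝ) / (c:ℝ)^2 ≤ 2 := by
  rcases m with _ | m
  · simp
  · have := sum_inv_sq_le' m
    have h : (0:ℝ) ≤ 1 / (m+1) := by positivity
    linarith

lemma sum_acoef_le (N : ℕ) : ∑ c ∈ range N, acoef N c ≤ 20 * (N:ℝ)^2 := by
  rcases Nat.eq_zero_or_pos N with h0 | hN
  · subst h0; simp
  obtain ⟨m, rfl⟩ : ∃ m, N = m + 1 := ⟨N - 1, by omega⟩
  rw [Finset.sum_range_succ']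
  have h1 : acoef (m+1) 0 = 16 * ((m+1:ℕ):ℝ)^2 := by simp [acoef]
  rw [h1]
  have h2 : ∑ c ∈ range m, acoef (m+1) (c+1) =
      ((m+1:ℕ):ℝ)^2 * ∑ c ∈ range m, (1:ℝ)/((c+1:ℕ):ℝ)^2 +
      ((m+1:ℕ):ℝ)^2 * ∑ c ∈ range m, (1:ℝ)/(((m+1:ℕ):ℝ) - ((c+1:ℕ):ℝ))^2 := by
    rw [Finset.mul_sum, Finset.mul_sum, ← Finset.sum_add_distrib]
    apply Finset.sum_congr rfl
    intro c _
    unfold acoef
    rw [if_neg (by omega)]
    ring
  have h3 : ∑ c ∈ range m, (1:ℝ)/((c+1:ℕ):ℝ)^2 ≤ 2 := by
    have := sum_inv_sq_le m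
    have h4 : ∑ c ∈ Finset.Icc 1 m, (1:ℝ) / (c:ℝ)^2 = ∑ c ∈ range m, (1:ℝ)/((c+1:ℕ):ℝ)^2 := by
      rw [← Finset.sum_image (f := fun c : ℕ => (1:ℝ)/(c:ℝ)^2) (s := range m) (g := fun c => c + 1)]
      · congr 1
        ext c
        simp only [Finset.mem_Icc, Finset.mem_image, Finset.mem_range]
        constructor
        · rintro ⟨h, h'⟩; exact ⟨c - 1, by omega, by omega⟩
        · rintro ⟨a, ha, rfl⟩; omega
      · intro a _ b _ hab
        simp at hab; exact hab
    rw [← h4]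
    exact this
  have h5 : ∑ c ∈ range m, (1:ℝ)/(((m+1:ℕ):ℝ) - ((c+1:ℕ):ℝ))^2 = ∑ c ∈ range m, (1:ℝ)/((c+1:ℕ):ℝ)^2 := by
    rw [← Finset.sum_range_reflect]
    apply Finset.sum_congr rfl
    intro c hc
    rw [Finset.mem_range] at hc
    have : ((m - 1 - c + 1 : ℕ) : ℝ) = (m:ℝ) - c := by
      have : m - 1 - c + 1 = m - c := by omega
      rw [this, Nat.cast_sub hc.le]
    rw [this]
    push_cast
    congr 2
    ring
  rw [h2, h5]
  have h6 : (0:ℝ) ≤ ((m+1:ℕ):ℝ)^2 := by positivity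
  nlinarith

lemma exists_cell (N : ℕ) (hN : 0 < N) (t : ℝ) :
    ∃ c ∈ range N, nd (t - c / N) ≤ 1 / (2 * N) := by
  have hN' : (0:ℝ) < N := by exact_mod_cast hN
  set r := round ((N:ℝ) * t) with hr
  refine ⟨(r % N).toNat, ?_, ?_⟩
  · rw [Finset.mem_range]
    have h1 := Int.emod_nonneg r (b := (N:ℤ)) (by omega)
    have h2 := Int.emod_lt_of_pos r (b := (N:ℤ)) (by omega)
    omega
  · have h1 : (((r % N).toNat : ℕ) : ℝ) = ((r % N : ℤ) : ℝ) := by
      have := Int.toNat_of_nonneg (Int.emod_nonneg r (b := (N:ℤ)) (by omega))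
      exact_mod_cast this
    rw [h1]
    have h2 : ((r % N : ℤ) : ℝ) = r - N * ((r / N : ℤ) : ℝ) := by
      have := Int.emod_add_mul_ediv r N
      have h3 : r % N = r - N * (r / N) := by linarith
      rw [h3]; push_cast; ring
    rw [h2]
    have h3 : |(N:ℝ) * t - r| ≤ 1/2 := abs_sub_round _
    calc nd (t - (r - N * ((r / N : ℤ) : ℝ)) / N) ≤ |t - (r - N * ((r / N : ℤ) : ℝ)) / N - ((r / N : ℤ) : ℝ)| := nd_le _ _
      _ = |(N * t - r) / N| := by congr 1; field_simp; ring
      _ = |N * t - r| / N := by rw [abs_div, abs_of_pos hN']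
      _ ≤ (1/2) / N := by gcongr
      _ = _ := by field_simp

lemma dk_sq_le (N : ℕ) (hN : 0 < N) (t : ℝ) :
    ‖dk (4 * N) t‖ ^ 2 ≤ ∑ c ∈ range N, acoef N c * (if nd (t - c / N) ≤ 1 / N then 1 else 0) := by
  have hN' : (0:ℝ) < N := by exact_mod_cast hN
  obtain ⟨c, hc, hcell⟩ := exists_cell N hN t
  have h1 : ‖dk (4 * N) t‖ ^ 2 ≤ acoef N c := by
    unfold acoef
    split_ifs with h0
    · have := norm_dk_le (4*N) t
      push_cast at this
      calc _ ≤ (4 * (N:ℝ))^2 := pow_le_pow_left₀ (norm_nonneg _) this 2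
        _ = _ := by ring
    · have hcN : c < N := Finset.mem_range.mp hc
      have hc1 : (1:ℝ) ≤ c := by exact_mod_cast (by omega : 1 ≤ c)
      have hc2 : (1:ℝ) ≤ N - c := by
        have : (c:ℝ) + 1 ≤ N := by exact_mod_cast hcN
        linarith
      -- nd (c/N) ≥ min
      have h2 : min (c:ℝ) (N - c) / N ≤ nd ((c:ℝ)/N) := by
        unfold nd
        set k := round ((c:ℝ)/N)
        have h3 : min (c:ℝ) (N-c) ≤ |(c:ℝ) - N * k| := by
          rcases le_or_gt k 0 with hk | hk
          · have : (k:ℝ) ≤ 0 := by exact_mod_cast hk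
            calc _ ≤ (c:ℝ) := min_le_left _ _
              _ ≤ (c:ℝ) - N * k := by nlinarith
              _ ≤ _ := le_abs_self _
          · have : (1:ℝ) ≤ k := by exact_mod_cast hk
            calc _ ≤ (N:ℝ) - c := min_le_right _ _
              _ ≤ -((c:ℝ) - N * k) := by nlinarith
              _ ≤ _ := neg_le_abs _
        calc _ ≤ |(c:ℝ) - N * k| / N := by gcongr
          _ = |((c:ℝ) - N * k) / N| := by rw [abs_div, abs_of_pos hN']
          _ = _ := by congr 1; field_simp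
      set m := min (c:ℝ) (N - c) with hm
      have hm1 : 1 ≤ m := le_min hc1 hc2
      have h4 : nd ((c:ℝ)/N) ≤ nd t + nd (t - c/N) := by
        have := nd_sub_le t (t - c/N)
        have h5 : t - (t - c/N) = (c:ℝ)/N := by ring
        rw [h5] at this
        exact this
      have h5 : m / (2 * N) ≤ nd t := by
        have h6 : m / N - 1 / (2 * N) ≤ nd t := by linarith
        have h7 : m / (2 * N) ≤ m / N - 1 / (2 * N) := by
          rw [le_sub_iff_add_le, ← add_div, div_le_div_iff₀ (by positivity) hN']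
          nlinarith
        linarith
      have h6 : 0 < nd t := lt_of_lt_of_le (by positivity) h5
      have h7 := norm_dk_le_inv (4*N) t h6
      have h8 : ‖dk (4*N) t‖ ≤ N / m := by
        calc _ ≤ 1 / (2 * nd t) := h7
          _ ≤ 1 / (2 * (m / (2*N))) := by gcongr
          _ = N / m := by field_simp
      calc _ ≤ ((N:ℝ)/m)^2 := pow_le_pow_left₀ (norm_nonneg _) h8 2
        _ = (N:ℝ)^2/m^2 := by rw [div_pow]
        _ ≤ _ := by
          rcases min_choice (c:ℝ) (N-c) with h | h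
          · rw [hm, h]
            have : 0 ≤ (N:ℝ)^2 / ((N:ℝ) - c)^2 := by positivity
            linarith
          · rw [hm, h]
            have : 0 ≤ (N:ℝ)^2 / (c:ℝ)^2 := by positivity
            linarith
  calc _ ≤ acoef N c := h1
    _ = acoef N c * (if nd (t - c / N) ≤ 1 / N then 1 else 0) := by
        rw [if_pos, mul_one]
        refine hcell.trans ?_
        rw [div_le_div_iff₀ (by positivity) hN']
        linarith
    _ ≤ _ := by
        apply Finset.single_le_sum (f := fun c : ℕ => acoef N c * (if nd (t - c / N) ≤ 1 / N then 1 else 0)) _ hc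
        intro i _
        have := acoef_nonneg N i
        positivity

lemma sum_diff_ge (N : ℕ) (g : (ι → ℤ) → ℝ) (hg : ∀ x, 0 ≤ g x) :
    (2 * (N:ℝ)) ^ (Fintype.card ι) * ∑ X ∈ sbox ι N, g X ≤
      ∑ j ∈ box ι (4 * N), ∑ j' ∈ box ι (4 * N), g (fun i => j' i - j i) := by
  classical
  -- inner box `[N, 3N)^ι`
  set B : Finset (ι → ℤ) := Fintype.piFinset (fun _ => Finset.Ico (N:ℤ) (3*N)) with hB
  have hBsub : B ⊆ box ι (4*N) := by
    intro j hj
    rw [hB, Fintype.mem_piFinset] at hj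
    unfold box
    rw [Fintype.mem_piFinset]
    intro i
    have := hj i
    rw [Finset.mem_Ico] at this ⊢
    push_cast
    constructor <;> omega
  have hBcard : (B.card : ℝ) = (2 * (N:ℝ)) ^ (Fintype.card ι) := by
    rw [hB, Fintype.card_piFinset]
    simp only [Int.card_Ico, Finset.prod_const, Finset.card_univ]
    have : (3 * (N:ℤ) - N).toNat = 2 * N := by omega
    rw [this]; push_cast; ring
  calc _ = ∑ j ∈ B, ∑ X ∈ sbox ι N, g X := by
        rw [Finset.sum_const, nsmul_eq_mul, hBcard]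
    _ ≤ ∑ j ∈ B, ∑ j' ∈ box ι (4 * N), g (fun i => j' i - j i) := by
        apply Finset.sum_le_sum
        intro j hj
        have h1 : ∑ X ∈ sbox ι N, g X =
            ∑ j' ∈ (sbox ι N).image (fun X i => X i + j i), g (fun i => j' i - j i) := by
          rw [Finset.sum_image]
          · apply Finset.sum_congr rfl
            intro X _
            congr 1
            funext i; ring
          · intro a _ b _ hab
            funext i
            have := congrFun hab i
            simp at this; exact this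
        rw [h1]
        apply Finset.sum_le_sum_of_subset_of_nonneg
        · intro j' hj'
          rw [Finset.mem_image] at hj'
          obtain ⟨X, hX, rfl⟩ := hj'
          unfold sbox at hX
          unfold box
          rw [Fintype.mem_piFinset] at hX ⊢
          rw [hB, Fintype.mem_piFinset] at hj
          intro i
          have h2 := hX i
          have h3 := hj i
          rw [Finset.mem_Icc] at h2
          rw [Finset.mem_Ico] at h3 ⊢
          push_cast
          constructor <;> omega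
        · intro i _ _; exact hg _
    _ ≤ _ := by
        apply Finset.sum_le_sum_of_subset_of_nonneg hBsub
        intro i _ _
        exact Finset.sum_nonneg fun _ _ => hg _

/-- A large sieve type inequality. -/
theorem large_sieve {K : Type*} (S : Finset K) (w : K → ι → ℝ) (N : ℕ) (hN : 0 < N) (R : ℝ)
    (hR : ∀ ζ : ι → ℝ, (((S ×ˢ S).filter
      (fun kl => ∀ i, nd (w kl.1 i - w kl.2 i - ζ i) ≤ 1 / N)).card : ℝ) ≤ R) :
    ∑ X ∈ sbox ι N, ‖∑ k ∈ S, e (∑ i, (X i : ℝ) * w k i)‖ ^ 2 ≤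
      (10 * (N:ℝ)) ^ (Fintype.card ι) * R := by
  classical
  set D := Fintype.card ι with hD
  have hN' : (0:ℝ) < N := by exact_mod_cast hN
  have h1 := sum_diff_ge (ι := ι) N (fun X => ‖∑ k ∈ S, e (∑ i, (X i : ℝ) * w k i)‖ ^ 2)
    (fun _ => by positivity)
  have h2 : ∑ j ∈ box ι (4 * N), ∑ j' ∈ box ι (4 * N),
      ‖∑ k ∈ S, e (∑ i, ((j' i - j i : ℤ) : ℝ) * w k i)‖ ^ 2 =
      ∑ kl ∈ S ×ˢ S, ∏ i, ‖dk (4*N) (w kl.1 i - w kl.2 i)‖ ^ 2 := by
    have hC : ((∑ j ∈ box ι (4 * N), ∑ j' ∈ box ι (4 * N),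
      ‖∑ k ∈ S, e (∑ i, ((j' i - j i : ℤ) : ℝ) * w k i)‖ ^ 2 : ℝ) : ℂ) =
      ((∑ kl ∈ S ×ˢ S, ∏ i, ‖dk (4*N) (w kl.1 i - w kl.2 i)‖ ^ 2 : ℝ) : ℂ) := by
      rw [Finset.sum_product]
      simp only [Complex.ofReal_sum]
      have hL : ∀ j ∈ box ι (4*N), ∀ j' ∈ box ι (4*N),
          ((‖∑ k ∈ S, e (∑ i, ((j' i - j i : ℤ) : ℝ) * w k i)‖ ^ 2 : ℝ) : ℂ) =
          ∑ k ∈ S, ∑ l ∈ S, e (∑ i, ((j' i - j i : ℤ) : ℝ) * (w k i - w l i)) := by
        intro j _ j' _
        rw [norm_sq_sum_eq]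
        apply Finset.sum_congr rfl; intro k _
        apply Finset.sum_congr rfl; intro l _
        rw [← e_sub, ← Finset.sum_sub_distrib]
        congr 1
        apply Finset.sum_congr rfl; intro i _
        ring
      have hRr : ∀ k ∈ S, ∀ l ∈ S,
          ((∏ i, ‖dk (4*N) (w k i - w l i)‖ ^ 2 : ℝ) : ℂ) =
          ∑ j ∈ box ι (4*N), ∑ j' ∈ box ι (4*N), e (∑ i, ((j' i - j i : ℤ) : ℝ) * (w k i - w l i)) := by
        intro k _ l _
        rw [Finset.prod_pow, ← norm_prod, prod_dk, norm_sq_sum_eq, Finset.sum_comm]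
        apply Finset.sum_congr rfl; intro j _
        apply Finset.sum_congr rfl; intro j' _
        exact e_sum_sub j' j _
      have hL' : ∀ j ∈ box ι (4*N),
          ∑ j' ∈ box ι (4*N), ((‖∑ k ∈ S, e (∑ i, ((j' i - j i : ℤ) : ℝ) * w k i)‖ ^ 2 : ℝ) : ℂ) =
          ∑ k ∈ S, ∑ l ∈ S, ∑ j' ∈ box ι (4*N), e (∑ i, ((j' i - j i : ℤ) : ℝ) * (w k i - w l i)) := by
        intro j hj
        rw [Finset.sum_congr rfl (hL j hj), Finset.sum_comm]
        apply Finset.sum_congr rfl; intro k _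
        rw [Finset.sum_comm]
      rw [Finset.sum_congr rfl hL', Finset.sum_comm]
      apply Finset.sum_congr rfl; intro k hk
      rw [Finset.sum_comm]
      apply Finset.sum_congr rfl; intro l hl
      rw [hRr k hk l hl]
    exact_mod_cast hC
  rw [h2] at h1
  have h3 : ∑ kl ∈ S ×ˢ S, ∏ i, ‖dk (4*N) (w kl.1 i - w kl.2 i)‖ ^ 2 ≤
      (20 * (N:ℝ)^2)^D * R := by
    have hR0 : 0 ≤ R := le_trans (by positivity) (hR 0)
    calc _ ≤ ∑ kl ∈ S ×ˢ S, ∏ i, ∑ c ∈ range N, acoef N c *
          (if nd (w kl.1 i - w kl.2 i - c / N) ≤ 1 / N then 1 else 0) := by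
          apply Finset.sum_le_sum
          intro kl _
          apply Finset.prod_le_prod
          · intro i _; positivity
          · intro i _; exact dk_sq_le N hN _
      _ = ∑ kl ∈ S ×ˢ S, ∑ c ∈ Fintype.piFinset (fun _ : ι => range N), ∏ i, (acoef N (c i) *
          (if nd (w kl.1 i - w kl.2 i - (c i : ℕ) / N) ≤ 1 / N then 1 else 0)) := by
          apply Finset.sum_congr rfl
          intro kl _
          rw [Finset.prod_univ_sum]
      _ = ∑ c ∈ Fintype.piFinset (fun _ : ι => range N), (∏ i, acoef N (c i)) *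
          ∑ kl ∈ S ×ˢ S, (if ∀ i, nd (w kl.1 i - w kl.2 i - (c i : ℕ) / N) ≤ 1 / N then (1:ℝ) else 0) := by
          rw [Finset.sum_comm]
          apply Finset.sum_congr rfl
          intro c _
          rw [Finset.mul_sum]
          apply Finset.sum_congr rfl
          intro kl _
          rw [Finset.prod_mul_distrib]
          congr 1
          rw [Finset.prod_ite_zero]
          simp
      _ ≤ ∑ c ∈ Fintype.piFinset (fun _ : ι => range N), (∏ i, acoef N (c i)) * R := by
          apply Finset.sum_le_sum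
          intro c _
          apply mul_le_mul_of_nonneg_left _ (Finset.prod_nonneg fun i _ => acoef_nonneg _ _)
          have := hR (fun i => (c i : ℕ) / N)
          rw [Finset.card_filter] at this
          push_cast at this
          exact this
      _ = (∏ _i : ι, ∑ c ∈ range N, acoef N c) * R := by
          rw [← Finset.sum_mul, ← Finset.prod_univ_sum]
      _ = (∑ c ∈ range N, acoef N c)^D * R := by
          rw [Finset.prod_const, Finset.card_univ]
      _ ≤ _ := by
          gcongr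
          · exact Finset.sum_nonneg fun c _ => acoef_nonneg N c
          · exact sum_acoef_le N
  have h4 := h1.trans h3
  have h5 : (20 * (N:ℝ)^2)^D = (2 * (N:ℝ))^D * (10 * (N:ℝ))^D := by
    rw [← mul_pow]; congr 1; ring
  rw [h5, mul_assoc] at h4
  exact le_of_mul_le_mul_left h4 (by positivity)

end MDiv
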