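import Mathlib
import Pool.Agent.Hhelper92.Mult.Fejer

set_option autoImplicit false

/-!
Polynomials `ev h x = ∑ h_i x^(i+2)` with integer coefficients: elementary estimates and a Weyl
type estimate for `∑ e (N * ev h (j / N))`.
-/

namespace MDiv

open Finset

noncomputable def ev {k : ℕ} (h : Fin k → ℤ) (x : ℝ) : ℝ := ∑ i, (h i : ℝ) * x ^ ((i:ℕ) + 2)

noncomputable def ev' {k : ℕ} (h : Fin k → ℤ) (x : ℝ) : ℝ :=
  ∑ i, (h i : ℝ) * (((i:ℕ) + 2 : ℕ) : ℝ) * x ^ ((i:ℕ) + 1)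

/-- a common constant -/
noncomputable def K0 (k : ℕ) (X0 : ℝ) : ℝ := ((k:ℝ) + 2) ^ 3 * X0 ^ (k + 2)

variable {k : ℕ}

lemma ev_add (g h : Fin k → ℤ) (x : ℝ) : ev (g + h) x = ev g x + ev h x := by
  unfold ev
  rw [← Finset.sum_add_distrib]
  apply Finset.sum_congr rfl
  intro i _
  simp; ring

lemma ev_smul (m : ℤ) (h : Fin k → ℤ) (x : ℝ) : ev (m • h) x = m * ev h x := by
  unfold ev
  rw [Finset.mul_sum]
  apply Finset.sum_congr rfl
  intro i _
  simp; ring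

lemma K0_pos (k : ℕ) (X0 : ℝ) (hX : 1 ≤ X0) : 1 ≤ K0 k X0 := by
  unfold K0
  have h1 : (1:ℝ) ≤ ((k:ℝ)+2)^3 := by
    apply one_le_pow₀
    have : (0:ℝ) ≤ k := by positivity
    linarith
  have h2 : (1:ℝ) ≤ X0 ^ (k+2) := one_le_pow₀ hX
  nlinarith

lemma pow_le_aux {x X0 : ℝ} (hX : 1 ≤ X0) (hx : |x| ≤ X0) {m n : ℕ} (hmn : m ≤ n) :
    |x| ^ m ≤ X0 ^ n :=
  (pow_le_pow_left₀ (abs_nonneg x) hx m).trans (pow_le_pow_right₀ hX hmn)

lemma pow_sub_pow_abs_le {x y X0 : ℝ} (hX : 1 ≤ X0) (hx : |x| ≤ X0) (hy : |y| ≤ X0) (m : ℕ) :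
    |y ^ m - x ^ m| ≤ m * X0 ^ m * |y - x| := by
  induction m with
  | zero => simp
  | succ m ih =>
    have h1 : y ^ (m+1) - x ^ (m+1) = y * (y^m - x^m) + x^m * (y - x) := by ring
    rw [h1]
    calc |y * (y^m - x^m) + x^m * (y - x)| ≤ |y * (y^m - x^m)| + |x^m * (y-x)| := abs_add_le _ _
      _ = |y| * |y^m - x^m| + |x|^m * |y-x| := by rw [abs_mul, abs_mul, abs_pow]
      _ ≤ X0 * (m * X0^m * |y-x|) + X0^(m+1) * |y-x| := by
          gcongr
          exact pow_le_aux hX hx (Nat.le_succ m)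
      _ = _ := by push_cast; ring

lemma taylor_pow {x y X0 : ℝ} (hX : 1 ≤ X0) (hx : |x| ≤ X0) (hy : |y| ≤ X0) (m : ℕ) :
    |y ^ (m+1) - x ^ (m+1) - (m+1:ℕ) * x ^ m * (y - x)| ≤ ((m+1:ℕ):ℝ)^2 * X0 ^ (m+1) * |y - x|^2 := by
  induction m with
  | zero =>
    simp
    positivity
  | succ m ih =>
    have h1 : y ^ (m+1+1) - x ^ (m+1+1) - ((m+1+1:ℕ):ℝ) * x ^ (m+1) * (y - x) =
        y * (y ^ (m+1) - x ^ (m+1) - (m+1:ℕ) * x ^ m * (y - x)) + (m+1:ℕ) * x^m * (y-x)^2 := by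
      push_cast; ring
    rw [h1]
    calc _ ≤ |y * (y ^ (m+1) - x ^ (m+1) - (m+1:ℕ) * x ^ m * (y - x))| + |(m+1:ℕ) * x^m * (y-x)^2| := abs_add_le _ _
      _ = |y| * |y ^ (m+1) - x ^ (m+1) - (m+1:ℕ) * x ^ m * (y - x)| + (m+1:ℕ) * |x|^m * |y-x|^2 := by
          rw [abs_mul, abs_mul, abs_mul, abs_pow, abs_pow, Nat.abs_cast]
      _ ≤ X0 * (((m+1:ℕ):ℝ)^2 * X0 ^ (m+1) * |y - x|^2) + (m+1:ℕ) * X0^(m+1+1) * |y-x|^2 := by
          gcongr
          exact pow_le_aux hX hx (by omega)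
      _ = (((m+1:ℕ):ℝ)^2 + (m+1:ℕ)) * X0^(m+1+1) * |y-x|^2 := by ring
      _ ≤ _ := by
          gcongr
          push_cast
          have : (0:ℝ) ≤ m := by positivity
          nlinarith

lemma sum_fin_le {k : ℕ} (f : Fin k → ℝ) (B : ℝ) (hf : ∀ i, |f i| ≤ B) : |∑ i, f i| ≤ k * B := by
  calc |∑ i, f i| ≤ ∑ i, |f i| := Finset.abs_sum_le_sum_abs _ _
    _ ≤ ∑ _i : Fin k, B := Finset.sum_le_sum fun i _ => hf i
    _ = _ := by simp

lemma fin_cast_le (i : Fin k) (j : ℕ) : (((i:ℕ) + j : ℕ) : ℝ) ≤ (k:ℝ) + j := by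
  have : (i:ℕ) + j ≤ k + j := by omega
  exact_mod_cast this

lemma ev_sub_le {h : Fin k → ℤ} {V X0 x y : ℝ} (hV0 : 0 ≤ V) (hV : ∀ i, |(h i : ℝ)| ≤ V)
    (hX : 1 ≤ X0) (hx : |x| ≤ X0) (hy : |y| ≤ X0) :
    |ev h y - ev h x| ≤ K0 k X0 * V * |y - x| := by
  unfold ev
  rw [← Finset.sum_sub_distrib]
  calc _ ≤ k * (V * (((k:ℝ)+2) * X0^(k+2) * |y-x|)) := by
        apply sum_fin_le
        intro i
        rw [← mul_sub, abs_mul]
        apply mul_le_mul (hV i) _ (abs_nonneg _) hV0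
        calc _ ≤ (((i:ℕ)+2:ℕ):ℝ) * X0 ^ ((i:ℕ)+2) * |y-x| := pow_sub_pow_abs_le hX hx hy _
          _ ≤ _ := by
            have h1 := fin_cast_le i 2
            have h2 : X0 ^ ((i:ℕ)+2) ≤ X0 ^ (k+2) := pow_le_pow_right₀ hX (by omega)
            push_cast at h1 ⊢
            gcongr
    _ ≤ _ := by
        unfold K0
        have h1 : (k:ℝ) * ((k:ℝ)+2) ≤ ((k:ℝ)+2)^3 := by
          have : (0:ℝ) ≤ k := by positivity
          nlinarith [sq_nonneg ((k:ℝ)+2), mul_nonneg this this]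
        have h2 : 0 ≤ X0^(k+2) * V * |y-x| := by positivity
        calc (k:ℝ) * (V * (((k:ℝ)+2) * X0^(k+2) * |y-x|)) = ((k:ℝ) * ((k:ℝ)+2)) * (X0^(k+2) * V * |y-x|) := by ring
          _ ≤ ((k:ℝ)+2)^3 * (X0^(k+2) * V * |y-x|) := by gcongr
          _ = _ := by ring

lemma ev_abs_le {h : Fin k → ℤ} {V X0 x : ℝ} (hV0 : 0 ≤ V) (hV : ∀ i, |(h i : ℝ)| ≤ V)
    (hX : 1 ≤ X0) (hx : |x| ≤ X0) : |ev h x| ≤ K0 k X0 * V := by
  unfold ev
  calc _ ≤ k * (V * X0^(k+2)) := by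
        apply sum_fin_le
        intro i
        rw [abs_mul, abs_pow]
        apply mul_le_mul (hV i) (pow_le_aux hX hx (by omega)) (by positivity) hV0
    _ ≤ _ := by
        unfold K0
        have h1 : (k:ℝ) ≤ ((k:ℝ)+2)^3 := by
          have : (0:ℝ) ≤ k := by positivity
          nlinarith [sq_nonneg ((k:ℝ)+2), mul_nonneg this this]
        calc (k:ℝ) * (V * X0^(k+2)) = k * (X0^(k+2) * V) := by ring
          _ ≤ ((k:ℝ)+2)^3 * (X0^(k+2) * V) := by gcongr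
          _ = _ := by ring

lemma ev'_abs_le {h : Fin k → ℤ} {V X0 x : ℝ} (hV0 : 0 ≤ V) (hV : ∀ i, |(h i : ℝ)| ≤ V)
    (hX : 1 ≤ X0) (hx : |x| ≤ X0) : |ev' h x| ≤ K0 k X0 * V := by
  unfold ev'
  calc _ ≤ k * (V * ((k:ℝ)+2) * X0^(k+2)) := by
        apply sum_fin_le
        intro i
        rw [abs_mul, abs_mul, abs_pow, Nat.abs_cast]
        have h1 := fin_cast_le i 2
        apply mul_le_mul _ (pow_le_aux hX hx (by omega)) (by positivity) (by positivity)
        apply mul_le_mul (hV i) _ (by positivity) hV0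
        push_cast at h1 ⊢; exact h1
    _ ≤ _ := by
        unfold K0
        have h1 : (k:ℝ) * ((k:ℝ)+2) ≤ ((k:ℝ)+2)^3 := by
          have : (0:ℝ) ≤ k := by positivity
          nlinarith [sq_nonneg ((k:ℝ)+2), mul_nonneg this this]
        calc (k:ℝ) * (V * ((k:ℝ)+2) * X0^(k+2)) = (k * ((k:ℝ)+2)) * (X0^(k+2) * V) := by ring
          _ ≤ ((k:ℝ)+2)^3 * (X0^(k+2) * V) := by gcongr
          _ = _ := by ring

lemma ev_taylor {h : Fin k → ℤ} {V X0 x y : ℝ} (hV0 : 0 ≤ V) (hV : ∀ i, |(h i : ℝ)| ≤ V)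
    (hX : 1 ≤ X0) (hx : |x| ≤ X0) (hy : |y| ≤ X0) :
    |ev h y - ev h x - ev' h x * (y - x)| ≤ K0 k X0 * V * |y - x|^2 := by
  unfold ev ev'
  rw [← Finset.sum_sub_distrib, Finset.sum_mul, ← Finset.sum_sub_distrib]
  calc _ ≤ k * (V * (((k:ℝ)+2)^2 * X0^(k+2) * |y-x|^2)) := by
        apply sum_fin_le
        intro i
        have h0 : (h i : ℝ) * y ^ ((i:ℕ)+2) - (h i : ℝ) * x ^ ((i:ℕ)+2) -
            (h i : ℝ) * (((i:ℕ)+2:ℕ):ℝ) * x ^ ((i:ℕ)+1) * (y - x) =
            (h i : ℝ) * (y ^ ((i:ℕ)+1+1) - x ^ ((i:ℕ)+1+1) - (((i:ℕ)+1+1:ℕ):ℝ) * x ^ ((i:ℕ)+1) * (y - x)) := by ring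
        rw [h0, abs_mul]
        apply mul_le_mul (hV i) _ (abs_nonneg _) hV0
        refine (taylor_pow hX hx hy ((i:ℕ)+1)).trans ?_
        have h1 := fin_cast_le i 2
        have h2 : X0 ^ ((i:ℕ)+1+1) ≤ X0 ^ (k+2) := pow_le_pow_right₀ hX (by omega)
        have h3 : (((i:ℕ)+1+1:ℕ):ℝ) ≤ (k:ℝ) + 2 := by push_cast at h1 ⊢; linarith
        gcongr
    _ ≤ _ := by
        unfold K0
        have h1 : (k:ℝ) * ((k:ℝ)+2)^2 ≤ ((k:ℝ)+2)^3 := by
          have : (0:ℝ) ≤ k := by positivity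
          nlinarith [sq_nonneg ((k:ℝ)+2), mul_nonneg this this]
        calc (k:ℝ) * (V * (((k:ℝ)+2)^2 * X0^(k+2) * |y-x|^2)) = ((k:ℝ) * ((k:ℝ)+2)^2) * (X0^(k+2) * V * |y-x|^2) := by ring
          _ ≤ ((k:ℝ)+2)^3 * (X0^(k+2) * V * |y-x|^2) := by gcongr
          _ = _ := by ring

lemma norm_prod_multiset (s : Multiset ℂ) (x : ℂ) :
    ‖(s.map (fun a => x - a)).prod‖ = (s.map (fun a => ‖x - a‖)).prod := by
  induction s using Multiset.induction_on with
  | empty => simp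
  | cons a s ih => rw [Multiset.map_cons, Multiset.map_cons, Multiset.prod_cons, Multiset.prod_cons, norm_mul, ih]

lemma prod_multiset_ge (s : Multiset ℂ) (x : ℂ) (τ : ℝ) (hτ : 0 < τ) (h : ∀ a ∈ s, τ ≤ ‖x - a‖) :
    τ ^ s.card ≤ (s.map (fun a => ‖x - a‖)).prod := by
  induction s using Multiset.induction_on with
  | empty => simp
  | cons a s ih =>
    rw [Multiset.card_cons, Multiset.map_cons, Multiset.prod_cons, pow_succ, mul_comm]
    apply mul_le_mul
    · exact h a (Multiset.mem_cons_self a s)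
    · exact ih (fun b hb => h b (Multiset.mem_cons_of_mem hb))
    · positivity
    · positivity

/-- the roots of `ev' h x = u` -/
lemma sublevel (h : Fin k → ℤ) (hh : h ≠ 0) (u : ℤ) :
    ∃ Z : Finset ℝ, Z.card ≤ k ∧ ∀ τ : ℝ, 0 < τ → τ ≤ 1 → ∀ x : ℝ, |ev' h x - u| < τ ^ k →
      ∃ z ∈ Z, |x - z| < τ := by
  classical
  open Polynomial in
  set p : ℤ[X] := (∑ i : Fin k, C (h i * ((i:ℕ)+2 : ℕ)) * X ^ ((i:ℕ)+1)) - C u with hp
  have hcoef : ∀ i : Fin k, p.coeff ((i:ℕ)+1) = h i * ((i:ℕ)+2 : ℕ) := by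
    intro i
    rw [hp, Polynomial.coeff_sub, Polynomial.finsetSum_coeff, Polynomial.coeff_C, if_neg (by omega), sub_zero]
    rw [Finset.sum_eq_single i]
    · rw [Polynomial.coeff_C_mul, Polynomial.coeff_X_pow, if_pos rfl, mul_one]
    · intro j _ hj
      rw [Polynomial.coeff_C_mul, Polynomial.coeff_X_pow, if_neg, mul_zero]
      intro h'
      apply hj
      ext
      omega
    · simp
  obtain ⟨i0, hi0⟩ : ∃ i, h i ≠ 0 := by
    by_contra hcon
    push Not at hcon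
    exact hh (funext hcon)
  have hp0 : p ≠ 0 := by
    intro h0
    have := hcoef i0
    rw [h0, Polynomial.coeff_zero] at this
    have h2 : (((i0:ℕ)+2 : ℕ) : ℤ) ≠ 0 := by positivity
    rcases mul_eq_zero.mp this.symm with h3 | h3
    · exact hi0 h3
    · exact h2 h3
  have hdeg : p.natDegree ≤ k := by
    rw [hp]
    apply (Polynomial.natDegree_sub_le _ _).trans
    apply max_le
    · apply Polynomial.natDegree_sum_le_of_forall_le
      intro i _
      refine (Polynomial.natDegree_C_mul_X_pow_le _ _).trans ?_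
      omega
    · simp
  set q : Polynomial ℂ := p.map (Int.castRingHom ℂ) with hq
  have hinj : Function.Injective (Int.castRingHom ℂ) := by
    intro a b hab
    simpa using hab
  have hq0 : q ≠ 0 := by
    rw [hq]
    exact (Polynomial.map_ne_zero_iff hinj).mpr hp0
  have hqdeg : q.natDegree ≤ k := (Polynomial.natDegree_map_le).trans hdeg
  have hlead : 1 ≤ ‖q.leadingCoeff‖ := by
    rw [hq, Polynomial.leadingCoeff_map_of_injective hinj]
    have h1 : p.leadingCoeff ≠ 0 := Polynomial.leadingCoeff_ne_zero.mpr hp0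
    have h2 : (1:ℤ) ≤ |p.leadingCoeff| := Int.one_le_abs h1
    simp only [eq_intCast]
    rw [Complex.norm_intCast]
    exact_mod_cast h2
  refine ⟨(q.roots.map (fun z => z.re)).toFinset, ?_, ?_⟩
  · calc _ ≤ (q.roots.map (fun z => z.re)).card := Multiset.toFinset_card_le _
      _ = q.roots.card := Multiset.card_map _ _
      _ ≤ q.natDegree := Polynomial.card_roots' q
      _ ≤ k := hqdeg
  · intro τ hτ hτ1 x hx
    by_contra hcon
    push Not at hcon
    have hev : q.eval (x:ℂ) = ((ev' h x - u : ℝ) : ℂ) := by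
      rw [hq, hp]
      simp only [Polynomial.map_sub, Polynomial.map_sum, Polynomial.map_mul, Polynomial.map_C, Polynomial.map_pow, Polynomial.map_X, Polynomial.eval_sub, Polynomial.eval_finsetSum, Polynomial.eval_mul, Polynomial.eval_C, Polynomial.eval_pow, Polynomial.eval_X]
      unfold ev'
      push_cast
      simp
    have hsplit : q = Polynomial.C q.leadingCoeff * (q.roots.map (fun a => Polynomial.X - Polynomial.C a)).prod := by
      exact (IsAlgClosed.splits q).eq_prod_roots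
    have hnorm : ‖q.eval (x:ℂ)‖ = ‖q.leadingCoeff‖ * (q.roots.map (fun a => ‖(x:ℂ) - a‖)).prod := by
      conv_lhs => rw [hsplit]
      rw [Polynomial.eval_mul, Polynomial.eval_C, norm_mul, Polynomial.eval_multiset_prod, Multiset.map_map]
      congr 1
      rw [← norm_prod_multiset]
      congr 2
      apply Multiset.map_congr rfl
      intro a _
      simp
    have hprod : τ ^ (q.roots.card) ≤ (q.roots.map (fun a => ‖(x:ℂ) - a‖)).prod := by
      have : ∀ a ∈ q.roots, τ ≤ ‖(x:ℂ) - a‖ := by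
        intro a ha
        have h1 := hcon a.re (by
          rw [Multiset.mem_toFinset, Multiset.mem_map]
          exact ⟨a, ha, rfl⟩)
        refine h1.trans ?_
        have := Complex.abs_re_le_norm ((x:ℂ) - a)
        simpa using this
      exact prod_multiset_ge _ _ τ hτ this
    have h3 : τ ^ k ≤ ‖q.eval (x:ℂ)‖ := by
      rw [hnorm]
      calc τ ^ k ≤ τ ^ (q.roots.card) := by
            apply pow_le_pow_of_le_one hτ.le hτ1
            exact (Polynomial.card_roots' q).trans hqdeg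
        _ ≤ 1 * (q.roots.map (fun a => ‖(x:ℂ) - a‖)).prod := by rw [one_mul]; exact hprod
        _ ≤ _ := by
            apply mul_le_mul_of_nonneg_right hlead
            exact le_trans (by positivity) hprod
    rw [hev, Complex.norm_real, Real.norm_eq_abs] at h3
    linarith

end MDiv
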