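import Mathlib
import Pool.Agent.Hhelper92.Mult.Poly

set_option autoImplicit false

/-!
A Weyl type estimate for `∑ e (N * ev h (j / N))`.
-/

namespace MDiv

open Finset

lemma card_near_ap (S : Finset ℕ) (α β z τ : ℝ) (hβ : 0 < β) (hτ : 0 ≤ τ)
    (hS : ∀ i ∈ S, |α + i * β - z| < τ) : (S.card : ℝ) ≤ 2 * τ / β + 1 := by
  rcases S.eq_empty_or_nonempty with h | h
  · subst h; simp; positivity
  · set m := S.min' h
    set M := S.max' h
    have hm : m ∈ S := S.min'_mem h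
    have hM : M ∈ S := S.max'_mem h
    have hmM : m ≤ M := S.min'_le _ hM
    have h1 : S ⊆ Finset.Icc m M := by
      intro i hi
      rw [Finset.mem_Icc]
      exact ⟨S.min'_le _ hi, S.le_max' _ hi⟩
    have h2 : S.card ≤ M + 1 - m := by
      have := Finset.card_le_card h1
      rwa [Nat.card_Icc] at this
    have h3 : (S.card : ℝ) ≤ (M:ℝ) - m + 1 := by
      have h4 : S.card + m ≤ M + 1 := by omega
      have : (S.card : ℝ) + m ≤ M + 1 := by exact_mod_cast h4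
      linarith
    have h4 := abs_lt.mp (hS m hm)
    have h5 := abs_lt.mp (hS M hM)
    have h6 : ((M:ℝ) - m) * β ≤ 2 * τ := by nlinarith [h4.1, h4.2, h5.1, h5.2]
    have h7 : (M:ℝ) - m ≤ 2 * τ / β := by rwa [le_div_iff₀ hβ]
    linarith

lemma norm_e_sub_e (s t : ℝ) : ‖e s - e t‖ ≤ 2 * Real.pi * |s - t| := by
  have h1 : e s - e t = e t * (e (s - t) - 1) := by
    rw [mul_sub, ← e_add]; congr 1
    · congr 1; ring
    · ring
  rw [h1, norm_mul, norm_e, one_mul, norm_e_sub_one]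
  have h2 : |Real.sin (Real.pi * (s-t))| ≤ |Real.pi * (s - t)| := Real.abs_sin_le_abs
  rw [abs_mul, abs_of_pos Real.pi_pos] at h2
  linarith

variable {k : ℕ}

lemma block_bound {h : Fin k → ℤ} {V X0 : ℝ} (hV1 : 1 ≤ V) (hV : ∀ i, |(h i : ℝ)| ≤ V)
    (hX : 1 ≤ X0) (N B : ℕ) (hN : 0 < N) (hB : B ^ 3 ≤ N) (j0 : ℤ)
    (hj : ∀ l : ℕ, l ≤ B → |((j0:ℝ) + l) / N| ≤ X0) :
    ‖∑ l ∈ range B, e (N * ev h (((j0:ℝ) + l) / N))‖ ≤
      ‖dk B (ev' h ((j0:ℝ) / N))‖ + 7 * K0 k X0 * V := by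
  have hN' : (0:ℝ) < N := by exact_mod_cast hN
  have hK := K0_pos k X0 hX
  have hV0 : 0 ≤ V := by linarith
  have hj0 : |((j0:ℝ)) / N| ≤ X0 := by simpa using hj 0 (Nat.zero_le _)
  have h1 : ∑ l ∈ range B, e (N * ev h (((j0:ℝ) + l) / N)) =
      e (N * ev h ((j0:ℝ) / N)) * dk B (ev' h ((j0:ℝ) / N)) +
      ∑ l ∈ range B, (e (N * ev h (((j0:ℝ) + l) / N)) -
        e (N * ev h ((j0:ℝ) / N) + l * ev' h ((j0:ℝ) / N))) := by
    unfold dk
    rw [Finset.mul_sum, ← Finset.sum_add_distrib]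
    apply Finset.sum_congr rfl
    intro l _
    rw [e_add]; ring
  rw [h1]
  refine (norm_add_le _ _).trans ?_
  rw [norm_mul, norm_e, one_mul]
  apply add_le_add le_rfl
  have h2 : ∀ l ∈ range B, ‖(e (N * ev h (((j0:ℝ) + l) / N)) -
        e (N * ev h ((j0:ℝ) / N) + l * ev' h ((j0:ℝ) / N)))‖ ≤ 7 * (K0 k X0 * V * (B:ℝ)^2 / N) := by
    intro l hl
    rw [Finset.mem_range] at hl
    refine (norm_e_sub_e _ _).trans ?_
    have h3 := ev_taylor hV0 hV hX hj0 (hj l hl.le)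
    have h4 : ((j0:ℝ) + l) / N - (j0:ℝ)/N = l / N := by ring
    rw [h4] at h3
    have h5 : (N * ev h (((j0:ℝ) + l) / N)) - (N * ev h ((j0:ℝ) / N) + l * ev' h ((j0:ℝ) / N)) =
        N * (ev h (((j0:ℝ) + l) / N) - ev h ((j0:ℝ) / N) - ev' h ((j0:ℝ) / N) * (l / N)) := by
      field_simp
      ring
    rw [h5, abs_mul, abs_of_pos hN']
    have hl' : (l:ℝ) ≤ B := by exact_mod_cast hl.le
    have h6 : |(l:ℝ)/N|^2 ≤ (B:ℝ)^2/N^2 := by
      rw [abs_of_nonneg (by positivity), div_pow]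
      gcongr
    calc 2 * Real.pi * (N * |ev h (((j0:ℝ) + l) / N) - ev h ((j0:ℝ) / N) - ev' h ((j0:ℝ) / N) * (l / N)|)
        ≤ 2 * Real.pi * (N * (K0 k X0 * V * |(l:ℝ)/N|^2)) := by gcongr
      _ ≤ 2 * Real.pi * (N * (K0 k X0 * V * ((B:ℝ)^2/N^2))) := by gcongr
      _ = (2 * Real.pi) * (K0 k X0 * V * (B:ℝ)^2 / N) := by field_simp
      _ ≤ 7 * (K0 k X0 * V * (B:ℝ)^2 / N) := by
          apply mul_le_mul_of_nonneg_right
          · linarith [Real.pi_lt_d2]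
          · positivity
  refine (norm_sum_le _ _).trans ((Finset.sum_le_sum h2).trans ?_)
  rw [Finset.sum_const, Finset.card_range, nsmul_eq_mul]
  have hB' : (B:ℝ)^3 ≤ N := by exact_mod_cast hB
  calc (B:ℝ) * (7 * (K0 k X0 * V * (B:ℝ)^2 / N)) = 7 * K0 k X0 * V * ((B:ℝ)^3 / N) := by ring
    _ ≤ 7 * K0 k X0 * V * 1 := by
        gcongr
        rw [div_le_one hN']; exact hB'
    _ = _ := by ring

lemma sum_range_mul_eq (f : ℕ → ℂ) (q B : ℕ) :
    ∑ n ∈ range (q * B), f n = ∑ i ∈ range q, ∑ l ∈ range B, f (i * B + l) := by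
  induction q with
  | zero => simp
  | succ q ih =>
    rw [Finset.sum_range_succ, ← ih, Nat.succ_mul, Finset.sum_range_add]

/-- the number of bad blocks -/
lemma bad_blocks {h : Fin k → ℤ} (hh : h ≠ 0) {V X0 : ℝ} (hV1 : 1 ≤ V)
    (hV : ∀ i, |(h i : ℝ)| ≤ V) (hX : 1 ≤ X0) (S : Finset ℕ) (α β τ : ℝ) (hβ : 0 < β)
    (hτ : 0 < τ) (hτ1 : τ ≤ 1) (hα : ∀ i ∈ S, |α + i * β| ≤ X0)
    (hS : ∀ i ∈ S, nd (ev' h (α + i * β)) < τ ^ k) :
    (S.card : ℝ) ≤ 7 * K0 k X0 * V * k * (2 * τ / β + 1) := by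
  classical
  have hK := K0_pos k X0 hX
  have hV0 : 0 ≤ V := by linarith
  choose Z hZc hZ using sublevel h hh
  set U := ⌈K0 k X0 * V⌉₊ + 1 with hU
  have hcover : S ⊆ (Finset.Icc (-(U:ℤ)) U).biUnion (fun u => (Z u).biUnion (fun z =>
      S.filter (fun i : ℕ => |α + i * β - z| < τ))) := by
    intro i hi
    have h1 := hS i hi
    set u := round (ev' h (α + i * β)) with hu
    have h2 : |ev' h (α + i * β) - u| < τ ^ k := h1
    obtain ⟨z, hz, hz2⟩ := hZ u τ hτ hτ1 _ h2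
    have h3 := ev'_abs_le hV0 hV hX (hα i hi)
    have h4 : |(u:ℝ)| ≤ U := by
      have h5 : |ev' h (α + i * β) - u| ≤ 1/2 := abs_sub_round _
      have h6 : |(u:ℝ)| ≤ |ev' h (α + i * β)| + |ev' h (α + i * β) - u| := by
        have := abs_sub (ev' h (α + i * β)) (ev' h (α + i * β) - u)
        simpa using this
      have h7 : K0 k X0 * V ≤ ⌈K0 k X0 * V⌉₊ := Nat.le_ceil _
      rw [hU]; push_cast; linarith
    rw [Finset.mem_biUnion]
    refine ⟨u, ?_, ?_⟩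
    · rw [Finset.mem_Icc]
      rw [abs_le] at h4
      constructor
      · have := h4.1; exact_mod_cast this
      · have := h4.2; exact_mod_cast this
    · rw [Finset.mem_biUnion]
      refine ⟨z, hz, ?_⟩
      rw [Finset.mem_filter]
      exact ⟨hi, hz2⟩
  have hcard : (S.card : ℝ) ≤ ∑ u ∈ Finset.Icc (-(U:ℤ)) U, ∑ z ∈ Z u, (2 * τ / β + 1) := by
    have h1 := (Finset.card_le_card hcover).trans Finset.card_biUnion_le
    have h2 : (S.card : ℝ) ≤ ∑ u ∈ Finset.Icc (-(U:ℤ)) U, (((Z u).biUnion (fun z =>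
      S.filter (fun i : ℕ => |α + i * β - z| < τ))).card : ℝ) := by exact_mod_cast h1
    refine h2.trans (Finset.sum_le_sum fun u _ => ?_)
    have h3 : (((Z u).biUnion (fun z =>
      S.filter (fun i : ℕ => |α + i * β - z| < τ))).card : ℝ) ≤ ∑ z ∈ Z u, ((S.filter (fun i : ℕ => |α + i * β - z| < τ)).card : ℝ) := by
      exact_mod_cast (Finset.card_biUnion_le)
    refine h3.trans (Finset.sum_le_sum fun z _ => ?_)
    apply card_near_ap _ α β z τ hβ hτ.le
    intro i hi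
    exact (Finset.mem_filter.mp hi).2
  refine hcard.trans ?_
  have h5 : 0 ≤ 2 * τ / β + 1 := by positivity
  calc _ ≤ ∑ u ∈ Finset.Icc (-(U:ℤ)) U, (k:ℝ) * (2 * τ / β + 1) := by
        apply Finset.sum_le_sum
        intro u _
        rw [Finset.sum_const, nsmul_eq_mul]
        gcongr
        exact_mod_cast hZc u
    _ = (2 * (U:ℝ) + 1) * (k * (2 * τ / β + 1)) := by
        rw [Finset.sum_const, nsmul_eq_mul, Int.card_Icc]
        have : ((U:ℤ) + 1 - -(U:ℤ)).toNat = 2 * U + 1 := by omega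
        rw [this]; push_cast; ring
    _ ≤ (7 * K0 k X0 * V) * (k * (2 * τ / β + 1)) := by
        gcongr
        rw [hU]
        have h6 : (⌈K0 k X0 * V⌉₊ : ℝ) ≤ K0 k X0 * V + 1 := (Nat.ceil_lt_add_one (by positivity)).le
        push_cast
        nlinarith
    _ = _ := by ring

noncomputable def C1 (k : ℕ) (X0 : ℝ) : ℝ := K0 k X0 * (25 * X0 + 21 * k)

lemma C1_pos (k : ℕ) (X0 : ℝ) (hX : 1 ≤ X0) : 1 ≤ C1 k X0 := by
  unfold C1
  have := K0_pos k X0 hX
  have h2 : (0:ℝ) ≤ k := by positivity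
  nlinarith


lemma weyl_num {K V X0 N b B q c kk P : ℝ} (hK : 1 ≤ K) (hV : 1 ≤ V) (hX : 1 ≤ X0) (hN : 0 < N)
    (hb : 1 ≤ b) (hk : 1 ≤ kk) (hBP : B = P * P) (hbP : b ≤ P) (hBb : B * b ≤ N)
    (hqB : q * B ≤ 3 * X0 * N) (hq0 : 0 ≤ q)
    (hc : c ≤ 7 * K * V * kk * (2 * (1 / b) / (B / N) + 1)) :
    q * (P / 2 + 7 * K * V) + c * B + B ≤ K * (25 * X0 + 21 * kk) * V * N / b := by
  have hb0 : 0 < b := by linarith
  have hP0 : 0 < P := by linarith
  have hB0 : 0 < B := by rw [hBP]; positivity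
  have hKV : 1 ≤ K * V := by
    calc (1:ℝ) = 1 * 1 := by ring
      _ ≤ _ := by gcongr
  have hX0 : 0 < X0 := by linarith
  have hk0 : 0 < kk := by linarith
  have hbB : b ≤ B := by
    rw [hBP]
    calc b = b * 1 := by ring
      _ ≤ P * P := by gcongr; linarith
  have hq' : q ≤ 3 * X0 * N / B := by rwa [le_div_iff₀ hB0]
  obtain ⟨A, hA⟩ : ∃ A, A = K * V := ⟨_, rfl⟩
  rw [← hA] at hKV
  have e7 : 7 * K * V = 7 * A := by rw [hA]; ring
  rw [e7] at hc ⊢
  have e8 : K * (25 * X0 + 21 * kk) * V * N / b = A * (25 * X0 + 21 * kk) * (N / b) := by rw [hA]; ring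
  rw [e8]
  have hA0 : 0 < A := by linarith
  clear hA e7 e8 hK hV
  have t5 : 0 ≤ N / b := by positivity
  have t1 : q * (P / 2) ≤ 3 * X0 / 2 * (N / b) := by
    calc q * (P / 2) ≤ 3 * X0 * N / B * (P / 2) := by gcongr
      _ = 3 * X0 * N / P / 2 := by rw [hBP]; field_simp
      _ ≤ 3 * X0 * N / b / 2 := by gcongr
      _ = _ := by ring
  have t2 : q * (7 * A) ≤ 21 * (A * X0) * (N / b) := by
    calc q * (7 * A) ≤ 3 * X0 * N / B * (7 * A) := by gcongr
      _ ≤ 3 * X0 * N / b * (7 * A) := by gcongr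
      _ = _ := by ring
  have t4 : B ≤ N / b := by rw [le_div_iff₀ hb0]; exact hBb
  have t3 : c * B ≤ 21 * (A * kk) * (N / b) := by
    calc c * B ≤ (7 * A * kk * (2 * (1 / b) / (B / N) + 1)) * B := by gcongr
      _ = 7 * A * kk * (2 * (N / b) + B) := by field_simp
      _ ≤ 7 * A * kk * (2 * (N / b) + N / b) := by gcongr
      _ = _ := by ring
  have h12 : X0 ≤ A * X0 := le_mul_of_one_le_left hX0.le hKV
  have h13 : 3 * X0 / 2 + 21 * (A * X0) + 21 * (A * kk) + 1 ≤ A * (25 * X0 + 21 * kk) := by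
    have e1 : A * (25 * X0 + 21 * kk) = 25 * (A * X0) + 21 * (A * kk) := by ring
    rw [e1]; linarith
  calc q * (P / 2 + 7 * A) + c * B + B = q * (P / 2) + q * (7 * A) + c * B + B := by ring
    _ ≤ 3 * X0 / 2 * (N / b) + 21 * (A * X0) * (N / b) + 21 * (A * kk) * (N / b) + N / b := by
        linarith
    _ = (3 * X0 / 2 + 21 * (A * X0) + 21 * (A * kk) + 1) * (N / b) := by ring
    _ ≤ A * (25 * X0 + 21 * kk) * (N / b) := mul_le_mul_of_nonneg_right h13 t5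

/-- The Weyl type estimate. -/
theorem weyl {h : Fin k → ℤ} (hh : h ≠ 0) {V X0 : ℝ} (hV1 : 1 ≤ V)
    (hV : ∀ i, |(h i : ℝ)| ≤ V) (hX : 1 ≤ X0) (N b m : ℕ) (hb : 1 ≤ b) (hN : b ^ (6 * k) ≤ N)
    (j1 : ℤ) (hj : ∀ n : ℕ, n ≤ m → |((j1:ℝ) + n) / N| ≤ X0) :
    ‖∑ n ∈ range m, e (N * ev h (((j1:ℝ) + n) / N))‖ ≤ C1 k X0 * V * N / b := by
  classical
  have hk : 1 ≤ k := by
    by_contra hcon
    have : k = 0 := by omega
    subst this
    exact hh (funext fun i => i.elim0)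
  have hb' : (1:ℝ) ≤ b := by exact_mod_cast hb
  have hNpos : 0 < N := lt_of_lt_of_le (by positivity) hN
  have hN' : (0:ℝ) < N := by exact_mod_cast hNpos
  have hN1 : (1:ℝ) ≤ N := by exact_mod_cast hNpos
  have hK := K0_pos k X0 hX
  have hV0 : 0 ≤ V := by linarith
  set B := b ^ (2 * k) with hB
  have hBpos : 0 < B := by positivity
  have hB' : (1:ℝ) ≤ B := by exact_mod_cast hBpos
  have hB3 : B ^ 3 ≤ N := by
    rw [hB, ← pow_mul]
    have : 2 * k * 3 = 6 * k := by ring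
    rw [this]; exact hN
  set q := m / B with hq
  have hmq : m = q * B + m % B := by rw [hq, mul_comm]; exact (Nat.div_add_mod m B).symm
  have hr : m % B < B := Nat.mod_lt _ hBpos
  set f : ℕ → ℂ := fun n => e (N * ev h (((j1:ℝ) + n) / N)) with hf
  have h1 : ∑ n ∈ range m, f n = (∑ i ∈ range q, ∑ l ∈ range B, f (i * B + l)) +
      ∑ l ∈ range (m % B), f (q * B + l) := by
    rw [← sum_range_mul_eq]
    conv_lhs => rw [hmq]
    rw [Finset.sum_range_add]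
  have h2 : ‖∑ l ∈ range (m % B), f (q * B + l)‖ ≤ B := by
    calc _ ≤ ∑ l ∈ range (m % B), ‖f (q * B + l)‖ := norm_sum_le _ _
      _ = (m % B : ℕ) := by simp [hf, norm_e]
      _ ≤ B := by exact_mod_cast hr.le
  set τ : ℝ := 1 / b with hτ
  have hτ0 : 0 < τ := by positivity
  have hτ1 : τ ≤ 1 := by rw [hτ, div_le_one (by positivity)]; exact hb'
  have hτk : 1 / (2 * τ ^ k) = (b:ℝ)^k / 2 := by
    rw [hτ, div_pow, one_pow]; field_simp
  have hmX : (m:ℝ) ≤ 3 * X0 * N := by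
    have ha := hj 0 (Nat.zero_le _)
    have hb2 := hj m le_rfl
    rw [abs_div, abs_of_pos hN', div_le_iff₀ hN'] at ha hb2
    rw [abs_le] at ha hb2
    push_cast at ha
    have hXN : 0 ≤ X0 * N := by positivity
    have hmm : (m:ℝ) ≤ 2 * (X0 * N) := by linarith [ha.1, hb2.2]
    linarith
  have hqB : (q:ℝ) * B ≤ m := by
    have : q * B ≤ m := Nat.div_mul_le_self m B
    exact_mod_cast this
  have hrange : ∀ i ∈ range q, ∀ l : ℕ, l ≤ B → i * B + l ≤ m := by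
    intro i hi l hl
    rw [Finset.mem_range] at hi
    have : (i+1) * B ≤ q * B := Nat.mul_le_mul_right B hi
    have h3 : q * B ≤ m := Nat.div_mul_le_self m B
    nlinarith
  set bad := (range q).filter (fun i : ℕ => nd (ev' h ((j1:ℝ)/N + i * ((B:ℝ)/N))) < τ ^ k) with hbad
  have h3 : ∀ i ∈ range q, ‖∑ l ∈ range B, f (i * B + l)‖ ≤
      (b:ℝ)^k / 2 + 7 * K0 k X0 * V + (if nd (ev' h ((j1:ℝ)/N + i * ((B:ℝ)/N))) < τ ^ k then (B:ℝ) else 0) := by
    intro i hi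
    have h4 := block_bound hV1 hV hX N B hNpos hB3 (j1 + i * B) (by
      intro l hl
      have := hj (i * B + l) (hrange i hi l hl)
      push_cast at this ⊢
      rw [add_assoc]; exact this)
    have h5 : ∑ l ∈ range B, f (i * B + l) =
        ∑ l ∈ range B, e (N * ev h ((((j1 + i * B : ℤ) : ℝ) + l) / N)) := by
      apply Finset.sum_congr rfl
      intro l _
      simp only [hf]
      push_cast
      congr 4
      ring
    rw [h5]
    have h6 : (((j1 + i * B : ℤ)) : ℝ) / N = (j1:ℝ)/N + i * ((B:ℝ)/N) := by push_cast; ring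
    rw [h6] at h4
    have h7 : ‖dk B (ev' h ((j1:ℝ)/N + i * ((B:ℝ)/N)))‖ ≤ (b:ℝ)^k / 2 +
        (if nd (ev' h ((j1:ℝ)/N + i * ((B:ℝ)/N))) < τ ^ k then (B:ℝ) else 0) := by
      split_ifs with hlt
      · have := norm_dk_le B (ev' h ((j1:ℝ)/N + i * ((B:ℝ)/N)))
        have h8 : 0 ≤ (b:ℝ)^k / 2 := by positivity
        linarith
      · rw [not_lt] at hlt
        have h8 : 0 < τ ^ k := by positivity
        have h9 := norm_dk_le_inv B _ (lt_of_lt_of_le h8 hlt)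
        rw [add_zero, ← hτk]
        refine h9.trans ?_
        gcongr
    linarith
  have h8 : (bad.card : ℝ) ≤ 7 * K0 k X0 * V * k * (2 * τ / ((B:ℝ)/N) + 1) := by
    apply bad_blocks hh hV1 hV hX bad ((j1:ℝ)/N) ((B:ℝ)/N) τ (by positivity) hτ0 hτ1
    · intro i hi
      rw [hbad, Finset.mem_filter] at hi
      have := hj (i * B) (by simpa using hrange i hi.1 0 (Nat.zero_le _))
      push_cast at this
      have h9 : (j1:ℝ)/N + i * ((B:ℝ)/N) = (j1 + i * B)/N := by ring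
      rw [h9]; exact this
    · intro i hi
      rw [hbad, Finset.mem_filter] at hi
      exact hi.2
  have h9 : ‖∑ n ∈ range m, f n‖ ≤ q * ((b:ℝ)^k / 2 + 7 * K0 k X0 * V) + bad.card * B + B := by
    rw [h1]
    refine (norm_add_le _ _).trans (add_le_add ?_ h2)
    refine (norm_sum_le _ _).trans ((Finset.sum_le_sum h3).trans ?_)
    rw [Finset.sum_add_distrib, Finset.sum_const, Finset.card_range, nsmul_eq_mul, ← Finset.sum_filter,
      Finset.sum_const, nsmul_eq_mul]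
  refine h9.trans ?_
  -- numerics
  have hk' : (1:ℝ) ≤ k := by exact_mod_cast hk
  have hBeq : (B:ℝ) = (b:ℝ)^(2*k) := by rw [hB]; push_cast; ring
  have hbk : (b:ℝ) ≤ (b:ℝ)^k := by
    calc (b:ℝ) = (b:ℝ)^1 := by ring
      _ ≤ _ := pow_le_pow_right₀ hb' hk
  have hBsq : (B:ℝ) = (b:ℝ)^k * (b:ℝ)^k := by rw [hBeq]; ring
  have hBb : (B:ℝ) * b ≤ N := by
    have h10 : (b:ℝ)^(2*k) * b = (b:ℝ)^(2*k+1) := by ring
    rw [hBeq, h10]
    calc (b:ℝ)^(2*k+1) ≤ (b:ℝ)^(6*k) := pow_le_pow_right₀ hb' (by omega)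
      _ ≤ N := by exact_mod_cast hN
  exact weyl_num hK hV1 hX hN' hb' hk' hBsq hbk hBb (hqB.trans hmX) (by positivity) h8

end MDiv
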