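import Mathlib
import Pool.Agent.Hhelper92.Mult.Weyl1

set_option autoImplicit false

/-!
Joint distribution of `N * ev (F i) (j / N)` modulo one.
-/

namespace MDiv

open Finset

variable {k : ℕ}

lemma ev_sum {ι : Type*} (s : Finset ι) (h : ι → ℤ) (F : ι → Fin k → ℤ) (x : ℝ) :
    ev (∑ i ∈ s, h i • F i) x = ∑ i ∈ s, (h i : ℝ) * ev (F i) x := by
  classical
  induction s using Finset.induction_on with
  | empty => simp [ev]
  | insert a s ha ih => rw [Finset.sum_insert ha, Finset.sum_insert ha, ev_add, ev_smul, ih]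

theorem joint_count {ι : Type*} [Fintype ι] [DecidableEq ι] [Nonempty ι] (F : ι → Fin k → ℤ)
    (hF : ∀ h : ι → ℤ, h ≠ 0 → ∑ i, h i • F i ≠ 0) {V X0 : ℝ} (hV1 : 1 ≤ V)
    (hV : ∀ i j, |(F i j : ℝ)| ≤ V) (hX : 1 ≤ X0) (N b m M : ℕ) (hb : 1 ≤ b) (hM : 0 < M)
    (hN : b ^ (6 * k) ≤ N)
    (j1 : ℤ) (hj : ∀ n : ℕ, n ≤ m → |((j1:ℝ) + n) / N| ≤ X0) :
    (((range m).filter (fun n : ℕ => ∀ i, nd (N * ev (F i) (((j1:ℝ) + n) / N)) ≤ 1 / (6 * M))).card : ℝ)
      ≤ 4 ^ (Fintype.card ι) * (m / (M:ℝ) ^ (Fintype.card ι) +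
        C1 k X0 * (Fintype.card ι * M * V) * N / b) := by
  have hC := C1_pos k X0 hX
  have hb' : (1:ℝ) ≤ b := by exact_mod_cast hb
  have hM' : (1:ℝ) ≤ M := by exact_mod_cast hM
  have hD : (1:ℝ) ≤ Fintype.card ι := by exact_mod_cast Fintype.card_pos
  have h1 := count_le_of_expsum (range m) (fun n i => N * ev (F i) (((j1:ℝ) + n) / N)) (fun _ : ι => 0) M hM
    (C1 k X0 * (Fintype.card ι * M * V) * N / b) (by positivity) (by
      intro h hh hhM
      have h2 : ∀ n ∈ range m, e (∑ i, (h i : ℝ) * (N * ev (F i) (((j1:ℝ) + n) / N))) =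
          e (N * ev (∑ i, h i • F i) (((j1:ℝ) + n) / N)) := by
        intro n _
        rw [ev_sum, Finset.mul_sum]
        congr 1
        apply Finset.sum_congr rfl
        intro i _
        ring
      rw [Finset.sum_congr rfl h2]
      apply weyl (hF h hh) _ _ hX N b m hb hN j1 hj
      · nlinarith [mul_nonneg (by linarith : (0:ℝ) ≤ Fintype.card ι - 1) (by linarith : (0:ℝ) ≤ M - 1)]
      · intro j
        rw [Finset.sum_apply]
        push_cast
        calc |∑ i, (((h i • F i) j : ℤ) : ℝ)| ≤ ∑ i, |(((h i • F i) j : ℤ) : ℝ)| := Finset.abs_sum_le_sum_abs _ _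
          _ ≤ ∑ _i : ι, (M:ℝ) * V := by
              apply Finset.sum_le_sum
              intro i _
              simp only [Pi.smul_apply, smul_eq_mul]
              push_cast
              rw [abs_mul]
              apply mul_le_mul _ (hV i j) (abs_nonneg _) (by linarith)
              have := (hhM i).le
              exact_mod_cast this
          _ = _ := by rw [Finset.sum_const, Finset.card_univ, nsmul_eq_mul]; ring)
  simp only [sub_zero, Finset.card_range] at h1
  exact h1

end MDiv
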