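import Mathlib
import Pool.Agent.Hhelper92.Mult.Farey
import Pool.Agent.Hhelper92.Mult.Weyl2

set_option autoImplicit false

/-!
The number of bad Farey matrices.
-/

namespace MDiv

open Finset

variable {k : ℕ} {ι : Type*} [Fintype ι] [DecidableEq ι] [Nonempty ι]

def IsBad (F : ι → Fin k → ℤ) (M Yb : ℕ) (g : M2) : Prop :=
  ∃ y1 y2 : ℤ, ¬ (y1 = 0 ∧ y2 = 0) ∧ |y1| ≤ Yb ∧ |y2| ≤ Yb ∧
    ∀ i, nd (((y1 * g.a + y2 * g.c : ℤ) : ℝ) * ev (F i) (-(g.b:ℝ)/g.a)) ≤ 1 / (12 * M)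

omit [Fintype ι] [DecidableEq ι] [Nonempty ι] in
noncomputable instance (F : ι → Fin k → ℤ) (M Yb : ℕ) : DecidablePred (IsBad F M Yb) :=
  Classical.decPred _

noncomputable def C2 (k K X1 D : ℕ) : ℝ := K * 4 ^ D * (72 * (X1 + 1) + 16 * C1 k (X1 + 2) * D)

/-- good numerators for the denominator `N` -/
noncomputable def gset (F : ι → Fin k → ℤ) (M X1 N : ℕ) : Finset ℕ :=
  (range (2 * (X1 + 1) * N + 1)).filter
    (fun n : ℕ => ∀ i, nd (N * ev (F i) (((-((X1 + 1) * N : ℤ) : ℤ) + n) / N)) ≤ 1 / (6 * M))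

lemma gset_card (F : ι → Fin k → ℤ) (hF : ∀ h : ι → ℤ, h ≠ 0 → ∑ i, h i • F i ≠ 0) {V : ℝ}
    (hV1 : 1 ≤ V) (hV : ∀ i j, |(F i j : ℝ)| ≤ V) (M X1 b N : ℕ) (hM : 0 < M) (hb : 1 ≤ b)
    (hN : 1 ≤ N) :
    ((gset F M X1 N).card : ℝ) ≤ N * (4 ^ (Fintype.card ι) * (3 * (X1 + 1) / (M:ℝ) ^ (Fintype.card ι) +
      C1 k (X1 + 2) * Fintype.card ι * (M * V / b)) + (if N < b ^ (6 * k) then 3 * ((X1:ℝ) + 1) else 0)) := by
  have hX1' : (0:ℝ) ≤ X1 := by positivity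
  have hC := C1_pos k (X1 + 2) (by linarith)
  have hb' : (1:ℝ) ≤ b := by exact_mod_cast hb
  have hM' : (1:ℝ) ≤ M := by exact_mod_cast hM
  have hN' : (1:ℝ) ≤ N := by exact_mod_cast hN
  split_ifs with h
  · have h1 : ((gset F M X1 N).card : ℝ) ≤ 3 * ((X1:ℝ) + 1) * N := by
      have h2 : (gset F M X1 N).card ≤ 2 * (X1 + 1) * N + 1 := by
        unfold gset
        refine (Finset.card_filter_le _ _).trans ?_
        rw [Finset.card_range]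
      have h3 : ((gset F M X1 N).card : ℝ) ≤ 2 * ((X1:ℝ) + 1) * N + 1 := by exact_mod_cast h2
      nlinarith
    have h4 : (0:ℝ) ≤ N * (4 ^ (Fintype.card ι) * (3 * (X1 + 1) / (M:ℝ) ^ (Fintype.card ι) +
      C1 k (X1 + 2) * Fintype.card ι * (M * V / b))) := by positivity
    linarith
  · rw [not_lt] at h
    have h1 := joint_count F hF hV1 hV (X0 := X1 + 2) (by linarith) N b (2 * (X1 + 1) * N + 1) M hb hM h
      (-((X1 + 1) * N : ℤ)) (by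
        intro n hn
        rw [abs_div, abs_of_pos (by linarith : (0:ℝ) < N), div_le_iff₀ (by linarith)]
        have hn' : (n:ℝ) ≤ 2 * (X1 + 1) * N + 1 := by exact_mod_cast hn
        push_cast
        rw [abs_le]
        constructor <;> nlinarith [Nat.cast_nonneg (α := ℝ) n])
    unfold gset
    refine h1.trans ?_
    rw [add_zero]
    push_cast
    have h2 : (2 * ((X1:ℝ) + 1) * N + 1) ≤ 3 * (X1 + 1) * N := by nlinarith
    calc _ ≤ (4:ℝ) ^ (Fintype.card ι) * ((3 * (X1 + 1) * N) / (M:ℝ) ^ (Fintype.card ι) +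
        C1 k (X1 + 2) * (Fintype.card ι * M * V) * N / b) := by gcongr
      _ = _ := by ring


lemma bad_nonzero {a c b d : ℤ} {Yb K L : ℕ} (hdet : a * d - b * c = 1) (ha1 : 1 ≤ a) (hLK : (L:ℝ) ≤ K * a)
    (hYK : (Yb:ℝ) * K < L) {y1 y2 : ℤ} (hy : ¬ (y1 = 0 ∧ y2 = 0)) (hy2 : |y2| ≤ Yb) :
    y1 * a + y2 * c ≠ 0 := by
  intro h0
  have hcop : IsCoprime a c := ⟨d, -b, by linarith⟩
  have hdvd : a ∣ y2 := by
    apply hcop.dvd_of_dvd_mul_left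
    exact ⟨-y1, by linarith⟩
  have hK0 : (0:ℝ) ≤ K := by positivity
  have hy20 : y2 = 0 := by
    by_contra hne
    have h3 : a ≤ |y2| := Int.le_of_dvd (by positivity) ((dvd_abs _ _).mpr hdvd)
    have h4 : (a:ℝ) ≤ Yb := by exact_mod_cast h3.trans hy2
    have h5 : (K:ℝ) * a ≤ K * Yb := mul_le_mul_of_nonneg_left h4 hK0
    linarith
  rw [hy20, zero_mul, add_zero] at h0
  rcases mul_eq_zero.mp h0 with h | h
  · exact hy ⟨h, hy20⟩
  · omega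

lemma bad_final {P Q C E X D : ℝ} (hP : 0 ≤ P) (hQ : 0 ≤ Q) (hC : 0 ≤ C) (hE : 1 ≤ E) (hX : 0 ≤ X)
    (hD : 0 ≤ D) :
    16 * (E * (3 * X * P + C * D * Q)) + 24 * X * Q ≤ E * (72 * X + 16 * C * D) * (P + Q) := by
  have hE0 : 0 ≤ E := by linarith
  have e0 : 0 ≤ 24 * X * Q := by positivity
  have e1 : 24 * X * Q ≤ E * (24 * X * Q) := le_mul_of_one_le_left e0 hE
  have e2 : 0 ≤ E * (48 * X * Q) := by positivity
  have e3 : 0 ≤ E * (16 * C * D * P) := by positivity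
  have e4 : 0 ≤ E * (24 * X * P) := by positivity
  have key : E * (72 * X + 16 * C * D) * (P + Q) -
      (16 * (E * (3 * X * P + C * D * Q)) + 24 * X * Q) =
      E * (24 * X * P) + (E * (24 * X * Q) - 24 * X * Q) +
      E * (48 * X * Q) + E * (16 * C * D * P) := by ring
  linarith

lemma bad_diff {a b c d z1 z2 : ℤ} {N : ℕ} {ξ j : ℝ} (hξ : ξ = -(b:ℝ)/a) (hj : j = -(z1 * b + z2 * d))
    (hdet : a * d - b * c = 1) (ha : (0:ℝ) < a) (hN : (0:ℝ) < N) (hNr : (N:ℝ) = z1 * a + z2 * c) :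
    ξ - j / N = z2 / (a * N) := by
  have hdet' : (a:ℝ) * d - b * c = 1 := by exact_mod_cast hdet
  rw [hξ, hj]
  field_simp
  rw [hNr]
  linear_combination z2 * hdet'

omit [Fintype ι] [DecidableEq ι] [Nonempty ι] in
lemma bad_elem (F : ι → Fin k → ℤ) {V : ℝ}
    (hV0 : 0 ≤ V) (hV : ∀ i j, |(F i j : ℝ)| ≤ V) (L K X1 M Yb : ℕ) (l : ℕ → ℝ) (ξ : ℝ)
    (hX1' : (1:ℝ) ≤ X1) (hK' : (1:ℝ) ≤ K) (hM' : (1:ℝ) ≤ M) (hYb' : (1:ℝ) ≤ Yb)
    (hL1 : 12 * M * K0 k (X1 + 2) * V * Yb * K ≤ L) (hK0 : 1 ≤ K0 k (X1 + 2))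
    (hYK : (Yb:ℝ) * K < L) (hL0 : (0:ℝ) < L) (hl : ∀ N, l N = Yb * K / (L * N))
    (a b c d : ℤ) (hξ : ξ = -(b:ℝ)/a)
    (hdet : a * d - b * c = 1) (ha1 : 1 ≤ a) (haL : a ≤ L) (hLK : (L:ℝ) ≤ K * a)
    (hc0 : 0 ≤ c) (hca : c ≤ a) (h1 : -(X1:ℝ) ≤ ξ) (h2 : ξ ≤ X1)
    (y1 y2 : ℤ) (hy : ¬ (y1 = 0 ∧ y2 = 0)) (hy1 : |y1| ≤ Yb) (hy2 : |y2| ≤ Yb)
    (hnd : ∀ i, nd (((y1 * a + y2 * c : ℤ) : ℝ) * ev (F i) ξ) ≤ 1 / (12 * M)) :
    ∃ N n : ℕ, (1 ≤ N ∧ N ≤ 2 * Yb * L) ∧ n < 2 * (X1 + 1) * N + 1 ∧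
      (∀ i, nd (N * ev (F i) (((-((X1 + 1) * N : ℤ) : ℤ) + n) / N)) ≤ 1 / (6 * M)) ∧
      |ξ - ((-((X1 + 1) * N : ℤ) : ℤ) + n) / N| ≤ l N := by
  have ha : (0:ℝ) < a := by exact_mod_cast ha1
  have haL' : (a:ℝ) ≤ L := by exact_mod_cast haL
  have hN0 : y1 * a + y2 * c ≠ 0 := bad_nonzero hdet ha1 hLK hYK hy hy2
  obtain ⟨z1, z2, hz1, hz2, hpos, hzn⟩ : ∃ z1 z2 : ℤ, |z1| ≤ Yb ∧ |z2| ≤ Yb ∧ 0 < z1 * a + z2 * c ∧
      ∀ i, nd (((z1 * a + z2 * c : ℤ) : ℝ) * ev (F i) ξ) ≤ 1 / (12 * M) := by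
    rcases lt_or_gt_of_ne hN0 with h | h
    · refine ⟨-y1, -y2, by rw [abs_neg]; exact hy1, by rw [abs_neg]; exact hy2, by linarith, ?_⟩
      intro i
      have := hnd i
      rw [← nd_neg] at this
      convert this using 2
      push_cast; ring
    · exact ⟨y1, y2, hy1, hy2, h, hnd⟩
  clear hy hy1 hy2 hnd hN0
  obtain ⟨N, hNz⟩ : ∃ N : ℕ, (N:ℤ) = z1 * a + z2 * c := ⟨(z1 * a + z2 * c).toNat, Int.toNat_of_nonneg hpos.le⟩
  have hN1 : 1 ≤ N := by omega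
  have hN1' : (1:ℝ) ≤ N := by exact_mod_cast hN1
  have hN0' : (0:ℝ) < N := by linarith
  have hNr : (N:ℝ) = z1 * a + z2 * c := by exact_mod_cast congrArg (Int.cast : ℤ → ℝ) hNz
  have hNle : N ≤ 2 * Yb * L := by
    have h3 : (N:ℤ) ≤ 2 * Yb * L := by
      rw [hNz]
      have h4 : z1 * a ≤ Yb * L := by
        calc z1 * a ≤ |z1| * a := by gcongr; exact le_abs_self _
          _ ≤ Yb * L := by gcongr
      have h5 : z2 * c ≤ Yb * L := by
        calc z2 * c ≤ |z2| * c := by gcongr; exact le_abs_self _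
          _ ≤ Yb * L := by gcongr; linarith
      linarith
    exact_mod_cast h3
  obtain ⟨j, hj⟩ : ∃ j : ℤ, j = -(z1 * b + z2 * d) := ⟨_, rfl⟩
  have hdiff : ξ - (j:ℝ)/N = z2 / (a * N) :=
    bad_diff (z1 := z1) hξ (by rw [hj]; push_cast; ring) hdet ha hN0' hNr
  have hz2' : |(z2:ℝ)| ≤ Yb := by exact_mod_cast hz2
  have hdiff' : |ξ - (j:ℝ)/N| ≤ l N := by
    rw [hdiff, hl, abs_div, abs_of_pos (by positivity : (0:ℝ) < a * N)]
    rw [div_le_div_iff₀ (by positivity) (by positivity)]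
    calc |(z2:ℝ)| * (L * N) ≤ Yb * ((K * a) * N) := by gcongr
      _ = _ := by ring
  have hlN : l N * N = Yb * K / L := by
    rw [hl]; field_simp
  have hlN1 : l N * N ≤ 1 := by
    rw [hlN, div_le_one hL0]; exact hYK.le
  have hlN0 : 0 ≤ l N := by rw [hl]; positivity
  have hlN1' : l N ≤ 1 := by
    have : l N * 1 ≤ l N * N := mul_le_mul_of_nonneg_left hN1' hlN0
    linarith
  have hξ1 : |ξ| ≤ X1 := by
    rw [abs_le]; constructor <;> linarith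
  have hjN : |(j:ℝ)/N| ≤ X1 + 1 := by
    have := abs_sub_abs_le_abs_sub ((j:ℝ)/N) ξ
    rw [abs_sub_comm] at this
    linarith
  have hjb : |(j:ℝ)| ≤ (X1 + 1) * N := by
    rw [abs_div, abs_of_pos (by linarith : (0:ℝ) < N), div_le_iff₀ (by linarith)] at hjN
    exact hjN
  have hjb' : |j| ≤ ((X1:ℤ) + 1) * N := by exact_mod_cast hjb
  rw [abs_le] at hjb'
  obtain ⟨n, hnz⟩ : ∃ n : ℕ, (n:ℤ) = j + (X1 + 1) * N :=
    ⟨(j + (X1 + 1) * N).toNat, Int.toNat_of_nonneg (by linarith [hjb'.1])⟩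
  have hnle : n < 2 * (X1 + 1) * N + 1 := by
    have : (n:ℤ) < 2 * (X1 + 1) * N + 1 := by
      rw [hnz]; linarith [hjb'.2]
    exact_mod_cast this
  have hnr : (((-((X1 + 1) * N : ℤ) : ℤ) : ℝ) + n) / N = (j:ℝ)/N := by
    have h3 : (n:ℝ) = j + (X1 + 1) * N := by exact_mod_cast congrArg (Int.cast : ℤ → ℝ) hnz
    rw [h3]; push_cast; congr 1; ring
  refine ⟨N, n, ⟨hN1, hNle⟩, hnle, ?_, ?_⟩
  · intro i
    rw [hnr]
    have h3 := hzn i
    have h4 : |ev (F i) ξ - ev (F i) ((j:ℝ)/N)| ≤ K0 k (X1 + 2) * V * |ξ - (j:ℝ)/N| := by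
      apply ev_sub_le hV0 (hV i) (by linarith)
      · linarith
      · linarith
    have h5 := nd_le_of_abs_sub_le (N * ev (F i) ((j:ℝ)/N)) (((z1 * a + z2 * c : ℤ) : ℝ) * ev (F i) ξ)
    have h6 : |N * ev (F i) ((j:ℝ)/N) - ((z1 * a + z2 * c : ℤ) : ℝ) * ev (F i) ξ| ≤ 1 / (12 * M) := by
      rw [← hNz, Int.cast_natCast, ← mul_sub, abs_mul, abs_of_pos hN0', abs_sub_comm]
      calc (N:ℝ) * |ev (F i) ξ - ev (F i) ((j:ℝ)/N)| ≤ N * (K0 k (X1 + 2) * V * l N) := by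
            gcongr
            exact h4.trans (by gcongr)
        _ = K0 k (X1 + 2) * V * (l N * N) := by ring
        _ = K0 k (X1 + 2) * V * (Yb * K / L) := by rw [hlN]
        _ ≤ 1 / (12 * M) := by
            rw [le_div_iff₀ (by positivity)]
            calc K0 k (X1 + 2) * V * (Yb * K / L) * (12 * M) = (12 * M * K0 k (X1 + 2) * V * Yb * K) / L := by ring
              _ ≤ 1 := by rw [div_le_one hL0]; exact hL1
    calc _ ≤ _ := h5
      _ ≤ 1 / (12 * M) + 1 / (12 * M) := add_le_add h3 h6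
      _ = _ := by field_simp; norm_num
  · rw [hnr]; exact hdiff'

theorem bad_count (F : ι → Fin k → ℤ) (hF : ∀ h : ι → ℤ, h ≠ 0 → ∑ i, h i • F i ≠ 0) {V : ℝ}
    (hV1 : 1 ≤ V) (hV : ∀ i j, |(F i j : ℝ)| ≤ V) (L K X1 M Yb b : ℕ) (α β : ℝ)
    (hX1 : 1 ≤ X1) (hα : -(X1:ℝ) ≤ α) (hβ : β ≤ X1) (hK : 1 ≤ K) (hM : 0 < M) (hYb : 1 ≤ Yb)
    (hb : 1 ≤ b) (hL1 : 12 * M * K0 k (X1 + 2) * V * Yb * K ≤ L) (hL2 : b ^ (6 * k) * b ≤ L) :
    ((((fy L K X1 α β)).filter (fun g => IsBad F M Yb g)).card : ℝ) ≤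
      C2 k K X1 (Fintype.card ι) * (L:ℝ)^2 * (Yb:ℝ)^2 * (1 / (M:ℝ) ^ (Fintype.card ι) + M * V / b) := by
  classical
  set D := Fintype.card ι with hD
  have hD1 : (1:ℝ) ≤ D := by rw [hD]; exact_mod_cast Fintype.card_pos
  have hX1' : (1:ℝ) ≤ X1 := by exact_mod_cast hX1
  have hC := C1_pos k (X1 + 2) (by linarith)
  have hK0 := K0_pos k (X1 + 2) (by linarith)
  have hb' : (1:ℝ) ≤ b := by exact_mod_cast hb
  have hM' : (1:ℝ) ≤ M := by exact_mod_cast hM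
  have hK' : (1:ℝ) ≤ K := by exact_mod_cast hK
  have hYb' : (1:ℝ) ≤ Yb := by exact_mod_cast hYb
  have hV0 : (0:ℝ) ≤ V := by linarith
  have hYK : (Yb:ℝ) * K < L := by
    have h1 : (1:ℝ) ≤ M * K0 k (X1 + 2) * V := by
      calc (1:ℝ) = 1 * 1 * 1 := by ring
        _ ≤ _ := by gcongr
    have h2 : (1:ℝ) ≤ Yb * K := by
      calc (1:ℝ) = 1 * 1 := by ring
        _ ≤ _ := by gcongr
    calc (Yb:ℝ) * K = 1 * (Yb * K) := by ring
      _ < 12 * (M * K0 k (X1 + 2) * V) * (Yb * K) := by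
          apply mul_lt_mul_of_pos_right _ (by linarith)
          linarith
      _ = 12 * M * K0 k (X1 + 2) * V * Yb * K := by ring
      _ ≤ L := hL1
  have hL0 : (0:ℝ) < L := by
    have : (0:ℝ) < Yb * K := by positivity
    linarith
  have hLn : 0 < L := by exact_mod_cast hL0
  set G := fy L K X1 α β with hG
  set l : ℕ → ℝ := fun N => Yb * K / (L * N) with hl
  have hcover : G.filter (fun g => IsBad F M Yb g) ⊆
      (Finset.Icc 1 (2 * Yb * L)).biUnion (fun N => (gset F M X1 N).biUnion (fun n =>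
        G.filter (fun g => |-(g.b:ℝ)/g.a - ((-((X1 + 1) * N : ℤ) : ℤ) + n) / N| ≤ l N))) := by
    intro g hg
    rw [Finset.mem_filter] at hg
    obtain ⟨hgG, y1, y2, hy, hy1, hy2, hnd⟩ := hg
    have hgG' := hgG
    rw [hG, mem_fy hX1 hα hβ] at hgG
    obtain ⟨hdet, ha1, haL, hLK, hc0, hca, h1, h2⟩ := hgG
    have hLK' : (L:ℝ) ≤ K * g.a := by exact_mod_cast hLK
    obtain ⟨N, n, hN, hn, hnn, hdd⟩ := bad_elem F hV0 hV L K X1 M Yb l (-(g.b:ℝ)/g.a) hX1' hK' hM' hYb' hL1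
      hK0 hYK hL0 (fun _ => rfl) g.a g.b g.c g.d rfl hdet ha1 haL hLK' hc0 hca (by linarith) (by linarith)
      y1 y2 hy hy1 hy2 hnd
    rw [Finset.mem_biUnion]
    refine ⟨N, Finset.mem_Icc.mpr hN, ?_⟩
    rw [Finset.mem_biUnion]
    refine ⟨n, ?_, ?_⟩
    · unfold gset
      rw [Finset.mem_filter, Finset.mem_range]
      exact ⟨hn, hnn⟩
    · rw [Finset.mem_filter]
      exact ⟨hgG', hdd⟩
  -- counting
  have hcard : ((G.filter (fun g => IsBad F M Yb g)).card : ℝ) ≤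
      ∑ N ∈ Finset.Icc 1 (2 * Yb * L), ∑ n ∈ gset F M X1 N, (8 * Yb * K * L / N : ℝ) := by
    have h1 := (Finset.card_le_card hcover).trans Finset.card_biUnion_le
    have h2 : ((G.filter (fun g => IsBad F M Yb g)).card : ℝ) ≤
        ∑ N ∈ Finset.Icc 1 (2 * Yb * L), (((gset F M X1 N).biUnion (fun n : ℕ =>
        G.filter (fun g => |-(g.b:ℝ)/g.a - ((-((X1 + 1) * N : ℤ) : ℤ) + n) / N| ≤ l N))).card : ℝ) := by
      exact_mod_cast h1
    refine h2.trans (Finset.sum_le_sum fun N hN => ?_)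
    have h3 : (((gset F M X1 N).biUnion (fun n : ℕ =>
        G.filter (fun g => |-(g.b:ℝ)/g.a - ((-((X1 + 1) * N : ℤ) : ℤ) + n) / N| ≤ l N))).card : ℝ) ≤
        ∑ n ∈ gset F M X1 N, ((G.filter (fun g => |-(g.b:ℝ)/g.a - ((-((X1 + 1) * N : ℤ) : ℤ) + (n:ℕ)) / N| ≤ l N)).card : ℝ) := by
      exact_mod_cast Finset.card_biUnion_le
    refine h3.trans (Finset.sum_le_sum fun n _ => ?_)
    rw [Finset.mem_Icc] at hN
    have hN1 : (1:ℝ) ≤ N := by exact_mod_cast hN.1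
    have hN2 : (N:ℝ) ≤ 2 * Yb * L := by exact_mod_cast hN.2
    refine (fy_near L K X1 α β hX1 hα hβ _ (l N) (by rw [hl]; positivity)).trans ?_
    have h4 : l N * (L:ℝ)^2 = Yb * K * L / N := by rw [hl]; simp only; field_simp
    have h5 : (1:ℝ) ≤ 2 * (Yb * K * L / N) := by
      rw [← mul_div_assoc, le_div_iff₀ (by linarith)]
      calc 1 * (N:ℝ) ≤ 2 * Yb * L := by linarith
        _ = 2 * (Yb * 1 * L) := by ring
        _ ≤ 2 * (Yb * K * L) := by gcongr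
    calc (2:ℝ) * (2 * l N * (L:ℝ)^2 + 1) = 4 * (l N * (L:ℝ)^2) + 2 := by ring
      _ = 4 * (Yb * K * L / N : ℝ) + 2 := by rw [h4]
      _ ≤ 8 * (Yb * K * L / N : ℝ) := by linarith
      _ = _ := by ring
  refine hcard.trans ?_
  set A : ℝ := 4 ^ D * (3 * (X1 + 1) / (M:ℝ) ^ D + C1 k (X1 + 2) * D * (M * V / b)) with hA
  have hA0 : 0 ≤ A := by rw [hA]; positivity
  have hsum : ∀ N ∈ Finset.Icc 1 (2 * Yb * L), ∑ n ∈ gset F M X1 N, (8 * Yb * K * L / N : ℝ) ≤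
      8 * Yb * K * L * (A + (if N < b ^ (6 * k) then 3 * ((X1:ℝ) + 1) else 0)) := by
    intro N hN
    rw [Finset.mem_Icc] at hN
    have hN1 : (1:ℝ) ≤ N := by exact_mod_cast hN.1
    rw [Finset.sum_const, nsmul_eq_mul]
    have h1 := gset_card F hF hV1 hV M X1 b N hM hb hN.1
    calc _ ≤ (N * (A + (if N < b ^ (6 * k) then 3 * ((X1:ℝ) + 1) else 0))) * (8 * Yb * K * L / N) := by
          gcongr
      _ = _ := by field_simp
  refine (Finset.sum_le_sum hsum).trans ?_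
  rw [← Finset.mul_sum, Finset.sum_add_distrib, Finset.sum_const, nsmul_eq_mul, Nat.card_Icc,
    ← Finset.sum_filter, Finset.sum_const, nsmul_eq_mul]
  have h1 : (((Finset.Icc 1 (2 * Yb * L)).filter (fun N => N < b ^ (6 * k))).card : ℝ) ≤ L / b := by
    rw [le_div_iff₀ (by linarith)]
    have h2 : ((Finset.Icc 1 (2 * Yb * L)).filter (fun N => N < b ^ (6 * k))).card ≤ b ^ (6 * k) := by
      calc _ ≤ (range (b ^ (6 * k))).card := by
            apply Finset.card_le_card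
            intro N hN
            rw [Finset.mem_filter] at hN
            exact Finset.mem_range.mpr hN.2
        _ = _ := Finset.card_range _
    have h3 : ((Finset.Icc 1 (2 * Yb * L)).filter (fun N => N < b ^ (6 * k))).card * b ≤ L :=
      (Nat.mul_le_mul_right _ h2).trans hL2
    exact_mod_cast h3
  have h2 : ((2 * Yb * L + 1 - 1 : ℕ) : ℝ) = 2 * Yb * L := by
    rw [Nat.add_sub_cancel]; push_cast; ring
  rw [h2]
  have h3 : (1:ℝ) ≤ M * V := by nlinarith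
  have h4 : (L:ℝ) / b ≤ Yb * L * (M * V / b) := by
    calc (L:ℝ) / b = 1 * L * (1 / b) := by ring
      _ ≤ Yb * L * (M * V / b) := by gcongr
  calc 8 * (Yb:ℝ) * K * L * (2 * Yb * L * A + (((Finset.Icc 1 (2 * Yb * L)).filter (fun N => N < b ^ (6 * k))).card : ℝ) * (3 * ((X1:ℝ) + 1)))
      ≤ 8 * (Yb:ℝ) * K * L * (2 * Yb * L * A + (Yb * L * (M * V / b)) * (3 * ((X1:ℝ) + 1))) := by
        gcongr
        exact h1.trans h4
    _ = (L:ℝ)^2 * (Yb:ℝ)^2 * K * (16 * A + 24 * ((X1:ℝ) + 1) * (M * V / b)) := by ring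
    _ ≤ (L:ℝ)^2 * (Yb:ℝ)^2 * K * (4 ^ D * (72 * (X1 + 1) + 16 * C1 k (X1 + 2) * D) * (1 / (M:ℝ)^D + M * V / b)) := by
        gcongr
        rw [hA]
        have h5 : (1:ℝ) ≤ 4 ^ D := one_le_pow₀ (by norm_num)
        have h6 : (0:ℝ) ≤ M * V / b := by positivity
        have h7 : (0:ℝ) ≤ 1 / (M:ℝ)^D := by positivity
        have h8 : 3 * ((X1:ℝ) + 1) / (M:ℝ) ^ D = 3 * ((X1:ℝ) + 1) * (1 / (M:ℝ)^D) := by ring
        rw [h8]
        exact bad_final h7 h6 (by linarith) h5 (by linarith) (by linarith)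
    _ = _ := by unfold C2; ring

end MDiv
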