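import Mathlib
import Pool.Agent.Hhelper92.Mult.SL2

set_option autoImplicit false

/-!
The number of pairs of unimodular matrices with a given nonzero difference.
-/

namespace MDiv

open Finset

lemma pair_count_ne (c e f K : ℤ) (hc : c ≠ 0) (hK : K ≠ 0) (S : Finset (ℤ × ℤ))
    (hS : ∀ p ∈ S, (c * p.1 + e) * (c * p.2 + f) = K) :
    S.card ≤ 2 * K.natAbs.divisors.card := by
  classical
  have h1 : S.card ≤ (K.natAbs.divisors ×ˢ (Finset.univ : Finset Bool)).card := by
    apply Finset.card_le_card_of_injOn (fun p => ((c * p.1 + e).natAbs, decide (0 ≤ c * p.1 + e)))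
    · intro p hp
      have h2 := hS p hp
      simp only [Finset.coe_product, Set.mem_prod, Finset.mem_coe, Finset.mem_univ, and_true]
      rw [Nat.mem_divisors]
      refine ⟨?_, by simpa using hK⟩
      rw [← h2, Int.natAbs_mul]
      exact Dvd.intro _ rfl
    · intro p hp q hq hpq
      simp only [Prod.mk.injEq, decide_eq_decide] at hpq
      have hp' := hS p hp
      have hq' := hS q hq
      have h3 : c * p.1 + e = c * q.1 + e := by
        rcases le_or_gt 0 (c * p.1 + e) with h | h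
        · have := hpq.2.mp h
          have h4 := hpq.1
          omega
        · have h5 : ¬ 0 ≤ c * q.1 + e := by
            intro h6; have := hpq.2.mpr h6; omega
          have h4 := hpq.1
          omega
      have h4 : p.1 = q.1 := by
        have : c * (p.1 - q.1) = 0 := by linear_combination h3
        rcases mul_eq_zero.mp this with h | h
        · exact absurd h hc
        · omega
      have h5 : p.2 = q.2 := by
        have h6 : c * p.1 + e ≠ 0 := by
          intro h7; rw [h7, zero_mul] at hp'; exact hK hp'.symm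
        have h7 : (c * p.1 + e) * (c * (p.2 - q.2)) = 0 := by
          rw [← h3] at hq'
          linear_combination hp' - hq'
        rcases mul_eq_zero.mp h7 with h | h
        · exact absurd h h6
        · rcases mul_eq_zero.mp h with h | h
          · exact absurd h hc
          · omega
      exact Prod.ext h4 h5
  rw [Finset.card_product] at h1
  simp at h1
  omega

lemma pair_count_zero (X : ℕ) (c e f : ℤ) (hc : c ≠ 0) (S : Finset (ℤ × ℤ))
    (hb : ∀ p ∈ S, |p.1| ≤ X ∧ |p.2| ≤ X)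
    (hS : ∀ p ∈ S, (c * p.1 + e) * (c * p.2 + f) = 0) :
    S.card ≤ 2 * (2 * X + 1) := by
  classical
  have hI : (Finset.Icc (-(X:ℤ)) X).card = 2 * X + 1 := by rw [Int.card_Icc]; omega
  have h1 : (S.filter (fun p => c * p.1 + e = 0)).card ≤ 2 * X + 1 := by
    rw [← hI]
    apply Finset.card_le_card_of_injOn (fun p => p.2)
    · intro p hp
      rw [Finset.mem_coe, Finset.mem_filter] at hp
      rw [Finset.mem_coe, Finset.mem_Icc]
      exact abs_le.mp (hb p hp.1).2
    · intro p hp q hq hpq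
      rw [Finset.mem_coe, Finset.mem_filter] at hp hq
      have : c * (p.1 - q.1) = 0 := by linear_combination hp.2 - hq.2
      rcases mul_eq_zero.mp this with h | h
      · exact absurd h hc
      · exact Prod.ext (by omega) hpq
  have h2 : (S.filter (fun p => ¬ c * p.1 + e = 0)).card ≤ 2 * X + 1 := by
    rw [← hI]
    apply Finset.card_le_card_of_injOn (fun p => p.1)
    · intro p hp
      rw [Finset.mem_coe, Finset.mem_filter] at hp
      rw [Finset.mem_coe, Finset.mem_Icc]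
      exact abs_le.mp (hb p hp.1).1
    · intro p hp q hq hpq
      rw [Finset.mem_coe, Finset.mem_filter] at hp hq
      have h3 : c * p.2 + f = 0 := by
        rcases mul_eq_zero.mp (hS p hp.1) with h | h
        · exact absurd h hp.2
        · exact h
      have h4 : c * q.2 + f = 0 := by
        rcases mul_eq_zero.mp (hS q hq.1) with h | h
        · exact absurd h hq.2
        · exact h
      have : c * (p.2 - q.2) = 0 := by linear_combination h3 - h4
      rcases mul_eq_zero.mp this with h | h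
      · exact absurd h hc
      · exact Prod.ext hpq (by omega)
  have h3 := Finset.card_filter_add_card_filter_not (s := S) (fun p => c * p.1 + e = 0)
  omega

lemma quad_zeros (κ0 κ1 κ2 : ℤ) (h0 : κ0 ≠ 0) (S : Finset ℤ)
    (hS : ∀ t ∈ S, κ0 + κ1 * t + κ2 * t ^ 2 = 0) : S.card ≤ 2 := by
  by_contra hcon
  push Not at hcon
  obtain ⟨a, b, c, ha, hb, hc, hab, hac, hbc⟩ := Finset.two_lt_card_iff.mp hcon
  have ea := hS a ha
  have eb := hS b hb
  have ec := hS c hc
  have h1 : (a - b) * (κ1 + κ2 * (a + b)) = 0 := by linear_combination ea - eb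
  have h2 : (a - c) * (κ1 + κ2 * (a + c)) = 0 := by linear_combination ea - ec
  have h3 : κ1 + κ2 * (a + b) = 0 := by
    rcases mul_eq_zero.mp h1 with h | h
    · exact absurd (by omega) hab
    · exact h
  have h4 : κ1 + κ2 * (a + c) = 0 := by
    rcases mul_eq_zero.mp h2 with h | h
    · exact absurd (by omega) hac
    · exact h
  have h5 : κ2 * (b - c) = 0 := by linear_combination h3 - h4
  have h6 : κ2 = 0 := by
    rcases mul_eq_zero.mp h5 with h | h
    · exact h
    · exact absurd (by omega) hbc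
  rw [h6] at h3
  have h7 : κ1 = 0 := by linarith
  rw [h6, h7] at ea
  apply h0
  linarith

lemma abstract_count (X Dm : ℕ) (S : Finset M2) (t x y : M2 → ℤ)
    (hb : ∀ g ∈ S, |t g| ≤ X ∧ |x g| ≤ X ∧ |y g| ≤ X)
    (hinj : ∀ g ∈ S, ∀ g' ∈ S, t g = t g' → x g = x g' → y g = y g' → g = g')
    (c : ℤ) (hc : c ≠ 0) (e f : ℤ → ℤ) (κ0 κ1 κ2 : ℤ) (hκ : κ0 ≠ 0)
    (hprod : ∀ g ∈ S, (c * x g + e (t g)) * (c * y g + f (t g)) = κ0 + κ1 * t g + κ2 * (t g)^2)
    (hD : ∀ t : ℤ, |t| ≤ X → κ0 + κ1 * t + κ2 * t^2 ≠ 0 →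
      (κ0 + κ1 * t + κ2 * t^2).natAbs.divisors.card ≤ Dm) :
    S.card ≤ (2 * X + 1) * (2 * Dm) + 4 * (2 * X + 1) := by
  classical
  have hI : (Finset.Icc (-(X:ℤ)) X).card = 2 * X + 1 := by rw [Int.card_Icc]; omega
  rw [Finset.card_eq_sum_card_fiberwise (f := t) (t := Finset.Icc (-(X:ℤ)) X) (by
    intro g hg
    rw [Finset.mem_coe, Finset.mem_Icc]
    exact abs_le.mp (hb g hg).1)]
  have h1 : ∀ s ∈ Finset.Icc (-(X:ℤ)) X, (S.filter (fun g => t g = s)).card ≤
      2 * Dm + (if κ0 + κ1 * s + κ2 * s^2 = 0 then 2 * (2 * X + 1) else 0) := by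
    intro s hs
    have hs' : |s| ≤ X := abs_le.mpr (Finset.mem_Icc.mp hs)
    set P := (S.filter (fun g => t g = s)).image (fun g => (x g, y g)) with hP
    have hPc : (S.filter (fun g => t g = s)).card = P.card := by
      rw [hP, Finset.card_image_of_injOn]
      intro g hg g' hg' h
      rw [Finset.mem_coe, Finset.mem_filter] at hg hg'
      simp only [Prod.mk.injEq] at h
      exact hinj g hg.1 g' hg'.1 (by rw [hg.2, hg'.2]) h.1 h.2
    have hPb : ∀ p ∈ P, |p.1| ≤ X ∧ |p.2| ≤ X := by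
      intro p hp
      rw [hP, Finset.mem_image] at hp
      obtain ⟨g, hg, rfl⟩ := hp
      rw [Finset.mem_filter] at hg
      exact (hb g hg.1).2
    have hPp : ∀ p ∈ P, (c * p.1 + e s) * (c * p.2 + f s) = κ0 + κ1 * s + κ2 * s^2 := by
      intro p hp
      rw [hP, Finset.mem_image] at hp
      obtain ⟨g, hg, rfl⟩ := hp
      rw [Finset.mem_filter] at hg
      have := hprod g hg.1
      rw [hg.2] at this
      exact this
    rw [hPc]
    split_ifs with h0
    · have := pair_count_zero X c (e s) (f s) hc P hPb (fun p hp => by rw [hPp p hp, h0])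
      omega
    · have h2 := pair_count_ne c (e s) (f s) _ hc h0 P hPp
      have h3 := hD s hs' h0
      omega
  refine (Finset.sum_le_sum h1).trans ?_
  rw [Finset.sum_add_distrib, Finset.sum_const, hI, smul_eq_mul, ← Finset.sum_filter, Finset.sum_const, smul_eq_mul]
  have h2 := quad_zeros κ0 κ1 κ2 hκ ((Finset.Icc (-(X:ℤ)) X).filter (fun s => κ0 + κ1 * s + κ2 * s^2 = 0))
    (fun t ht => (Finset.mem_filter.mp ht).2)
  have h3 : ((Finset.Icc (-(X:ℤ)) X).filter (fun s => κ0 + κ1 * s + κ2 * s^2 = 0)).card * (2 * (2 * X + 1)) ≤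
      2 * (2 * (2 * X + 1)) := Nat.mul_le_mul_right _ h2
  omega

lemma div_card_le (x : ℕ) (K : ℤ) (hK : K ≠ 0) (h : K.natAbs ≤ 28 * x ^ 8) :
    K.natAbs.divisors.card ≤ 28 * Cd * x := by
  have h1 := divisor_bound K.natAbs (by simpa using hK)
  have hC := Cd_pos
  have h2 : K.natAbs.divisors.card ^ 8 ≤ (28 * Cd * x) ^ 8 := by
    calc _ ≤ Cd * K.natAbs := h1
      _ ≤ Cd * (28 * x^8) := Nat.mul_le_mul_left _ h
      _ = (28 * Cd) * x^8 := by ring
      _ ≤ (28 * Cd)^8 * x^8 := by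
          apply Nat.mul_le_mul_right
          apply Nat.le_self_pow (by norm_num)
      _ = _ := by rw [← mul_pow]
  exact (Nat.pow_le_pow_iff_left (by norm_num)).mp h2

/-- the number of unimodular `g` with `g - Y` unimodular -/
theorem diff_count (X x : ℕ) (hx : 1 ≤ x) (hX : X ≤ x ^ 2) (Y : M2)
    (hY : ¬ (Y.a = 0 ∧ Y.b = 0 ∧ Y.c = 0 ∧ Y.d = 0))
    (hYb : |Y.a| ≤ 2 * X ∧ |Y.b| ≤ 2 * X ∧ |Y.c| ≤ 2 * X ∧ |Y.d| ≤ 2 * X) :
    ((slb X).filter (fun g => (g.a - Y.a) * (g.d - Y.d) - (g.b - Y.b) * (g.c - Y.c) = 1)).card ≤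
      180 * Cd * x ^ 3 := by
  classical
  set S := (slb X).filter (fun g => (g.a - Y.a) * (g.d - Y.d) - (g.b - Y.b) * (g.c - Y.c) = 1) with hS
  rcases S.eq_empty_or_nonempty with hemp | hne
  · rw [hemp]; simp
  have hX1 : 1 ≤ X := by
    obtain ⟨g, hg⟩ := hne
    rw [hS, Finset.mem_filter, mem_slb] at hg
    by_contra hcon
    have h0 : X = 0 := by omega
    subst h0
    obtain ⟨⟨⟨h1, h2, h3, h4⟩, h5⟩, _⟩ := hg
    simp only [Nat.cast_zero, abs_nonpos_iff] at h1 h2 h3 h4
    rw [h1, h2] at h5; simp at h5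
  have hXz : (1:ℤ) ≤ X := by exact_mod_cast hX1
  have hx8 : X ^ 4 ≤ x ^ 8 := by
    calc X^4 ≤ (x^2)^4 := Nat.pow_le_pow_left hX 4
      _ = x^8 := by ring
  obtain ⟨y1, y2, y3, y4⟩ := Y
  simp only at hY hYb
  set κ := y1 * y4 - y2 * y3 with hκ
  have hκb : |κ| ≤ 8 * (X:ℤ)^2 := by
    rw [hκ]
    calc |y1 * y4 - y2 * y3| ≤ |y1 * y4| + |y2 * y3| := abs_sub _ _
      _ = |y1| * |y4| + |y2| * |y3| := by rw [abs_mul, abs_mul]
      _ ≤ (2 * X) * (2 * X) + (2 * X) * (2 * X) := by
          obtain ⟨h1, h2, h3, h4⟩ := hYb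
          gcongr
      _ = _ := by ring
  -- general bound for the quadratic polynomial
  have hKb : ∀ κ0 κ1 κ2 s : ℤ, |κ0| ≤ 4 * (X:ℤ)^2 → |κ1| ≤ 16 * (X:ℤ)^3 → |κ2| ≤ 8 * (X:ℤ)^2 → |s| ≤ X →
      (κ0 + κ1 * s + κ2 * s^2).natAbs ≤ 28 * x ^ 8 := by
    intro κ0 κ1 κ2 s h0 h1 h2 hs
    have h3 : |κ0 + κ1 * s + κ2 * s^2| ≤ 28 * (X:ℤ)^4 := by
      calc |κ0 + κ1 * s + κ2 * s^2| ≤ |κ0| + |κ1 * s| + |κ2 * s^2| := abs_add_three _ _ _
        _ = |κ0| + |κ1| * |s| + |κ2| * |s|^2 := by rw [abs_mul, abs_mul, abs_pow]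
        _ ≤ 4 * (X:ℤ)^2 + 16 * (X:ℤ)^3 * X + 8 * (X:ℤ)^2 * (X:ℤ)^2 := by gcongr
        _ ≤ 4 * (X:ℤ)^4 + 16 * (X:ℤ)^3 * X + 8 * (X:ℤ)^2 * (X:ℤ)^2 := by
            gcongr
            norm_num
        _ = _ := by ring
    have h4 : ((κ0 + κ1 * s + κ2 * s^2).natAbs : ℤ) ≤ ((28 * x^8 : ℕ) : ℤ) := by
      rw [← Int.abs_eq_natAbs]
      refine h3.trans ?_
      push_cast
      have : (X:ℤ)^4 ≤ (x:ℤ)^8 := by exact_mod_cast hx8
      linarith
    exact_mod_cast h4
  have hDm : ∀ κ0 κ1 κ2 : ℤ, |κ0| ≤ 4 * (X:ℤ)^2 → |κ1| ≤ 16 * (X:ℤ)^3 → |κ2| ≤ 8 * (X:ℤ)^2 →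
      ∀ t : ℤ, |t| ≤ X → κ0 + κ1 * t + κ2 * t^2 ≠ 0 →
      (κ0 + κ1 * t + κ2 * t^2).natAbs.divisors.card ≤ 28 * Cd * x := by
    intro κ0 κ1 κ2 h0 h1 h2 t ht hne
    exact div_card_le x _ hne (hKb κ0 κ1 κ2 t h0 h1 h2 ht)
  have hfin : (2 * X + 1) * (2 * (28 * Cd * x)) + 4 * (2 * X + 1) ≤ 180 * Cd * x ^ 3 := by
    have hC := Cd_pos
    have h1 : 2 * X + 1 ≤ 3 * x^2 := by
      have : 1 ≤ x^2 := Nat.one_le_pow _ _ hx
      omega
    have h2 : x^2 ≤ Cd * x^3 := by
      calc x^2 = 1 * x^2 := (one_mul _).symm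
        _ ≤ (Cd * x) * x^2 := by
            apply Nat.mul_le_mul_right
            exact Nat.one_le_iff_ne_zero.mpr (by positivity)
        _ = Cd * x^3 := by ring
    calc (2 * X + 1) * (2 * (28 * Cd * x)) + 4 * (2 * X + 1) ≤ (3 * x^2) * (2 * (28 * Cd * x)) + 4 * (3 * x^2) := by
          gcongr
      _ = 168 * (Cd * x^3) + 12 * x^2 := by ring
      _ ≤ 168 * (Cd * x^3) + 12 * (Cd * x^3) := by gcongr
      _ = _ := by ring
  -- the defining equations
  have hmem : ∀ g ∈ S, (|g.a| ≤ X ∧ |g.b| ≤ X ∧ |g.c| ≤ X ∧ |g.d| ≤ X) ∧ g.a * g.d - g.b * g.c = 1 ∧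
      y4 * g.a - y3 * g.b - y2 * g.c + y1 * g.d = κ := by
    intro g hg
    rw [hS, Finset.mem_filter, mem_slb] at hg
    refine ⟨hg.1.1, hg.1.2, ?_⟩
    have h1 := hg.2
    have h2 := hg.1.2
    simp only at h1
    rw [hκ]
    linear_combination h2 - h1
  obtain ⟨hy1, hy2, hy3, hy4⟩ := hYb
  have hq : ∀ u v : ℤ, |u| ≤ 2 * X → |v| ≤ 2 * X → |u * v| ≤ 4 * (X:ℤ)^2 := by
    intro u v hu hv
    rw [abs_mul]
    calc |u| * |v| ≤ (2 * X) * (2 * X) := by gcongr
      _ = _ := by ring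
  have hq1 : ∀ u : ℤ, |u| ≤ 2 * X → |u * κ| ≤ 16 * (X:ℤ)^3 := by
    intro u hu
    rw [abs_mul]
    calc |u| * |κ| ≤ (2 * X) * (8 * (X:ℤ)^2) := by gcongr
      _ = _ := by ring
  have hq2 : |y1 * y4 - y2 * y3| ≤ 8 * (X:ℤ)^2 := hκb
  have hq2' : |y2 * y3 - y1 * y4| ≤ 8 * (X:ℤ)^2 := by rw [abs_sub_comm]; exact hκb
  by_cases c2 : y2 = 0
  · by_cases c3 : y3 = 0
    · by_cases c1 : y1 = 0
      · have c4 : y4 ≠ 0 := fun h => hY ⟨c1, c2, c3, h⟩
        -- coefficient of a is y4 : t = d, (x,y) = (c, b)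
        refine le_trans (abstract_count X (28 * Cd * x) S (fun g => g.d) (fun g => g.c) (fun g => g.b)
          (fun g hg => ⟨(hmem g hg).1.2.2.2, (hmem g hg).1.2.2.1, (hmem g hg).1.2.1⟩) ?_
          y4 c4 (fun s => -y3 * s) (fun s => -y2 * s) (-(y4 * y4)) (y4 * κ) (y2 * y3 - y1 * y4)
          (by simpa using c4) ?_ ?_) hfin
        · intro g hg g' hg' h1 h2 h3
          have e1 := (hmem g hg).2.2
          have e2 := (hmem g' hg').2.2
          apply M2.ext' _ h3 h2 h1
          rw [h1, h2, h3] at e1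
          have : y4 * (g.a - g'.a) = 0 := by linear_combination e1 - e2
          rcases mul_eq_zero.mp this with h | h
          · exact absurd h c4
          · omega
        · intro g hg
          have e0 := (hmem g hg).2.1
          have e1 := (hmem g hg).2.2
          linear_combination (y4 * g.d) * e1 - y4^2 * e0
        · exact hDm _ _ _ (by rw [abs_neg]; exact hq _ _ hy4 hy4) (hq1 _ hy4) hq2'
      · -- coefficient of d is y1 : t = a, (x,y) = (c,b)
        refine le_trans (abstract_count X (28 * Cd * x) S (fun g => g.a) (fun g => g.c) (fun g => g.b)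
          (fun g hg => ⟨(hmem g hg).1.1, (hmem g hg).1.2.2.1, (hmem g hg).1.2.1⟩) ?_
          y1 c1 (fun s => -y3 * s) (fun s => -y2 * s) (-(y1 * y1)) (y1 * κ) (y2 * y3 - y1 * y4)
          (by simpa using c1) ?_ ?_) hfin
        · intro g hg g' hg' h1 h2 h3
          have e1 := (hmem g hg).2.2
          have e2 := (hmem g' hg').2.2
          apply M2.ext' h1 h3 h2 _
          rw [h1, h2, h3] at e1
          have : y1 * (g.d - g'.d) = 0 := by linear_combination e1 - e2
          rcases mul_eq_zero.mp this with h | h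
          · exact absurd h c1
          · omega
        · intro g hg
          have e0 := (hmem g hg).2.1
          have e1 := (hmem g hg).2.2
          linear_combination (y1 * g.a) * e1 - y1^2 * e0
        · exact hDm _ _ _ (by rw [abs_neg]; exact hq _ _ hy1 hy1) (hq1 _ hy1) hq2'
    · -- coefficient of b is -y3 : t = c, (x,y) = (a,d)
      refine le_trans (abstract_count X (28 * Cd * x) S (fun g => g.c) (fun g => g.a) (fun g => g.d)
        (fun g hg => ⟨(hmem g hg).1.2.2.1, (hmem g hg).1.1, (hmem g hg).1.2.2.2⟩) ?_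
        (-y3) (by simpa using c3) (fun s => y1 * s) (fun s => y4 * s) (y3 * y3) (-y3 * κ) (y1 * y4 - y2 * y3)
        (by simpa using c3) ?_ ?_) hfin
      · intro g hg g' hg' h1 h2 h3
        have e1 := (hmem g hg).2.2
        have e2 := (hmem g' hg').2.2
        apply M2.ext' h2 _ h1 h3
        rw [h1, h2, h3] at e1
        have : y3 * (g.b - g'.b) = 0 := by linear_combination e2 - e1
        rcases mul_eq_zero.mp this with h | h
        · exact absurd h c3
        · omega
      · intro g hg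
        have e0 := (hmem g hg).2.1
        have e1 := (hmem g hg).2.2
        linear_combination (-y3 * g.c) * e1 + y3^2 * e0
      · exact hDm _ _ _ (hq _ _ hy3 hy3) (hq1 _ (by rw [abs_neg]; exact hy3)) hq2
  · -- coefficient of c is -y2 : t = b, (x,y) = (a,d)
    refine le_trans (abstract_count X (28 * Cd * x) S (fun g => g.b) (fun g => g.a) (fun g => g.d)
      (fun g hg => ⟨(hmem g hg).1.2.1, (hmem g hg).1.1, (hmem g hg).1.2.2.2⟩) ?_
      (-y2) (by simpa using c2) (fun s => y1 * s) (fun s => y4 * s) (y2 * y2) (-y2 * κ) (y1 * y4 - y2 * y3)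
      (by simpa using c2) ?_ ?_) hfin
    · intro g hg g' hg' h1 h2 h3
      have e1 := (hmem g hg).2.2
      have e2 := (hmem g' hg').2.2
      apply M2.ext' h2 h1 _ h3
      rw [h1, h2, h3] at e1
      have : y2 * (g.c - g'.c) = 0 := by linear_combination e2 - e1
      rcases mul_eq_zero.mp this with h | h
      · exact absurd h c2
      · omega
    · intro g hg
      have e0 := (hmem g hg).2.1
      have e1 := (hmem g hg).2.2
      linear_combination (-y2 * g.b) * e1 + y2^2 * e0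
    · exact hDm _ _ _ (hq _ _ hy2 hy2) (hq1 _ (by rw [abs_neg]; exact hy2)) hq2

end MDiv
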