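import Mathlib
import Pool.Agent.Hhelper92.Mult.SL2b
import Pool.Agent.Hhelper92.Mult.Fejer

set_option autoImplicit false

/-!
The bilinear estimate: completing one of the two unimodular matrices.
-/

namespace MDiv

open Finset

lemma packing (N2 Y : ℕ) (hY : 0 < Y) (R : Finset (ℤ × ℤ))
    (hb : ∀ p ∈ R, |p.1| ≤ 2 * N2 ∧ |p.2| ≤ 2 * N2)
    (hsep : ∀ p ∈ R, ∀ q ∈ R, |p.1 - q.1| ≤ Y → |p.2 - q.2| ≤ Y → p = q) :
    R.card ≤ (4 * N2 / Y + 1) ^ 2 := by
  classical
  have hYz : (0:ℤ) < Y := by exact_mod_cast hY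
  have h1 : R.card ≤ ((Finset.Icc (0:ℤ) (4 * N2 / Y : ℕ)) ×ˢ (Finset.Icc (0:ℤ) (4 * N2 / Y : ℕ))).card := by
    apply Finset.card_le_card_of_injOn (fun p : ℤ × ℤ => ((p.1 + 2 * (N2:ℤ)) / (Y:ℤ), (p.2 + 2 * (N2:ℤ)) / (Y:ℤ)))
    · intro p hp
      have h2 := hb p hp
      rw [abs_le, abs_le] at h2
      rw [Finset.mem_coe, Finset.mem_product, Finset.mem_Icc, Finset.mem_Icc]
      push_cast
      refine ⟨⟨?_, ?_⟩, ?_, ?_⟩
      · apply Int.ediv_nonneg <;> omega
      · apply Int.ediv_le_ediv hYz; omega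
      · apply Int.ediv_nonneg <;> omega
      · apply Int.ediv_le_ediv hYz; omega
    · intro p hp q hq hpq
      simp only [Prod.mk.injEq] at hpq
      have key : ∀ a b : ℤ, (a + 2 * N2) / Y = (b + 2 * N2) / Y → |a - b| ≤ Y := by
        intro a b hab
        have e1 := Int.emod_add_mul_ediv (a + 2 * N2) Y
        have e2 := Int.emod_add_mul_ediv (b + 2 * N2) Y
        have m1 := Int.emod_nonneg (a + 2 * N2) hYz.ne'
        have m2 := Int.emod_lt_of_pos (a + 2 * N2) hYz
        have m3 := Int.emod_nonneg (b + 2 * N2) hYz.ne'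
        have m4 := Int.emod_lt_of_pos (b + 2 * N2) hYz
        rw [hab] at e1
        rw [abs_le]
        constructor <;> linarith
      exact hsep p hp q hq (key _ _ hpq.1) (key _ _ hpq.2)
  refine h1.trans ?_
  rw [Finset.card_product, Int.card_Icc]
  have : (((4 * N2 / Y : ℕ) : ℤ) + 1 - 0).toNat = 4 * N2 / Y + 1 := by
    generalize 4 * N2 / Y = q
    omega
  rw [this, sq]

variable {κ : Type*} [Fintype κ] [DecidableEq κ]

/-- the image of the vectors `z i` under the matrix `g` -/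
noncomputable def pt (z : κ → ℝ × ℝ) (g : M2) (p : κ × Bool) : ℝ :=
  if p.2 then g.c * (z p.1).1 + g.d * (z p.1).2 else g.a * (z p.1).1 + g.b * (z p.1).2

theorem close_pairs (z : κ → ℝ × ℝ) (N N2 Y x : ℕ) (hN : 0 < N) (hY : 0 < Y) (hx : 1 ≤ x)
    (hN2 : N2 ≤ x ^ 2)
    (hlam : ∀ y1 y2 : ℤ, ¬ (y1 = 0 ∧ y2 = 0) → |y1| ≤ Y → |y2| ≤ Y →
      ∃ i, 2 / (N:ℝ) < nd (y1 * (z i).1 + y2 * (z i).2))
    (ζ : κ × Bool → ℝ) :
    ((((slb N2) ×ˢ (slb N2)).filter (fun gh => ∀ p, nd (pt z gh.1 p - pt z gh.2 p - ζ p) ≤ 1 / N)).card : ℝ) ≤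
      60 * (N2:ℝ)^2 + ((4 * N2 / Y + 1 : ℕ) : ℝ) ^ 4 * (180 * Cd * x ^ 3) := by
  classical
  set R : Bool → Finset (ℤ × ℤ) := fun r =>
    ((Finset.Icc (-(2*N2:ℤ)) (2*N2)) ×ˢ (Finset.Icc (-(2*N2:ℤ)) (2*N2))).filter
      (fun y => ∀ i, nd (y.1 * (z i).1 + y.2 * (z i).2 - ζ (i, r)) ≤ 1 / N) with hR
  have hRb : ∀ r, ∀ p ∈ R r, |p.1| ≤ 2 * (N2:ℤ) ∧ |p.2| ≤ 2 * (N2:ℤ) := by
    intro r p hp
    rw [hR, Finset.mem_filter, Finset.mem_product, Finset.mem_Icc, Finset.mem_Icc] at hp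
    exact ⟨abs_le.mpr hp.1.1, abs_le.mpr hp.1.2⟩
  have hRc : ∀ r, (R r).card ≤ (4 * N2 / Y + 1) ^ 2 := by
    intro r
    apply packing N2 Y hY (R r) (hRb r)
    intro p hp q hq h1 h2
    by_contra hne
    have hne' : ¬ (p.1 - q.1 = 0 ∧ p.2 - q.2 = 0) := by
      rintro ⟨e1, e2⟩
      exact hne (Prod.ext (by omega) (by omega))
    obtain ⟨i, hi⟩ := hlam _ _ hne' h1 h2
    rw [hR, Finset.mem_filter] at hp hq
    have e1 := hp.2 i
    have e2 := hq.2 i
    have e3 := nd_sub_le (p.1 * (z i).1 + p.2 * (z i).2 - ζ (i, r)) (q.1 * (z i).1 + q.2 * (z i).2 - ζ (i, r))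
    have e4 : (p.1 * (z i).1 + p.2 * (z i).2 - ζ (i, r)) - (q.1 * (z i).1 + q.2 * (z i).2 - ζ (i, r)) =
        ((p.1 - q.1 : ℤ) : ℝ) * (z i).1 + ((p.2 - q.2 : ℤ) : ℝ) * (z i).2 := by push_cast; ring
    rw [e4] at e3
    have e5 : (2:ℝ) / N = 1 / N + 1 / N := by ring
    linarith
  set S := ((slb N2) ×ˢ (slb N2)).filter (fun gh => ∀ p, nd (pt z gh.1 p - pt z gh.2 p - ζ p) ≤ 1 / N) with hS
  set φ : M2 × M2 → (ℤ × ℤ) × (ℤ × ℤ) := fun gh =>
    ((gh.1.a - gh.2.a, gh.1.b - gh.2.b), (gh.1.c - gh.2.c, gh.1.d - gh.2.d)) with hφ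
  have hmaps : ∀ gh ∈ S, φ gh ∈ (R false) ×ˢ (R true) := by
    intro gh hgh
    rw [hS, Finset.mem_filter, Finset.mem_product, mem_slb, mem_slb] at hgh
    obtain ⟨⟨⟨⟨a1, a2, a3, a4⟩, _⟩, ⟨⟨b1, b2, b3, b4⟩, _⟩⟩, hp⟩ := hgh
    have hsub : ∀ u v : ℤ, |u| ≤ N2 → |v| ≤ N2 → -(2 * N2:ℤ) ≤ u - v ∧ u - v ≤ 2 * N2 := by
      intro u v hu hv
      rw [abs_le] at hu hv
      constructor <;> omega
    rw [hφ, Finset.mem_product]
    simp only [hR, Finset.mem_filter, Finset.mem_product, Finset.mem_Icc]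
    refine ⟨⟨⟨hsub _ _ a1 b1, hsub _ _ a2 b2⟩, ?_⟩, ⟨⟨hsub _ _ a3 b3, hsub _ _ a4 b4⟩, ?_⟩⟩
    · intro i
      have := hp (i, false)
      unfold pt at this
      simp only [Bool.false_eq_true, if_false] at this
      convert this using 2
      push_cast; ring
    · intro i
      have := hp (i, true)
      unfold pt at this
      simp only [if_true] at this
      convert this using 2
      push_cast; ring
  have hfib : ∀ tb ∈ (R false) ×ˢ (R true), ((S.filter (fun gh => φ gh = tb)).card : ℝ) ≤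
      (if tb = ((0,0),(0,0)) then 60 * (N2:ℝ)^2 else 0) + 180 * Cd * x^3 := by
    intro tb htb
    rw [Finset.mem_product] at htb
    have hb1 := hRb _ _ htb.1
    have hb2 := hRb _ _ htb.2
    split_ifs with h0
    · have h1 : (S.filter (fun gh => φ gh = tb)).card ≤ (slb N2).card := by
        apply Finset.card_le_card_of_injOn (fun gh => gh.1)
        · intro gh hgh
          rw [Finset.mem_coe, Finset.mem_filter, hS, Finset.mem_filter, Finset.mem_product] at hgh
          exact hgh.1.1.1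
        · intro gh hgh gh' hgh' he
          rw [Finset.mem_coe, Finset.mem_filter] at hgh hgh'
          have e1 := hgh.2
          have e2 := hgh'.2
          rw [h0, hφ] at e1 e2
          simp only [Prod.mk.injEq] at e1 e2
          simp only at he
          have e3 : gh.2 = gh'.2 := by
            apply M2.ext'
            · have := congrArg M2.a he; omega
            · have := congrArg M2.b he; omega
            · have := congrArg M2.c he; omega
            · have := congrArg M2.d he; omega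
          exact Prod.ext he e3
      have h2 := card_slb N2
      have h3 : ((S.filter (fun gh => φ gh = tb)).card : ℝ) ≤ (slb N2).card := by exact_mod_cast h1
      have h4 : (0:ℝ) ≤ 180 * Cd * x^3 := by positivity
      linarith
    · rw [zero_add]
      have h1 : (S.filter (fun gh => φ gh = tb)).card ≤
          ((slb N2).filter (fun g => (g.a - tb.1.1) * (g.d - tb.2.2) - (g.b - tb.1.2) * (g.c - tb.2.1) = 1)).card := by
        apply Finset.card_le_card_of_injOn (fun gh => gh.1)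
        · intro gh hgh
          rw [Finset.mem_coe, Finset.mem_filter, hS, Finset.mem_filter, Finset.mem_product] at hgh
          rw [Finset.mem_coe, Finset.mem_filter]
          refine ⟨hgh.1.1.1, ?_⟩
          have e1 := (mem_slb _ _).mp hgh.1.1.2
          rw [← hgh.2, hφ]
          simp only
          have := e1.2
          linear_combination this
        · intro gh hgh gh' hgh' he
          rw [Finset.mem_coe, Finset.mem_filter] at hgh hgh'
          have e1 := hgh.2.trans hgh'.2.symm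
          rw [hφ] at e1
          simp only [Prod.mk.injEq] at e1
          simp only at he
          have e3 : gh.2 = gh'.2 := by
            apply M2.ext'
            · have := congrArg M2.a he; omega
            · have := congrArg M2.b he; omega
            · have := congrArg M2.c he; omega
            · have := congrArg M2.d he; omega
          exact Prod.ext he e3
      have h2 := diff_count N2 x hx hN2 ⟨tb.1.1, tb.1.2, tb.2.1, tb.2.2⟩ (by
        rintro ⟨e1, e2, e3, e4⟩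
        apply h0
        simp only at e1 e2 e3 e4
        exact Prod.ext (Prod.ext e1 e2) (Prod.ext e3 e4)) ⟨hb1.1, hb1.2, hb2.1, hb2.2⟩
      have h3 := h1.trans h2
      exact_mod_cast h3
  rw [Finset.card_eq_sum_card_fiberwise (f := φ) (t := (R false) ×ˢ (R true)) hmaps]
  push_cast
  refine (Finset.sum_le_sum hfib).trans ?_
  rw [Finset.sum_add_distrib, Finset.sum_const, nsmul_eq_mul]
  apply add_le_add
  · rw [← Finset.sum_filter, Finset.sum_const, nsmul_eq_mul]
    have : (((R false) ×ˢ (R true)).filter (fun tb => tb = ((0,0),(0,0)))).card ≤ 1 := by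
      apply Finset.card_le_one.mpr
      intro a ha b hb
      rw [Finset.mem_filter] at ha hb
      rw [ha.2, hb.2]
    have h5 : ((((R false) ×ˢ (R true)).filter (fun tb => tb = ((0,0),(0,0)))).card : ℝ) ≤ 1 := by exact_mod_cast this
    calc _ ≤ 1 * (60 * (N2:ℝ)^2) := by gcongr
      _ = _ := one_mul _
  · have h6 : (((R false) ×ˢ (R true)).card : ℝ) ≤ ((4 * N2 / Y + 1 : ℕ) : ℝ) ^ 4 := by
      rw [Finset.card_product]
      have h7 := hRc false
      have h8 := hRc true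
      have h9 : (R false).card * (R true).card ≤ (4 * N2 / Y + 1) ^ 4 := by
        calc _ ≤ (4 * N2 / Y + 1) ^ 2 * (4 * N2 / Y + 1) ^ 2 := Nat.mul_le_mul h7 h8
          _ = _ := by ring
      exact_mod_cast h9
    push_cast at h6 ⊢
    gcongr

theorem bilin (z : κ → ℝ × ℝ) (N N2 Y x : ℕ) (hN : 0 < N) (hY : 0 < Y) (hx : 1 ≤ x)
    (hN2 : N2 ≤ x ^ 2)
    (hlam : ∀ y1 y2 : ℤ, ¬ (y1 = 0 ∧ y2 = 0) → |y1| ≤ Y → |y2| ≤ Y →
      ∃ i, 2 / (N:ℝ) < nd (y1 * (z i).1 + y2 * (z i).2)) :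
    ∑ X ∈ sbox (κ × Bool) N, ‖∑ g ∈ slb N2, e (∑ p, (X p : ℝ) * pt z g p)‖ ^ 2 ≤
      (10 * (N:ℝ)) ^ (2 * Fintype.card κ) *
      (60 * (N2:ℝ)^2 + ((4 * N2 / Y + 1 : ℕ) : ℝ) ^ 4 * (180 * Cd * x ^ 3)) := by
  have h1 := large_sieve (slb N2) (fun g => pt z g) N hN _ (close_pairs z N N2 Y x hN hY hx hN2 hlam)
  rw [Fintype.card_prod, Fintype.card_bool, mul_comm (Fintype.card κ) 2] at h1
  exact h1

end MDiv
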