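import Mathlib
import Pool.Agent.Hhelper92.Mult.SL2

set_option autoImplicit false

/-!
Counting pairs of integer vectors with small cross product.
-/

namespace MDiv

open Finset

lemma int_interval (S : Finset ℤ) (p : ℤ) (hp : p ≠ 0) (A D : ℝ) (hD : 0 ≤ D)
    (h : ∀ n ∈ S, |(p:ℝ) * n - A| ≤ D) : (S.card : ℝ) ≤ 2 * D / |(p:ℝ)| + 1 := by
  have hp' : (0:ℝ) < |(p:ℝ)| := by
    rw [abs_pos]; exact_mod_cast hp
  rcases S.eq_empty_or_nonempty with hemp | hne
  · rw [hemp]; simp; positivity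
  · set m := S.min' hne
    set M := S.max' hne
    have hm : m ∈ S := S.min'_mem hne
    have hM : M ∈ S := S.max'_mem hne
    have hmM : m ≤ M := S.min'_le _ hM
    have h1 : S ⊆ Finset.Icc m M := by
      intro i hi
      rw [Finset.mem_Icc]
      exact ⟨S.min'_le _ hi, S.le_max' _ hi⟩
    have h2 : S.card ≤ (M + 1 - m).toNat := by
      have := Finset.card_le_card h1
      rwa [Int.card_Icc] at this
    have h3 : (S.card : ℝ) ≤ (M:ℝ) - m + 1 := by
      have h4 : (S.card : ℤ) ≤ M - m + 1 := by omega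
      exact_mod_cast h4
    have h4 : |(p:ℝ)| * ((M:ℝ) - m) ≤ 2 * D := by
      have h5 : (0:ℝ) ≤ (M:ℝ) - m := by
        have : (m:ℝ) ≤ M := by exact_mod_cast hmM
        linarith
      calc |(p:ℝ)| * ((M:ℝ) - m) = |(p:ℝ) * ((M:ℝ) - m)| := by rw [abs_mul, abs_of_nonneg h5]
        _ = |((p:ℝ) * M - A) - ((p:ℝ) * m - A)| := by congr 1; ring
        _ ≤ |(p:ℝ) * M - A| + |(p:ℝ) * m - A| := abs_sub _ _
        _ ≤ D + D := add_le_add (h M hM) (h m hm)
        _ = 2 * D := by ring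
    have h5 : (M:ℝ) - m ≤ 2 * D / |(p:ℝ)| := by
      rw [le_div_iff₀ hp']; linarith
    linarith

/-- the box `[-X, X]^2` -/
noncomputable def bx (X : ℕ) : Finset (ℤ × ℤ) := (Finset.Icc (-(X:ℤ)) X) ×ˢ (Finset.Icc (-(X:ℤ)) X)

lemma mem_bx {X : ℕ} {p : ℤ × ℤ} : p ∈ bx X ↔ |p.1| ≤ X ∧ |p.2| ≤ X := by
  unfold bx
  rw [Finset.mem_product, Finset.mem_Icc, Finset.mem_Icc, abs_le, abs_le]

lemma card_bx (X : ℕ) : (bx X).card = (2 * X + 1) ^ 2 := by
  unfold bx
  rw [Finset.card_product, Int.card_Icc]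
  have : ((X:ℤ) + 1 - -(X:ℤ)).toNat = 2 * X + 1 := by omega
  rw [this, sq]

lemma sn_real {w1 w2 : ℤ} : ((sn w1 w2 : ℕ) : ℝ) = max |(w1:ℝ)| |(w2:ℝ)| := by
  unfold sn
  rw [Nat.cast_max, Nat.cast_natAbs, Nat.cast_natAbs]
  push_cast; rfl

lemma strip_count (w : ℤ × ℤ) (hw : ¬ (w.1 = 0 ∧ w.2 = 0)) (X : ℕ) (D : ℝ) (hD : 0 ≤ D) :
    (((bx X).filter (fun q => |(w.1:ℝ) * q.2 - w.2 * q.1| ≤ D)).card : ℝ) ≤
      (2 * X + 1) * (2 * D / sn w.1 w.2 + 1) := by
  classical
  have hI : (((Finset.Icc (-(X:ℤ)) X).card : ℕ) : ℝ) = 2 * X + 1 := by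
    rw [Int.card_Icc]
    have : ((X:ℤ) + 1 - -(X:ℤ)).toNat = 2 * X + 1 := by omega
    rw [this]; push_cast; ring
  set S := (bx X).filter (fun q => |(w.1:ℝ) * q.2 - w.2 * q.1| ≤ D) with hS
  rw [sn_real]
  rcases le_total |(w.1:ℝ)| |(w.2:ℝ)| with hle | hle
  · -- |w.2| maximal : fix q.2
    rw [max_eq_right hle]
    have hw2 : w.2 ≠ 0 := by
      intro h0
      apply hw
      refine ⟨?_, h0⟩
      rw [h0] at hle
      simp at hle
      exact hle
    have hmap : ∀ q ∈ S, q.2 ∈ Finset.Icc (-(X:ℤ)) X := by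
      intro q hq
      rw [hS, Finset.mem_filter, mem_bx] at hq
      rw [Finset.mem_Icc, ← abs_le]; exact hq.1.2
    rw [Finset.card_eq_sum_card_fiberwise (f := fun q : ℤ × ℤ => q.2) hmap]
    push_cast
    calc _ ≤ ∑ _y ∈ Finset.Icc (-(X:ℤ)) X, (2 * D / |(w.2:ℝ)| + 1) := by
          apply Finset.sum_le_sum
          intro y _
          have h1 : (S.filter (fun q => q.2 = y)).card = ((S.filter (fun q => q.2 = y)).image (fun q => q.1)).card := by
            rw [Finset.card_image_of_injOn]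
            intro q hq q' hq' he
            rw [Finset.mem_coe, Finset.mem_filter] at hq hq'
            exact Prod.ext he (by rw [hq.2, hq'.2])
          rw [h1]
          apply int_interval _ _ hw2 (w.1 * y) D hD
          intro n hn
          rw [Finset.mem_image] at hn
          obtain ⟨q, hq, rfl⟩ := hn
          rw [Finset.mem_filter, hS, Finset.mem_filter] at hq
          have h2 := hq.1.2
          rw [abs_sub_comm, hq.2] at h2
          exact h2
      _ = _ := by rw [Finset.sum_const, nsmul_eq_mul, hI]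
  · rw [max_eq_left hle]
    have hw1 : w.1 ≠ 0 := by
      intro h0
      apply hw
      refine ⟨h0, ?_⟩
      rw [h0] at hle
      simp at hle
      exact hle
    have hmap : ∀ q ∈ S, q.1 ∈ Finset.Icc (-(X:ℤ)) X := by
      intro q hq
      rw [hS, Finset.mem_filter, mem_bx] at hq
      rw [Finset.mem_Icc, ← abs_le]; exact hq.1.1
    rw [Finset.card_eq_sum_card_fiberwise (f := fun q : ℤ × ℤ => q.1) hmap]
    push_cast
    calc _ ≤ ∑ _y ∈ Finset.Icc (-(X:ℤ)) X, (2 * D / |(w.1:ℝ)| + 1) := by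
          apply Finset.sum_le_sum
          intro y _
          have h1 : (S.filter (fun q => q.1 = y)).card = ((S.filter (fun q => q.1 = y)).image (fun q => q.2)).card := by
            rw [Finset.card_image_of_injOn]
            intro q hq q' hq' he
            rw [Finset.mem_coe, Finset.mem_filter] at hq hq'
            exact Prod.ext (by rw [hq.2, hq'.2]) he
          rw [h1]
          apply int_interval _ _ hw1 (w.2 * y) D hD
          intro n hn
          rw [Finset.mem_image] at hn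
          obtain ⟨q, hq, rfl⟩ := hn
          rw [Finset.mem_filter, hS, Finset.mem_filter] at hq
          have h2 := hq.1.2
          rw [hq.2] at h2
          exact h2
      _ = _ := by rw [Finset.sum_const, nsmul_eq_mul, hI]

def cross (p q : ℤ × ℤ) : ℤ := p.1 * q.2 - p.2 * q.1

noncomputable def P1 (X1 X2 D : ℕ) : Finset ((ℤ × ℤ) × (ℤ × ℤ)) :=
  ((bx X1) ×ˢ (bx X2)).filter (fun pq => ¬ (pq.1.1 = 0 ∧ pq.1.2 = 0) ∧ |cross pq.1 pq.2| ≤ D)

lemma card_P1 (X1 X2 D : ℕ) (h2 : 1 ≤ X2) (hD1 : X1 ≤ D) :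
    ((P1 X1 X2 D).card : ℝ) ≤ 108 * X1 * X2 * D := by
  classical
  have hX2 : (1:ℝ) ≤ X2 := by exact_mod_cast h2
  have hD1' : (X1:ℝ) ≤ D := by exact_mod_cast hD1
  have hmap : ∀ pq ∈ P1 X1 X2 D, pq.1 ∈ bx X1 := by
    intro pq hpq
    unfold P1 at hpq
    rw [Finset.mem_filter, Finset.mem_product] at hpq
    exact hpq.1.1
  rw [Finset.card_eq_sum_card_fiberwise (f := fun pq : (ℤ × ℤ) × (ℤ × ℤ) => pq.1) hmap]
  push_cast
  have h3 : ∀ p ∈ bx X1, (((P1 X1 X2 D).filter (fun pq => pq.1 = p)).card : ℝ) ≤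
      9 * X2 * D * (1 / sn p.1 p.2) := by
    intro p hp
    by_cases h0 : p.1 = 0 ∧ p.2 = 0
    · have : (P1 X1 X2 D).filter (fun pq => pq.1 = p) = ∅ := by
        apply Finset.filter_eq_empty_iff.mpr
        intro pq hpq he
        unfold P1 at hpq
        rw [Finset.mem_filter, he] at hpq
        exact hpq.2.1 h0
      rw [this]; simp; positivity
    · have h4 : (((P1 X1 X2 D).filter (fun pq => pq.1 = p)).card : ℝ) ≤
          (((bx X2).filter (fun q => |(p.1:ℝ) * q.2 - p.2 * q.1| ≤ D)).card : ℝ) := by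
        have : ((P1 X1 X2 D).filter (fun pq => pq.1 = p)).card ≤
          ((bx X2).filter (fun q => |(p.1:ℝ) * q.2 - p.2 * q.1| ≤ D)).card := by
          apply Finset.card_le_card_of_injOn (fun pq => pq.2)
          · intro pq hpq
            unfold P1 at hpq
            rw [Finset.mem_coe, Finset.mem_filter, Finset.mem_filter, Finset.mem_product] at hpq
            obtain ⟨⟨⟨_, hq⟩, _, hc⟩, he⟩ := hpq
            rw [Finset.mem_coe, Finset.mem_filter]
            refine ⟨hq, ?_⟩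
            rw [he] at hc
            unfold cross at hc
            have : (|p.1 * pq.2.2 - p.2 * pq.2.1| : ℤ) ≤ D := hc
            exact_mod_cast this
          · intro pq hpq pq' hpq' he
            rw [Finset.mem_coe, Finset.mem_filter] at hpq hpq'
            exact Prod.ext (by rw [hpq.2, hpq'.2]) he
        exact_mod_cast this
      have h5 := strip_count p h0 X2 D (by positivity)
      have hω : (1:ℝ) ≤ sn p.1 p.2 := by exact_mod_cast sn_pos h0
      have hω2 : ((sn p.1 p.2 : ℕ) : ℝ) ≤ D := by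
        have : sn p.1 p.2 ≤ X1 := sn_le.mpr (mem_bx.mp hp)
        have : ((sn p.1 p.2 : ℕ) : ℝ) ≤ X1 := by exact_mod_cast this
        linarith
      refine h4.trans (h5.trans ?_)
      have h6 : 2 * (D:ℝ) / sn p.1 p.2 + 1 ≤ 3 * D / sn p.1 p.2 := by
        rw [div_add_one (by linarith), div_le_div_iff_of_pos_right (by linarith)]
        linarith
      calc (2 * (X2:ℝ) + 1) * (2 * D / sn p.1 p.2 + 1) ≤ (3 * X2) * (3 * D / sn p.1 p.2) := by
            gcongr
            linarith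
        _ = _ := by ring
  refine (Finset.sum_le_sum h3).trans ?_
  rw [← Finset.mul_sum]
  have := inv_sn_sum X1
  calc 9 * (X2:ℝ) * D * ∑ p ∈ bx X1, (1 / sn p.1 p.2 : ℝ) ≤ 9 * X2 * D * (12 * X1) := by
        gcongr
        exact this
    _ = _ := by ring

noncomputable def P2 (u v : ℤ) (E X1 X2 D : ℕ) : Finset ((ℤ × ℤ) × (ℤ × ℤ)) :=
  ((bx X1) ×ˢ (bx X2)).filter (fun pq => (¬ (pq.1.1 = 0 ∧ pq.1.2 = 0)) ∧ (¬ (pq.2.1 = 0 ∧ pq.2.2 = 0)) ∧
    |cross pq.1 pq.2| ≤ D ∧ (E:ℤ) ∣ v * pq.1.1 - u * pq.2.1 ∧ (E:ℤ) ∣ v * pq.1.2 - u * pq.2.2)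

lemma coprime_solve {u v x y : ℤ} (hu : u ≠ 0) (huv : IsCoprime u v) (h : v * x = u * y) :
    ∃ j, x = u * j ∧ y = v * j := by
  have h1 : u ∣ v * x := ⟨y, h⟩
  obtain ⟨j, hj⟩ := huv.dvd_of_dvd_mul_left h1
  refine ⟨j, hj, ?_⟩
  rw [hj] at h
  have : u * (v * j) = u * y := by rw [← h]; ring
  exact (mul_left_cancel₀ hu this).symm

lemma card_P2_aux (u v : ℤ) (hu : u ≠ 0) (hv : v ≠ 0) (huv : IsCoprime u v) (E X1 X2 D : ℕ)
    (hE : 1 ≤ E) (hX1 : |u| ≤ X1) (hD : |v| * X1 + |u| * X2 ≤ D)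
    (hle : |v| * X1 ≤ |u| * X2) :
    ((P2 u v E X1 X2 D).card : ℝ) ≤ 600 * (X1 * X2 * D / (E:ℝ)^2) + 8 * (X1 * X2 / (|(u:ℝ)| * |(v:ℝ)|)) := by
  classical
  have hEz : (0:ℤ) < E := by exact_mod_cast hE
  have hE' : (1:ℝ) ≤ E := by exact_mod_cast hE
  have hE0 : (0:ℝ) < E := by linarith
  have hu1 : (1:ℝ) ≤ |(u:ℝ)| := by exact_mod_cast Int.one_le_abs hu
  have hv1 : (1:ℝ) ≤ |(v:ℝ)| := by exact_mod_cast Int.one_le_abs hv
  have hX1' : |(u:ℝ)| ≤ X1 := by exact_mod_cast hX1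
  have hD' : |(v:ℝ)| * X1 + |(u:ℝ)| * X2 ≤ D := by exact_mod_cast hD
  have hle' : |(v:ℝ)| * X1 ≤ |(u:ℝ)| * X2 := by exact_mod_cast hle
  have hu0 : (0:ℝ) < |(u:ℝ)| := by linarith
  have hv0 : (0:ℝ) < |(v:ℝ)| := by linarith
  set Ω : ℕ := (v.natAbs * X1 + u.natAbs * X2) / E with hΩ
  have hΩr : (Ω:ℝ) ≤ (|(v:ℝ)| * X1 + |(u:ℝ)| * X2) / E := by
    rw [hΩ]
    refine (Nat.cast_div_le).trans ?_
    push_cast
    rw [Nat.cast_natAbs, Nat.cast_natAbs]
    push_cast
    exact le_rfl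
  set π : (ℤ × ℤ) × (ℤ × ℤ) → ℤ × ℤ := fun pq =>
    ((v * pq.1.1 - u * pq.2.1) / E, (v * pq.1.2 - u * pq.2.2) / E) with hπ
  have hbound : ∀ x y w : ℤ, |x| ≤ X1 → |y| ≤ X2 → v * x - u * y = E * w → |w| ≤ Ω := by
    intro x y w hx hy hw
    have h1 : |v * x - u * y| ≤ v.natAbs * X1 + u.natAbs * X2 := by
      calc |v * x - u * y| ≤ |v * x| + |u * y| := abs_sub _ _
        _ = |v| * |x| + |u| * |y| := by rw [abs_mul, abs_mul]
        _ ≤ |v| * X1 + |u| * X2 := by gcongr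
        _ = _ := by rw [Int.abs_eq_natAbs, Int.abs_eq_natAbs]
    rw [hw, abs_mul, abs_of_pos hEz] at h1
    rw [Int.abs_eq_natAbs] at h1 ⊢
    have h2 : w.natAbs * E ≤ v.natAbs * X1 + u.natAbs * X2 := by
      have : ((w.natAbs * E : ℕ) : ℤ) ≤ ((v.natAbs * X1 + u.natAbs * X2 : ℕ) : ℤ) := by
        push_cast; push_cast at h1; linarith
      exact_mod_cast this
    exact_mod_cast (Nat.le_div_iff_mul_le (by omega)).mpr h2
  -- key facts for elements
  have hfact : ∀ pq ∈ P2 u v E X1 X2 D, |pq.1.1| ≤ X1 ∧ |pq.1.2| ≤ X1 ∧ |pq.2.1| ≤ X2 ∧ |pq.2.2| ≤ X2 ∧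
      ¬ (pq.1.1 = 0 ∧ pq.1.2 = 0) ∧ |cross pq.1 pq.2| ≤ D ∧
      v * pq.1.1 - u * pq.2.1 = E * (π pq).1 ∧ v * pq.1.2 - u * pq.2.2 = E * (π pq).2 := by
    intro pq hpq
    unfold P2 at hpq
    rw [Finset.mem_filter, Finset.mem_product, mem_bx, mem_bx] at hpq
    obtain ⟨⟨⟨h1, h2⟩, h3, h4⟩, h5, _, h6, h7, h8⟩ := hpq
    refine ⟨h1, h2, h3, h4, h5, h6, ?_, ?_⟩
    · rw [hπ]; exact (Int.mul_ediv_cancel' h7).symm
    · rw [hπ]; exact (Int.mul_ediv_cancel' h8).symm
  have hmap : ∀ pq ∈ P2 u v E X1 X2 D, π pq ∈ bx Ω := by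
    intro pq hpq
    obtain ⟨h1, h2, h3, h4, _, _, h5, h6⟩ := hfact pq hpq
    rw [mem_bx]
    exact ⟨hbound _ _ _ h1 h3 h5, hbound _ _ _ h2 h4 h6⟩
  rw [Finset.card_eq_sum_card_fiberwise hmap]
  push_cast
  have h0mem : (0, 0) ∈ bx Ω := by rw [mem_bx]; simp
  rw [← Finset.add_sum_erase _ _ h0mem]
  -- zero fibre
  have hzero : (((P2 u v E X1 X2 D).filter (fun pq => π pq = (0, 0))).card : ℝ) ≤
      8 * (X1 * X2 / (|(u:ℝ)| * |(v:ℝ)|)) := by
    set J1 : ℕ := X1 / u.natAbs with hJ1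
    set J2 : ℕ := X2 / v.natAbs with hJ2
    set J : ℕ := min J1 J2 with hJ
    have huN : 0 < u.natAbs := Int.natAbs_pos.mpr hu
    have hvN : 0 < v.natAbs := Int.natAbs_pos.mpr hv
    have h1 : ((P2 u v E X1 X2 D).filter (fun pq => π pq = (0, 0))).card ≤ ((bx J).erase (0,0)).card := by
      have hs : (P2 u v E X1 X2 D).filter (fun pq => π pq = (0, 0)) ⊆
          ((bx J).erase (0,0)).image (fun j : ℤ × ℤ => ((u * j.1, u * j.2), (v * j.1, v * j.2))) := by
        intro pq hpq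
        rw [Finset.mem_filter] at hpq
        obtain ⟨h1, h2, h3, h4, h5, _, h6, h7⟩ := hfact pq hpq.1
        rw [hpq.2] at h6 h7
        simp only [mul_zero] at h6 h7
        obtain ⟨j1, hj1, hj1'⟩ := coprime_solve hu huv (by linarith : v * pq.1.1 = u * pq.2.1)
        obtain ⟨j2, hj2, hj2'⟩ := coprime_solve hu huv (by linarith : v * pq.1.2 = u * pq.2.2)
        rw [Finset.mem_image]
        refine ⟨(j1, j2), ?_, ?_⟩
        · rw [Finset.mem_erase, mem_bx]
          refine ⟨?_, ?_, ?_⟩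
          · intro he
            rw [Prod.mk.injEq] at he
            apply h5
            rw [hj1, hj2, he.1, he.2]; simp
          · rw [hj1, abs_mul] at h1
            rw [hj1', abs_mul] at h3
            rw [Int.abs_eq_natAbs] at h1 h3 ⊢
            rw [Int.abs_eq_natAbs] at h1 h3
            have a1 : j1.natAbs * u.natAbs ≤ X1 := by
              have : ((j1.natAbs * u.natAbs : ℕ) : ℤ) ≤ X1 := by push_cast; push_cast at h1; linarith
              exact_mod_cast this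
            have a2 : j1.natAbs * v.natAbs ≤ X2 := by
              have : ((j1.natAbs * v.natAbs : ℕ) : ℤ) ≤ X2 := by push_cast; push_cast at h3; linarith
              exact_mod_cast this
            have b1 := (Nat.le_div_iff_mul_le huN).mpr a1
            have b2 := (Nat.le_div_iff_mul_le hvN).mpr a2
            exact_mod_cast le_min b1 b2
          · rw [hj2, abs_mul] at h2
            rw [hj2', abs_mul] at h4
            rw [Int.abs_eq_natAbs] at h2 h4 ⊢
            rw [Int.abs_eq_natAbs] at h2 h4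
            have a1 : j2.natAbs * u.natAbs ≤ X1 := by
              have : ((j2.natAbs * u.natAbs : ℕ) : ℤ) ≤ X1 := by push_cast; push_cast at h2; linarith
              exact_mod_cast this
            have a2 : j2.natAbs * v.natAbs ≤ X2 := by
              have : ((j2.natAbs * v.natAbs : ℕ) : ℤ) ≤ X2 := by push_cast; push_cast at h4; linarith
              exact_mod_cast this
            have b1 := (Nat.le_div_iff_mul_le huN).mpr a1
            have b2 := (Nat.le_div_iff_mul_le hvN).mpr a2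
            exact_mod_cast le_min b1 b2
        · exact Prod.ext (Prod.ext hj1.symm hj2.symm) (Prod.ext hj1'.symm hj2'.symm)
      exact (Finset.card_le_card hs).trans Finset.card_image_le
    have h2 : (((bx J).erase (0,0)).card : ℝ) ≤ 8 * ((J:ℝ) * J) := by
      have : ((bx J).erase (0,0)).card ≤ 8 * (J * J) := by
        rw [Finset.card_erase_of_mem (by rw [mem_bx]; simp), card_bx]
        rcases Nat.eq_zero_or_pos J with hz | hz
        · rw [hz]; simp
        · have : J ≤ J * J := Nat.le_mul_of_pos_left J hz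
          have e1 : (2 * J + 1)^2 = 4 * (J*J) + 4 * J + 1 := by ring
          omega
      exact_mod_cast this
    have h3 : (J:ℝ) ≤ X1 / |(u:ℝ)| := by
      have : (J:ℝ) ≤ J1 := by exact_mod_cast min_le_left _ _
      refine this.trans ?_
      rw [hJ1]
      refine (Nat.cast_div_le).trans ?_
      rw [Nat.cast_natAbs]; push_cast; exact le_rfl
    have h4 : (J:ℝ) ≤ X2 / |(v:ℝ)| := by
      have : (J:ℝ) ≤ J2 := by exact_mod_cast min_le_right _ _
      refine this.trans ?_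
      rw [hJ2]
      refine (Nat.cast_div_le).trans ?_
      rw [Nat.cast_natAbs]; push_cast; exact le_rfl
    calc (((P2 u v E X1 X2 D).filter (fun pq => π pq = (0, 0))).card : ℝ) ≤ (((bx J).erase (0,0)).card : ℝ) := by
          exact_mod_cast h1
      _ ≤ 8 * ((J:ℝ) * J) := h2
      _ ≤ 8 * ((X1 / |(u:ℝ)|) * (X2 / |(v:ℝ)|)) := by gcongr
      _ = _ := by rw [div_mul_div_comm]
  have hnz : ∀ w ∈ (bx Ω).erase (0,0),
      (((P2 u v E X1 X2 D).filter (fun pq => π pq = w)).card : ℝ) ≤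
        25 * X1 * D / (|(u:ℝ)| * E) * (1 / sn w.1 w.2) := by
    intro w hw
    rw [Finset.mem_erase] at hw
    have hw0 : ¬ (w.1 = 0 ∧ w.2 = 0) := by
      intro h; apply hw.1; exact Prod.ext h.1 h.2
    set S := (P2 u v E X1 X2 D).filter (fun pq => π pq = w) with hS
    rcases S.eq_empty_or_nonempty with hemp | ⟨pq0, hpq0⟩
    · rw [hemp]; simp; positivity
    set Y : ℕ := 2 * X1 / u.natAbs with hY
    have huN : 0 < u.natAbs := Int.natAbs_pos.mpr hu
    have hω : (1:ℝ) ≤ sn w.1 w.2 := by exact_mod_cast sn_pos hw0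
    have hω2 : ((sn w.1 w.2 : ℕ) : ℝ) ≤ D / E := by
      have h1 : sn w.1 w.2 ≤ Ω := sn_le.mpr (mem_bx.mp hw.2)
      have h2 : ((sn w.1 w.2 : ℕ) : ℝ) ≤ Ω := by exact_mod_cast h1
      refine h2.trans (hΩr.trans ?_)
      gcongr
    -- the cross relation
    have hcr : ∀ pq ∈ S, |(w.1:ℝ) * pq.1.2 - w.2 * pq.1.1| ≤ |(u:ℝ)| * D / E := by
      intro pq hpq
      rw [hS, Finset.mem_filter] at hpq
      obtain ⟨_, _, _, _, _, h6, h7, h8⟩ := hfact pq hpq.1
      rw [hpq.2] at h7 h8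
      have h9 : (E:ℤ) * (w.1 * pq.1.2 - w.2 * pq.1.1) = u * cross pq.1 pq.2 := by
        unfold cross
        linear_combination (-pq.1.2) * h7 + (pq.1.1) * h8
      have h10 : (E:ℝ) * ((w.1:ℝ) * pq.1.2 - w.2 * pq.1.1) = u * (cross pq.1 pq.2 : ℝ) := by
        exact_mod_cast h9
      have h11 : |(cross pq.1 pq.2 : ℝ)| ≤ D := by exact_mod_cast h6
      rw [le_div_iff₀ hE0]
      calc |(w.1:ℝ) * pq.1.2 - w.2 * pq.1.1| * E = |(E:ℝ) * ((w.1:ℝ) * pq.1.2 - w.2 * pq.1.1)| := by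
            rw [abs_mul, abs_of_pos hE0]; ring
        _ = |(u:ℝ)| * |(cross pq.1 pq.2 : ℝ)| := by rw [h10, abs_mul]
        _ ≤ |(u:ℝ)| * D := by gcongr
    have h1 : S.card ≤ ((bx Y).filter (fun q => |(w.1:ℝ) * q.2 - w.2 * q.1| ≤ 2 * D / E)).card := by
      have hs : S ⊆ ((bx Y).filter (fun q => |(w.1:ℝ) * q.2 - w.2 * q.1| ≤ 2 * D / E)).image
          (fun j : ℤ × ℤ => ((pq0.1.1 + u * j.1, pq0.1.2 + u * j.2), (pq0.2.1 + v * j.1, pq0.2.2 + v * j.2))) := by
        intro pq hpq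
        have hc1 := hcr pq hpq
        have hc0 := hcr pq0 hpq0
        have hpq' := hpq
        rw [hS, Finset.mem_filter] at hpq'
        have hpq0' := hpq0
        rw [hS, Finset.mem_filter] at hpq0'
        obtain ⟨a1, a2, a3, a4, _, _, a7, a8⟩ := hfact pq hpq'.1
        obtain ⟨b1, b2, b3, b4, _, _, b7, b8⟩ := hfact pq0 hpq0'.1
        rw [hpq'.2] at a7 a8
        rw [hpq0'.2] at b7 b8
        obtain ⟨j1, hj1, hj1'⟩ := coprime_solve hu huv
          (by linear_combination a7 - b7 : v * (pq.1.1 - pq0.1.1) = u * (pq.2.1 - pq0.2.1))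
        obtain ⟨j2, hj2, hj2'⟩ := coprime_solve hu huv
          (by linear_combination a8 - b8 : v * (pq.1.2 - pq0.1.2) = u * (pq.2.2 - pq0.2.2))
        rw [Finset.mem_image]
        refine ⟨(j1, j2), ?_, ?_⟩
        · rw [Finset.mem_filter, mem_bx]
          have hb : ∀ x x0 j : ℤ, |x| ≤ X1 → |x0| ≤ X1 → x - x0 = u * j → |j| ≤ Y := by
            intro x x0 j hx hx0 hj
            have h1 : |u * j| ≤ 2 * X1 := by
              rw [← hj]
              calc |x - x0| ≤ |x| + |x0| := abs_sub _ _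
                _ ≤ 2 * X1 := by linarith
            rw [abs_mul] at h1
            rw [Int.abs_eq_natAbs] at h1 ⊢
            rw [Int.abs_eq_natAbs] at h1
            have a1 : j.natAbs * u.natAbs ≤ 2 * X1 := by
              have : ((j.natAbs * u.natAbs : ℕ) : ℤ) ≤ 2 * X1 := by push_cast; push_cast at h1; linarith
              exact_mod_cast this
            exact_mod_cast (Nat.le_div_iff_mul_le huN).mpr a1
          refine ⟨⟨hb _ _ _ a1 b1 hj1, hb _ _ _ a2 b2 hj2⟩, ?_⟩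
          have hj1r : (pq.1.1:ℝ) - pq0.1.1 = u * j1 := by exact_mod_cast hj1
          have hj2r : (pq.1.2:ℝ) - pq0.1.2 = u * j2 := by exact_mod_cast hj2
          have h5 : |(u:ℝ)| * |(w.1:ℝ) * j2 - w.2 * j1| ≤ |(u:ℝ)| * (2 * D / E) := by
            calc |(u:ℝ)| * |(w.1:ℝ) * j2 - w.2 * j1| = |(u:ℝ) * ((w.1:ℝ) * j2 - w.2 * j1)| := by
                  rw [abs_mul]
              _ = |((w.1:ℝ) * pq.1.2 - w.2 * pq.1.1) - ((w.1:ℝ) * pq0.1.2 - w.2 * pq0.1.1)| := by
                  congr 1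
                  linear_combination (-(w.1:ℝ)) * hj2r + (w.2:ℝ) * hj1r
              _ ≤ |(w.1:ℝ) * pq.1.2 - w.2 * pq.1.1| + |(w.1:ℝ) * pq0.1.2 - w.2 * pq0.1.1| := abs_sub _ _
              _ ≤ |(u:ℝ)| * D / E + |(u:ℝ)| * D / E := add_le_add hc1 hc0
              _ = _ := by ring
          exact le_of_mul_le_mul_left h5 hu0
        · refine Prod.ext (Prod.ext ?_ ?_) (Prod.ext ?_ ?_)
          · show pq0.1.1 + u * j1 = pq.1.1
            linarith
          · show pq0.1.2 + u * j2 = pq.1.2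
            linarith
          · show pq0.2.1 + v * j1 = pq.2.1
            linarith
          · show pq0.2.2 + v * j2 = pq.2.2
            linarith
      exact (Finset.card_le_card hs).trans Finset.card_image_le
    have h2 := strip_count w hw0 Y (2 * D / E) (by positivity)
    have h3 : (Y:ℝ) ≤ 2 * X1 / |(u:ℝ)| := by
      rw [hY]
      refine (Nat.cast_div_le).trans ?_
      rw [Nat.cast_natAbs]; push_cast; exact le_rfl
    have h4 : 2 * (Y:ℝ) + 1 ≤ 5 * (X1 / |(u:ℝ)|) := by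
      have : 1 ≤ X1 / |(u:ℝ)| := by rw [le_div_iff₀ hu0]; linarith
      have e : 2 * (X1:ℝ) / |(u:ℝ)| = 2 * (X1 / |(u:ℝ)|) := by ring
      rw [e] at h3
      linarith
    have h5 : 2 * (2 * (D:ℝ) / E) / sn w.1 w.2 + 1 ≤ 5 * (D / E) / sn w.1 w.2 := by
      rw [div_add_one (by linarith), div_le_div_iff_of_pos_right (by linarith)]
      have e : 2 * (2 * (D:ℝ) / E) = 4 * (D / E) := by ring
      rw [e]
      linarith
    calc (S.card : ℝ) ≤ (((bx Y).filter (fun q => |(w.1:ℝ) * q.2 - w.2 * q.1| ≤ 2 * D / E)).card : ℝ) := by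
          exact_mod_cast h1
      _ ≤ (2 * Y + 1) * (2 * (2 * D / E) / sn w.1 w.2 + 1) := h2
      _ ≤ (5 * (X1 / |(u:ℝ)|)) * (5 * (D / E) / sn w.1 w.2) := by gcongr
      _ = _ := by field_simp; ring
  have hsum : ∑ w ∈ (bx Ω).erase (0,0), (((P2 u v E X1 X2 D).filter (fun pq => π pq = w)).card : ℝ) ≤
      600 * (X1 * X2 * D / (E:ℝ)^2) := by
    refine (Finset.sum_le_sum hnz).trans ?_
    rw [← Finset.mul_sum]
    have h1 : ∑ w ∈ (bx Ω).erase (0,0), (1 / sn w.1 w.2 : ℝ) ≤ 12 * Ω := by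
      refine le_trans ?_ (inv_sn_sum Ω)
      apply Finset.sum_le_sum_of_subset_of_nonneg
      · exact Finset.erase_subset _ _
      · intro i _ _; positivity
    have h2 : (Ω:ℝ) ≤ 2 * |(u:ℝ)| * X2 / E := by
      refine hΩr.trans ?_
      gcongr
      linarith
    calc 25 * (X1:ℝ) * D / (|(u:ℝ)| * E) * ∑ w ∈ (bx Ω).erase (0,0), (1 / sn w.1 w.2 : ℝ)
        ≤ 25 * (X1:ℝ) * D / (|(u:ℝ)| * E) * (12 * (2 * |(u:ℝ)| * X2 / E)) := by
          gcongr
          exact h1.trans (by gcongr)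
      _ = _ := by field_simp; ring
  linarith

lemma card_P2 (u v : ℤ) (hu : u ≠ 0) (hv : v ≠ 0) (huv : IsCoprime u v) (E X1 X2 D : ℕ)
    (hE : 1 ≤ E) (hX1 : |u| ≤ X1) (hX2 : |v| ≤ X2) (hD : |v| * X1 + |u| * X2 ≤ D) :
    ((P2 u v E X1 X2 D).card : ℝ) ≤ 600 * (X1 * X2 * D / (E:ℝ)^2) + 8 * (X1 * X2 / (|(u:ℝ)| * |(v:ℝ)|)) := by
  classical
  rcases le_total (|v| * X1) (|u| * (X2:ℤ)) with hle | hle
  · exact card_P2_aux u v hu hv huv E X1 X2 D hE hX1 hD hle
  · have h1 := card_P2_aux v u hv hu huv.symm E X2 X1 D hE hX2 (by linarith) hle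
    have h2 : (P2 u v E X1 X2 D).card ≤ (P2 v u E X2 X1 D).card := by
      apply Finset.card_le_card_of_injOn (fun pq => (pq.2, pq.1))
      · intro pq hpq
        unfold P2 at hpq ⊢
        rw [Finset.mem_coe, Finset.mem_filter, Finset.mem_product] at hpq ⊢
        obtain ⟨⟨h1, h2⟩, h3, h4, h5, h6, h7⟩ := hpq
        refine ⟨⟨h2, h1⟩, h4, h3, ?_, ?_, ?_⟩
        · have : cross pq.2 pq.1 = - cross pq.1 pq.2 := by unfold cross; ring
          show |cross pq.2 pq.1| ≤ _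
          rw [this, abs_neg]; exact h5
        · have := (dvd_neg (α := ℤ)).mpr h6
          rwa [neg_sub] at this
        · have := (dvd_neg (α := ℤ)).mpr h7
          rwa [neg_sub] at this
      · intro pq _ pq' _ he
        rw [Prod.mk.injEq] at he
        exact Prod.ext he.2 he.1
    have h3 : ((P2 u v E X1 X2 D).card : ℝ) ≤ (P2 v u E X2 X1 D).card := by exact_mod_cast h2
    calc ((P2 u v E X1 X2 D).card : ℝ) ≤ _ := h3
      _ ≤ _ := h1
      _ = _ := by ring

end MDiv
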