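import Mathlib
import Pool.Agent.Hhelper92.Mult.Fejer
import Pool.Agent.Hhelper92.Mult.Latt

set_option autoImplicit false

/-!
Counting integer translates of points with controlled exponential sums.
-/

namespace MDiv

open Finset

lemma abs_round_le {x B : ℝ} (hx : |x| ≤ B) : |((round x : ℤ) : ℝ)| ≤ B + 1/2 := by
  have h1 := abs_sub_round x
  have h2 : |((round x : ℤ) : ℝ)| ≤ |x| + |x - round x| := by
    calc |((round x : ℤ) : ℝ)| = |x - (x - round x)| := by congr 1; ring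
      _ ≤ _ := abs_sub _ _
  linarith

lemma int_le_floor {p : ℤ} {B : ℝ} (h : |(p:ℝ)| ≤ B) : |p| ≤ (⌊B⌋₊ : ℤ) := by
  have h1 : p.natAbs ≤ ⌊B⌋₊ := by
    apply Nat.le_floor
    rw [Nat.cast_natAbs]; push_cast; exact h
  rw [Int.abs_eq_natAbs]; exact_mod_cast h1

lemma int_eq_of_close {m n : ℤ} {x : ℝ} {δ : ℝ} (hδ : δ < 1/2) (hm : |(m:ℝ) - x| ≤ δ) (hn : |(n:ℝ) - x| ≤ δ) :
    m = n := by
  have h : |((m - n : ℤ) : ℝ)| < 1 := by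
    push_cast
    calc |(m:ℝ) - n| = |((m:ℝ) - x) - ((n:ℝ) - x)| := by congr 1; ring
      _ ≤ |(m:ℝ) - x| + |(n:ℝ) - x| := abs_sub _ _
      _ < 1 := by linarith
  have h2 : |m - n| < 1 := by exact_mod_cast h
  have h3 := Int.abs_lt_one_iff.mp h2
  linarith

theorem round_err {M : ℕ} (hM : 0 < M) (w : ℝ) :
    |w - ((round (3 * (M:ℝ) * w) : ℤ) : ℝ) / (3 * M)| ≤ 1 / (6 * M) := by
  have hM0 : (0:ℝ) < M := by exact_mod_cast hM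
  have b := abs_sub_round (3 * (M:ℝ) * w)
  have e1 : w - ((round (3 * (M:ℝ) * w) : ℤ) : ℝ) / (3 * M) =
      (3 * (M:ℝ) * w - ((round (3 * (M:ℝ) * w) : ℤ) : ℝ)) / (3 * M) := by field_simp
  rw [e1, abs_div, abs_of_pos (by positivity : (0:ℝ) < 3 * M), div_le_div_iff₀ (by positivity) (by positivity)]
  nlinarith

theorem round_small {M : ℕ} (hM : 0 < M) {c R z : ℝ} {p : ℤ} (hz : |z| ≤ R) (hc : c ≤ M * R)
    (hR : 0 ≤ R) (hp : |(p:ℝ) - 3 * M * z| ≤ c / 2) : |(p:ℝ)| ≤ 4 * M * R := by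
  have hM0 : (0:ℝ) < M := by exact_mod_cast hM
  have h1 : |3 * (M:ℝ) * z| ≤ 3 * M * R := by
    rw [abs_mul, abs_of_pos (by positivity : (0:ℝ) < 3 * M)]; gcongr
  have h2 : 0 ≤ (M:ℝ) * R := by positivity
  calc |(p:ℝ)| = |((p:ℝ) - 3 * M * z) + 3 * M * z| := by congr 1; ring
    _ ≤ |(p:ℝ) - 3 * M * z| + |3 * M * z| := abs_add_le _ _
    _ ≤ 4 * M * R := by linarith

theorem round_nonzero {M : ℕ} (hM : 0 < M) {c z : ℝ} (hc : 0 < c) (hz : c / M ≤ |z|)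
    (hp : |((0:ℤ):ℝ) - 3 * M * z| ≤ c / 2) : False := by
  have hM0 : (0:ℝ) < M := by exact_mod_cast hM
  rw [Int.cast_zero, zero_sub, abs_neg, abs_mul, abs_of_pos (by positivity : (0:ℝ) < 3 * M)] at hp
  have h : 3 * (M:ℝ) * (c / M) ≤ 3 * M * |z| := by gcongr
  have e1 : 3 * (M:ℝ) * (c / M) = 3 * c := by field_simp
  rw [e1] at h
  linarith

theorem cross_est {M a b R1 R2 θ P1 P2 Q1 Q2 r1 r2 r3 r4 : ℝ} (hM : 0 < M) (ha : 0 ≤ a) (hb : 0 ≤ b)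
    (hR1 : 0 ≤ R1) (hR2 : 0 ≤ R2)
    (hMθ : M * (b * R1) + M * (a * R2) ≤ M ^ 2 * θ) (hab : a * b ≤ M ^ 2 * θ)
    (a1 : |P1| ≤ R1) (a2 : |P2| ≤ R1) (a3 : |Q1| ≤ R2) (a4 : |Q2| ≤ R2)
    (a5 : |P1 * Q2 - P2 * Q1| ≤ θ)
    (b1 : |r1 - 3 * M * P1| ≤ a / 2) (b2 : |r2 - 3 * M * P2| ≤ a / 2)
    (b3 : |r3 - 3 * M * Q1| ≤ b / 2) (b4 : |r4 - 3 * M * Q2| ≤ b / 2) :
    |r1 * r4 - r2 * r3| ≤ 13 * M ^ 2 * θ := by
  obtain ⟨ε1, hε1⟩ : ∃ ε1, ε1 = r1 - 3 * M * P1 := ⟨_, rfl⟩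
  obtain ⟨ε2, hε2⟩ : ∃ ε2, ε2 = r2 - 3 * M * P2 := ⟨_, rfl⟩
  obtain ⟨ε3, hε3⟩ : ∃ ε3, ε3 = r3 - 3 * M * Q1 := ⟨_, rfl⟩
  obtain ⟨ε4, hε4⟩ : ∃ ε4, ε4 = r4 - 3 * M * Q2 := ⟨_, rfl⟩
  rw [← hε1] at b1
  rw [← hε2] at b2
  rw [← hε3] at b3
  rw [← hε4] at b4
  have key : r1 * r4 - r2 * r3 = 9 * (M ^ 2 * (P1 * Q2 - P2 * Q1)) + 3 * (M * (P1 * ε4))
      + -(3 * (M * (P2 * ε3))) + 3 * (M * (Q2 * ε1)) + -(3 * (M * (Q1 * ε2))) + ε1 * ε4 + -(ε2 * ε3) := by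
    rw [hε1, hε2, hε3, hε4]; ring
  have hM0 := hM.le
  have c1 : |M * (P1 * ε4)| ≤ M * (R1 * (b/2)) := by rw [abs_mul, abs_mul, abs_of_pos hM]; gcongr
  have c2 : |M * (P2 * ε3)| ≤ M * (R1 * (b/2)) := by rw [abs_mul, abs_mul, abs_of_pos hM]; gcongr
  have c3 : |M * (Q2 * ε1)| ≤ M * (R2 * (a/2)) := by rw [abs_mul, abs_mul, abs_of_pos hM]; gcongr
  have c4 : |M * (Q1 * ε2)| ≤ M * (R2 * (a/2)) := by rw [abs_mul, abs_mul, abs_of_pos hM]; gcongr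
  have c5 : |ε1 * ε4| ≤ (a/2) * (b/2) := by rw [abs_mul]; gcongr
  have c6 : |ε2 * ε3| ≤ (a/2) * (b/2) := by rw [abs_mul]; gcongr
  have c7 : |M ^ 2 * (P1 * Q2 - P2 * Q1)| ≤ M ^ 2 * θ := by
    rw [abs_mul, abs_of_pos (by positivity : (0:ℝ) < M ^ 2)]; gcongr
  have t1 := abs_add_le (9 * (M ^ 2 * (P1 * Q2 - P2 * Q1)) + 3 * (M * (P1 * ε4))
      + -(3 * (M * (P2 * ε3))) + 3 * (M * (Q2 * ε1)) + -(3 * (M * (Q1 * ε2))) + ε1 * ε4) (-(ε2 * ε3))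
  have t2 := abs_add_le (9 * (M ^ 2 * (P1 * Q2 - P2 * Q1)) + 3 * (M * (P1 * ε4))
      + -(3 * (M * (P2 * ε3))) + 3 * (M * (Q2 * ε1)) + -(3 * (M * (Q1 * ε2)))) (ε1 * ε4)
  have t3 := abs_add_le (9 * (M ^ 2 * (P1 * Q2 - P2 * Q1)) + 3 * (M * (P1 * ε4))
      + -(3 * (M * (P2 * ε3))) + 3 * (M * (Q2 * ε1))) (-(3 * (M * (Q1 * ε2))))
  have t4 := abs_add_le (9 * (M ^ 2 * (P1 * Q2 - P2 * Q1)) + 3 * (M * (P1 * ε4))
      + -(3 * (M * (P2 * ε3)))) (3 * (M * (Q2 * ε1)))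
  have t5 := abs_add_le (9 * (M ^ 2 * (P1 * Q2 - P2 * Q1)) + 3 * (M * (P1 * ε4))) (-(3 * (M * (P2 * ε3))))
  have t6 := abs_add_le (9 * (M ^ 2 * (P1 * Q2 - P2 * Q1))) (3 * (M * (P1 * ε4)))
  rw [← key] at t1
  rw [abs_neg] at t1 t3 t5
  rw [abs_mul 3 (M * (Q1 * ε2)), abs_of_pos (by norm_num : (0:ℝ) < 3)] at t3
  rw [abs_mul 3 (M * (Q2 * ε1)), abs_of_pos (by norm_num : (0:ℝ) < 3)] at t4
  rw [abs_mul 3 (M * (P2 * ε3)), abs_of_pos (by norm_num : (0:ℝ) < 3)] at t5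
  rw [abs_mul 3 (M * (P1 * ε4)), abs_mul 9, abs_of_pos (by norm_num : (0:ℝ) < 3),
    abs_of_pos (by norm_num : (0:ℝ) < 9)] at t6
  have hcomb : |r1 * r4 - r2 * r3| ≤ 9 * (M ^ 2 * θ) + 3 * (M * (R1 * (b/2))) + 3 * (M * (R1 * (b/2)))
      + 3 * (M * (R2 * (a/2))) + 3 * (M * (R2 * (a/2))) + (a/2) * (b/2) + (a/2) * (b/2) := by
    clear hMθ hab a1 a2 a3 a4 a5 b1 b2 b3 b4 key hε1 hε2 hε3 hε4
    linarith
  refine hcomb.trans ?_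
  clear hcomb t1 t2 t3 t4 t5 t6 c1 c2 c3 c4 c5 c6 c7 a1 a2 a3 a4 a5 b1 b2 b3 b4 key
  nlinarith [hMθ, hab]


theorem round_nd {M : ℕ} (hM : 0 < M) (m : ℤ) (w : ℝ) :
    nd (w - ((round (3 * (M:ℝ) * ((m:ℝ) + w)) : ℤ) : ℝ) / (3 * M)) ≤ 1 / (6 * M) := by
  have h1 := round_err hM ((m:ℝ) + w)
  have h2 := nd_le (w - ((round (3 * (M:ℝ) * ((m:ℝ) + w)) : ℤ) : ℝ) / (3 * M)) (-m)
  refine h2.trans ?_
  have e1 : w - ((round (3 * (M:ℝ) * ((m:ℝ) + w)) : ℤ) : ℝ) / (3 * M) - ((-m : ℤ):ℝ) =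
    (m:ℝ) + w - ((round (3 * (M:ℝ) * ((m:ℝ) + w)) : ℤ) : ℝ) / (3 * M) := by rw [Int.cast_neg]; ring
  rw [e1]; exact h1

theorem round_inj {M : ℕ} (hM : 0 < M) {m m' : ℤ} {w : ℝ}
    (hr : round (3 * (M:ℝ) * ((m:ℝ) + w)) = round (3 * (M:ℝ) * ((m':ℝ) + w))) : m = m' := by
  have hM1 : (1:ℝ) ≤ M := by exact_mod_cast hM
  have hδ : 1 / (6 * (M:ℝ)) < 1 / 2 := by
    rw [div_lt_div_iff₀ (by positivity) (by norm_num)]; linarith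
  have h1 := round_err hM ((m:ℝ) + w)
  have h2 := round_err hM ((m':ℝ) + w)
  rw [← hr] at h2
  apply int_eq_of_close (x := ((round (3 * (M:ℝ) * ((m:ℝ) + w)) : ℤ) : ℝ) / (3 * M) - w) hδ
  · have e1 : (m:ℝ) - (((round (3 * (M:ℝ) * ((m:ℝ) + w)) : ℤ) : ℝ) / (3 * M) - w) =
      (m:ℝ) + w - ((round (3 * (M:ℝ) * ((m:ℝ) + w)) : ℤ) : ℝ) / (3 * M) := by ring
    rw [e1]; exact h1
  · have e1 : (m':ℝ) - (((round (3 * (M:ℝ) * ((m:ℝ) + w)) : ℤ) : ℝ) / (3 * M) - w) =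
      (m':ℝ) + w - ((round (3 * (M:ℝ) * ((m:ℝ) + w)) : ℤ) : ℝ) / (3 * M) := by ring
    rw [e1]; exact h2

theorem round_err' {M : ℕ} (z : ℝ) :
    |((round (3 * (M:ℝ) * z) : ℤ) : ℝ) - 3 * M * z| ≤ 1 / 2 := by
  rw [abs_sub_comm]; exact abs_sub_round _

variable {Γ : Type*}

theorem count_rank2 [DecidableEq Γ] (T : Finset Γ) (x1 x2 y1 y2 : Γ → ℝ) (M : ℕ) (hM : 0 < M) (W : ℝ)
    (hW0 : 0 ≤ W)
    (hW : ∀ h1 h2 h3 h4 : ℤ, ¬ (h1 = 0 ∧ h2 = 0 ∧ h3 = 0 ∧ h4 = 0) → |h1| < M → |h2| < M → |h3| < M →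
      |h4| < M → ‖∑ t ∈ T, e (h1 * x1 t + h2 * x2 t + h3 * y1 t + h4 * y2 t)‖ ≤ W)
    (R1 R2 θ : ℝ) (hR1 : 1 ≤ M * R1) (hR2 : 1 ≤ M * R2) (hθ : R1 + R2 ≤ M * θ)
    (S : Finset (Γ × (ℤ × ℤ) × (ℤ × ℤ)))
    (hS : ∀ s ∈ S, s.1 ∈ T ∧ |(s.2.1.1 : ℝ) + x1 s.1| ≤ R1 ∧ |(s.2.1.2 : ℝ) + x2 s.1| ≤ R1 ∧
      |(s.2.2.1 : ℝ) + y1 s.1| ≤ R2 ∧ |(s.2.2.2 : ℝ) + y2 s.1| ≤ R2 ∧
      |((s.2.1.1 : ℝ) + x1 s.1) * ((s.2.2.2 : ℝ) + y2 s.1) -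
        ((s.2.1.2 : ℝ) + x2 s.1) * ((s.2.2.1 : ℝ) + y1 s.1)| ≤ θ ∧
      (1 / M ≤ |(s.2.1.1 : ℝ) + x1 s.1| ∨ 1 / M ≤ |(s.2.1.2 : ℝ) + x2 s.1|)) :
    (S.card : ℝ) ≤ 6 * 10 ^ 6 * (R1 * R2 * θ) * (T.card + M ^ 4 * W) := by
  classical
  have hM1 : (1:ℝ) ≤ M := by exact_mod_cast hM
  have hM0 : (0:ℝ) < M := by linarith
  have hR1p : 0 < R1 := by
    by_contra h; push Not at h
    have : (M:ℝ) * R1 ≤ 0 := mul_nonpos_of_nonneg_of_nonpos hM0.le h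
    linarith
  have hR2p : 0 < R2 := by
    by_contra h; push Not at h
    have : (M:ℝ) * R2 ≤ 0 := mul_nonpos_of_nonneg_of_nonpos hM0.le h
    linarith
  have hMθ : (M:ℝ) * R1 + M * R2 ≤ M ^ 2 * θ := by
    have : (M:ℝ) * (R1 + R2) ≤ M * (M * θ) := by gcongr
    nlinarith
  have hθp : 0 < θ := by
    by_contra h; push Not at h
    have : (M:ℝ)^2 * θ ≤ 0 := mul_nonpos_of_nonneg_of_nonpos (by positivity) h
    linarith
  have hM1' : 1 * 1 ≤ (M:ℝ) ^ 2 * θ := by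
    have : 0 ≤ (M:ℝ) * R2 := by positivity
    linarith
  have hMθ' : (M:ℝ) * (1 * R1) + M * (1 * R2) ≤ M ^ 2 * θ := by rw [one_mul, one_mul]; exact hMθ
  -- the rounding map
  obtain ⟨rd, hrd⟩ : ∃ rd : Γ × (ℤ × ℤ) × (ℤ × ℤ) → (ℤ × ℤ) × (ℤ × ℤ), ∀ s, rd s =
    ((round (3 * (M:ℝ) * ((s.2.1.1 : ℝ) + x1 s.1)), round (3 * (M:ℝ) * ((s.2.1.2 : ℝ) + x2 s.1))),
     (round (3 * (M:ℝ) * ((s.2.2.1 : ℝ) + y1 s.1)), round (3 * (M:ℝ) * ((s.2.2.2 : ℝ) + y2 s.1)))) :=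
    ⟨_, fun s => rfl⟩
  set X1 : ℕ := ⌊4 * (M:ℝ) * R1⌋₊ with hX1
  set X2 : ℕ := ⌊4 * (M:ℝ) * R2⌋₊ with hX2
  set D : ℕ := ⌊13 * (M:ℝ)^2 * θ⌋₊ with hD
  have hmap : ∀ s ∈ S, rd s ∈ P1 X1 X2 D := by
    intro s hs
    obtain ⟨_, a1, a2, a3, a4, a5, a6⟩ := hS s hs
    unfold P1
    rw [hrd, Finset.mem_filter, Finset.mem_product, mem_bx, mem_bx]
    refine ⟨⟨⟨?_, ?_⟩, ?_, ?_⟩, ?_, ?_⟩
    · exact int_le_floor (round_small hM a1 hR1 hR1p.le (round_err' _))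
    · exact int_le_floor (round_small hM a2 hR1 hR1p.le (round_err' _))
    · exact int_le_floor (round_small hM a3 hR2 hR2p.le (round_err' _))
    · exact int_le_floor (round_small hM a4 hR2 hR2p.le (round_err' _))
    · rintro ⟨h1, h2⟩
      have b1 := round_err' (M := M) ((s.2.1.1 : ℝ) + x1 s.1)
      have b2 := round_err' (M := M) ((s.2.1.2 : ℝ) + x2 s.1)
      rw [show round (3 * (M:ℝ) * ((s.2.1.1 : ℝ) + x1 s.1)) = 0 from h1] at b1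
      rw [show round (3 * (M:ℝ) * ((s.2.1.2 : ℝ) + x2 s.1)) = 0 from h2] at b2
      rcases a6 with h | h
      · exact round_nonzero hM one_pos h b1
      · exact round_nonzero hM one_pos h b2
    · apply int_le_floor
      unfold cross
      push_cast
      exact cross_est hM0 zero_le_one zero_le_one hR1p.le hR2p.le hMθ' hM1' a1 a2 a3 a4 a5
        (round_err' _) (round_err' _) (round_err' _) (round_err' _)
  rw [Finset.card_eq_sum_card_fiberwise hmap]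
  push_cast
  have hfib : ∀ pq ∈ P1 X1 X2 D, ((S.filter (fun s => rd s = pq)).card : ℝ) ≤
      4 ^ 4 * (T.card / (M:ℝ)^4 + W) := by
    intro pq _
    set z : Γ → Fin 4 → ℝ := fun t => ![x1 t, x2 t, y1 t, y2 t] with hz
    set ζ : Fin 4 → ℝ := ![pq.1.1 / (3 * M), pq.1.2 / (3 * M), pq.2.1 / (3 * M), pq.2.2 / (3 * M)] with hζ
    have hc := count_le_of_expsum T z ζ M hM W hW0 (by
      intro h hne hlt
      have h1 := hW (h 0) (h 1) (h 2) (h 3) (by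
        rintro ⟨a0, a1, a2, a3⟩
        apply hne
        funext i
        fin_cases i
        · exact a0
        · exact a1
        · exact a2
        · exact a3) (hlt 0) (hlt 1) (hlt 2) (hlt 3)
      have h2 : ∀ t ∈ T, e (∑ i, (h i : ℝ) * z t i) =
          e ((h 0 : ℝ) * x1 t + (h 1 : ℝ) * x2 t + (h 2 : ℝ) * y1 t + (h 3 : ℝ) * y2 t) := by
        intro t _
        rw [Fin.sum_univ_four, hz]
        rfl
      rw [Finset.sum_congr rfl h2]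
      exact h1)
    rw [Fintype.card_fin] at hc
    refine le_trans ?_ hc
    have hcard : (S.filter (fun s => rd s = pq)).card ≤
        (T.filter (fun t => ∀ i, nd (z t i - ζ i) ≤ 1 / (6 * M))).card := by
      apply Finset.card_le_card_of_injOn (fun s => s.1)
      · intro s hs
        rw [Finset.mem_coe, Finset.mem_filter] at hs
        obtain ⟨hs1, hs2⟩ := hs
        rw [Finset.mem_coe, Finset.mem_filter]
        refine ⟨(hS s hs1).1, ?_⟩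
        rw [hrd] at hs2
        intro i
        fin_cases i
        · rw [hζ, ← hs2]; exact round_nd hM _ _
        · rw [hζ, ← hs2]; exact round_nd hM _ _
        · rw [hζ, ← hs2]; exact round_nd hM _ _
        · rw [hζ, ← hs2]; exact round_nd hM _ _
      · intro s hs s' hs' hee
        rw [Finset.mem_coe, Finset.mem_filter] at hs hs'
        have he : s.1 = s'.1 := hee
        have hq : rd s = rd s' := by rw [hs.2, hs'.2]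
        rw [hrd, hrd, ← he] at hq
        simp only [Prod.mk.injEq] at hq
        obtain ⟨⟨q1, q2⟩, q3, q4⟩ := hq
        exact Prod.ext he (Prod.ext (Prod.ext (round_inj hM q1) (round_inj hM q2))
          (Prod.ext (round_inj hM q3) (round_inj hM q4)))
    exact_mod_cast hcard
  refine (Finset.sum_le_sum hfib).trans ?_
  rw [Finset.sum_const, nsmul_eq_mul]
  have hX2' : 1 ≤ X2 := by
    rw [hX2]; apply Nat.le_floor; push_cast; linarith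
  have hX1D : X1 ≤ D := by
    rw [hX1, hD]; apply Nat.floor_le_floor
    have : 0 ≤ (M:ℝ) * R2 := by positivity
    linarith
  have hP := card_P1 X1 X2 D hX2' hX1D
  have hX1r : (X1:ℝ) ≤ 4 * M * R1 := Nat.floor_le (by positivity)
  have hX2r : (X2:ℝ) ≤ 4 * M * R2 := Nat.floor_le (by positivity)
  have hDr : (D:ℝ) ≤ 13 * M^2 * θ := Nat.floor_le (by positivity)
  have hTW : 0 ≤ (T.card : ℝ) / (M:ℝ)^4 + W := by positivity
  calc ((P1 X1 X2 D).card : ℝ) * (4 ^ 4 * (T.card / (M:ℝ)^4 + W))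
      ≤ (108 * (4 * M * R1) * (4 * M * R2) * (13 * M^2 * θ)) * (4 ^ 4 * (T.card / (M:ℝ)^4 + W)) := by
        apply mul_le_mul_of_nonneg_right _ (by positivity)
        refine hP.trans ?_
        gcongr
    _ = 5750784 * (R1 * R2 * θ) * (T.card + M ^ 4 * W) := by
        field_simp; ring
    _ ≤ _ := by
        have : 0 ≤ (R1 * R2 * θ) * (T.card + M ^ 4 * W) := by positivity
        nlinarith

end MDiv
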