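import Mathlib
import Pool.Agent.Hhelper92.Mult.Count

set_option autoImplicit false

/-!
Counting integer translates of points, proportional case.
-/

namespace MDiv

open Finset

variable {Γ : Type*}


/-- Rounding of a pair of integer translates: first coordinate. -/
noncomputable def rp (M : ℕ) (r s0 u v : ℤ) (z : ℝ) (a b : ℤ) : ℤ :=
  u * round (3 * (M:ℝ) * (((r * a + s0 * b : ℤ) : ℝ) + z)) + s0 * (3 * M) * (v * a - u * b)

/-- Rounding of a pair of integer translates: second coordinate. -/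
noncomputable def rq (M : ℕ) (r s0 u v : ℤ) (z : ℝ) (a b : ℤ) : ℤ :=
  v * round (3 * (M:ℝ) * (((r * a + s0 * b : ℤ) : ℝ) + z)) - r * (3 * M) * (v * a - u * b)

section rpq
variable {M : ℕ} {r s0 u v : ℤ} (hrs : r * u + s0 * v = 1)
include hrs

theorem rp_err (z : ℝ) (a b : ℤ) :
    |((rp M r s0 u v z a b : ℤ) : ℝ) - 3 * M * ((a : ℝ) + u * z)| ≤ |(u:ℝ)| / 2 := by
  have hrs' : (r:ℝ) * u + s0 * v = 1 := by exact_mod_cast hrs
  have b' := abs_sub_round (3 * (M:ℝ) * (((r * a + s0 * b : ℤ) : ℝ) + z))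
  have e1 : ((rp M r s0 u v z a b : ℤ) : ℝ) - 3 * M * ((a : ℝ) + u * z) =
      -(u * (3 * (M:ℝ) * (((r * a + s0 * b : ℤ) : ℝ) + z) -
        ((round (3 * (M:ℝ) * (((r * a + s0 * b : ℤ) : ℝ) + z)) : ℤ) : ℝ))) := by
    unfold rp; push_cast
    linear_combination (3 * (M:ℝ) * a) * hrs'
  rw [e1, abs_neg, abs_mul]
  have := mul_le_mul_of_nonneg_left b' (abs_nonneg (u:ℝ))
  linarith

theorem rq_err (z : ℝ) (a b : ℤ) :
    |((rq M r s0 u v z a b : ℤ) : ℝ) - 3 * M * ((b : ℝ) + v * z)| ≤ |(v:ℝ)| / 2 := by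
  have hrs' : (r:ℝ) * u + s0 * v = 1 := by exact_mod_cast hrs
  have b' := abs_sub_round (3 * (M:ℝ) * (((r * a + s0 * b : ℤ) : ℝ) + z))
  have e1 : ((rq M r s0 u v z a b : ℤ) : ℝ) - 3 * M * ((b : ℝ) + v * z) =
      -(v * (3 * (M:ℝ) * (((r * a + s0 * b : ℤ) : ℝ) + z) -
        ((round (3 * (M:ℝ) * (((r * a + s0 * b : ℤ) : ℝ) + z)) : ℤ) : ℝ))) := by
    unfold rq; push_cast
    linear_combination (3 * (M:ℝ) * b) * hrs'
  rw [e1, abs_neg, abs_mul]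
  have := mul_le_mul_of_nonneg_left b' (abs_nonneg (v:ℝ))
  linarith

theorem rpq_cross (z : ℝ) (a b : ℤ) :
    v * rp M r s0 u v z a b - u * rq M r s0 u v z a b = 3 * M * (v * a - u * b) := by
  unfold rp rq
  linear_combination (3 * M * (v * a - u * b) : ℤ) * hrs

theorem rpq_comb (z : ℝ) (a b : ℤ) :
    r * rp M r s0 u v z a b + s0 * rq M r s0 u v z a b =
      round (3 * (M:ℝ) * (((r * a + s0 * b : ℤ) : ℝ) + z)) := by
  unfold rp rq
  linear_combination (round (3 * (M:ℝ) * (((r * a + s0 * b : ℤ) : ℝ) + z)) : ℤ) * hrs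

theorem rpq_nd (hM : 0 < M) (z : ℝ) (a b : ℤ) :
    nd (z - ((r * rp M r s0 u v z a b + s0 * rq M r s0 u v z a b : ℤ) : ℝ) / (3 * M)) ≤ 1 / (6 * M) := by
  rw [rpq_comb hrs]
  have h1 := round_err hM (((r * a + s0 * b : ℤ) : ℝ) + z)
  have h2 := nd_le (z - ((round (3 * (M:ℝ) * (((r * a + s0 * b : ℤ) : ℝ) + z)) : ℤ) : ℝ) / (3 * M)) (-(r * a + s0 * b))
  refine h2.trans ?_
  have e1 : z - ((round (3 * (M:ℝ) * (((r * a + s0 * b : ℤ) : ℝ) + z)) : ℤ) : ℝ) / (3 * M) -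
      ((-(r * a + s0 * b) : ℤ) : ℝ) =
      ((r * a + s0 * b : ℤ) : ℝ) + z - ((round (3 * (M:ℝ) * (((r * a + s0 * b : ℤ) : ℝ) + z)) : ℤ) : ℝ) / (3 * M) := by
    rw [Int.cast_neg]; ring
  rw [e1]; exact h1

theorem rpq_inj (hM : 0 < M) (z : ℝ) (a b a' b' : ℤ)
    (hp : rp M r s0 u v z a b = rp M r s0 u v z a' b')
    (hq : rq M r s0 u v z a b = rq M r s0 u v z a' b') : a = a' ∧ b = b' := by
  have hM1 : (1:ℝ) ≤ M := by exact_mod_cast hM
  have hM3z : (3 * M : ℤ) ≠ 0 := by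
    have : (0:ℤ) < M := by exact_mod_cast hM
    omega
  have hδ : 1 / (6 * (M:ℝ)) < 1 / 2 := by
    rw [div_lt_div_iff₀ (by positivity) (by norm_num)]; linarith
  have w1 : v * a - u * b = v * a' - u * b' := by
    have h1 := rpq_cross (M := M) hrs z a b
    have h2 := rpq_cross (M := M) hrs z a' b'
    rw [hp, hq, h2] at h1
    exact (mul_left_cancel₀ hM3z h1).symm
  have k1 : r * a + s0 * b = r * a' + s0 * b' := by
    have hr := rpq_comb (M := M) hrs z a b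
    have hr' := rpq_comb (M := M) hrs z a' b'
    rw [hp, hq, hr'] at hr
    have h1 := round_err hM (((r * a + s0 * b : ℤ) : ℝ) + z)
    have h2 := round_err hM (((r * a' + s0 * b' : ℤ) : ℝ) + z)
    rw [← hr] at h1
    set m := r * a + s0 * b
    set m' := r * a' + s0 * b'
    apply int_eq_of_close (x := ((round (3 * (M:ℝ) * ((m':ℝ) + z)) : ℤ) : ℝ) / (3 * M) - z) hδ
    · have e1 : (m:ℝ) - (((round (3 * (M:ℝ) * ((m':ℝ) + z)) : ℤ) : ℝ) / (3 * M) - z) =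
        (m:ℝ) + z - ((round (3 * (M:ℝ) * ((m':ℝ) + z)) : ℤ) : ℝ) / (3 * M) := by ring
      rw [e1]; exact h1
    · have e1 : (m':ℝ) - (((round (3 * (M:ℝ) * ((m':ℝ) + z)) : ℤ) : ℝ) / (3 * M) - z) =
        (m':ℝ) + z - ((round (3 * (M:ℝ) * ((m':ℝ) + z)) : ℤ) : ℝ) / (3 * M) := by ring
      rw [e1]; exact h2
  constructor
  · linear_combination u * k1 + s0 * w1 - (a - a') * hrs
  · linear_combination v * k1 - r * w1 - (b - b') * hrs

end rpq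

theorem count_rank1 [DecidableEq Γ] (T : Finset Γ) (z1 z2 : Γ → ℝ) (M : ℕ) (hM : 0 < M) (W : ℝ)
    (hW0 : 0 ≤ W)
    (hW : ∀ h1 h2 : ℤ, ¬ (h1 = 0 ∧ h2 = 0) → |h1| < M → |h2| < M →
      ‖∑ t ∈ T, e (h1 * z1 t + h2 * z2 t)‖ ≤ W)
    (u v : ℤ) (hu : u ≠ 0) (hv : v ≠ 0) (huv : IsCoprime u v)
    (R1 R2 θ : ℝ) (hR1 : |(u:ℝ)| ≤ M * R1) (hR2 : |(v:ℝ)| ≤ M * R2) (hθ : |(v:ℝ)| * R1 + |(u:ℝ)| * R2 ≤ M * θ)
    (S : Finset (Γ × (ℤ × ℤ) × (ℤ × ℤ)))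
    (hS : ∀ s ∈ S, s.1 ∈ T ∧ |(s.2.1.1 : ℝ) + u * z1 s.1| ≤ R1 ∧ |(s.2.1.2 : ℝ) + u * z2 s.1| ≤ R1 ∧
      |(s.2.2.1 : ℝ) + v * z1 s.1| ≤ R2 ∧ |(s.2.2.2 : ℝ) + v * z2 s.1| ≤ R2 ∧
      |((s.2.1.1 : ℝ) + u * z1 s.1) * ((s.2.2.2 : ℝ) + v * z2 s.1) -
        ((s.2.1.2 : ℝ) + u * z2 s.1) * ((s.2.2.1 : ℝ) + v * z1 s.1)| ≤ θ ∧
      (|(u:ℝ)| / M ≤ |(s.2.1.1 : ℝ) + u * z1 s.1| ∨ |(u:ℝ)| / M ≤ |(s.2.1.2 : ℝ) + u * z2 s.1|) ∧
      (|(v:ℝ)| / M ≤ |(s.2.2.1 : ℝ) + v * z1 s.1| ∨ |(v:ℝ)| / M ≤ |(s.2.2.2 : ℝ) + v * z2 s.1|)) :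
    (S.card : ℝ) ≤ 6 * 10 ^ 6 * (R1 * R2 * (θ + 1 / (|(u:ℝ)| * |(v:ℝ)|))) * (T.card + M ^ 4 * W) := by
  classical
  have hM1 : (1:ℝ) ≤ M := by exact_mod_cast hM
  have hM0 : (0:ℝ) < M := by linarith
  have hu1 : (1:ℝ) ≤ |(u:ℝ)| := by exact_mod_cast Int.one_le_abs hu
  have hv1 : (1:ℝ) ≤ |(v:ℝ)| := by exact_mod_cast Int.one_le_abs hv
  have hu0 : (0:ℝ) < |(u:ℝ)| := by linarith
  have hv0 : (0:ℝ) < |(v:ℝ)| := by linarith
  have hR1p : 0 < R1 := by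
    by_contra h; push Not at h
    have : (M:ℝ) * R1 ≤ 0 := mul_nonpos_of_nonneg_of_nonpos hM0.le h
    linarith
  have hR2p : 0 < R2 := by
    by_contra h; push Not at h
    have : (M:ℝ) * R2 ≤ 0 := mul_nonpos_of_nonneg_of_nonpos hM0.le h
    linarith
  have hMθ : (M:ℝ) * (|(v:ℝ)| * R1) + M * (|(u:ℝ)| * R2) ≤ M ^ 2 * θ := by
    have : (M:ℝ) * (|(v:ℝ)| * R1 + |(u:ℝ)| * R2) ≤ M * (M * θ) := by gcongr
    nlinarith
  have huvθ : |(u:ℝ)| * |(v:ℝ)| ≤ M^2 * θ := by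
    have h1 : |(u:ℝ)| * |(v:ℝ)| ≤ |(u:ℝ)| * (M * R2) := by gcongr
    have h2 : 0 ≤ (M:ℝ) * (|(v:ℝ)| * R1) := by positivity
    nlinarith
  have hθp : 0 < θ := by
    by_contra h; push Not at h
    have : (M:ℝ)^2 * θ ≤ 0 := mul_nonpos_of_nonneg_of_nonpos (by positivity) h
    have : 0 < |(u:ℝ)| * |(v:ℝ)| := by positivity
    linarith
  obtain ⟨r, s0, hrs⟩ := huv
  have hrs' : (r:ℝ) * u + s0 * v = 1 := by exact_mod_cast hrs
  obtain ⟨rd, hrd⟩ : ∃ rd : Γ × (ℤ × ℤ) × (ℤ × ℤ) → (ℤ × ℤ) × (ℤ × ℤ), ∀ s, rd s =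
      ((rp M r s0 u v (z1 s.1) s.2.1.1 s.2.2.1, rp M r s0 u v (z2 s.1) s.2.1.2 s.2.2.2),
       (rq M r s0 u v (z1 s.1) s.2.1.1 s.2.2.1, rq M r s0 u v (z2 s.1) s.2.1.2 s.2.2.2)) :=
    ⟨_, fun s => rfl⟩
  set X1 : ℕ := ⌊4 * (M:ℝ) * R1⌋₊ with hX1
  set X2 : ℕ := ⌊4 * (M:ℝ) * R2⌋₊ with hX2
  set D : ℕ := ⌊13 * (M:ℝ)^2 * θ⌋₊ with hD
  have hmap : ∀ s ∈ S, rd s ∈ P2 u v (3 * M) X1 X2 D := by
    intro s hs
    obtain ⟨_, a1, a2, a3, a4, a5, a6, a7⟩ := hS s hs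
    have b1 := rp_err (M := M) hrs (z1 s.1) s.2.1.1 s.2.2.1
    have b2 := rp_err (M := M) hrs (z2 s.1) s.2.1.2 s.2.2.2
    have b3 := rq_err (M := M) hrs (z1 s.1) s.2.1.1 s.2.2.1
    have b4 := rq_err (M := M) hrs (z2 s.1) s.2.1.2 s.2.2.2
    unfold P2
    rw [hrd, Finset.mem_filter, Finset.mem_product, mem_bx, mem_bx]
    refine ⟨⟨⟨?_, ?_⟩, ?_, ?_⟩, ?_, ?_, ?_, ?_, ?_⟩
    · exact int_le_floor (round_small hM a1 hR1 hR1p.le b1)
    · exact int_le_floor (round_small hM a2 hR1 hR1p.le b2)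
    · exact int_le_floor (round_small hM a3 hR2 hR2p.le b3)
    · exact int_le_floor (round_small hM a4 hR2 hR2p.le b4)
    · rintro ⟨h1, h2⟩
      rw [show rp M r s0 u v (z1 s.1) s.2.1.1 s.2.2.1 = 0 from h1] at b1
      rw [show rp M r s0 u v (z2 s.1) s.2.1.2 s.2.2.2 = 0 from h2] at b2
      rcases a6 with h | h
      · exact round_nonzero hM hu0 h b1
      · exact round_nonzero hM hu0 h b2
    · rintro ⟨h1, h2⟩
      rw [show rq M r s0 u v (z1 s.1) s.2.1.1 s.2.2.1 = 0 from h1] at b3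
      rw [show rq M r s0 u v (z2 s.1) s.2.1.2 s.2.2.2 = 0 from h2] at b4
      rcases a7 with h | h
      · exact round_nonzero hM hv0 h b3
      · exact round_nonzero hM hv0 h b4
    · apply int_le_floor
      unfold cross
      push_cast
      exact cross_est hM0 hu0.le hv0.le hR1p.le hR2p.le hMθ huvθ a1 a2 a3 a4 a5 b1 b2 b3 b4
    · exact ⟨_, rpq_cross hrs _ _ _⟩
    · exact ⟨_, rpq_cross hrs _ _ _⟩
  rw [Finset.card_eq_sum_card_fiberwise hmap]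
  push_cast
  have hfib : ∀ pq ∈ P2 u v (3 * M) X1 X2 D, ((S.filter (fun s => rd s = pq)).card : ℝ) ≤
      4 ^ 2 * (T.card / (M:ℝ)^2 + W) := by
    intro pq _
    set z : Γ → Fin 2 → ℝ := fun t => ![z1 t, z2 t] with hz
    set ζ : Fin 2 → ℝ := ![((r * pq.1.1 + s0 * pq.2.1 : ℤ) : ℝ) / (3 * M), ((r * pq.1.2 + s0 * pq.2.2 : ℤ) : ℝ) / (3 * M)] with hζ
    have hc := count_le_of_expsum T z ζ M hM W hW0 (by
      intro h hne hlt
      have h1 := hW (h 0) (h 1) (by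
        rintro ⟨a0, a1⟩
        apply hne
        funext i
        fin_cases i
        · exact a0
        · exact a1) (hlt 0) (hlt 1)
      have h2 : ∀ t ∈ T, e (∑ i, (h i : ℝ) * z t i) =
          e ((h 0 : ℝ) * z1 t + (h 1 : ℝ) * z2 t) := by
        intro t _
        rw [Fin.sum_univ_two, hz]
        rfl
      rw [Finset.sum_congr rfl h2]
      exact h1)
    rw [Fintype.card_fin] at hc
    refine le_trans ?_ hc
    have hcard : (S.filter (fun s => rd s = pq)).card ≤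
        (T.filter (fun t => ∀ i, nd (z t i - ζ i) ≤ 1 / (6 * M))).card := by
      apply Finset.card_le_card_of_injOn (fun s => s.1)
      · intro s hs
        rw [Finset.mem_coe, Finset.mem_filter] at hs
        obtain ⟨hs1, hs2⟩ := hs
        rw [Finset.mem_coe, Finset.mem_filter]
        refine ⟨(hS s hs1).1, ?_⟩
        rw [hrd] at hs2
        intro i
        fin_cases i
        · rw [hζ, ← hs2]
          exact rpq_nd hrs hM _ _ _
        · rw [hζ, ← hs2]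
          exact rpq_nd hrs hM _ _ _
      · intro s hs s' hs' hee
        rw [Finset.mem_coe, Finset.mem_filter] at hs hs'
        have he : s.1 = s'.1 := hee
        have hq : rd s = rd s' := by rw [hs.2, hs'.2]
        rw [hrd, hrd, ← he] at hq
        simp only [Prod.mk.injEq] at hq
        obtain ⟨⟨q1, q2⟩, q3, q4⟩ := hq
        obtain ⟨f1, f3⟩ := rpq_inj hrs hM _ _ _ _ _ q1 q3
        obtain ⟨f2, f4⟩ := rpq_inj hrs hM _ _ _ _ _ q2 q4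
        exact Prod.ext he (Prod.ext (Prod.ext f1 f2) (Prod.ext f3 f4))
    exact_mod_cast hcard
  refine (Finset.sum_le_sum hfib).trans ?_
  rw [Finset.sum_const, nsmul_eq_mul]
  have hX1r : (X1:ℝ) ≤ 4 * M * R1 := Nat.floor_le (by positivity)
  have hX2r : (X2:ℝ) ≤ 4 * M * R2 := Nat.floor_le (by positivity)
  have hDr : (D:ℝ) ≤ 13 * M^2 * θ := Nat.floor_le (by positivity)
  have hP := card_P2 u v hu hv ⟨r, s0, hrs⟩ (3 * M) X1 X2 D (by omega)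
    (int_le_floor (by nlinarith [abs_nonneg (u:ℝ)])) (int_le_floor (by nlinarith [abs_nonneg (v:ℝ)])) (by
      have h1 : (((|v| * X1 + |u| * X2 : ℤ)) : ℝ) ≤ 13 * M^2 * θ := by
        push_cast
        calc |(v:ℝ)| * X1 + |(u:ℝ)| * X2 ≤ |(v:ℝ)| * (4 * M * R1) + |(u:ℝ)| * (4 * M * R2) := by gcongr
          _ ≤ _ := by
            have : 0 ≤ (M:ℝ)^2 * θ := by positivity
            linarith
      have h2 : (0:ℤ) ≤ |v| * X1 + |u| * X2 := by positivity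
      have h3 : ((|v| * X1 + |u| * X2).toNat : ℝ) ≤ 13 * M^2 * θ := by
        have : (((|v| * X1 + |u| * X2).toNat : ℤ) : ℝ) ≤ 13 * M^2 * θ := by
          rw [Int.toNat_of_nonneg h2]; exact h1
        exact_mod_cast this
      have h4 := Nat.le_floor h3
      omega)
  have hTW : 0 ≤ (T.card : ℝ) / (M:ℝ)^2 + W := by positivity
  calc ((P2 u v (3 * M) X1 X2 D).card : ℝ) * (4 ^ 2 * (T.card / (M:ℝ)^2 + W))
      ≤ (600 * ((4 * M * R1) * (4 * M * R2) * (13 * M^2 * θ) / (3 * (M:ℝ))^2) +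
          8 * ((4 * M * R1) * (4 * M * R2) / (|(u:ℝ)| * |(v:ℝ)|))) * (4 ^ 2 * (T.card / (M:ℝ)^2 + W)) := by
        apply mul_le_mul_of_nonneg_right _ (by positivity)
        refine hP.trans ?_
        push_cast
        gcongr
    _ = (600 * 16 * 13 / 9 * 16 * (R1 * R2 * θ) + 128 * 16 * (R1 * R2 * (1 / (|(u:ℝ)| * |(v:ℝ)|)))) *
          (T.card + M ^ 2 * W) := by
        field_simp
        ring
    _ ≤ (6 * 10 ^ 6 * (R1 * R2 * (θ + 1 / (|(u:ℝ)| * |(v:ℝ)|)))) * (T.card + M ^ 4 * W) := by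
        have h1 : 0 ≤ R1 * R2 * θ := by positivity
        have h2 : 0 ≤ R1 * R2 * (1 / (|(u:ℝ)| * |(v:ℝ)|)) := by positivity
        have h3 : (M:ℝ)^2 * W ≤ M^4 * W := by
          have : (M:ℝ)^2 ≤ M^4 := pow_le_pow_right₀ hM1 (by norm_num)
          gcongr
        apply mul_le_mul
        · rw [mul_add]; linarith
        · linarith
        · positivity
        · rw [mul_add]; positivity

end MDiv
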