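import Mathlib

set_option autoImplicit false

/-!
Two measure-theoretic facts: a set that has positive proportion in every interval has full measure,
and the second-moment lower bound for the measure of a finite union.
-/

namespace MDiv

open Finset MeasureTheory Set Filter Topology

/-- a measurable set with a uniform positive proportion in each interval has full measure -/
theorem full_of_proportion (W : Set ℝ) (hW : MeasurableSet W) (c : ℝ) (hc : 0 < c)
    (h : ∀ α β : ℝ, α < β → ENNReal.ofReal (c * (β - α)) ≤ volume (W ∩ Set.Icc α β)) :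
    ∀ᵐ x : ℝ ∂volume, x ∈ W := by
  have h1 := Besicovitch.ae_tendsto_measure_inter_div (volume : Measure ℝ) Wᶜ
  rw [ae_restrict_iff' hW.compl] at h1
  filter_upwards [h1] with x hx
  by_contra hxW
  have h2 := hx hxW
  -- eventually the ratio is > 1 - c/2... 
  have hlt : ENNReal.ofReal (1 - c) < 1 := by
    rw [ENNReal.ofReal_lt_one]; linarith
  have h3 : ∀ᶠ r in 𝓝[>] (0:ℝ), ENNReal.ofReal (1 - c) < volume (Wᶜ ∩ Metric.closedBall x r) / volume (Metric.closedBall x r) :=
    h2.eventually_const_lt hlt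
  obtain ⟨r, hr, hr0⟩ := (h3.and self_mem_nhdsWithin).exists
  have hr0' : 0 < r := hr0
  have hball : Metric.closedBall x r = Set.Icc (x - r) (x + r) := Real.closedBall_eq_Icc
  have hvol : volume (Set.Icc (x - r) (x + r)) = ENNReal.ofReal (2 * r) := by
    rw [Real.volume_Icc]; congr 1; ring
  rw [hball, hvol] at hr
  have hsplit := measure_inter_add_sdiff (μ := (volume : Measure ℝ)) (Set.Icc (x - r) (x + r)) hW
  have h4 := h (x - r) (x + r) (by linarith)
  rw [Set.inter_comm] at h4
  have h5 : Set.Icc (x - r) (x + r) \ W = Wᶜ ∩ Set.Icc (x - r) (x + r) := by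
    rw [Set.sdiff_eq, Set.inter_comm]
  rw [h5, hvol] at hsplit
  have hpos : ENNReal.ofReal (2 * r) ≠ 0 := by
    rw [Ne, ENNReal.ofReal_eq_zero]; push Not; linarith
  have h6 : ENNReal.ofReal (1 - c) * ENNReal.ofReal (2 * r) < volume (Wᶜ ∩ Set.Icc (x - r) (x + r)) := by
    rwa [ENNReal.lt_div_iff_mul_lt (Or.inl hpos) (Or.inl ENNReal.ofReal_ne_top)] at hr
  have h7 : ENNReal.ofReal (2 * r) < ENNReal.ofReal (2 * r) := by
    calc ENNReal.ofReal (2 * r) ≤ ENNReal.ofReal (c * (x + r - (x - r))) + ENNReal.ofReal (1 - c) * ENNReal.ofReal (2 * r) := by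
          by_cases hc1 : 0 ≤ 1 - c
          · rw [← ENNReal.ofReal_mul hc1, ← ENNReal.ofReal_add (by nlinarith) (by positivity)]
            apply ENNReal.ofReal_le_ofReal
            nlinarith
          · push Not at hc1
            refine le_trans ?_ le_self_add
            apply ENNReal.ofReal_le_ofReal
            nlinarith
      _ < volume (Set.Icc (x - r) (x + r) ∩ W) + volume (Wᶜ ∩ Set.Icc (x - r) (x + r)) := by
          apply ENNReal.add_lt_add_of_le_of_lt _ h4 h6
          exact ENNReal.ofReal_ne_top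
      _ = _ := hsplit
  exact lt_irrefl _ h7

/-- second moment bound -/
theorem second_moment {ι : Type*} (F : Finset ι) (E : ι → Set ℝ) (hE : ∀ s ∈ F, MeasurableSet (E s))
    (hfin : ∀ s ∈ F, volume (E s) ≠ ⊤) :
    (∑ s ∈ F, (volume (E s)).toReal) ^ 2 ≤
      (volume (⋃ s ∈ F, E s)).toReal * ∑ s ∈ F, ∑ t ∈ F, (volume (E s ∩ E t)).toReal := by
  classical
  set S : Set ℝ := ⋃ s ∈ F, E s with hS
  have hSm : MeasurableSet S := Finset.measurableSet_biUnion F hE
  have hSfin : volume S ≠ ⊤ := by
    apply ne_of_lt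
    calc volume S ≤ ∑ s ∈ F, volume (E s) := measure_biUnion_finset_le _ _
      _ < ⊤ := by
        apply ENNReal.sum_lt_top.mpr
        intro s hs; exact lt_top_iff_ne_top.mpr (hfin s hs)
  set a : ℝ := ∑ s ∈ F, (volume (E s)).toReal with ha
  set b : ℝ := ∑ s ∈ F, ∑ t ∈ F, (volume (E s ∩ E t)).toReal with hb
  set v : ℝ := (volume S).toReal with hv
  have hind : ∀ (A : Set ℝ), MeasurableSet A → volume A ≠ ⊤ → Integrable (A.indicator (fun _ => (1:ℝ))) volume := by
    intro A hA hA2
    rw [integrable_indicator_iff hA]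
    exact integrableOn_const hA2
  have hint : ∀ (A : Set ℝ), MeasurableSet A → ∫ x, A.indicator (fun _ => (1:ℝ)) x = (volume A).toReal := by
    intro A hA
    rw [integral_indicator hA]
    simp [Measure.real]
  have key : ∀ lam : ℝ, 0 ≤ b - 2 * lam * a + lam ^ 2 * v := by
    intro lam
    have hpt : ∀ x, 0 ≤ (∑ s ∈ F, ∑ t ∈ F, (E s ∩ E t).indicator (fun _ => (1:ℝ)) x)
        - 2 * lam * (∑ s ∈ F, (E s).indicator (fun _ => (1:ℝ)) x) + lam ^ 2 * S.indicator (fun _ => (1:ℝ)) x := by
      intro x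
      have e1 : ∑ s ∈ F, ∑ t ∈ F, (E s ∩ E t).indicator (fun _ => (1:ℝ)) x =
          (∑ s ∈ F, (E s).indicator (fun _ => (1:ℝ)) x) ^ 2 := by
        rw [sq, Finset.sum_mul_sum]
        apply Finset.sum_congr rfl; intro s _
        apply Finset.sum_congr rfl; intro t _
        by_cases h1 : x ∈ E s <;> by_cases h2 : x ∈ E t <;> simp [h1, h2]
      rw [e1]
      by_cases hx : x ∈ S
      · rw [Set.indicator_of_mem hx]
        nlinarith [sq_nonneg ((∑ s ∈ F, (E s).indicator (fun _ => (1:ℝ)) x) - lam)]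
      · rw [Set.indicator_of_notMem hx]
        have : ∑ s ∈ F, (E s).indicator (fun _ => (1:ℝ)) x = 0 := by
          apply Finset.sum_eq_zero
          intro s hs
          apply Set.indicator_of_notMem
          intro hxs
          apply hx
          rw [hS]
          exact Set.mem_biUnion hs hxs
        rw [this]; simp
    have h1 : 0 ≤ ∫ x, ((∑ s ∈ F, ∑ t ∈ F, (E s ∩ E t).indicator (fun _ => (1:ℝ)) x)
        - 2 * lam * (∑ s ∈ F, (E s).indicator (fun _ => (1:ℝ)) x) + lam ^ 2 * S.indicator (fun _ => (1:ℝ)) x) :=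
      integral_nonneg (fun x => hpt x)
    have i1 : ∀ s ∈ F, Integrable (fun x => ∑ t ∈ F, (E s ∩ E t).indicator (fun _ => (1:ℝ)) x) volume := by
      intro s hs
      apply integrable_finsetSum
      intro t ht
      apply hind _ ((hE s hs).inter (hE t ht))
      exact ne_top_of_le_ne_top (hfin s hs) (measure_mono Set.inter_subset_left)
    have i2 : Integrable (fun x => ∑ s ∈ F, ∑ t ∈ F, (E s ∩ E t).indicator (fun _ => (1:ℝ)) x) volume :=
      integrable_finsetSum _ i1
    have i3 : ∀ s ∈ F, Integrable (fun x => (E s).indicator (fun _ => (1:ℝ)) x) volume := by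
      intro s hs; exact hind _ (hE s hs) (hfin s hs)
    have i4 : Integrable (fun x => ∑ s ∈ F, (E s).indicator (fun _ => (1:ℝ)) x) volume :=
      integrable_finsetSum _ i3
    have i5 : Integrable (fun x => S.indicator (fun _ => (1:ℝ)) x) volume := hind _ hSm hSfin
    have h2 : ∫ x, ((∑ s ∈ F, ∑ t ∈ F, (E s ∩ E t).indicator (fun _ => (1:ℝ)) x)
        - 2 * lam * (∑ s ∈ F, (E s).indicator (fun _ => (1:ℝ)) x) + lam ^ 2 * S.indicator (fun _ => (1:ℝ)) x) =
        b - 2 * lam * a + lam ^ 2 * v := by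
      have j1 : ∫ x, ((∑ s ∈ F, ∑ t ∈ F, (E s ∩ E t).indicator (fun _ => (1:ℝ)) x)
        - 2 * lam * (∑ s ∈ F, (E s).indicator (fun _ => (1:ℝ)) x) + lam ^ 2 * S.indicator (fun _ => (1:ℝ)) x) =
        (∫ x, ((∑ s ∈ F, ∑ t ∈ F, (E s ∩ E t).indicator (fun _ => (1:ℝ)) x)
        - 2 * lam * (∑ s ∈ F, (E s).indicator (fun _ => (1:ℝ)) x))) + ∫ x, lam ^ 2 * S.indicator (fun _ => (1:ℝ)) x :=
        integral_add (i2.sub (i4.const_mul (2 * lam))) (i5.const_mul (lam ^ 2))
      have j2 : ∫ x, ((∑ s ∈ F, ∑ t ∈ F, (E s ∩ E t).indicator (fun _ => (1:ℝ)) x)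
        - 2 * lam * (∑ s ∈ F, (E s).indicator (fun _ => (1:ℝ)) x)) =
        (∫ x, (∑ s ∈ F, ∑ t ∈ F, (E s ∩ E t).indicator (fun _ => (1:ℝ)) x)) -
        ∫ x, 2 * lam * (∑ s ∈ F, (E s).indicator (fun _ => (1:ℝ)) x) :=
        integral_sub i2 (i4.const_mul (2 * lam))
      rw [j1, j2, integral_const_mul, integral_const_mul, hint _ hSm, integral_finsetSum _ i1, integral_finsetSum _ i3]
      congr 2
      · rw [hb]
        apply Finset.sum_congr rfl; intro s hs
        rw [integral_finsetSum]
        · apply Finset.sum_congr rfl; intro t ht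
          exact hint _ ((hE s hs).inter (hE t ht))
        · intro t ht
          apply hind _ ((hE s hs).inter (hE t ht))
          exact ne_top_of_le_ne_top (hfin s hs) (measure_mono Set.inter_subset_left)
      · rw [ha]
        congr 1
        apply Finset.sum_congr rfl; intro s hs
        exact hint _ (hE s hs)
    rw [h2] at h1
    exact h1
  have hv0 : 0 ≤ v := ENNReal.toReal_nonneg
  have ha0 : 0 ≤ a := Finset.sum_nonneg fun s _ => ENNReal.toReal_nonneg
  rcases hv0.eq_or_lt with hv1 | hv1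
  · -- v = 0
    rw [← hv1, zero_mul]
    have h1 : a ≤ 0 := by
      by_contra hcon
      push Not at hcon
      have h2 := key ((|b| + 1) / a)
      rw [← hv1, mul_zero, add_zero] at h2
      have h3 : 2 * ((|b| + 1) / a) * a = 2 * (|b| + 1) := by field_simp
      rw [h3] at h2
      have := le_abs_self b
      have := abs_nonneg b
      linarith
    have h2 : a = 0 := le_antisymm h1 ha0
    rw [h2]; norm_num
  · have h1 := key (a / v)
    have h2 : b - 2 * (a / v) * a + (a / v)^2 * v = b - a^2 / v := by field_simp; ring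
    rw [h2] at h1
    have h3 : a^2 / v ≤ b := by linarith
    rw [div_le_iff₀ hv1] at h3
    linarith

end MDiv
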