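import Mathlib

set_option autoImplicit false

/-!
Condensation of the divergent series.
-/

namespace MDiv

open Finset Filter

noncomputable def pp (Ψ : ℝ → ℝ) (L : ℕ) : ℝ := (2:ℝ)^L * Ψ ((2:ℝ)^L)

noncomputable def qq (k : ℕ) (Ψ : ℝ → ℝ) (L : ℕ) : ℝ :=
  if (1:ℝ) / (L:ℝ)^(k+2) ≤ min (pp Ψ L) 1 then min (pp Ψ L) 1 else 0

lemma one_le_two_pow_real (L : ℕ) : (1:ℝ) ≤ (2:ℝ)^L := one_le_pow₀ (by norm_num)

lemma pp_pos (Ψ : ℝ → ℝ) (hpos : ∀ x : ℝ, 1 ≤ x → 0 < Ψ x) (L : ℕ) : 0 < pp Ψ L := by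
  unfold pp
  exact mul_pos (by positivity) (hpos _ (one_le_two_pow_real L))

lemma qq_nonneg (k : ℕ) (Ψ : ℝ → ℝ) (hpos : ∀ x : ℝ, 1 ≤ x → 0 < Ψ x) (L : ℕ) : 0 ≤ qq k Ψ L := by
  unfold qq
  split_ifs
  · exact le_min (pp_pos Ψ hpos L).le zero_le_one
  · exact le_rfl

lemma qq_le_one (k : ℕ) (Ψ : ℝ → ℝ) (L : ℕ) : qq k Ψ L ≤ 1 := by
  unfold qq
  split_ifs
  · exact min_le_right _ _
  · norm_num

lemma qq_le_pp (k : ℕ) (Ψ : ℝ → ℝ) (hpos : ∀ x : ℝ, 1 ≤ x → 0 < Ψ x) (L : ℕ) : qq k Ψ L ≤ pp Ψ L := by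
  unfold qq
  split_ifs
  · exact min_le_left _ _
  · exact (pp_pos Ψ hpos L).le

lemma qq_ge (k : ℕ) (Ψ : ℝ → ℝ) (L : ℕ) (h : qq k Ψ L ≠ 0) : (1:ℝ) / (L:ℝ)^(k+2) ≤ qq k Ψ L := by
  unfold qq at h ⊢
  split_ifs with h1
  · exact h1
  · rw [if_neg h1] at h; exact absurd rfl h

lemma block_sum (k : ℕ) (Ψ : ℝ → ℝ) (hanti : AntitoneOn Ψ (Set.Ici 1)) (hpos : ∀ x : ℝ, 1 ≤ x → 0 < Ψ x)
    (N : ℕ) : ∑ h ∈ range (2^N - 1), Real.log ((h : ℝ) + 1) ^ k * Ψ ((h : ℝ) + 1) ≤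
      ∑ L ∈ range N, ((L:ℝ) + 1)^k * pp Ψ L := by
  induction N with
  | zero => simp
  | succ N ih =>
    rw [Finset.sum_range_succ]
    have h1 : 2 ^ N - 1 ≤ 2 ^ (N+1) - 1 := by
      have : 2 ^ N ≤ 2 ^ (N+1) := Nat.pow_le_pow_right (by norm_num) (by omega)
      omega
    rw [← Finset.sum_range_add_sum_Ico _ h1]
    have h2 : ∑ h ∈ Finset.Ico (2^N - 1 : ℕ) (2^(N+1) - 1 : ℕ), Real.log ((h : ℝ) + 1) ^ k * Ψ ((h : ℝ) + 1) ≤
        ((N:ℝ) + 1)^k * pp Ψ N := by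
      calc _ ≤ ∑ _h ∈ Finset.Ico (2^N - 1 : ℕ) (2^(N+1) - 1 : ℕ), ((N:ℝ) + 1)^k * Ψ ((2:ℝ)^N) := by
            apply Finset.sum_le_sum
            intro h hh
            rw [Finset.mem_Ico] at hh
            have hp1 : 1 ≤ 2 ^ N := Nat.one_le_two_pow
            have hp2 : 1 ≤ 2 ^ (N+1) := Nat.one_le_two_pow
            have a1 : 2 ^ N ≤ h + 1 := by omega
            have a2 : h + 1 ≤ 2 ^ (N+1) := by omega
            have a1' : (2:ℝ)^N ≤ (h:ℝ) + 1 := by exact_mod_cast a1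
            have a2' : (h:ℝ) + 1 ≤ (2:ℝ)^(N+1) := by exact_mod_cast a2
            have hlog : Real.log ((h:ℝ) + 1) ≤ (N:ℝ) + 1 := by
              calc Real.log ((h:ℝ) + 1) ≤ Real.log ((2:ℝ)^(N+1)) := Real.log_le_log (by positivity) a2'
                _ = ((N:ℝ) + 1) * Real.log 2 := by rw [Real.log_pow]; push_cast; ring
                _ ≤ ((N:ℝ) + 1) * 1 := by
                  gcongr
                  have := Real.log_two_lt_d9
                  linarith
                _ = _ := mul_one _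
            have hlog0 : 0 ≤ Real.log ((h:ℝ) + 1) := by
              apply Real.log_nonneg
              have : (0:ℝ) ≤ h := Nat.cast_nonneg h
              linarith
            have hΨ : Ψ ((h:ℝ) + 1) ≤ Ψ ((2:ℝ)^N) := by
              apply hanti (one_le_two_pow_real N) _ a1'
              exact (one_le_two_pow_real N).trans a1'
            have hΨ0 : 0 < Ψ ((h:ℝ) + 1) := hpos _ ((one_le_two_pow_real N).trans a1')
            gcongr
        _ = _ := by
            rw [Finset.sum_const, Nat.card_Ico, nsmul_eq_mul]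
            have e : 2 ^ (N+1) - 1 - (2 ^ N - 1) = 2 ^ N := by
              have : 2 ^ (N+1) = 2 * 2 ^ N := by ring
              have : 1 ≤ 2 ^ N := Nat.one_le_two_pow
              omega
            rw [e]
            unfold pp
            push_cast
            ring
    linarith

theorem diverge (k : ℕ) (Ψ : ℝ → ℝ) (hanti : AntitoneOn Ψ (Set.Ici 1)) (hpos : ∀ x : ℝ, 1 ≤ x → 0 < Ψ x)
    (hdiv : ¬ Summable (fun h : ℕ => Real.log ((h : ℝ) + 1) ^ k * Ψ ((h : ℝ) + 1))) :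
    ¬ Summable (fun L : ℕ => (L:ℝ)^k * qq k Ψ L) := by
  intro hs
  apply hdiv
  -- summability of the minimum
  have h1 : Summable (fun L : ℕ => (L:ℝ)^k * min (pp Ψ L) 1) := by
    have h2 : Summable (fun L : ℕ => (L:ℝ)^k * qq k Ψ L + 1 / (L:ℝ)^2) :=
      hs.add (Real.summable_one_div_nat_pow.mpr (by norm_num))
    rw [← summable_nat_add_iff 1] at h2 ⊢
    refine Summable.of_nonneg_of_le ?_ ?_ h2
    · intro L
      have := pp_pos Ψ hpos (L+1)
      have h3 : 0 ≤ min (pp Ψ (L+1)) 1 := le_min this.le zero_le_one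
      positivity
    · intro L
      have hL : (0:ℝ) < ((L+1 : ℕ) : ℝ) := by positivity
      by_cases h3 : (1:ℝ) / ((L+1:ℕ):ℝ)^(k+2) ≤ min (pp Ψ (L+1)) 1
      · have : qq k Ψ (L+1) = min (pp Ψ (L+1)) 1 := by unfold qq; rw [if_pos h3]
        rw [this]
        have : 0 ≤ 1 / ((L+1:ℕ):ℝ)^2 := by positivity
        linarith
      · have : qq k Ψ (L+1) = 0 := by unfold qq; rw [if_neg h3]
        rw [this, mul_zero, zero_add]
        push Not at h3
        calc ((L+1:ℕ):ℝ)^k * min (pp Ψ (L+1)) 1 ≤ ((L+1:ℕ):ℝ)^k * (1 / ((L+1:ℕ):ℝ)^(k+2)) := by gcongr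
          _ = _ := by rw [pow_add]; field_simp
  -- eventually the minimum is pp
  have h2 := h1.tendsto_atTop_zero
  have h3 : ∀ᶠ L : ℕ in atTop, (L:ℝ)^k * min (pp Ψ L) 1 < 1 := h2.eventually_lt_const one_pos
  have h4 : ∀ᶠ L : ℕ in atTop, (L:ℝ)^k * min (pp Ψ L) 1 = (L:ℝ)^k * pp Ψ L := by
    filter_upwards [h3, eventually_ge_atTop 1] with L hL hL1
    have hL1' : (1:ℝ) ≤ L := by exact_mod_cast hL1
    have : min (pp Ψ L) 1 < 1 := by
      by_contra hcon
      push Not at hcon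
      have : (1:ℝ) ≤ (L:ℝ)^k * min (pp Ψ L) 1 := one_le_mul_of_one_le_of_one_le (one_le_pow₀ hL1') hcon
      linarith
    rw [min_lt_iff] at this
    rcases this with h | h
    · rw [min_eq_left h.le]
    · exact absurd h (lt_irrefl _)
  have h5 : Summable (fun L : ℕ => (L:ℝ)^k * pp Ψ L) := by
    rw [← Filter.EventuallyEq] at h4
    exact (summable_congr_atTop h4).mp h1
  have h6 : Summable (fun L : ℕ => ((L:ℝ)+1)^k * pp Ψ L) := by
    rw [← summable_nat_add_iff 1] at h5 ⊢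
    refine Summable.of_nonneg_of_le ?_ ?_ (h5.mul_left (2^k))
    · intro L
      have := pp_pos Ψ hpos (L+1)
      positivity
    · intro L
      have := pp_pos Ψ hpos (L+1)
      rw [← mul_assoc, ← mul_pow]
      push_cast
      gcongr
      have : (0:ℝ) ≤ L := Nat.cast_nonneg L
      linarith
  -- conclude
  obtain ⟨c, hc⟩ := h6
  apply summable_of_sum_range_le (c := c)
  · intro h
    have h0 : (0:ℝ) ≤ h := Nat.cast_nonneg h
    have := hpos ((h:ℝ) + 1) (by linarith)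
    have := Real.log_nonneg (show (1:ℝ) ≤ (h:ℝ) + 1 by linarith)
    positivity
  · intro n
    have hn : n ≤ 2 ^ n - 1 := by
      have := Nat.lt_two_pow_self (n := n)
      omega
    calc ∑ h ∈ range n, Real.log ((h : ℝ) + 1) ^ k * Ψ ((h : ℝ) + 1) ≤
        ∑ h ∈ range (2^n - 1), Real.log ((h : ℝ) + 1) ^ k * Ψ ((h : ℝ) + 1) := by
          apply Finset.sum_le_sum_of_subset_of_nonneg
          · intro i hi
            rw [Finset.mem_range] at hi ⊢
            omega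
          · intro h _ _
            have h0 : (0:ℝ) ≤ h := Nat.cast_nonneg h
            have := hpos ((h:ℝ) + 1) (by linarith)
            have := Real.log_nonneg (show (1:ℝ) ≤ (h:ℝ) + 1 by linarith)
            positivity
      _ ≤ ∑ L ∈ range n, ((L:ℝ) + 1)^k * pp Ψ L := block_sum k Ψ hanti hpos n
      _ ≤ c := by
          apply sum_le_hasSum _ _ hc
          intro L _
          have := pp_pos Ψ hpos L
          positivity

theorem diverge2 (k : ℕ) (Ψ : ℝ → ℝ) (hanti : AntitoneOn Ψ (Set.Ici 1)) (hpos : ∀ x : ℝ, 1 ≤ x → 0 < Ψ x)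
    (hdiv : ¬ Summable (fun h : ℕ => Real.log ((h : ℝ) + 1) ^ k * Ψ ((h : ℝ) + 1))) (D : ℕ) (hD : 0 < D)
    (N1 : ℕ) : ∃ N2 : ℕ, 1 ≤ ∑ L ∈ Finset.Ico N1 N2, ((L / D : ℕ) : ℝ)^k * qq k Ψ L := by
  have h1 := diverge k Ψ hanti hpos hdiv
  have h2 : ¬ Summable (fun L : ℕ => ((L / D : ℕ) : ℝ)^k * qq k Ψ L) := by
    intro hs
    apply h1
    rw [← summable_nat_add_iff D] at hs ⊢
    refine Summable.of_nonneg_of_le ?_ ?_ (hs.mul_left ((2 * D : ℝ)^k))
    · intro L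
      have := qq_nonneg k Ψ hpos (L + D)
      positivity
    · intro L
      have := qq_nonneg k Ψ hpos (L + D)
      rw [← mul_assoc, ← mul_pow]
      gcongr
      have h3 : L + D ≤ 2 * D * ((L + D) / D) := by
        have h4 := Nat.div_add_mod (L + D) D
        have h5 := Nat.mod_lt (L + D) hD
        have h6 : 1 ≤ (L + D) / D := by
          rw [Nat.le_div_iff_mul_le hD]; omega
        have h7 : D * 1 ≤ D * ((L + D) / D) := Nat.mul_le_mul_left D h6
        nlinarith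
      exact_mod_cast h3
  rw [not_summable_iff_tendsto_nat_atTop_of_nonneg (by
    intro L
    have := qq_nonneg k Ψ hpos L
    positivity)] at h2
  obtain ⟨N, hN⟩ := (h2.eventually_ge_atTop (∑ L ∈ range N1, ((L / D : ℕ) : ℝ)^k * qq k Ψ L + 1)).exists_forall_of_atTop
  have h3 := hN (max N N1) (le_max_left _ _)
  refine ⟨max N N1, ?_⟩
  rw [← Finset.sum_range_add_sum_Ico _ (le_max_right N N1)] at h3
  linarith

end MDiv
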