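import Mathlib
import Pool.Agent.Hhelper92.Mult.Dens
import Pool.Agent.Hhelper92.Mult.Farey

set_option autoImplicit false

/-!
The abstract second moment argument for unions of small balls.
-/

namespace MDiv

open Finset MeasureTheory

/-- union of open balls of radius `ρ` around the points of `R` -/
def EE (R : Finset ℝ) (ρ : ℝ) : Set ℝ := ⋃ x ∈ R, Metric.ball x ρ

lemma measurable_EE (R : Finset ℝ) (ρ : ℝ) : MeasurableSet (EE R ρ) :=
  Finset.measurableSet_biUnion R (fun _ _ => measurableSet_ball)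

lemma vol_EE (R : Finset ℝ) (ρ σ : ℝ) (hρ0 : 0 ≤ ρ) (hρ : 2 * ρ ≤ σ)
    (hsep : ∀ x ∈ R, ∀ y ∈ R, |x - y| < σ → x = y) :
    volume (EE R ρ) = ENNReal.ofReal ((R.card : ℝ) * (2 * ρ)) := by
  unfold EE
  rw [measure_biUnion_finset]
  · rw [Finset.sum_congr rfl (fun x _ => Real.volume_ball (a := x) (r := ρ)), Finset.sum_const, nsmul_eq_mul,
      ← ENNReal.ofReal_natCast, ← ENNReal.ofReal_mul (by positivity)]
  · intro x hx y hy hxy
    rw [Function.onFun, Set.disjoint_left]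
    intro z hz1 hz2
    rw [Metric.mem_ball, Real.dist_eq] at hz1 hz2
    apply hxy
    apply hsep x hx y hy
    calc |x - y| = |(z - y) - (z - x)| := by congr 1; ring
      _ ≤ |z - y| + |z - x| := abs_sub _ _
      _ < σ := by linarith
  · intro x _; exact measurableSet_ball

/-- pairs of close points -/
noncomputable def prs (R R' : Finset ℝ) (ρ : ℝ) : Finset (ℝ × ℝ) :=
  (R ×ˢ R').filter (fun p => |p.1 - p.2| ≤ ρ)

lemma vol_inter (R R' : Finset ℝ) (ρ ρ' : ℝ) (hρ : 0 ≤ ρ) (hρ' : 0 ≤ ρ') :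
    volume (EE R ρ ∩ EE R' ρ') ≤ ENNReal.ofReal (((prs R R' (ρ + ρ')).card : ℝ) * (2 * min ρ ρ')) := by
  have h1 : EE R ρ ∩ EE R' ρ' ⊆ ⋃ p ∈ prs R R' (ρ + ρ'), Metric.ball (if ρ ≤ ρ' then p.1 else p.2) (min ρ ρ') := by
    rintro z ⟨h1, h2⟩
    unfold EE at h1 h2
    rw [Set.mem_iUnion₂] at h1 h2 ⊢
    obtain ⟨x, hx, hzx⟩ := h1
    obtain ⟨y, hy, hzy⟩ := h2
    rw [Metric.mem_ball, Real.dist_eq] at hzx hzy
    refine ⟨(x, y), ?_, ?_⟩
    · unfold prs
      rw [Finset.mem_filter, Finset.mem_product]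
      refine ⟨⟨hx, hy⟩, ?_⟩
      calc |x - y| = |(z - y) - (z - x)| := by congr 1; ring
        _ ≤ |z - y| + |z - x| := abs_sub _ _
        _ ≤ ρ + ρ' := by linarith
    · rw [Metric.mem_ball, Real.dist_eq]
      split_ifs with h
      · rw [min_eq_left h]; exact hzx
      · rw [min_eq_right (not_le.mp h).le]; exact hzy
  calc volume (EE R ρ ∩ EE R' ρ') ≤ volume (⋃ p ∈ prs R R' (ρ + ρ'), Metric.ball (if ρ ≤ ρ' then p.1 else p.2) (min ρ ρ')) :=
        measure_mono h1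
    _ ≤ ∑ p ∈ prs R R' (ρ + ρ'), volume (Metric.ball (if ρ ≤ ρ' then p.1 else p.2) (min ρ ρ')) :=
        measure_biUnion_finset_le _ _
    _ = ∑ _p ∈ prs R R' (ρ + ρ'), ENNReal.ofReal (2 * min ρ ρ') :=
        Finset.sum_congr rfl (fun _ _ => Real.volume_ball _ _)
    _ = _ := by
        have : 0 ≤ min ρ ρ' := le_min hρ hρ'
        rw [Finset.sum_const, nsmul_eq_mul, ← ENNReal.ofReal_natCast, ← ENNReal.ofReal_mul (by positivity)]

/-- number of close pairs by separation -/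
lemma prs_sep (R R' : Finset ℝ) (ρ σ : ℝ) (hσ : 0 < σ) (hρ : 0 ≤ ρ)
    (hsep : ∀ x ∈ R, ∀ y ∈ R, |x - y| < σ → x = y) :
    ((prs R R' ρ).card : ℝ) ≤ R'.card * (2 * ρ / σ + 1) := by
  classical
  have hmap : ∀ p ∈ prs R R' ρ, p.2 ∈ R' := by
    intro p hp
    unfold prs at hp
    rw [Finset.mem_filter, Finset.mem_product] at hp
    exact hp.1.2
  rw [Finset.card_eq_sum_card_fiberwise hmap]
  push_cast
  calc _ ≤ ∑ _y ∈ R', (2 * ρ / σ + 1) := by
        apply Finset.sum_le_sum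
        intro y _
        have h1 : ((prs R R' ρ).filter (fun p => p.2 = y)).card ≤ (R.filter (fun x => |x - y| ≤ ρ)).card := by
          apply Finset.card_le_card_of_injOn (fun p => p.1)
          · intro p hp
            rw [Finset.mem_coe, Finset.mem_filter] at hp
            unfold prs at hp
            rw [Finset.mem_filter, Finset.mem_product] at hp
            rw [Finset.mem_coe, Finset.mem_filter]
            refine ⟨hp.1.1.1, ?_⟩
            rw [← hp.2]; exact hp.1.2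
          · intro p hp p' hp' he
            rw [Finset.mem_coe, Finset.mem_filter] at hp hp'
            exact Prod.ext he (by rw [hp.2, hp'.2])
        have h2 := card_sep_real (R.filter (fun x => |x - y| ≤ ρ)) (y - ρ) (2 * ρ) σ hσ (by
          intro x hx
          rw [Finset.mem_filter, abs_le] at hx
          constructor <;> linarith [hx.2.1, hx.2.2]) (by linarith) (by
          intro x hx x' hx' hd
          rw [Finset.mem_filter] at hx hx'
          exact hsep x hx.1 x' hx'.1 hd)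
        have h3 : (((prs R R' ρ).filter (fun p => p.2 = y)).card : ℝ) ≤ ((R.filter (fun x => |x - y| ≤ ρ)).card : ℝ) := by
          exact_mod_cast h1
        linarith
    _ = _ := by rw [Finset.sum_const, nsmul_eq_mul]

theorem moment {ι : Type*} [DecidableEq ι] (F : Finset ι) (T : ι → ℕ) (q : ι → ℝ) (R : ι → Finset ℝ)
    (X : ι → ι → ℝ) (α β c2 C1 : ℝ) (hαβ : α < β) (hc2 : 0 < c2) (hC1 : 0 ≤ C1)
    (hq0 : ∀ s ∈ F, 0 < q s) (hq1 : ∀ s ∈ F, q s ≤ 1)
    (hR : ∀ s ∈ F, ∀ x ∈ R s, α ≤ x ∧ x ≤ β)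
    (hsep : ∀ s ∈ F, ∀ x ∈ R s, ∀ y ∈ R s, |x - y| < 1 / 2 ^ (T s) → x = y)
    (hcard : ∀ s ∈ F, c2 * 2 ^ (T s) * (β - α) ≤ (R s).card)
    (hT : ∀ s ∈ F, 1 ≤ 2 ^ (T s) * (β - α))
    (hX : ∀ s t, 0 ≤ X s t)
    (hnear : ∀ s ∈ F, ∀ t ∈ F, T t ≤ T s → q t / 4 / 2 ^ (T t) * 2 ^ (T s) < 1 →
      ((prs (R s) (R t) (q s / 4 / 2 ^ (T s) + q t / 4 / 2 ^ (T t))).card : ℝ) ≤
        C1 * (β - α) * ((q s / 4 / 2 ^ (T s) + q t / 4 / 2 ^ (T t)) * (2 ^ (T s) * 2 ^ (T t)) + X s t))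
    (hXsum : ∀ s ∈ F, ∑ t ∈ F.filter (fun t => T t ≤ T s), X s t ≤ C1 * 2 ^ (T s))
    (hσ : 1 ≤ ∑ s ∈ F, q s) :
    c2 ^ 2 / (16 * (C1 + 1) ^ 2) * (β - α) ≤ (volume (⋃ s ∈ F, EE (R s) (q s / 4 / 2 ^ (T s)))).toReal := by
  classical
  set δ := β - α with hδ
  have hδ0 : 0 < δ := by rw [hδ]; linarith
  set ρ : ι → ℝ := fun s => q s / 4 / 2 ^ (T s) with hρ
  have h2T : ∀ s, (0:ℝ) < 2 ^ (T s) := fun s => by positivity
  have hρ0 : ∀ s ∈ F, 0 < ρ s := fun s hs => by
    have := hq0 s hs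
    rw [hρ]; positivity
  have hρT : ∀ s, ρ s * 2 ^ (T s) = q s / 4 := by
    intro s; rw [hρ]; field_simp
  have hρ1 : ∀ s ∈ F, 2 * ρ s ≤ 1 / 2 ^ (T s) := by
    intro s hs
    rw [le_div_iff₀ (h2T s)]
    have := hρT s
    have := hq1 s hs
    linarith
  have hvE : ∀ s ∈ F, volume (EE (R s) (ρ s)) = ENNReal.ofReal (((R s).card : ℝ) * (2 * ρ s)) := fun s hs =>
    vol_EE (R s) (ρ s) _ (hρ0 s hs).le (hρ1 s hs) (hsep s hs)
  have hvE' : ∀ s ∈ F, (volume (EE (R s) (ρ s))).toReal = ((R s).card : ℝ) * (2 * ρ s) := by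
    intro s hs
    have := hρ0 s hs
    rw [hvE s hs, ENNReal.toReal_ofReal (by positivity)]
  have hlow : ∀ s ∈ F, c2 * δ / 2 * q s ≤ (volume (EE (R s) (ρ s))).toReal := by
    intro s hs
    have h0 := hρ0 s hs
    rw [hvE' s hs]
    calc c2 * δ / 2 * q s = (c2 * 2 ^ (T s) * δ) * (2 * ρ s) := by
          have := hρT s
          linear_combination (-2 * c2 * δ) * this
      _ ≤ _ := by
          have := hcard s hs
          gcongr
  have hcardup : ∀ s ∈ F, ((R s).card : ℝ) ≤ 2 * (2 ^ (T s) * δ) := by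
    intro s hs
    have h1 := card_sep_real (R s) α δ (1 / 2 ^ (T s)) (by positivity) (by
      intro x hx
      have := hR s hs x hx
      constructor
      · exact this.1
      · rw [hδ]; linarith [this.2]) hδ0.le (hsep s hs)
    have h2 : δ / (1 / 2 ^ (T s)) = 2 ^ (T s) * δ := by field_simp
    rw [h2] at h1
    have := hT s hs
    linarith
  -- pair bound
  have hpair : ∀ s ∈ F, ∀ t ∈ F, T t ≤ T s →
      (volume (EE (R s) (ρ s) ∩ EE (R t) (ρ t))).toReal ≤
        δ * (C1 + 1) * (q s * q t + q s * (X s t / 2 ^ (T s))) := by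
    intro s hs t ht hts
    have hs0 := hρ0 s hs
    have ht0 := hρ0 t ht
    have hqs := hq0 s hs
    have hqt := hq0 t ht
    have hXst := hX s t
    have hv := vol_inter (R s) (R t) (ρ s) (ρ t) hs0.le ht0.le
    have hmin0 : 0 < min (ρ s) (ρ t) := lt_min hs0 ht0
    have hv' : (volume (EE (R s) (ρ s) ∩ EE (R t) (ρ t))).toReal ≤
        ((prs (R s) (R t) (ρ s + ρ t)).card : ℝ) * (2 * min (ρ s) (ρ t)) := by
      apply ENNReal.toReal_le_of_le_ofReal (by positivity) hv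
    refine hv'.trans ?_
    have hqq : q s * q t = 16 * (ρ s * ρ t * (2 ^ (T s) * 2 ^ (T t))) := by
      have e1 := hρT s
      have e2 := hρT t
      have : ρ s * ρ t * (2 ^ (T s) * 2 ^ (T t)) = (ρ s * 2 ^ (T s)) * (ρ t * 2 ^ (T t)) := by ring
      rw [this, e1, e2]; ring
    have hminle1 : min (ρ s) (ρ t) ≤ ρ s := min_le_left _ _
    have hxx : 0 ≤ q s * (X s t / 2 ^ (T s)) := by positivity
    by_cases hnf : ρ t * 2 ^ (T s) < 1
    · have hn := hnear s hs t ht hts hnf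
      have hprod : (ρ s + ρ t) * min (ρ s) (ρ t) ≤ 2 * (ρ s * ρ t) := by
        have h1 := min_mul_max (ρ s) (ρ t)
        have h2 : ρ s ≤ max (ρ s) (ρ t) := le_max_left _ _
        have h3 : ρ t ≤ max (ρ s) (ρ t) := le_max_right _ _
        calc (ρ s + ρ t) * min (ρ s) (ρ t) ≤ (2 * max (ρ s) (ρ t)) * min (ρ s) (ρ t) := by
              apply mul_le_mul_of_nonneg_right _ hmin0.le
              linarith
          _ = 2 * (ρ s * ρ t) := by rw [← h1]; ring
      calc ((prs (R s) (R t) (ρ s + ρ t)).card : ℝ) * (2 * min (ρ s) (ρ t)) ≤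
          (C1 * δ * ((ρ s + ρ t) * (2 ^ (T s) * 2 ^ (T t)) + X s t)) * (2 * min (ρ s) (ρ t)) := by
            apply mul_le_mul_of_nonneg_right hn (by positivity)
        _ = C1 * δ * (2 * (((ρ s + ρ t) * min (ρ s) (ρ t)) * (2 ^ (T s) * 2 ^ (T t))) + 2 * (X s t * min (ρ s) (ρ t))) := by
            ring
        _ ≤ C1 * δ * (2 * ((2 * (ρ s * ρ t)) * (2 ^ (T s) * 2 ^ (T t))) + 2 * (X s t * ρ s)) := by
            gcongr
        _ = C1 * δ * (q s * q t / 4 + q s * (X s t / 2 ^ (T s)) / 2) := by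
            have e1 : ρ s = q s / 4 / 2 ^ (T s) := rfl
            rw [hqq]
            have e2 : X s t * ρ s = q s * (X s t / 2 ^ (T s)) / 4 := by rw [e1]; field_simp
            rw [e2]; ring
        _ ≤ (C1 * δ) * (q s * q t + q s * (X s t / 2 ^ (T s))) := by
            have h0 : 0 ≤ q s * q t := by positivity
            gcongr
            · linarith
            · linarith
        _ ≤ δ * (C1 + 1) * (q s * q t + q s * (X s t / 2 ^ (T s))) := by
            have h0 : 0 ≤ q s * q t + q s * (X s t / 2 ^ (T s)) := by positivity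
            apply mul_le_mul_of_nonneg_right _ h0
            linarith
    · push Not at hnf
      have h1 := prs_sep (R s) (R t) (ρ s + ρ t) (1 / 2 ^ (T s)) (by positivity) (by positivity) (hsep s hs)
      have h2 : 2 * (ρ s + ρ t) / (1 / 2 ^ (T s)) + 1 ≤ 4 * (ρ t * 2 ^ (T s)) := by
        have e1 : 2 * (ρ s + ρ t) / (1 / 2 ^ (T s)) = 2 * (ρ s * 2 ^ (T s)) + 2 * (ρ t * 2 ^ (T s)) := by field_simp
        rw [e1, hρT s]
        have := hq1 s hs
        linarith
      calc ((prs (R s) (R t) (ρ s + ρ t)).card : ℝ) * (2 * min (ρ s) (ρ t)) ≤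
          ((2 * (2 ^ (T t) * δ)) * (4 * (ρ t * 2 ^ (T s)))) * (2 * ρ s) := by
            apply mul_le_mul _ (by linarith) (by positivity) (by positivity)
            refine h1.trans ?_
            apply mul_le_mul (hcardup t ht) h2 (by positivity) (by positivity)
        _ = δ * (q s * q t) := by rw [hqq]; ring
        _ ≤ δ * (C1 + 1) * (q s * q t + q s * (X s t / 2 ^ (T s))) := by
            have h0 : 0 ≤ q s * q t := by positivity
            calc δ * (q s * q t) = δ * 1 * (q s * q t) := by ring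
              _ ≤ _ := by
                gcongr
                · linarith
                · linarith
  -- double sum
  set σ := ∑ s ∈ F, q s with hσd
  have hsum1 : ∑ s ∈ F, ∑ t ∈ F.filter (fun t => T t ≤ T s), (volume (EE (R s) (ρ s) ∩ EE (R t) (ρ t))).toReal ≤
      δ * (C1 + 1) * (σ ^ 2 + C1 * σ) := by
    calc _ ≤ ∑ s ∈ F, ∑ t ∈ F.filter (fun t => T t ≤ T s), δ * (C1 + 1) * (q s * q t + q s * (X s t / 2 ^ (T s))) := by
          apply Finset.sum_le_sum; intro s hs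
          apply Finset.sum_le_sum; intro t ht
          rw [Finset.mem_filter] at ht
          exact hpair s hs t ht.1 ht.2
      _ ≤ ∑ s ∈ F, δ * (C1 + 1) * (q s * σ + q s * C1) := by
          apply Finset.sum_le_sum; intro s hs
          rw [← Finset.mul_sum, Finset.sum_add_distrib, ← Finset.mul_sum, ← Finset.mul_sum, ← Finset.sum_div]
          have hqs := hq0 s hs
          have h1 : ∑ t ∈ F.filter (fun t => T t ≤ T s), q t ≤ σ := by
            apply Finset.sum_le_sum_of_subset_of_nonneg (Finset.filter_subset _ _)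
            intro t ht _; exact (hq0 t ht).le
          have h2 : (∑ t ∈ F.filter (fun t => T t ≤ T s), X s t) / 2 ^ (T s) ≤ C1 := by
            rw [div_le_iff₀ (h2T s)]; exact hXsum s hs
          gcongr
      _ = _ := by
          rw [← Finset.mul_sum, Finset.sum_add_distrib, ← Finset.sum_mul, ← Finset.sum_mul]; ring
  have hsum2 : ∑ s ∈ F, ∑ t ∈ F, (volume (EE (R s) (ρ s) ∩ EE (R t) (ρ t))).toReal ≤
      2 * (δ * (C1 + 1) * (σ ^ 2 + C1 * σ)) := by
    have h1 : ∑ s ∈ F, ∑ t ∈ F, (volume (EE (R s) (ρ s) ∩ EE (R t) (ρ t))).toReal ≤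
        ∑ s ∈ F, ∑ t ∈ F.filter (fun t => T t ≤ T s), (volume (EE (R s) (ρ s) ∩ EE (R t) (ρ t))).toReal +
        ∑ s ∈ F, ∑ t ∈ F.filter (fun t => T s ≤ T t), (volume (EE (R s) (ρ s) ∩ EE (R t) (ρ t))).toReal := by
      rw [← Finset.sum_add_distrib]
      apply Finset.sum_le_sum; intro s _
      rw [Finset.sum_filter, Finset.sum_filter, ← Finset.sum_add_distrib]
      apply Finset.sum_le_sum; intro t _
      have h0 : 0 ≤ (volume (EE (R s) (ρ s) ∩ EE (R t) (ρ t))).toReal := ENNReal.toReal_nonneg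
      rcases le_total (T t) (T s) with h | h
      · rw [if_pos h]; split_ifs <;> linarith
      · rw [if_pos h]; split_ifs <;> linarith
    have h2 : ∑ s ∈ F, ∑ t ∈ F.filter (fun t => T s ≤ T t), (volume (EE (R s) (ρ s) ∩ EE (R t) (ρ t))).toReal =
        ∑ s ∈ F, ∑ t ∈ F.filter (fun t => T t ≤ T s), (volume (EE (R s) (ρ s) ∩ EE (R t) (ρ t))).toReal := by
      simp only [Finset.sum_filter]
      rw [Finset.sum_comm]
      apply Finset.sum_congr rfl; intro s _
      apply Finset.sum_congr rfl; intro t _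
      rw [Set.inter_comm]
    rw [h2] at h1
    linarith
  have hmom := second_moment F (fun s => EE (R s) (ρ s)) (fun s _ => measurable_EE _ _) (by
    intro s hs
    rw [hvE s hs]; exact ENNReal.ofReal_ne_top)
  have hlowsum : c2 * δ / 2 * σ ≤ ∑ s ∈ F, (volume (EE (R s) (ρ s))).toReal := by
    rw [hσd, Finset.mul_sum]
    exact Finset.sum_le_sum hlow
  set v := (volume (⋃ s ∈ F, EE (R s) (ρ s))).toReal with hv
  have hv0 : 0 ≤ v := ENNReal.toReal_nonneg
  have hσ0 : 0 < σ := by linarith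
  have h1 : (c2 * δ / 2 * σ) ^ 2 ≤ v * (2 * (δ * (C1 + 1) * (σ ^ 2 + C1 * σ))) := by
    calc (c2 * δ / 2 * σ) ^ 2 ≤ (∑ s ∈ F, (volume (EE (R s) (ρ s))).toReal) ^ 2 := by
          apply pow_le_pow_left₀ (by positivity) hlowsum
      _ ≤ v * ∑ s ∈ F, ∑ t ∈ F, (volume (EE (R s) (ρ s) ∩ EE (R t) (ρ t))).toReal := hmom
      _ ≤ _ := by gcongr
  have h2 : v * (2 * (δ * (C1 + 1) * (σ ^ 2 + C1 * σ))) ≤ v * (4 * δ * (C1 + 1)^2 * σ^2) := by
    apply mul_le_mul_of_nonneg_left _ hv0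
    have h3 : σ ^ 2 + C1 * σ ≤ (C1 + 1) * σ^2 := by
      have h4 : C1 * σ * 1 ≤ C1 * σ * σ := by gcongr
      nlinarith
    have h5 : 0 ≤ (C1 + 1) * σ^2 := by positivity
    calc 2 * (δ * (C1 + 1) * (σ ^ 2 + C1 * σ)) ≤ 2 * (δ * (C1 + 1) * ((C1 + 1) * σ^2)) := by gcongr
      _ ≤ 4 * δ * (C1 + 1)^2 * σ^2 := by
        have : 0 ≤ δ * (C1 + 1) ^ 2 * σ ^ 2 := by positivity
        nlinarith
  have h3 := h1.trans h2
  -- divide
  have hσ2 : 0 < δ * σ^2 := by positivity
  have h4 : c2 ^ 2 * δ / 4 * (δ * σ^2) ≤ (v * 4 * (C1 + 1)^2) * (δ * σ^2) := by nlinarith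
  have h5 := le_of_mul_le_mul_right h4 hσ2
  have hC10 : 0 < (C1 + 1)^2 := by positivity
  have h6 : c2 ^ 2 / (16 * (C1 + 1) ^ 2) * δ = (c2 ^ 2 * δ / 4) / (4 * (C1 + 1)^2) := by field_simp; ring
  rw [h6, div_le_iff₀ (by positivity)]
  linarith

end MDiv
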