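import Mathlib
import Pool.Agent.Hhelper92.Mult.Poly
import Pool.Agent.Hhelper92.Mult.SL2
import Pool.Agent.Hhelper92.Mult.Farey

set_option autoImplicit false

/-!
Chains of unimodular matrices attached to a real number, and the integer vectors attached to a pair
of roots.
-/

namespace MDiv

open Finset

/-- `x` is well placed at level `Λ` -/
def IsG (Λ : ℕ) (x : ℝ) (g : M2) : Prop :=
  g.a * g.d - g.b * g.c = 1 ∧ 1 ≤ g.a ∧ g.a ≤ Λ ∧ (Λ:ℤ) ≤ 100 * g.a ∧ 0 ≤ g.c ∧ g.c ≤ g.a ∧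
    |(g.a:ℝ) * x + g.b| ≤ 2 / Λ

def Good (Λ : ℕ) (x : ℝ) : Prop := ∃ g : M2, IsG Λ x g

lemma IsG.bounds {Λ : ℕ} {x : ℝ} {g : M2} (hg : IsG Λ x g) (hΛ : 1 ≤ Λ) :
    (g.a:ℝ) * g.d - g.b * g.c = 1 ∧ (1:ℝ) ≤ g.a ∧ (g.a:ℝ) ≤ Λ ∧ (Λ:ℝ) ≤ 100 * g.a ∧ (0:ℝ) ≤ g.c ∧
      (g.c:ℝ) ≤ Λ ∧ |(g.c:ℝ) * x + g.d| ≤ 300 / Λ := by
  obtain ⟨h1, h2, h3, h4, h5, h6, h7⟩ := hg
  have hΛ' : (1:ℝ) ≤ Λ := by exact_mod_cast hΛ
  have e1 : (g.a:ℝ) * g.d - g.b * g.c = 1 := by exact_mod_cast h1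
  have e2 : (1:ℝ) ≤ g.a := by exact_mod_cast h2
  have e3 : (g.a:ℝ) ≤ Λ := by exact_mod_cast h3
  have e4 : (Λ:ℝ) ≤ 100 * g.a := by exact_mod_cast h4
  have e5 : (0:ℝ) ≤ g.c := by exact_mod_cast h5
  have e6 : (g.c:ℝ) ≤ g.a := by exact_mod_cast h6
  refine ⟨e1, e2, e3, e4, e5, e6.trans e3, ?_⟩
  have h8 : (g.c:ℝ) * x + g.d = (1 + g.c * (g.a * x + g.b)) / g.a := by
    rw [eq_div_iff (by linarith)]
    linear_combination e1
  rw [h8, abs_div, abs_of_pos (by linarith : (0:ℝ) < g.a), div_le_div_iff₀ (by linarith) (by linarith)]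
  have h9 : |(1 + (g.c:ℝ) * (g.a * x + g.b))| ≤ 3 := by
    calc |(1 + (g.c:ℝ) * (g.a * x + g.b))| ≤ |(1:ℝ)| + |(g.c:ℝ) * (g.a * x + g.b)| := abs_add_le _ _
      _ ≤ 1 + Λ * (2 / Λ) := by
          rw [abs_one, abs_mul, abs_of_nonneg e5]
          gcongr
          linarith
      _ = 3 := by field_simp; norm_num
  nlinarith

/-- product of matrices -/
def mm (g h : M2) : M2 := ⟨g.a * h.a + g.b * h.c, g.a * h.b + g.b * h.d, g.c * h.a + g.d * h.c, g.c * h.b + g.d * h.d⟩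

lemma quot_exists {Λ N : ℕ} {x : ℝ} {g g' : M2} (hΛ : 1 ≤ Λ) (hN : 1 ≤ N) (hg : IsG Λ x g)
    (hg' : IsG (Λ * N) x g') : ∃ h ∈ slb (600 * N), mm h g = g' := by
  have hΛN : 1 ≤ Λ * N := Nat.mul_pos hΛ hN
  obtain ⟨a1, a2, a3, a4, a5, a6, a7⟩ := hg.bounds hΛ
  obtain ⟨b1, b2, b3, b4, b5, b6, b7⟩ := hg'.bounds hΛN
  have a8 := hg.2.2.2.2.2.2
  have b8 := hg'.2.2.2.2.2.2
  have hΛ' : (1:ℝ) ≤ Λ := by exact_mod_cast hΛ
  have hN' : (1:ℝ) ≤ N := by exact_mod_cast hN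
  push_cast at b3 b4 b6 b7 b8
  have hΛ0 : (0:ℝ) < Λ := by linarith
  have hN0 : (0:ℝ) < N := by linarith
  have habs : ∀ (p q s t : ℝ) (P Q S T : ℝ), |p| ≤ P → |q| ≤ Q → |s| ≤ S → |t| ≤ T →
      |p * q - s * t| ≤ P * Q + S * T := by
    intro p q s t P Q S T hp hq hs ht
    calc |p * q - s * t| ≤ |p * q| + |s * t| := abs_sub _ _
      _ ≤ P * Q + S * T := by
        rw [abs_mul, abs_mul]
        have := (abs_nonneg p).trans hp
        have := (abs_nonneg s).trans hs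
        gcongr
  have ga : |(g.a:ℝ)| ≤ Λ := by rw [abs_of_nonneg (by linarith)]; exact a3
  have gc : |(g.c:ℝ)| ≤ Λ := by rw [abs_of_nonneg a5]; exact a6
  have ga' : |(g'.a:ℝ)| ≤ Λ * N := by rw [abs_of_nonneg (by linarith)]; exact b3
  have gc' : |(g'.c:ℝ)| ≤ Λ * N := by rw [abs_of_nonneg b5]; exact b6
  have hkey : ∀ m : ℤ, |(m:ℝ)| ≤ 600 * N → |m| ≤ ((600 * N : ℕ) : ℤ) := by
    intro m hm
    have : |(m:ℝ)| ≤ ((600 * N : ℕ) : ℝ) := by push_cast; exact hm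
    exact_mod_cast this
  refine ⟨⟨g'.a * g.d - g'.b * g.c, -(g'.a * g.b) + g'.b * g.a, g'.c * g.d - g'.d * g.c,
    -(g'.c * g.b) + g'.d * g.a⟩, ?_, ?_⟩
  · rw [mem_slb]
    refine ⟨⟨hkey _ ?_, hkey _ ?_, hkey _ ?_, hkey _ ?_⟩, ?_⟩
    · push_cast
      have e : (g'.a:ℝ) * g.d - g'.b * g.c = g'.a * (g.c * x + g.d) - g.c * (g'.a * x + g'.b) := by ring
      rw [e]
      refine (habs _ _ _ _ _ _ _ _ ga' a7 gc b8).trans ?_
      have : (Λ:ℝ) * N * (300 / Λ) + Λ * (2 / (Λ * N)) = 300 * N + 2 / N := by field_simp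
      rw [this]
      have : 2 / (N:ℝ) ≤ 2 := by rw [div_le_iff₀ hN0]; linarith
      linarith
    · push_cast
      have e : -((g'.a:ℝ) * g.b) + g'.b * g.a = g.a * (g'.a * x + g'.b) - g'.a * (g.a * x + g.b) := by ring
      rw [e]
      refine (habs _ _ _ _ _ _ _ _ ga b8 ga' a8).trans ?_
      have : (Λ:ℝ) * (2 / (Λ * N)) + Λ * N * (2 / Λ) = 2 / N + 2 * N := by field_simp
      rw [this]
      have : 2 / (N:ℝ) ≤ 2 := by rw [div_le_iff₀ hN0]; linarith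
      linarith
    · push_cast
      have e : (g'.c:ℝ) * g.d - g'.d * g.c = g'.c * (g.c * x + g.d) - g.c * (g'.c * x + g'.d) := by ring
      rw [e]
      refine (habs _ _ _ _ _ _ _ _ gc' a7 gc b7).trans ?_
      have : (Λ:ℝ) * N * (300 / Λ) + Λ * (300 / (Λ * N)) = 300 * N + 300 / N := by field_simp
      rw [this]
      have : 300 / (N:ℝ) ≤ 300 * N := by rw [div_le_iff₀ hN0]; nlinarith
      linarith
    · push_cast
      have e : -((g'.c:ℝ) * g.b) + g'.d * g.a = g.a * (g'.c * x + g'.d) - g'.c * (g.a * x + g.b) := by ring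
      rw [e]
      refine (habs _ _ _ _ _ _ _ _ ga b7 gc' a8).trans ?_
      have : (Λ:ℝ) * (300 / (Λ * N)) + Λ * N * (2 / Λ) = 300 / N + 2 * N := by field_simp
      rw [this]
      have : 300 / (N:ℝ) ≤ 300 * N := by rw [div_le_iff₀ hN0]; nlinarith
      linarith
    · have h1 := hg.1
      have h2 := hg'.1
      show (g'.a * g.d - g'.b * g.c) * (-(g'.c * g.b) + g'.d * g.a) -
        (-(g'.a * g.b) + g'.b * g.a) * (g'.c * g.d - g'.d * g.c) = 1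
      linear_combination (g.a * g.d - g.b * g.c) * h2 + h1
  · have h1 := hg.1
    have h2 := hg'.1
    apply M2.ext'
    · show (g'.a * g.d - g'.b * g.c) * g.a + (-(g'.a * g.b) + g'.b * g.a) * g.c = g'.a
      linear_combination g'.a * h1
    · show (g'.a * g.d - g'.b * g.c) * g.b + (-(g'.a * g.b) + g'.b * g.a) * g.d = g'.b
      linear_combination g'.b * h1
    · show (g'.c * g.d - g'.d * g.c) * g.a + (-(g'.c * g.b) + g'.d * g.a) * g.c = g'.c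
      linear_combination g'.c * h1
    · show (g'.c * g.d - g'.d * g.c) * g.b + (-(g'.c * g.b) + g'.d * g.a) * g.d = g'.d
      linear_combination g'.d * h1

abbrev Tr := M2 × M2 × M2

noncomputable def trs (L X1 u : ℕ) (α β : ℝ) : Finset Tr :=
  (fy L 100 X1 α β) ×ˢ (slb (600 * 2 ^ (1040 * u))) ×ˢ (slb (600 * 2 ^ (1000 * u)))

/-- the product matrix -/
def tm (t : Tr) : M2 := mm t.2.2 (mm t.2.1 t.1)

noncomputable def tx (t : Tr) : ℝ := -(t.1.b:ℝ) / t.1.a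

lemma tm_a (t : Tr) : ((tm t).a : ℝ) = colA t.2.2 t.2.1 t.1 := by
  unfold tm mm colA; push_cast; ring

lemma tm_c (t : Tr) : ((tm t).c : ℝ) = colC t.2.2 t.2.1 t.1 := by
  unfold tm mm colC; push_cast; ring

lemma card_trs (L X1 u : ℕ) (α β : ℝ) (hX1 : 1 ≤ X1) (hα : -(X1:ℝ) ≤ α) (hβ : β ≤ X1)
    (hαβ : α ≤ β) :
    ((trs L X1 u α β).card : ℝ) ≤ 10 ^ 15 * ((β - α) * (L:ℝ)^2 + 1) * ((2:ℝ)^u)^4080 := by
  unfold trs
  rw [Finset.card_product, Finset.card_product]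
  push_cast
  have h1 := card_fy L 100 X1 α β hX1 hα hβ hαβ
  have h2 := card_slb (600 * 2 ^ (1040 * u))
  have h3 := card_slb (600 * 2 ^ (1000 * u))
  push_cast at h2 h3
  rw [pow_u] at h2 h3
  set U : ℝ := (2:ℝ)^u with hU
  have hU0 : 0 ≤ U := by positivity
  have h4 : 0 ≤ (β - α) * (L:ℝ)^2 + 1 := by
    have : 0 ≤ β - α := by linarith
    positivity
  calc ((fy L 100 X1 α β).card : ℝ) * (((slb (600 * 2 ^ (1040 * u))).card : ℝ) * ((slb (600 * 2 ^ (1000 * u))).card : ℝ))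
      ≤ (2 * ((β - α) * (L:ℝ)^2 + 1)) * ((60 * (600 * U ^ 1040)^2) * (60 * (600 * U^1000)^2)) := by
        apply mul_le_mul h1 _ (by positivity) (by linarith)
        apply mul_le_mul h2 h3 (by positivity) (by positivity)
    _ = (2 * 60 * 60 * 600^4) * ((β - α) * (L:ℝ)^2 + 1) * U ^ 4080 := by ring
    _ ≤ _ := by
        have hp : 0 ≤ ((β - α) * (L:ℝ)^2 + 1) * U ^ 4080 := by positivity
        nlinarith

lemma tr_exists {L X1 u : ℕ} {α β x : ℝ} (hX1 : 1 ≤ X1) (hL : 1 ≤ L) (hα : -(X1:ℝ) ≤ α)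
    (hβ : β ≤ X1) (hx1 : α + 200 / (L:ℝ)^2 ≤ x) (hx2 : x ≤ β - 200 / (L:ℝ)^2)
    (h3 : Good L x) (h2 : Good (L * 2 ^ (1040 * u)) x) (h1 : Good (L * 2 ^ (2040 * u)) x) :
    ∃ t ∈ trs L X1 u α β, IsG (L * 2 ^ (2040 * u)) x (tm t) ∧ |x - tx t| ≤ 200 / (L:ℝ)^2 := by
  obtain ⟨g3, hg3⟩ := h3
  obtain ⟨g2', hg2⟩ := h2
  obtain ⟨g1', hg1⟩ := h1
  have hL2 : 1 ≤ L * 2 ^ (1040 * u) := Nat.mul_pos hL (by positivity)
  obtain ⟨g2, hm2, e2⟩ := quot_exists hL Nat.one_le_two_pow hg3 hg2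
  have e3 : L * 2 ^ (2040 * u) = (L * 2 ^ (1040 * u)) * 2 ^ (1000 * u) := by
    rw [mul_assoc, ← pow_add]; congr 2; ring
  rw [e3] at hg1
  obtain ⟨g1, hm1, e1⟩ := quot_exists hL2 Nat.one_le_two_pow hg2 hg1
  obtain ⟨b1, b2, b3, b4, b5, b6, b7⟩ := hg3.bounds hL
  have b8 := hg3.2.2.2.2.2.2
  have hL' : (1:ℝ) ≤ L := by exact_mod_cast hL
  have hL0 : (0:ℝ) < L := by linarith
  have hax : |x - -(g3.b:ℝ) / g3.a| ≤ 200 / (L:ℝ)^2 := by
    have e : x - -(g3.b:ℝ) / g3.a = (g3.a * x + g3.b) / g3.a := by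
      field_simp
      ring
    rw [e, abs_div, abs_of_pos (by linarith : (0:ℝ) < g3.a), div_le_div_iff₀ (by linarith) (by positivity)]
    calc |(g3.a:ℝ) * x + g3.b| * (L:ℝ)^2 ≤ (2 / (L:ℝ)) * (L:ℝ)^2 := by gcongr
      _ = 2 * (L:ℝ) := by field_simp
      _ ≤ 200 * (g3.a:ℝ) := by linarith
  refine ⟨(g3, g2, g1), ?_, ?_, hax⟩
  · unfold trs
    rw [Finset.mem_product, Finset.mem_product]
    refine ⟨?_, hm2, hm1⟩
    rw [mem_fy hX1 hα hβ]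
    obtain ⟨c1, c2, c3, c4, c5, c6, c7⟩ := hg3
    rw [abs_le] at hax
    refine ⟨c1, c2, c3, c4, c5, c6, ?_, ?_⟩
    · show α ≤ -(g3.b:ℝ) / g3.a
      linarith
    · show -(g3.b:ℝ) / g3.a ≤ β
      linarith
  · rw [e3]
    show IsG _ x (mm g1 (mm g2 g3))
    rw [e2, e1]; exact hg1

end MDiv
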