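import Mathlib
import Pool.Agent.Hhelper92.Mult.Near

set_option autoImplicit false

/-!
The integer vectors attached to a pair of roots.
-/

namespace MDiv

open Finset

structure Cfg (k X1 u L : ℕ) (c0 δ α β A B ρ : ℝ) : Prop where
  hX1 : 1 ≤ X1
  hc0 : 0 < c0
  hc1 : c0 ≤ 1
  hα : -(X1:ℝ) ≤ α
  hβ : β ≤ X1
  hδ : 0 < δ
  hδ' : δ ≤ β - α
  hL : 2 ^ (3000 * (6 * k + 1) * u) ≤ L
  hA0 : 0 < A
  hB0 : 0 < B
  hρ : 0 < ρ
  hΛρ : 8 * ((L:ℝ) * ((2:ℝ)^u) ^ 2040)^2 * ρ ≤ 1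
  hA : ((2:ℝ)^u) ^ 4083 ≤ c0 * A
  hB : ((2:ℝ)^u) ^ 4083 ≤ c0 * B
  hAΛ : (L:ℝ) * ((2:ℝ)^u) ^ 2040 ≤ c0 * A * ((2:ℝ)^u) ^ 6
  hBΛ : (L:ℝ) * ((2:ℝ)^u) ^ 2040 ≤ c0 * B * ((2:ℝ)^u) ^ 6
  hAρ : 1 ≤ A * ρ * ((L:ℝ) * ((2:ℝ)^u) ^ 2040) * ((2:ℝ)^u) ^ 6
  hBρ : 1 ≤ B * ρ * ((L:ℝ) * ((2:ℝ)^u) ^ 2040) * ((2:ℝ)^u) ^ 6
  hηA : ((2:ℝ)^u) ^ 2 ≤ A * ρ * (L:ℝ)^2
  hηB : ((2:ℝ)^u) ^ 2 ≤ B * ρ * (L:ℝ)^2

def PairOK {k : ℕ} (u L : ℕ) (c0 δ α β A B ρ : ℝ) (h h' : Fin k → ℤ) (p : ℝ × ℝ) : Prop :=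
  α + δ ≤ p.1 ∧ p.1 ≤ β - δ ∧ α ≤ p.2 ∧ p.2 ≤ β ∧ |p.1 - p.2| ≤ ρ ∧ Good L p.1 ∧
    Good (L * 2 ^ (1040 * u)) p.1 ∧ Good (L * 2 ^ (2040 * u)) p.1 ∧
    (∃ a1 a0 : ℤ, (a1:ℝ) * p.1 + a0 + ev h p.1 = 0 ∧ c0 * A ≤ |(a1:ℝ)| ∧ |(a1:ℝ)| ≤ A) ∧
    (∃ b1 b0 : ℤ, (b1:ℝ) * p.2 + b0 + ev h' p.2 = 0 ∧ c0 * B ≤ |(b1:ℝ)| ∧ |(b1:ℝ)| ≤ B)

lemma root_unique {k : ℕ} {h : Fin k → ℤ} {V X0 x y : ℝ} {a1 a0 : ℤ} (hV0 : 0 ≤ V)
    (hV : ∀ i, |(h i : ℝ)| ≤ V) (hX : 1 ≤ X0) (hx : |x| ≤ X0) (hy : |y| ≤ X0)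
    (h1 : (a1:ℝ) * x + a0 + ev h x = 0) (h2 : (a1:ℝ) * y + a0 + ev h y = 0)
    (ha : K0 k X0 * V < |(a1:ℝ)|) : x = y := by
  by_contra hne
  have h3 : 0 < |y - x| := by
    rw [abs_pos, sub_ne_zero]; exact fun h => hne h.symm
  have h4 := ev_sub_le hV0 hV hX hx hy
  have h5 : (a1:ℝ) * (y - x) = -(ev h y - ev h x) := by linear_combination h2 - h1
  have h6 : |(a1:ℝ)| * |y - x| ≤ K0 k X0 * V * |y - x| := by
    rw [← abs_mul, h5, abs_neg]; exact h4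
  have h7 : |(a1:ℝ)| ≤ K0 k X0 * V := le_of_mul_le_mul_right h6 h3
  linarith

/-- size estimates for one vector -/
lemma vec_bounds (a b c d Λ x φ f a1 a0 A η : ℝ) (hdet : a * d - b * c = 1) (hΛ : 0 < Λ)
    (ha0 : 0 ≤ a) (haΛ : a ≤ Λ) (hc0 : 0 ≤ c) (hcΛ : c ≤ Λ)
    (hax : |a * x + b| ≤ 304 / Λ) (hcx : |c * x + d| ≤ 304 / Λ)
    (hroot : a1 * x + a0 + f = 0) (hA : |a1| ≤ A) (hη : |f - φ| ≤ η)
    (hη1 : Λ^2 * η ≤ A) (hη2 : Λ^2 * η ≤ |a1| / 4) :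
    |(a1 * d - a0 * c) + (-(c * φ))| ≤ 305 * A / Λ ∧ |(-(a1 * b) + a0 * a) + a * φ| ≤ 305 * A / Λ ∧
    (|a1| / (4 * Λ) ≤ |(a1 * d - a0 * c) + (-(c * φ))| ∨ |a1| / (4 * Λ) ≤ |(-(a1 * b) + a0 * a) + a * φ|) := by
  have e1 : (a1 * d - a0 * c) + (-(c * φ)) = a1 * (c * x + d) + c * (f - φ) := by
    linear_combination (-c) * hroot
  have e2 : (-(a1 * b) + a0 * a) + a * φ = -(a1 * (a * x + b) + a * (f - φ)) := by
    linear_combination a * hroot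
  rw [e1, e2, abs_neg]
  have hη0 : 0 ≤ η := (abs_nonneg _).trans hη
  have hA0 : 0 ≤ A := (abs_nonneg _).trans hA
  have hcη : |c * (f - φ)| ≤ Λ * η := by rw [abs_mul, abs_of_nonneg hc0]; gcongr
  have haη : |a * (f - φ)| ≤ Λ * η := by rw [abs_mul, abs_of_nonneg ha0]; gcongr
  have hη1' : Λ * η ≤ A / Λ := by rw [le_div_iff₀ hΛ]; linarith [hη1, sq Λ, mul_comm Λ η]
  have hη2' : Λ * η ≤ |a1| / (4 * Λ) := by
    rw [le_div_iff₀ (by positivity)]; nlinarith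
  refine ⟨?_, ?_, ?_⟩
  · calc |a1 * (c * x + d) + c * (f - φ)| ≤ |a1 * (c * x + d)| + |c * (f - φ)| := abs_add_le _ _
      _ ≤ A * (304 / Λ) + A / Λ := by
        rw [abs_mul]
        have : |a1| * |c * x + d| ≤ A * (304 / Λ) := by gcongr
        linarith
      _ = _ := by ring
  · calc |a1 * (a * x + b) + a * (f - φ)| ≤ |a1 * (a * x + b)| + |a * (f - φ)| := abs_add_le _ _
      _ ≤ A * (304 / Λ) + A / Λ := by
        rw [abs_mul]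
        have : |a1| * |a * x + b| ≤ A * (304 / Λ) := by gcongr
        linarith
      _ = _ := by ring
  · have hmax : 1 / (2 * Λ) ≤ |c * x + d| ∨ 1 / (2 * Λ) ≤ |a * x + b| := by
      by_contra hcon
      push Not at hcon
      obtain ⟨g1, g2⟩ := hcon
      have e3 : (1:ℝ) = a * (c * x + d) - c * (a * x + b) := by linear_combination -hdet
      have e4 : (1:ℝ) ≤ a * |c * x + d| + c * |a * x + b| := by
        calc (1:ℝ) = |a * (c * x + d) - c * (a * x + b)| := by rw [← e3, abs_one]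
          _ ≤ |a * (c * x + d)| + |c * (a * x + b)| := abs_sub _ _
          _ = _ := by rw [abs_mul, abs_mul, abs_of_nonneg ha0, abs_of_nonneg hc0]
      have hapos : 0 < a ∨ 0 < c := by
        by_contra hh
        push Not at hh
        have ha' : a = 0 := le_antisymm hh.1 ha0
        have hc' : c = 0 := le_antisymm hh.2 hc0
        rw [ha', hc'] at hdet
        simp at hdet
      have e5 : a * |c * x + d| + c * |a * x + b| < Λ * (1 / (2 * Λ)) + Λ * (1 / (2 * Λ)) := by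
        have k1 : a * |c * x + d| ≤ a * (1 / (2 * Λ)) := by gcongr
        have k2 : c * |a * x + b| ≤ c * (1 / (2 * Λ)) := by gcongr
        have k3 : a * (1 / (2 * Λ)) ≤ Λ * (1 / (2 * Λ)) := by gcongr
        have k4 : c * (1 / (2 * Λ)) ≤ Λ * (1 / (2 * Λ)) := by gcongr
        rcases hapos with h | h
        · have : a * |c * x + d| < a * (1 / (2 * Λ)) := by gcongr
          linarith
        · have : c * |a * x + b| < c * (1 / (2 * Λ)) := by gcongr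
          linarith
      have e6 : Λ * (1 / (2 * Λ)) + Λ * (1 / (2 * Λ)) = 1 := by field_simp; norm_num
      linarith
    have hd : |a1| * (1 / (2 * Λ)) = 2 * (|a1| / (4 * Λ)) := by field_simp; norm_num
    rcases hmax with h | h
    · left
      have h1 : |a1| * (1 / (2 * Λ)) ≤ |a1 * (c * x + d)| := by rw [abs_mul]; gcongr
      have h2 : |a1 * (c * x + d)| ≤ |a1 * (c * x + d) + c * (f - φ)| + |c * (f - φ)| := by
        calc |a1 * (c * x + d)| = |(a1 * (c * x + d) + c * (f - φ)) - c * (f - φ)| := by congr 1; ring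
          _ ≤ _ := abs_sub _ _
      linarith
    · right
      have h1 : |a1| * (1 / (2 * Λ)) ≤ |a1 * (a * x + b)| := by rw [abs_mul]; gcongr
      have h2 : |a1 * (a * x + b)| ≤ |a1 * (a * x + b) + a * (f - φ)| + |a * (f - φ)| := by
        calc |a1 * (a * x + b)| = |(a1 * (a * x + b) + a * (f - φ)) - a * (f - φ)| := by congr 1; ring
          _ ≤ _ := abs_sub _ _
      linarith

lemma cross_id (a b c d x y φ ψ f g a1 a0 b1 b0 : ℝ) (hdet : a * d - b * c = 1)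
    (h1 : a1 * x + a0 + f = 0) (h2 : b1 * y + b0 + g = 0) :
    ((a1 * d - a0 * c) + (-(c * φ))) * ((-(b1 * b) + b0 * a) + a * ψ) -
      ((-(a1 * b) + a0 * a) + a * φ) * ((b1 * d - b0 * c) + (-(c * ψ))) =
      a1 * b1 * (x - y) - a1 * (g - ψ) + b1 * (f - φ) := by
  have e0 : a0 = -(a1 * x) - f := by linarith
  have e0' : b0 = -(b1 * y) - g := by linarith
  rw [e0, e0']
  linear_combination (a1 * b1 * (x - y) - a1 * (g - ψ) + b1 * (f - φ)) * hdet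

end MDiv
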