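import Mathlib
import Pool.Agent.Hhelper92.Mult.Near2

set_option autoImplicit false

/-!
Embedding pairs of roots into pairs of integer vectors.
-/

namespace MDiv

open Finset

variable {k : ℕ}

/-- properties of the integer vectors -/
def VecOK (X1 u L : ℕ) (α β A B ρ : ℝ) (h h' : Fin k → ℤ) (s : Tr × (ℤ × ℤ) × (ℤ × ℤ)) : Prop :=
  s.1 ∈ trs L X1 u α β ∧
  |(s.2.1.1 : ℝ) + (-((tm s.1).c * ev h (tx s.1)))| ≤ 305 * A / (L * ((2:ℝ)^u) ^ 2040) ∧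
  |(s.2.1.2 : ℝ) + (tm s.1).a * ev h (tx s.1)| ≤ 305 * A / (L * ((2:ℝ)^u) ^ 2040) ∧
  |(s.2.2.1 : ℝ) + (-((tm s.1).c * ev h' (tx s.1)))| ≤ 305 * B / (L * ((2:ℝ)^u) ^ 2040) ∧
  |(s.2.2.2 : ℝ) + (tm s.1).a * ev h' (tx s.1)| ≤ 305 * B / (L * ((2:ℝ)^u) ^ 2040) ∧
  |((s.2.1.1 : ℝ) + (-((tm s.1).c * ev h (tx s.1)))) * ((s.2.2.2 : ℝ) + (tm s.1).a * ev h' (tx s.1)) -
    ((s.2.1.2 : ℝ) + (tm s.1).a * ev h (tx s.1)) * ((s.2.2.1 : ℝ) + (-((tm s.1).c * ev h' (tx s.1))))| ≤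
      2 * (A * B * ρ) ∧
  (1 / ((2:ℝ)^u)^7 ≤ |(s.2.1.1 : ℝ) + (-((tm s.1).c * ev h (tx s.1)))| ∨
    1 / ((2:ℝ)^u)^7 ≤ |(s.2.1.2 : ℝ) + (tm s.1).a * ev h (tx s.1)|) ∧
  (1 / ((2:ℝ)^u)^7 ≤ |(s.2.2.1 : ℝ) + (-((tm s.1).c * ev h' (tx s.1)))| ∨
    1 / ((2:ℝ)^u)^7 ≤ |(s.2.2.2 : ℝ) + (tm s.1).a * ev h' (tx s.1)|)

lemma IsG.det {Λ : ℕ} {x : ℝ} {g : M2} (hg : IsG Λ x g) : g.a * g.d - g.b * g.c = 1 := hg.1

lemma vec_exists {X1 u L : ℕ} {c0 δ α β A B ρ : ℝ} (cfg : Cfg k X1 u L c0 δ α β A B ρ)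
    (hu : 1 ≤ u) (hK : 1000 * K0 k X1 ≤ (2:ℝ)^u) (hδL : 200 ≤ δ * (L:ℝ)^2)
    {h h' : Fin k → ℤ} (hh : ∀ i, |(h i : ℝ)| ≤ (2:ℝ)^u) (hh' : ∀ i, |(h' i : ℝ)| ≤ (2:ℝ)^u)
    {p : ℝ × ℝ} (hp : PairOK u L c0 δ α β A B ρ h h' p) :
    ∃ s : Tr × (ℤ × ℤ) × (ℤ × ℤ), VecOK X1 u L α β A B ρ h h' s ∧
      (((s.2.1.1 * (tm s.1).a + s.2.1.2 * (tm s.1).c : ℤ) : ℝ) * p.1 +
        ((s.2.1.1 * (tm s.1).b + s.2.1.2 * (tm s.1).d : ℤ) : ℝ) + ev h p.1 = 0 ∧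
        c0 * A ≤ |((s.2.1.1 * (tm s.1).a + s.2.1.2 * (tm s.1).c : ℤ) : ℝ)|) ∧
      (((s.2.2.1 * (tm s.1).a + s.2.2.2 * (tm s.1).c : ℤ) : ℝ) * p.2 +
        ((s.2.2.1 * (tm s.1).b + s.2.2.2 * (tm s.1).d : ℤ) : ℝ) + ev h' p.2 = 0 ∧
        c0 * B ≤ |((s.2.2.1 * (tm s.1).a + s.2.2.2 * (tm s.1).c : ℤ) : ℝ)|) := by
  obtain ⟨p1, p2, p3, p4, p5, g3, g2, g1, ⟨a1, a0, ha, haA, haA'⟩, ⟨b1, b0, hb, hbB, hbB'⟩⟩ := hp
  obtain ⟨hX1, hc0, hc1, hα, hβ, hδ, hδ', hL, hA0, hB0, hρ, hΛρ, hA, hB, hAΛ, hBΛ, hAρ, hBρ, hηA, hηB⟩ := cfg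
  set U : ℝ := (2:ℝ)^u with hU
  have hU2 : (2:ℝ) ≤ U := by
    calc (2:ℝ) = 2^1 := by norm_num
      _ ≤ 2^u := pow_le_pow_right₀ (by norm_num) hu
  have hU1 : (1:ℝ) ≤ U := by linarith
  have hU0 : (0:ℝ) < U := by linarith
  have hL1 : 1 ≤ L := le_trans Nat.one_le_two_pow hL
  have hL1' : (1:ℝ) ≤ L := by exact_mod_cast hL1
  have hL0 : (0:ℝ) < L := by linarith
  have hX1' : (1:ℝ) ≤ X1 := by exact_mod_cast hX1
  have hδL' : 200 / (L:ℝ)^2 ≤ δ := by rw [div_le_iff₀ (by positivity)]; exact hδL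
  obtain ⟨t, ht, hG, htx⟩ := tr_exists (u := u) hX1 hL1 hα hβ (by linarith) (by linarith) g3 g2 g1
  have hΛN : 1 ≤ L * 2 ^ (2040 * u) := Nat.mul_pos hL1 (by positivity)
  have hcast : (((L * 2 ^ (2040 * u) : ℕ)) : ℝ) = L * U ^ 2040 := by
    push_cast; rw [pow_u]
  obtain ⟨q1, q2, q3, q4, q5, q6, q7⟩ := hG.bounds hΛN
  have q8 := hG.2.2.2.2.2.2
  rw [hcast] at q3 q4 q6 q7 q8
  set Λ : ℝ := L * U ^ 2040 with hΛ
  have hUp : (1:ℝ) ≤ U ^ 2040 := one_le_pow₀ hU1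
  have hΛ1 : 1 ≤ Λ := one_le_mul_of_one_le_of_one_le hL1' hUp
  have hΛ0 : 0 < Λ := by linarith
  -- error size
  set η : ℝ := K0 k X1 * U * (201 / (L:ℝ)^2) with hη
  have hK01 : 1 ≤ K0 k X1 := K0_pos k _ hX1'
  have hK0 : 0 < K0 k X1 := lt_of_lt_of_le one_pos hK01
  have hΛρ1 : Λ^2 * ρ ≤ 1 := by
    have h0 := mul_pos (pow_pos hΛ0 2) hρ
    have h1 : 8 * Λ^2 * ρ = 8 * (Λ^2 * ρ) := by ring
    rw [h1] at hΛρ
    clear * - h0 hΛρ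
    linarith
  have hρL : ρ ≤ 1 / (L:ℝ)^2 := by
    rw [le_div_iff₀ (by positivity)]
    have h1 : (L:ℝ)^2 ≤ Λ^2 := by
      apply pow_le_pow_left₀ hL0.le
      exact le_mul_of_one_le_right hL0.le hUp
    calc ρ * (L:ℝ)^2 ≤ ρ * Λ^2 := by gcongr
      _ = Λ^2 * ρ := mul_comm _ _
      _ ≤ 1 := hΛρ1
  have htx1 : |tx t| ≤ X1 := by
    have hxα : α ≤ tx t ∧ tx t ≤ β := by
      rw [abs_le] at htx
      constructor <;> linarith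
    rw [abs_le]; constructor <;> linarith
  have hpx : |p.1| ≤ X1 := by rw [abs_le]; constructor <;> linarith
  have hpy : |p.2| ≤ X1 := by rw [abs_le]; constructor <;> linarith
  have hf : |ev h p.1 - ev h (tx t)| ≤ η := by
    refine (ev_sub_le hU0.le hh hX1' htx1 hpx).trans ?_
    rw [hη]
    have : |p.1 - tx t| ≤ 201 / (L:ℝ)^2 := by
      refine htx.trans ?_
      gcongr
      norm_num
    gcongr
  have hg : |ev h' p.2 - ev h' (tx t)| ≤ η := by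
    refine (ev_sub_le hU0.le hh' hX1' htx1 hpy).trans ?_
    rw [hη]
    have : |p.2 - tx t| ≤ 201 / (L:ℝ)^2 := by
      calc |p.2 - tx t| = |(p.1 - tx t) - (p.1 - p.2)| := by congr 1; ring
        _ ≤ |p.1 - tx t| + |p.1 - p.2| := abs_sub _ _
        _ ≤ 200 / (L:ℝ)^2 + 1 / (L:ℝ)^2 := by linarith
        _ = _ := by ring
    gcongr
  have hΛη : Λ^2 * η ≤ U^4083 / 4 := by
    have e : Λ^2 * η = U^4080 * (201 * K0 k X1 * U) := by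
      rw [hη, hΛ]
      field_simp
    rw [e]
    have h1 : 201 * K0 k X1 * U ≤ U^3 / 4 := by
      have h2 : 201 * K0 k X1 ≤ U^2 / 4 := by
        have h3 : U * 1 ≤ U * U := by gcongr
        have h4 : U^2 = U * U := sq U
        rw [h4]
        clear * - h3 hK hK01
        linarith
      calc 201 * K0 k X1 * U ≤ (U^2 / 4) * U := by gcongr
        _ = _ := by ring
    calc U^4080 * (201 * K0 k X1 * U) ≤ U^4080 * (U^3 / 4) := by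
          apply mul_le_mul_of_nonneg_left h1 (pow_nonneg hU0.le _)
      _ = (U^4080 * U^3) / 4 := by ring
      _ = _ := by rw [← pow_add]
  have hc0A : c0 * A ≤ A := mul_le_of_le_one_left hA0.le hc1
  have hc0B : c0 * B ≤ B := mul_le_of_le_one_left hB0.le hc1
  have hηa : Λ^2 * η ≤ |(a1:ℝ)| / 4 := by linarith
  have hηb : Λ^2 * η ≤ |(b1:ℝ)| / 4 := by linarith
  have hΛρ' : Λ * ρ ≤ 1 / Λ := by
    rw [le_div_iff₀ hΛ0]
    calc Λ * ρ * Λ = Λ^2 * ρ := by ring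
      _ ≤ 1 := hΛρ1
  -- bounds for y
  have hay : |((tm t).a:ℝ) * p.2 + (tm t).b| ≤ 304 / Λ := by
    calc |((tm t).a:ℝ) * p.2 + (tm t).b| = |(((tm t).a:ℝ) * p.1 + (tm t).b) - (tm t).a * (p.1 - p.2)| := by
          congr 1; ring
      _ ≤ |((tm t).a:ℝ) * p.1 + (tm t).b| + |((tm t).a:ℝ) * (p.1 - p.2)| := abs_sub _ _
      _ ≤ 2 / Λ + 1 / Λ := by
          rw [abs_mul, abs_of_nonneg (by linarith : (0:ℝ) ≤ (tm t).a)]
          have : ((tm t).a:ℝ) * |p.1 - p.2| ≤ Λ * ρ := by gcongr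
          linarith
      _ ≤ 304 / Λ := by rw [← add_div]; gcongr; norm_num
  have hcy : |((tm t).c:ℝ) * p.2 + (tm t).d| ≤ 304 / Λ := by
    calc |((tm t).c:ℝ) * p.2 + (tm t).d| = |(((tm t).c:ℝ) * p.1 + (tm t).d) - (tm t).c * (p.1 - p.2)| := by
          congr 1; ring
      _ ≤ |((tm t).c:ℝ) * p.1 + (tm t).d| + |((tm t).c:ℝ) * (p.1 - p.2)| := abs_sub _ _
      _ ≤ 300 / Λ + 1 / Λ := by
          rw [abs_mul, abs_of_nonneg q5]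
          have : ((tm t).c:ℝ) * |p.1 - p.2| ≤ Λ * ρ := by gcongr
          linarith
      _ ≤ 304 / Λ := by rw [← add_div]; gcongr; norm_num
  have hax : |((tm t).a:ℝ) * p.1 + (tm t).b| ≤ 304 / Λ := q8.trans (by gcongr; norm_num)
  have hcx : |((tm t).c:ℝ) * p.1 + (tm t).d| ≤ 304 / Λ := q7.trans (by gcongr; norm_num)
  have V1 := vec_bounds (tm t).a (tm t).b (tm t).c (tm t).d Λ p.1 (ev h (tx t)) (ev h p.1) a1 a0 A η
    q1 hΛ0 (by linarith) q3 q5 q6 hax hcx ha haA' hf (by linarith [abs_nonneg (a1:ℝ)]) hηa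
  have V2 := vec_bounds (tm t).a (tm t).b (tm t).c (tm t).d Λ p.2 (ev h' (tx t)) (ev h' p.2) b1 b0 B η
    q1 hΛ0 (by linarith) q3 q5 q6 hay hcy hb hbB' hg (by linarith [abs_nonneg (b1:ℝ)]) hηb
  have VC := cross_id (tm t).a (tm t).b (tm t).c (tm t).d p.1 p.2 (ev h (tx t)) (ev h' (tx t))
    (ev h p.1) (ev h' p.2) a1 a0 b1 b0 q1 ha hb
  -- lower bounds
  have hlow : ∀ (m : ℤ) (E : ℝ), c0 * E ≤ |(m:ℝ)| → Λ ≤ c0 * E * U ^ 6 → 1 / U ^ 7 ≤ |(m:ℝ)| / (4 * Λ) ∨ U < 4 := by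
    intro m E h1 h2
    by_cases hU4 : 4 ≤ U
    · left
      rw [div_le_div_iff₀ (by positivity) (by positivity)]
      calc 1 * (4 * Λ) ≤ U * (c0 * E * U^6) := by
            rw [one_mul]; gcongr
        _ = (c0 * E) * U^7 := by ring
        _ ≤ |(m:ℝ)| * U^7 := by gcongr
    · right; linarith
  have hU4 : ¬ U < 4 := by
    intro h
    clear * - h hK01 hK
    linarith
  have hlowa := (hlow a1 A haA hAΛ).resolve_right hU4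
  have hlowb := (hlow b1 B hbB hBΛ).resolve_right hU4
  -- cross bound
  have hcross : |(a1:ℝ) * b1 * (p.1 - p.2) - a1 * (ev h' p.2 - ev h' (tx t)) + b1 * (ev h p.1 - ev h (tx t))| ≤
      2 * (A * B * ρ) := by
    have k1 : |(a1:ℝ) * b1 * (p.1 - p.2)| ≤ A * B * ρ := by
      rw [abs_mul, abs_mul]; gcongr
    have k2 : |(a1:ℝ) * (ev h' p.2 - ev h' (tx t))| ≤ A * η := by
      rw [abs_mul]; gcongr
    have k3 : |(b1:ℝ) * (ev h p.1 - ev h (tx t))| ≤ B * η := by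
      rw [abs_mul]; gcongr
    have hηs : η ≤ U^2 / (2 * (L:ℝ)^2) := by
      rw [hη, le_div_iff₀ (by positivity)]
      have e : K0 k X1 * U * (201 / (L:ℝ)^2) * (2 * (L:ℝ)^2) = 402 * K0 k X1 * U := by field_simp; norm_num
      rw [e]
      have h1 : 402 * K0 k X1 ≤ U := by clear * - hK hK01; linarith
      calc 402 * K0 k X1 * U ≤ U * U := by gcongr
        _ = U^2 := (sq U).symm
    have k4 : A * η ≤ A * B * ρ / 2 := by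
      calc A * η ≤ A * (U^2 / (2 * (L:ℝ)^2)) := by gcongr
        _ ≤ A * ((B * ρ * (L:ℝ)^2) / (2 * (L:ℝ)^2)) := by gcongr
        _ = _ := by field_simp
    have k5 : B * η ≤ A * B * ρ / 2 := by
      calc B * η ≤ B * (U^2 / (2 * (L:ℝ)^2)) := by gcongr
        _ ≤ B * ((A * ρ * (L:ℝ)^2) / (2 * (L:ℝ)^2)) := by gcongr
        _ = _ := by field_simp
    calc _ ≤ |(a1:ℝ) * b1 * (p.1 - p.2) - a1 * (ev h' p.2 - ev h' (tx t))| + |(b1:ℝ) * (ev h p.1 - ev h (tx t))| :=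
          abs_add_le _ _
      _ ≤ |(a1:ℝ) * b1 * (p.1 - p.2)| + |(a1:ℝ) * (ev h' p.2 - ev h' (tx t))| + |(b1:ℝ) * (ev h p.1 - ev h (tx t))| := by
          gcongr
          exact abs_sub _ _
      _ ≤ _ := by linarith
  rw [← VC] at hcross
  -- recover the coefficients
  have hdetz : (tm t).a * (tm t).d - (tm t).b * (tm t).c = 1 := hG.det
  have r1 : (a1 * (tm t).d - a0 * (tm t).c) * (tm t).a + (-(a1 * (tm t).b) + a0 * (tm t).a) * (tm t).c = a1 := by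
    linear_combination a1 * hdetz
  have r2 : (a1 * (tm t).d - a0 * (tm t).c) * (tm t).b + (-(a1 * (tm t).b) + a0 * (tm t).a) * (tm t).d = a0 := by
    linear_combination a0 * hdetz
  have r3 : (b1 * (tm t).d - b0 * (tm t).c) * (tm t).a + (-(b1 * (tm t).b) + b0 * (tm t).a) * (tm t).c = b1 := by
    linear_combination b1 * hdetz
  have r4 : (b1 * (tm t).d - b0 * (tm t).c) * (tm t).b + (-(b1 * (tm t).b) + b0 * (tm t).a) * (tm t).d = b0 := by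
    linear_combination b0 * hdetz
  refine ⟨(t, (a1 * (tm t).d - a0 * (tm t).c, -(a1 * (tm t).b) + a0 * (tm t).a),
    (b1 * (tm t).d - b0 * (tm t).c, -(b1 * (tm t).b) + b0 * (tm t).a)), ?_, ?_, ?_⟩
  · refine ⟨ht, ?_, ?_, ?_, ?_, ?_, ?_, ?_⟩
    · push_cast; exact V1.1
    · push_cast; exact V1.2.1
    · push_cast; exact V2.1
    · push_cast; exact V2.2.1
    · push_cast; exact hcross
    · push_cast
      rcases V1.2.2 with h | h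
      · left; exact hlowa.trans h
      · right; exact hlowa.trans h
    · push_cast
      rcases V2.2.2 with h | h
      · left; exact hlowb.trans h
      · right; exact hlowb.trans h
  · show (((a1 * (tm t).d - a0 * (tm t).c) * (tm t).a + (-(a1 * (tm t).b) + a0 * (tm t).a) * (tm t).c : ℤ) : ℝ) * p.1 +
        (((a1 * (tm t).d - a0 * (tm t).c) * (tm t).b + (-(a1 * (tm t).b) + a0 * (tm t).a) * (tm t).d : ℤ) : ℝ) + ev h p.1 = 0 ∧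
      c0 * A ≤ |(((a1 * (tm t).d - a0 * (tm t).c) * (tm t).a + (-(a1 * (tm t).b) + a0 * (tm t).a) * (tm t).c : ℤ) : ℝ)|
    rw [r1, r2]
    exact ⟨ha, haA⟩
  · show (((b1 * (tm t).d - b0 * (tm t).c) * (tm t).a + (-(b1 * (tm t).b) + b0 * (tm t).a) * (tm t).c : ℤ) : ℝ) * p.2 +
        (((b1 * (tm t).d - b0 * (tm t).c) * (tm t).b + (-(b1 * (tm t).b) + b0 * (tm t).a) * (tm t).d : ℤ) : ℝ) + ev h' p.2 = 0 ∧
      c0 * B ≤ |(((b1 * (tm t).d - b0 * (tm t).c) * (tm t).a + (-(b1 * (tm t).b) + b0 * (tm t).a) * (tm t).c : ℤ) : ℝ)|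
    rw [r3, r4]
    exact ⟨hb, hbB⟩

lemma embed {X1 u L : ℕ} {c0 δ α β A B ρ : ℝ} (cfg : Cfg k X1 u L c0 δ α β A B ρ)
    (hu : 1 ≤ u) (hK : 1000 * K0 k X1 ≤ (2:ℝ)^u) (hδL : 200 ≤ δ * (L:ℝ)^2)
    {h h' : Fin k → ℤ} (hh : ∀ i, |(h i : ℝ)| ≤ (2:ℝ)^u) (hh' : ∀ i, |(h' i : ℝ)| ≤ (2:ℝ)^u)
    (S0 : Finset (ℝ × ℝ)) (hS0 : ∀ p ∈ S0, PairOK u L c0 δ α β A B ρ h h' p) :
    ∃ S : Finset (Tr × (ℤ × ℤ) × (ℤ × ℤ)), S0.card = S.card ∧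
      ∀ s ∈ S, VecOK X1 u L α β A B ρ h h' s := by
  classical
  have hex : ∀ p : ℝ × ℝ, ∃ s : Tr × (ℤ × ℤ) × (ℤ × ℤ), p ∈ S0 → (VecOK X1 u L α β A B ρ h h' s ∧
      (((s.2.1.1 * (tm s.1).a + s.2.1.2 * (tm s.1).c : ℤ) : ℝ) * p.1 +
        ((s.2.1.1 * (tm s.1).b + s.2.1.2 * (tm s.1).d : ℤ) : ℝ) + ev h p.1 = 0 ∧
        c0 * A ≤ |((s.2.1.1 * (tm s.1).a + s.2.1.2 * (tm s.1).c : ℤ) : ℝ)|) ∧
      (((s.2.2.1 * (tm s.1).a + s.2.2.2 * (tm s.1).c : ℤ) : ℝ) * p.2 +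
        ((s.2.2.1 * (tm s.1).b + s.2.2.2 * (tm s.1).d : ℤ) : ℝ) + ev h' p.2 = 0 ∧
        c0 * B ≤ |((s.2.2.1 * (tm s.1).a + s.2.2.2 * (tm s.1).c : ℤ) : ℝ)|)) := by
    intro p
    by_cases hp : p ∈ S0
    · obtain ⟨s, hs⟩ := vec_exists cfg hu hK hδL hh hh' (hS0 p hp)
      exact ⟨s, fun _ => hs⟩
    · exact ⟨(((⟨0,0,0,0⟩ : M2), (⟨0,0,0,0⟩ : M2), (⟨0,0,0,0⟩ : M2)), ((0:ℤ), (0:ℤ)), ((0:ℤ), (0:ℤ))), fun h => absurd h hp⟩
  choose F hF using hex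
  have hU1 : (1:ℝ) ≤ (2:ℝ)^u := one_le_pow₀ (by norm_num)
  have hKA : ∀ E : ℝ, ((2:ℝ)^u) ^ 4083 ≤ c0 * E → ∀ m : ℤ, c0 * E ≤ |(m:ℝ)| →
      K0 k X1 * (2:ℝ)^u < |(m:ℝ)| := by
    intro E hE m hm
    have hX1' : (1:ℝ) ≤ X1 := by exact_mod_cast cfg.hX1
    have h1 : 1 ≤ K0 k X1 := K0_pos k _ hX1'
    have h2 : K0 k X1 * (2:ℝ)^u < ((2:ℝ)^u)^2 := by
      rw [sq]
      apply mul_lt_mul_of_pos_right _ (by linarith)
      linarith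
    have h3 : ((2:ℝ)^u)^2 ≤ ((2:ℝ)^u)^4083 := pow_le_pow_right₀ hU1 (by norm_num)
    linarith
  refine ⟨S0.image F, ?_, ?_⟩
  · rw [Finset.card_image_of_injOn]
    intro p hp p' hp' he
    have hX1' : (1:ℝ) ≤ X1 := by exact_mod_cast cfg.hX1
    obtain ⟨_, ⟨f1, f2⟩, ⟨f3, f4⟩⟩ := hF p hp
    obtain ⟨_, ⟨f1', f2'⟩, ⟨f3', f4'⟩⟩ := hF p' hp'
    rw [← he] at f1' f2' f3' f4'
    have hα := cfg.hα
    have hβ := cfg.hβ
    have hδ := cfg.hδ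
    obtain ⟨p1, p2, p3, p4, _⟩ := hS0 p hp
    obtain ⟨p1', p2', p3', p4', _⟩ := hS0 p' hp'
    apply Prod.ext
    · exact root_unique (by linarith) hh hX1' (by rw [abs_le]; constructor <;> linarith)
        (by rw [abs_le]; constructor <;> linarith) f1 f1' (hKA A cfg.hA _ f2)
    · exact root_unique (by linarith) hh' hX1' (by rw [abs_le]; constructor <;> linarith)
        (by rw [abs_le]; constructor <;> linarith) f3 f3' (hKA B cfg.hB _ f4)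
  · intro s hs
    rw [Finset.mem_image] at hs
    obtain ⟨p, hp, rfl⟩ := hs
    exact (hF p hp).1

end MDiv
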