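import Mathlib
import Pool.Agent.Hhelper92.Mult.Bilin

set_option autoImplicit false

/-!
Estimates for the sums over two unimodular matrices with fixed phases.
-/

namespace MDiv

open Finset

lemma norm_T_sq_le {κ : Type*} [Fintype κ] [DecidableEq κ] (z : κ → ℝ × ℝ) (N2 : ℕ)
    (X : κ × Bool → ℝ) :
    ‖∑ g ∈ slb N2, e (∑ p, X p * pt z g p)‖ ^ 2 ≤ (60 * (N2:ℝ)^2)^2 := by
  apply pow_le_pow_left₀ (norm_nonneg _)
  refine (norm_sum_le _ _).trans ?_
  simp only [norm_e, Finset.sum_const, nsmul_eq_mul, mul_one]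
  exact card_slb N2

/-- rank two phases -/
theorem rank2_good (f1 f2 : ℝ) (g3 : M2) (N1 N N2 Y x : ℕ) (hN1 : N1 ≤ N) (hN : 0 < N) (hY : 0 < Y)
    (hx : 1 ≤ x) (hN2 : N2 ≤ x ^ 2)
    (hlam : ∀ y1 y2 : ℤ, ¬ (y1 = 0 ∧ y2 = 0) → |y1| ≤ Y → |y2| ≤ Y →
      2 / (N:ℝ) < nd (((y1 * g3.a + y2 * g3.c : ℤ) : ℝ) * f1) ∨
      2 / (N:ℝ) < nd (((y1 * g3.a + y2 * g3.c : ℤ) : ℝ) * f2)) :
    ‖∑ g2 ∈ slb N2, ∑ g1 ∈ slb N1, e (colA g1 g2 g3 * f2 - colC g1 g2 g3 * f1)‖ ^ 2 ≤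
      60 * (N1:ℝ)^2 * ((10 * (N:ℝ)) ^ 4 *
      (60 * (N2:ℝ)^2 + ((4 * N2 / Y + 1 : ℕ) : ℝ) ^ 4 * (180 * Cd * x ^ 3))) := by
  classical
  set z : Bool → ℝ × ℝ := fun i => if i then (f2 * g3.a, f2 * g3.c) else (f1 * g3.a, f1 * g3.c) with hz
  have hb := bilin z N N2 Y x hN hY hx hN2 (by
    intro y1 y2 hy h1 h2
    rcases hlam y1 y2 hy h1 h2 with h | h
    · refine ⟨false, ?_⟩
      rw [hz]; simp only [Bool.false_eq_true, if_false]
      convert h using 2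
      push_cast; ring
    · refine ⟨true, ?_⟩
      rw [hz]; simp only [if_true]
      convert h using 2
      push_cast; ring)
  have hcard : Fintype.card Bool = 2 := Fintype.card_bool
  rw [hcard] at hb
  set T : (Bool × Bool → ℤ) → ℂ := fun X => ∑ g ∈ slb N2, e (∑ p, (X p : ℝ) * pt z g p) with hT
  set XX : M2 → (Bool × Bool → ℤ) := fun g p =>
    if p.1 then (if p.2 then g.b else g.a) else (if p.2 then -g.d else -g.c) with hXX
  have h1 : ∑ g2 ∈ slb N2, ∑ g1 ∈ slb N1, e (colA g1 g2 g3 * f2 - colC g1 g2 g3 * f1) =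
      ∑ g1 ∈ slb N1, T (XX g1) := by
    rw [Finset.sum_comm]
    apply Finset.sum_congr rfl
    intro g1 _
    rw [hT]
    apply Finset.sum_congr rfl
    intro g2 _
    congr 1
    rw [Fintype.sum_prod_type]
    simp only [Fintype.sum_bool, hXX, hz, pt, colA, colC]
    simp
    ring
  rw [h1]
  have h2 : ‖∑ g1 ∈ slb N1, T (XX g1)‖ ^ 2 ≤ (slb N1).card * ∑ g1 ∈ slb N1, ‖T (XX g1)‖ ^ 2 := by
    calc ‖∑ g1 ∈ slb N1, T (XX g1)‖ ^ 2 ≤ (∑ g1 ∈ slb N1, ‖T (XX g1)‖) ^ 2 := by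
          apply pow_le_pow_left₀ (norm_nonneg _)
          exact norm_sum_le _ _
      _ ≤ (slb N1).card * ∑ g1 ∈ slb N1, ‖T (XX g1)‖ ^ 2 := sq_sum_le_card_mul_sum_sq
  have h3 : ∑ g1 ∈ slb N1, ‖T (XX g1)‖ ^ 2 ≤ ∑ X ∈ sbox (Bool × Bool) N, ‖T X‖ ^ 2 := by
    rw [← Finset.sum_image (f := fun X => ‖T X‖ ^ 2) (s := slb N1) (g := XX)]
    · apply Finset.sum_le_sum_of_subset_of_nonneg
      · intro X hX
        rw [Finset.mem_image] at hX
        obtain ⟨g, hg, rfl⟩ := hX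
        rw [mem_slb] at hg
        obtain ⟨⟨ha, hb', hc, hd⟩, _⟩ := hg
        have hNz : (N1:ℤ) ≤ N := by exact_mod_cast hN1
        unfold sbox
        rw [Fintype.mem_piFinset]
        intro p
        rw [Finset.mem_Icc, ← abs_le]
        rw [hXX]; simp only
        split_ifs
        · exact hb'.trans hNz
        · exact ha.trans hNz
        · rw [abs_neg]; exact hd.trans hNz
        · rw [abs_neg]; exact hc.trans hNz
      · intro _ _ _; positivity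
    · intro g _ g' _ he
      apply M2.ext'
      · have := congrFun he (true, false); simpa [hXX] using this
      · have := congrFun he (true, true); simpa [hXX] using this
      · have := congrFun he (false, false); simpa [hXX] using this
      · have := congrFun he (false, true); simpa [hXX] using this
  calc _ ≤ _ := h2
    _ ≤ (60 * (N1:ℝ)^2) * ∑ X ∈ sbox (Bool × Bool) N, ‖T X‖ ^ 2 := by
        gcongr
        exact card_slb N1
    _ ≤ _ := by
        gcongr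

/-- rank one phases -/
theorem rank1_good (f0 : ℝ) (y1 y2 : ℤ) (hy : IsCoprime y1 y2) (V1 : ℕ) (hyV : |y1| ≤ V1 ∧ |y2| ≤ V1)
    (g3 : M2) (N1 N N2 Y x κ0 : ℕ) (hN1 : 2 * V1 * N1 ≤ N) (hN : 0 < N) (hY : 0 < Y)
    (hx : 1 ≤ x) (hN2 : N2 ≤ x ^ 2) (hκ0 : 1 ≤ κ0) (hκN : κ0 ≤ N1)
    (hlam : ∀ z1 z2 : ℤ, ¬ (z1 = 0 ∧ z2 = 0) → |z1| ≤ Y → |z2| ≤ Y →
      2 / (N:ℝ) < nd (((z1 * g3.a + z2 * g3.c : ℤ) : ℝ) * f0)) :
    ‖∑ g2 ∈ slb N2, ∑ g1 ∈ slb N1, e (colA g1 g2 g3 * (y1 * f0) - colC g1 g2 g3 * (-y2 * f0))‖ ^ 2 ≤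
      60 * (N1:ℝ)^2 * ((60 * (N2:ℝ)^2)^2 * (57 * N1 * κ0) + (4 * N1 / κ0 + 1) * ((10 * (N:ℝ)) ^ 2 *
      (60 * (N2:ℝ)^2 + ((4 * N2 / Y + 1 : ℕ) : ℝ) ^ 4 * (180 * Cd * x ^ 3)))) := by
  classical
  set z : Unit → ℝ × ℝ := fun _ => (f0 * g3.a, f0 * g3.c) with hz
  have hb := bilin z N N2 Y x hN hY hx hN2 (by
    intro z1 z2 hy h1 h2
    refine ⟨(), ?_⟩
    have h := hlam z1 z2 hy h1 h2
    rw [hz]
    simp only
    convert h using 2
    push_cast; ring)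
  have hcard : Fintype.card Unit = 1 := Fintype.card_unit
  rw [hcard, mul_one] at hb
  set T : (Unit × Bool → ℤ) → ℂ := fun X => ∑ g ∈ slb N2, e (∑ p, (X p : ℝ) * pt z g p) with hT
  set mk : ℤ × ℤ → (Unit × Bool → ℤ) := fun w p => if p.2 then w.2 else w.1 with hmk
  set ww : M2 → ℤ × ℤ := fun g => (y1 * g.a + y2 * g.c, y1 * g.b + y2 * g.d) with hww
  have h1 : ∑ g2 ∈ slb N2, ∑ g1 ∈ slb N1, e (colA g1 g2 g3 * (y1 * f0) - colC g1 g2 g3 * (-y2 * f0)) =
      ∑ g1 ∈ slb N1, T (mk (ww g1)) := by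
    rw [Finset.sum_comm]
    apply Finset.sum_congr rfl
    intro g1 _
    rw [hT]
    apply Finset.sum_congr rfl
    intro g2 _
    congr 1
    rw [Fintype.sum_prod_type]
    simp only [Fintype.sum_bool, hmk, hww, hz, pt, colA, colC]
    simp
    ring
  rw [h1]
  have h2 : ‖∑ g1 ∈ slb N1, T (mk (ww g1))‖ ^ 2 ≤ (slb N1).card * ∑ g1 ∈ slb N1, ‖T (mk (ww g1))‖ ^ 2 := by
    calc ‖∑ g1 ∈ slb N1, T (mk (ww g1))‖ ^ 2 ≤ (∑ g1 ∈ slb N1, ‖T (mk (ww g1))‖) ^ 2 := by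
          apply pow_le_pow_left₀ (norm_nonneg _)
          exact norm_sum_le _ _
      _ ≤ _ := sq_sum_le_card_mul_sum_sq
  -- range of `ww`
  set WW : Finset (ℤ × ℤ) := (Finset.Icc (-(N:ℤ)) N) ×ˢ (Finset.Icc (-(N:ℤ)) N) with hWW
  have hwm : ∀ g ∈ slb N1, ww g ∈ WW := by
    intro g hg
    rw [mem_slb] at hg
    obtain ⟨⟨ha, hb', hc, hd⟩, _⟩ := hg
    have hNz : (2:ℤ) * V1 * N1 ≤ N := by exact_mod_cast hN1
    have hbd : ∀ u v : ℤ, |u| ≤ N1 → |v| ≤ N1 → |y1 * u + y2 * v| ≤ N := by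
      intro u v hu hv
      calc |y1 * u + y2 * v| ≤ |y1 * u| + |y2 * v| := abs_add_le _ _
        _ = |y1| * |u| + |y2| * |v| := by rw [abs_mul, abs_mul]
        _ ≤ V1 * N1 + V1 * N1 := by
            obtain ⟨h3, h4⟩ := hyV
            gcongr
        _ = 2 * V1 * N1 := by ring
        _ ≤ N := hNz
    rw [hWW, Finset.mem_product, Finset.mem_Icc, Finset.mem_Icc, ← abs_le, ← abs_le]
    exact ⟨hbd _ _ ha hc, hbd _ _ hb' hd⟩
  have hN2r : (0:ℝ) ≤ (N2:ℝ) := by positivity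
  have hκ0' : (1:ℝ) ≤ κ0 := by exact_mod_cast hκ0
  have hκN' : (κ0:ℝ) ≤ N1 := by exact_mod_cast hκN
  have h3 : ∑ g1 ∈ slb N1, ‖T (mk (ww g1))‖ ^ 2 ≤
      (60 * (N2:ℝ)^2)^2 * (57 * N1 * κ0) + (4 * N1 / κ0 + 1) * ∑ X ∈ sbox (Unit × Bool) N, ‖T X‖ ^ 2 := by
    rw [← Finset.sum_fiberwise_of_maps_to hwm]
    have h4 : ∀ w ∈ WW, ∑ g ∈ (slb N1).filter (fun g => ww g = w), ‖T (mk (ww g))‖ ^ 2 ≤
        (if w ∈ (Finset.Icc (-(κ0:ℤ)) κ0) ×ˢ (Finset.Icc (-(κ0:ℤ)) κ0) then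
          (60 * (N2:ℝ)^2)^2 * (4 * N1 * (1 / sn w.1 w.2) + 1) else 0) + (4 * N1 / κ0 + 1) * ‖T (mk w)‖ ^ 2 := by
      intro w hw
      have h5 : ∑ g ∈ (slb N1).filter (fun g => ww g = w), ‖T (mk (ww g))‖ ^ 2 =
          ((slb N1).filter (fun g => ww g = w)).card * ‖T (mk w)‖ ^ 2 := by
        rw [← nsmul_eq_mul, ← Finset.sum_const]
        apply Finset.sum_congr rfl
        intro g hg
        rw [Finset.mem_filter] at hg
        rw [hg.2]
      have h6 : (((slb N1).filter (fun g => ww g = w)).card : ℝ) ≤ 4 * N1 / sn w.1 w.2 + 1 := by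
        have := mult_bound N1 y1 y2 hy w.1 w.2
        have h7 : (slb N1).filter (fun g => ww g = w) =
            (slb N1).filter (fun g => y1 * g.a + y2 * g.c = w.1 ∧ y1 * g.b + y2 * g.d = w.2) := by
          apply Finset.filter_congr
          intro g _
          rw [hww]
          simp only [Prod.ext_iff]
        rw [h7]; exact this
      rw [h5]
      split_ifs with hin
      · have h8 := norm_T_sq_le z N2 (fun p => ((mk w p : ℤ) : ℝ))
        have h9 : 0 ≤ (4 * (N1:ℝ) / κ0 + 1) * ‖T (mk w)‖ ^ 2 := by positivity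
        have h10 : (((slb N1).filter (fun g => ww g = w)).card : ℝ) * ‖T (mk w)‖ ^ 2 ≤
            (4 * N1 / sn w.1 w.2 + 1) * (60 * (N2:ℝ)^2)^2 := by gcongr
        have h11 : (4 * (N1:ℝ) / sn w.1 w.2 + 1) * (60 * (N2:ℝ)^2)^2 =
            (60 * (N2:ℝ)^2)^2 * (4 * N1 * (1 / sn w.1 w.2) + 1) := by ring
        linarith
      · rw [zero_add]
        have hsn : κ0 < sn w.1 w.2 := by
          by_contra hcon
          push Not at hcon
          apply hin
          rw [sn_le] at hcon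
          rw [Finset.mem_product, Finset.mem_Icc, Finset.mem_Icc, ← abs_le, ← abs_le]
          exact hcon
        have hsn' : (κ0:ℝ) ≤ sn w.1 w.2 := by exact_mod_cast hsn.le
        gcongr
        refine h6.trans ?_
        gcongr
    refine (Finset.sum_le_sum h4).trans ?_
    rw [Finset.sum_add_distrib, ← Finset.mul_sum, ← Finset.sum_filter]
    apply add_le_add
    · calc _ ≤ ∑ w ∈ (Finset.Icc (-(κ0:ℤ)) κ0) ×ˢ (Finset.Icc (-(κ0:ℤ)) κ0),
            (60 * (N2:ℝ)^2)^2 * (4 * N1 * (1 / sn w.1 w.2) + 1) := by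
            apply Finset.sum_le_sum_of_subset_of_nonneg
            · intro w hw
              exact (Finset.mem_filter.mp hw).2
            · intro w _ _; positivity
        _ = (60 * (N2:ℝ)^2)^2 * (4 * N1 * ∑ w ∈ (Finset.Icc (-(κ0:ℤ)) κ0) ×ˢ (Finset.Icc (-(κ0:ℤ)) κ0), (1 / sn w.1 w.2 : ℝ)
            + (2 * (κ0:ℝ) + 1)^2) := by
            rw [← Finset.mul_sum, Finset.sum_add_distrib, ← Finset.mul_sum, Finset.sum_const, Finset.card_product,
              Int.card_Icc, nsmul_eq_mul, mul_one]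
            congr 2
            have : ((κ0:ℤ) + 1 - -(κ0:ℤ)).toNat = 2 * κ0 + 1 := by omega
            rw [this]; push_cast; ring
        _ ≤ (60 * (N2:ℝ)^2)^2 * (4 * N1 * (12 * κ0) + 9 * N1 * κ0) := by
            gcongr
            · exact inv_sn_sum κ0
            · have e1 : (2 * (κ0:ℝ) + 1) ^ (2:ℕ) ≤ (3 * (κ0:ℝ)) ^ (2:ℕ) := by gcongr; linarith
              have e2 : (3 * (κ0:ℝ)) ^ (2:ℕ) = 9 * κ0 * κ0 := by ring
              have e3 : 9 * (κ0:ℝ) * κ0 ≤ 9 * N1 * κ0 := by gcongr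
              linarith
        _ = _ := by ring
    · gcongr
      rw [← Finset.sum_image (f := fun X => ‖T X‖ ^ 2) (s := WW) (g := mk)]
      · apply Finset.sum_le_sum_of_subset_of_nonneg
        · intro X hX
          rw [Finset.mem_image] at hX
          obtain ⟨w, hw, rfl⟩ := hX
          rw [hWW, Finset.mem_product] at hw
          unfold sbox
          rw [Fintype.mem_piFinset]
          intro p
          rw [hmk]; simp only
          split_ifs
          · exact hw.2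
          · exact hw.1
        · intro _ _ _; positivity
      · intro w _ w' _ he
        apply Prod.ext
        · have := congrFun he ((), false); simpa [hmk] using this
        · have := congrFun he ((), true); simpa [hmk] using this
  calc _ ≤ _ := h2
    _ ≤ (60 * (N1:ℝ)^2) * ((60 * (N2:ℝ)^2)^2 * (57 * N1 * κ0) + (4 * N1 / κ0 + 1) * ∑ X ∈ sbox (Unit × Bool) N, ‖T X‖ ^ 2) := by
        gcongr
        exact card_slb N1
    _ ≤ _ := by
        gcongr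

end MDiv
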