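import Mathlib
import Pool.Agent.Hhelper92.Mult.WeylA
import Pool.Agent.Hhelper92.Mult.BadCount

set_option autoImplicit false

/-!
The main estimate for sums over products of three unimodular matrices.
-/

namespace MDiv

open Finset

variable {k : ℕ}

lemma dichotomy (F1 F2 : Fin k → ℤ) (V : ℕ) (h1 : ∀ j, |F1 j| ≤ V) (h2 : ∀ j, |F2 j| ≤ V)
    (hne : ¬ (F1 = 0 ∧ F2 = 0)) :
    (∀ h : Bool → ℤ, h ≠ 0 → ∑ i, h i • (fun b : Bool => if b then F2 else F1) i ≠ 0) ∨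
    ∃ (y1 y2 : ℤ) (F0 : Fin k → ℤ), IsCoprime y1 y2 ∧ F0 ≠ 0 ∧ F1 = (-y2) • F0 ∧ F2 = y1 • F0 ∧
      |y1| ≤ V ∧ |y2| ≤ V ∧ ∀ j, |F0 j| ≤ V := by
  by_cases hind : ∀ h : Bool → ℤ, h ≠ 0 → ∑ i, h i • (fun b : Bool => if b then F2 else F1) i ≠ 0
  · left; exact hind
  right
  push Not at hind
  obtain ⟨h, hh0, hh⟩ := hind
  simp only [Fintype.sum_bool, if_true, Bool.false_eq_true, if_false] at hh
  set c1 := h false with hc1
  set c2 := h true with hc2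
  have hc : ¬ (c1 = 0 ∧ c2 = 0) := by
    rintro ⟨e1, e2⟩
    apply hh0
    funext b
    cases b
    · exact e1
    · exact e2
  -- divide by the gcd
  have hg : Int.gcd c1 c2 ≠ 0 := by
    intro h0
    rw [Int.gcd_eq_zero_iff] at h0
    exact hc h0
  have hgz : (Int.gcd c1 c2 : ℤ) ≠ 0 := by exact_mod_cast hg
  obtain ⟨y1, hy1⟩ := Int.gcd_dvd_left c1 c2
  obtain ⟨y2, hy2⟩ := Int.gcd_dvd_right c1 c2
  obtain ⟨d, hd⟩ : ∃ d : ℕ, d = Int.gcd c1 c2 := ⟨_, rfl⟩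
  rw [← hd] at hy1 hy2 hg hgz
  have hcop : IsCoprime y1 y2 := by
    rw [Int.isCoprime_iff_gcd_eq_one]
    rw [hy1, hy2, Int.gcd_mul_left] at hd
    simp only [Int.natAbs_natCast] at hd
    have h4 : d * Int.gcd y1 y2 = d * 1 := by rw [← hd, mul_one]
    exact Nat.eq_of_mul_eq_mul_left (Nat.pos_of_ne_zero hg) h4
  have hrel : ∀ j, y1 * F1 j + y2 * F2 j = 0 := by
    intro j
    have h3 := congrFun hh j
    simp only [Pi.add_apply, Pi.smul_apply, smul_eq_mul, Pi.zero_apply] at h3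
    have h4 : (d : ℤ) * (y1 * F1 j + y2 * F2 j) = 0 := by
      rw [hy1, hy2] at h3
      linear_combination h3
    rcases mul_eq_zero.mp h4 with h | h
    · exact absurd h hgz
    · exact h
  obtain ⟨p, q, hpq⟩ := hcop
  set F0 : Fin k → ℤ := fun j => p * F2 j - q * F1 j with hF0
  have e1 : F1 = (-y2) • F0 := by
    funext j
    simp only [hF0, Pi.smul_apply, smul_eq_mul]
    have := hrel j
    linear_combination (-F1 j) * hpq + p * this
  have e2 : F2 = y1 • F0 := by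
    funext j
    simp only [hF0, Pi.smul_apply, smul_eq_mul]
    have := hrel j
    linear_combination (-F2 j) * hpq + q * this
  have hF0ne : F0 ≠ 0 := by
    intro h0
    apply hne
    rw [h0] at e1 e2
    simp at e1 e2
    exact ⟨e1, e2⟩
  obtain ⟨j0, hj0⟩ : ∃ j, F0 j ≠ 0 := by
    by_contra hcon
    push Not at hcon
    exact hF0ne (funext hcon)
  have hj1 : 1 ≤ |F0 j0| := Int.one_le_abs hj0
  refine ⟨y1, y2, F0, ⟨p, q, hpq⟩, hF0ne, e1, e2, ?_, ?_, ?_⟩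
  · have h3 := h2 j0
    rw [e2] at h3
    simp only [Pi.smul_apply, smul_eq_mul, abs_mul] at h3
    calc |y1| = |y1| * 1 := (mul_one _).symm
      _ ≤ |y1| * |F0 j0| := by gcongr
      _ ≤ V := h3
  · have h3 := h1 j0
    rw [e1] at h3
    simp only [Pi.smul_apply, smul_eq_mul, abs_mul, abs_neg] at h3
    calc |y2| = |y2| * 1 := (mul_one _).symm
      _ ≤ |y2| * |F0 j0| := by gcongr
      _ ≤ V := h3
  · intro j
    by_cases hy : y1 = 0
    · have hy2 : y2 ≠ 0 := by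
        intro h0; rw [hy, h0] at hpq; simp at hpq
      have h3 := h1 j
      rw [e1] at h3
      simp only [Pi.smul_apply, smul_eq_mul, abs_mul, abs_neg] at h3
      have := Int.one_le_abs hy2
      calc |F0 j| = 1 * |F0 j| := (one_mul _).symm
        _ ≤ |y2| * |F0 j| := by gcongr
        _ ≤ V := h3
    · have h3 := h2 j
      rw [e2] at h3
      simp only [Pi.smul_apply, smul_eq_mul, abs_mul] at h3
      have := Int.one_le_abs hy
      calc |F0 j| = 1 * |F0 j| := (one_mul _).symm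
        _ ≤ |y1| * |F0 j| := by gcongr
        _ ≤ V := h3

lemma natdiv_bound (C : ℕ) (hC : 1 ≤ C) (a b u : ℕ) (hab : b ≤ a) :
    (((4 * (C * 2 ^ (a * u)) / 2 ^ (b * u) + 1 : ℕ)) : ℝ) ≤ 5 * C * (2:ℝ) ^ ((a - b) * u) := by
  have h1 : 4 * (C * 2 ^ (a * u)) / 2 ^ (b * u) = 4 * C * 2 ^ ((a - b) * u) := by
    have h2 : a * u = (a - b) * u + b * u := by
      rw [← add_mul]; congr 1; omega
    rw [h2, pow_add]
    have : 4 * (C * (2 ^ ((a - b) * u) * 2 ^ (b * u))) = (4 * C * 2 ^ ((a - b) * u)) * 2 ^ (b * u) := by ring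
    rw [this, Nat.mul_div_cancel _ (by positivity)]
  rw [h1]
  push_cast
  have h3 : (1:ℝ) ≤ C := by exact_mod_cast hC
  have h4 : (1:ℝ) ≤ 2 ^ ((a - b) * u) := one_le_pow₀ (by norm_num)
  nlinarith

noncomputable def Ka (C : ℝ) : ℝ := 60 * 240 ^ 4 * C ^ 6 * (60 * C ^ 2 + 112500 * Cd * C ^ 7)
noncomputable def Kb (C : ℝ) : ℝ :=
  60 * C ^ 2 * (205200 * C ^ 6 + 288000 * C ^ 2 * (60 * C ^ 2 + 112500 * Cd * C ^ 7))

lemma two_div_24 (M : ℕ) (hM : 0 < M) : 2 / (((24 * M : ℕ)) : ℝ) = 1 / (12 * M) := by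
  have : (0:ℝ) < M := by exact_mod_cast hM
  push_cast
  field_simp
  norm_num

/-- bound for one good `g3`, rank two -/
lemma good2 (C u : ℕ) (hC : 1 ≤ C) (F1 F2 : Fin k → ℤ) (g3 : M2)
    (hg : ¬ IsBad (fun b : Bool => if b then F2 else F1) (C * 2 ^ (1000 * u)) (2 ^ (962 * u)) g3) :
    ‖∑ g2 ∈ slb (C * 2 ^ (1040 * u)), ∑ g1 ∈ slb (C * 2 ^ (1000 * u)),
      e (colA g1 g2 g3 * ev F2 (-(g3.b:ℝ)/g3.a) - colC g1 g2 g3 * ev F1 (-(g3.b:ℝ)/g3.a))‖ ≤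
      Ka C * ((2:ℝ) ^ u) ^ 4040 := by
  have hC' : (1:ℝ) ≤ C := by exact_mod_cast hC
  set U : ℝ := (2:ℝ) ^ u with hU
  have hU1 : (1:ℝ) ≤ U := one_le_pow₀ (by norm_num)
  have hM : 0 < C * 2 ^ (1000 * u) := by positivity
  have h1 := rank2_good (ev F1 (-(g3.b:ℝ)/g3.a)) (ev F2 (-(g3.b:ℝ)/g3.a)) g3 (C * 2 ^ (1000 * u))
    (24 * (C * 2 ^ (1000 * u))) (C * 2 ^ (1040 * u)) (2 ^ (962 * u)) (C * 2 ^ (520 * u))
    (by omega) (by omega) (by positivity) (Nat.one_le_iff_ne_zero.mpr (by positivity)) (by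
      have : (C * 2 ^ (520 * u)) ^ 2 = C * (C * 2 ^ (1040 * u)) := by
        rw [mul_pow, ← pow_mul, sq]
        have : 520 * u * 2 = 1040 * u := by ring
        rw [this]; ring
      rw [this]
      exact Nat.le_mul_of_pos_left _ (by omega)) (by
      intro y1 y2 hy hy1 hy2
      by_contra hcon
      push Not at hcon
      apply hg
      refine ⟨y1, y2, hy, hy1, hy2, ?_⟩
      intro i
      rw [two_div_24 _ hM] at hcon
      push_cast at hcon ⊢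
      cases i
      · simpa using hcon.1
      · simpa using hcon.2)
  have h2 := natdiv_bound C hC 1040 962 u (by norm_num)
  have h3 : ‖∑ g2 ∈ slb (C * 2 ^ (1040 * u)), ∑ g1 ∈ slb (C * 2 ^ (1000 * u)),
      e (colA g1 g2 g3 * ev F2 (-(g3.b:ℝ)/g3.a) - colC g1 g2 g3 * ev F1 (-(g3.b:ℝ)/g3.a))‖ ^ 2 ≤
      Ka C * U ^ 8080 := by
    refine h1.trans ?_
    have h4 : ((4 * (C * 2 ^ (1040 * u)) / 2 ^ (962 * u) + 1 : ℕ) : ℝ) ^ 4 ≤ (5 * C * U ^ 78) ^ 4 := by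
      apply pow_le_pow_left₀ (by positivity)
      refine h2.trans ?_
      rw [pow_u]
    have h5 : (((C * 2 ^ (1000 * u) : ℕ)) : ℝ) = C * U ^ 1000 := by push_cast; rw [pow_u]
    have h6 : (((C * 2 ^ (1040 * u) : ℕ)) : ℝ) = C * U ^ 1040 := by push_cast; rw [pow_u]
    have h7 : (((C * 2 ^ (520 * u) : ℕ)) : ℝ) = C * U ^ 520 := by push_cast; rw [pow_u]
    have h8 : (((24 * (C * 2 ^ (1000 * u)) : ℕ)) : ℝ) = 24 * (C * U ^ 1000) := by push_cast; rw [pow_u]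
    rw [h5, h6, h7, h8]
    calc 60 * ((C:ℝ) * U ^ 1000)^2 * ((10 * (24 * (C * U ^ 1000))) ^ 4 *
          (60 * ((C:ℝ) * U ^ 1040)^2 + ((4 * (C * 2 ^ (1040 * u)) / 2 ^ (962 * u) + 1 : ℕ) : ℝ) ^ 4 * (180 * Cd * (C * U ^ 520) ^ 3)))
        ≤ 60 * ((C:ℝ) * U ^ 1000)^2 * ((10 * (24 * (C * U ^ 1000))) ^ 4 *
          (60 * ((C:ℝ) * U ^ 1040)^2 + (5 * C * U ^ 78) ^ 4 * (180 * Cd * (C * U ^ 520) ^ 3))) := by
          gcongr
      _ = 60 * 240 ^ 4 * (C:ℝ)^6 * U^6000 * (60 * (C:ℝ)^2 * U^2080 + 112500 * Cd * (C:ℝ)^7 * U^1872) := by ring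
      _ ≤ 60 * 240 ^ 4 * (C:ℝ)^6 * U^6000 * (60 * (C:ℝ)^2 * U^2080 + 112500 * Cd * (C:ℝ)^7 * U^2080) := by
          gcongr
          norm_num
      _ = _ := by unfold Ka; ring
  have hKa : 1 ≤ Ka C := by
    unfold Ka
    have e1 : (1:ℝ) ≤ (C:ℝ)^6 := one_le_pow₀ hC'
    have e2 : (1:ℝ) ≤ 60 * (C:ℝ)^2 + 112500 * Cd * (C:ℝ)^7 := by
      have : (1:ℝ) ≤ (C:ℝ)^2 := one_le_pow₀ hC'
      have h0 : (0:ℝ) ≤ 112500 * Cd * (C:ℝ)^7 := by positivity
      linarith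
    calc (1:ℝ) = 1 * 1 * 1 := by ring
      _ ≤ 60 * 240 ^ 4 * (C:ℝ)^6 * (60 * (C:ℝ)^2 + 112500 * Cd * (C:ℝ)^7) := by
          gcongr
          norm_num
  apply le_of_sq_le_sq _ (by positivity)
  calc _ ≤ Ka C * U ^ 8080 := h3
    _ = 1 * Ka C * U ^ 8080 := by ring
    _ ≤ Ka C * Ka C * U ^ 8080 := by gcongr
    _ = _ := by ring

end MDiv
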