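import Mathlib
import Pool.Agent.Hhelper92.Mult.WeylB

set_option autoImplicit false

/-!
The main estimate for sums over products of three unimodular matrices, conclusion.
-/

namespace MDiv

open Finset

variable {k : ℕ}

/-- bound for one good `g3`, rank one -/
lemma good1 (C u : ℕ) (hC : 1 ≤ C) (F0 : Fin k → ℤ) (y1 y2 : ℤ) (hy : IsCoprime y1 y2)
    (hy1 : |y1| ≤ 2 ^ (10 * u)) (hy2 : |y2| ≤ 2 ^ (10 * u)) (g3 : M2)
    (hg : ¬ IsBad (fun _ : Unit => F0) (C * 2 ^ (1010 * u)) (2 ^ (480 * u)) g3) :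
    ‖∑ g2 ∈ slb (C * 2 ^ (1040 * u)), ∑ g1 ∈ slb (C * 2 ^ (1000 * u)),
      e (colA g1 g2 g3 * (y1 * ev F0 (-(g3.b:ℝ)/g3.a)) - colC g1 g2 g3 * (-y2 * ev F0 (-(g3.b:ℝ)/g3.a)))‖ ≤
      Kb C * ((2:ℝ) ^ u) ^ 4040 := by
  have hC' : (1:ℝ) ≤ C := by exact_mod_cast hC
  set U : ℝ := (2:ℝ) ^ u with hU
  have hU1 : (1:ℝ) ≤ U := one_le_pow₀ (by norm_num)
  have hM : 0 < C * 2 ^ (1010 * u) := by positivity
  have h1 := rank1_good (ev F0 (-(g3.b:ℝ)/g3.a)) y1 y2 hy (2 ^ (10 * u))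
    (by push_cast; exact ⟨hy1, hy2⟩) g3 (C * 2 ^ (1000 * u))
    (24 * (C * 2 ^ (1010 * u))) (C * 2 ^ (1040 * u)) (2 ^ (480 * u)) (C * 2 ^ (520 * u)) (C * 2 ^ (920 * u))
    (by
      have : 1010 * u = 10 * u + 1000 * u := by ring
      rw [this, pow_add]
      have h2 : 2 * 2 ^ (10 * u) * (C * 2 ^ (1000 * u)) = 2 * (C * (2 ^ (10 * u) * 2 ^ (1000 * u))) := by ring
      rw [h2]
      apply Nat.mul_le_mul_right; norm_num) (by omega) (by positivity)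
    (Nat.one_le_iff_ne_zero.mpr (by positivity)) (by
      have : (C * 2 ^ (520 * u)) ^ 2 = C * (C * 2 ^ (1040 * u)) := by
        rw [mul_pow, ← pow_mul, sq]
        have : 520 * u * 2 = 1040 * u := by ring
        rw [this]; ring
      rw [this]
      exact Nat.le_mul_of_pos_left _ (by omega))
    (Nat.one_le_iff_ne_zero.mpr (by positivity))
    (by
      apply Nat.mul_le_mul_left
      apply Nat.pow_le_pow_right (by norm_num)
      apply Nat.mul_le_mul_right; norm_num)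
    (by
      intro z1 z2 hz hz1 hz2
      by_contra hcon
      push Not at hcon
      apply hg
      refine ⟨z1, z2, hz, hz1, hz2, ?_⟩
      intro i
      rw [two_div_24 _ hM] at hcon
      push_cast at hcon ⊢
      exact hcon)
  have h2 := natdiv_bound C hC 1040 480 u (by norm_num)
  have h3 : ‖∑ g2 ∈ slb (C * 2 ^ (1040 * u)), ∑ g1 ∈ slb (C * 2 ^ (1000 * u)),
      e (colA g1 g2 g3 * (y1 * ev F0 (-(g3.b:ℝ)/g3.a)) - colC g1 g2 g3 * (-y2 * ev F0 (-(g3.b:ℝ)/g3.a)))‖ ^ 2 ≤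
      Kb C * U ^ 8080 := by
    refine h1.trans ?_
    have h4 : ((4 * (C * 2 ^ (1040 * u)) / 2 ^ (480 * u) + 1 : ℕ) : ℝ) ^ 4 ≤ (5 * C * U ^ 560) ^ 4 := by
      apply pow_le_pow_left₀ (by positivity)
      refine h2.trans ?_
      rw [pow_u]
    have h5 : (((C * 2 ^ (1000 * u) : ℕ)) : ℝ) = C * U ^ 1000 := by push_cast; rw [pow_u]
    have h6 : (((C * 2 ^ (1040 * u) : ℕ)) : ℝ) = C * U ^ 1040 := by push_cast; rw [pow_u]
    have h7 : (((C * 2 ^ (520 * u) : ℕ)) : ℝ) = C * U ^ 520 := by push_cast; rw [pow_u]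
    have h8 : (((24 * (C * 2 ^ (1010 * u)) : ℕ)) : ℝ) = 24 * (C * U ^ 1010) := by push_cast; rw [pow_u]
    have h9 : (((C * 2 ^ (920 * u) : ℕ)) : ℝ) = C * U ^ 920 := by push_cast; rw [pow_u]
    rw [h5, h6, h7, h8, h9]
    have h10 : 4 * ((C:ℝ) * U ^ 1000) / (C * U ^ 920) + 1 ≤ 5 * U ^ 80 := by
      have : 4 * ((C:ℝ) * U ^ 1000) / (C * U ^ 920) = 4 * U ^ 80 := by field_simp
      rw [this]
      have : (1:ℝ) ≤ U ^ 80 := one_le_pow₀ hU1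
      linarith
    calc 60 * ((C:ℝ) * U ^ 1000)^2 * ((60 * ((C:ℝ) * U ^ 1040)^2)^2 * (57 * (C * U ^ 1000) * (C * U ^ 920)) +
          (4 * ((C:ℝ) * U ^ 1000) / (C * U ^ 920) + 1) * ((10 * (24 * (C * U ^ 1010))) ^ 2 *
          (60 * ((C:ℝ) * U ^ 1040)^2 + ((4 * (C * 2 ^ (1040 * u)) / 2 ^ (480 * u) + 1 : ℕ) : ℝ) ^ 4 * (180 * Cd * (C * U ^ 520) ^ 3))))
        ≤ 60 * ((C:ℝ) * U ^ 1000)^2 * ((60 * ((C:ℝ) * U ^ 1040)^2)^2 * (57 * (C * U ^ 1000) * (C * U ^ 920)) +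
          (5 * U ^ 80) * ((10 * (24 * (C * U ^ 1010))) ^ 2 *
          (60 * ((C:ℝ) * U ^ 1040)^2 + (5 * C * U ^ 560) ^ 4 * (180 * Cd * (C * U ^ 520) ^ 3)))) := by
          gcongr
      _ = 60 * (C:ℝ)^2 * U^2000 * (205200 * (C:ℝ)^6 * U^6080 + 288000 * (C:ℝ)^2 * (60 * (C:ℝ)^2 * U^4180 + 112500 * Cd * (C:ℝ)^7 * U^5900)) := by ring
      _ ≤ 60 * (C:ℝ)^2 * U^2000 * (205200 * (C:ℝ)^6 * U^6080 + 288000 * (C:ℝ)^2 * (60 * (C:ℝ)^2 * U^6080 + 112500 * Cd * (C:ℝ)^7 * U^6080)) := by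
          gcongr <;> norm_num
      _ = _ := by unfold Kb; ring
  have hKb : 1 ≤ Kb C := by
    unfold Kb
    have e1 : (1:ℝ) ≤ (C:ℝ)^2 := one_le_pow₀ hC'
    have e2 : (1:ℝ) ≤ 205200 * (C:ℝ)^6 + 288000 * (C:ℝ)^2 * (60 * (C:ℝ)^2 + 112500 * Cd * (C:ℝ)^7) := by
      have : (1:ℝ) ≤ (C:ℝ)^6 := one_le_pow₀ hC'
      have h0 : (0:ℝ) ≤ 288000 * (C:ℝ)^2 * (60 * (C:ℝ)^2 + 112500 * Cd * (C:ℝ)^7) := by positivity
      linarith
    calc (1:ℝ) = 1 * 1 * 1 := by ring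
      _ ≤ 60 * (C:ℝ)^2 * (205200 * (C:ℝ)^6 + 288000 * (C:ℝ)^2 * (60 * (C:ℝ)^2 + 112500 * Cd * (C:ℝ)^7)) := by
          gcongr
          norm_num
  apply le_of_sq_le_sq _ (by positivity)
  calc _ ≤ Kb C * U ^ 8080 := h3
    _ = 1 * Kb C * U ^ 8080 := by ring
    _ ≤ Kb C * Kb C * U ^ 8080 := by gcongr
    _ = _ := by ring

/-- trivial bound -/
lemma triv_bound (C u : ℕ) (φ : M2 → M2 → ℝ) :
    ‖∑ g2 ∈ slb (C * 2 ^ (1040 * u)), ∑ g1 ∈ slb (C * 2 ^ (1000 * u)), e (φ g1 g2)‖ ≤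
      3600 * (C:ℝ) ^ 4 * ((2:ℝ) ^ u) ^ 4080 := by
  set U : ℝ := (2:ℝ) ^ u with hU
  have h1 := card_slb (C * 2 ^ (1040 * u))
  have h2 := card_slb (C * 2 ^ (1000 * u))
  have h5 : (((C * 2 ^ (1000 * u) : ℕ)) : ℝ) = C * U ^ 1000 := by push_cast; rw [pow_u]
  have h6 : (((C * 2 ^ (1040 * u) : ℕ)) : ℝ) = C * U ^ 1040 := by push_cast; rw [pow_u]
  rw [h6] at h1
  rw [h5] at h2
  calc _ ≤ ∑ g2 ∈ slb (C * 2 ^ (1040 * u)), ∑ g1 ∈ slb (C * 2 ^ (1000 * u)), ‖e (φ g1 g2)‖ := by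
        refine (norm_sum_le _ _).trans (Finset.sum_le_sum fun g2 _ => norm_sum_le _ _)
    _ = (slb (C * 2 ^ (1040 * u))).card * (slb (C * 2 ^ (1000 * u))).card := by
        simp [norm_e]
    _ ≤ (60 * (C * U ^ 1040)^2) * (60 * (C * U ^ 1000)^2) :=
        mul_le_mul h1 h2 (Nat.cast_nonneg _) (le_trans (Nat.cast_nonneg _) h1)
    _ = _ := by ring

/-- abstract splitting into good and bad -/
lemma split_sum (G : Finset M2) (P : M2 → Prop) [DecidablePred P] (S : M2 → ℂ) (A B : ℝ)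
    (hA0 : 0 ≤ A)
    (hgood : ∀ g ∈ G, ¬ P g → ‖S g‖ ≤ A) (hbad : ∀ g ∈ G, ‖S g‖ ≤ B) :
    ‖∑ g ∈ G, S g‖ ≤ G.card * A + (G.filter P).card * B := by
  rw [← Finset.sum_filter_add_sum_filter_not G P]
  have h1 : ‖∑ g ∈ G.filter P, S g‖ ≤ (G.filter P).card * B := by
    refine (norm_sum_le _ _).trans ?_
    rw [← nsmul_eq_mul, ← Finset.sum_const]
    exact Finset.sum_le_sum fun g hg => hbad g (Finset.mem_filter.mp hg).1
  have h2 : ‖∑ g ∈ G.filter (fun g => ¬ P g), S g‖ ≤ G.card * A := by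
    refine (norm_sum_le _ _).trans ?_
    calc _ ≤ ∑ g ∈ G.filter (fun g => ¬ P g), A := Finset.sum_le_sum fun g hg =>
          hgood g (Finset.mem_filter.mp hg).1 (Finset.mem_filter.mp hg).2
      _ = (G.filter (fun g => ¬ P g)).card * A := by rw [Finset.sum_const, nsmul_eq_mul]
      _ ≤ G.card * A := by
          gcongr
          exact Finset.filter_subset _ _
  refine (norm_add_le _ _).trans ?_
  linarith

theorem weyl_total (k K X1 C : ℕ) (hX1 : 1 ≤ X1) (hK : 1 ≤ K) (hC : 1 ≤ C) :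
    ∃ u0 : ℕ, ∀ u : ℕ, u0 ≤ u → ∀ L : ℕ, 2 ^ (3000 * (6 * k + 1) * u) ≤ L → ∀ α β : ℝ,
      -(X1:ℝ) ≤ α → α ≤ β → β ≤ X1 → ∀ F1 F2 : Fin k → ℤ, (∀ j, |F1 j| ≤ 2 ^ (10 * u)) →
      (∀ j, |F2 j| ≤ 2 ^ (10 * u)) → ¬ (F1 = 0 ∧ F2 = 0) →
      ‖∑ g3 ∈ fy L K X1 α β, ∑ g2 ∈ slb (C * 2 ^ (1040 * u)), ∑ g1 ∈ slb (C * 2 ^ (1000 * u)),
        e (colA g1 g2 g3 * ev F2 (-(g3.b:ℝ)/g3.a) - colC g1 g2 g3 * ev F1 (-(g3.b:ℝ)/g3.a))‖ ≤
        (L:ℝ)^2 * ((2:ℝ) ^ u) ^ 4041 := by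
  classical
  have hC' : (1:ℝ) ≤ C := by exact_mod_cast hC
  have hK' : (1:ℝ) ≤ K := by exact_mod_cast hK
  have hX1' : (1:ℝ) ≤ X1 := by exact_mod_cast hX1
  have hK0 := K0_pos k (X1 + 2) (by linarith)
  have hKa0 : 0 ≤ Ka C := by unfold Ka; positivity
  have hKb0 : 0 ≤ Kb C := by unfold Kb; positivity
  have hC10 := C1_pos k (X1 + 2) (by linarith)
  have hC22 : 0 ≤ C2 k K X1 2 := by unfold C2; positivity
  have hC21 : 0 ≤ C2 k K X1 1 := by unfold C2; positivity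
  set Q : ℝ := 2 * (4 * X1 + 2) * (Ka C + Kb C) + 14400 * (C:ℝ)^5 * (C2 k K X1 2 + C2 k K X1 1) +
    12 * C * K0 k (X1 + 2) * K with hQ
  obtain ⟨u0, hu0⟩ := pow_unbounded_of_one_lt Q (one_lt_two)
  refine ⟨u0, ?_⟩
  intro u hu L hL α β hα hαβ hβ F1 F2 hF1 hF2 hne
  set U : ℝ := (2:ℝ) ^ u with hU
  have hU1 : (1:ℝ) ≤ U := one_le_pow₀ (by norm_num)
  have hU0 : (0:ℝ) < U := by linarith
  have hQU : Q ≤ U := hu0.le.trans (pow_le_pow_right₀ (by norm_num) hu)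
  have hQ1 : 2 * (4 * X1 + 2) * (Ka C + Kb C) ≤ U := by
    have h1 : 0 ≤ 14400 * (C:ℝ)^5 * (C2 k K X1 2 + C2 k K X1 1) := by positivity
    have h2 : 0 ≤ 12 * C * K0 k (X1 + 2) * K := by positivity
    linarith
  have hQ2 : 14400 * (C:ℝ)^5 * (C2 k K X1 2 + C2 k K X1 1) ≤ U := by
    have h1 : 0 ≤ 2 * (4 * X1 + 2) * (Ka C + Kb C) := by positivity
    have h2 : 0 ≤ 12 * C * K0 k (X1 + 2) * K := by positivity
    linarith
  have hQ3 : 12 * C * K0 k (X1 + 2) * K ≤ U := by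
    have h1 : 0 ≤ 2 * (4 * X1 + 2) * (Ka C + Kb C) := by positivity
    have h2 : 0 ≤ 14400 * (C:ℝ)^5 * (C2 k K X1 2 + C2 k K X1 1) := by positivity
    linarith
  have hLr : U ^ (3000 * (6 * k + 1)) ≤ L := by
    rw [hU, ← pow_u]; exact_mod_cast hL
  have hL1 : (1:ℝ) ≤ L := le_trans (one_le_pow₀ hU1) hLr
  have hL3000 : U ^ 3000 ≤ L := by
    refine le_trans (pow_le_pow_right₀ hU1 ?_) hLr
    omega
  have hb1 : 1 ≤ 2 ^ (3000 * u) := Nat.one_le_two_pow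
  have hLb : (2 ^ (3000 * u)) ^ (6 * k) * 2 ^ (3000 * u) ≤ L := by
    refine le_trans (le_of_eq ?_) hL
    rw [← pow_succ, ← pow_mul]
    congr 1; ring
  have hV1 : (1:ℝ) ≤ U ^ 10 := one_le_pow₀ hU1
  have hG : ((fy L K X1 α β).card : ℝ) ≤ (4 * X1 + 2) * (L:ℝ)^2 := by
    refine (card_fy L K X1 α β hX1 hα hβ hαβ).trans ?_
    have h1 : (1:ℝ) ≤ (L:ℝ)^2 := one_le_pow₀ hL1
    have h2 : (β - α) * (L:ℝ)^2 ≤ (2 * X1) * (L:ℝ)^2 := by
      gcongr; linarith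
    linarith
  have hbr : (((2 ^ (3000 * u) : ℕ)) : ℝ) = U ^ 3000 := by push_cast; rw [pow_u]
  have hfin1 : ∀ A, 0 ≤ A → A ≤ Ka C + Kb C → ((fy L K X1 α β).card : ℝ) * (A * U ^ 4040) ≤ (L:ℝ)^2 * U^4041 / 2 := by
    intro A hA0 hA
    calc ((fy L K X1 α β).card : ℝ) * (A * U ^ 4040) ≤ ((4 * X1 + 2) * (L:ℝ)^2) * ((Ka C + Kb C) * U ^ 4040) := by gcongr
      _ = (2 * (4 * X1 + 2) * (Ka C + Kb C)) * ((L:ℝ)^2 * U ^ 4040 / 2) := by ring
      _ ≤ U * ((L:ℝ)^2 * U ^ 4040 / 2) := by gcongr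
      _ = _ := by ring
  rcases dichotomy F1 F2 (2 ^ (10 * u)) (by exact_mod_cast hF1) (by exact_mod_cast hF2) hne with hind | hdep
  · -- rank two
    have hbad := bad_count (fun b : Bool => if b then F2 else F1) hind (V := U ^ 10) hV1 (by
      intro i j
      rw [hU, ← pow_u]
      cases i
      · simp only [Bool.false_eq_true, if_false]; exact_mod_cast hF1 j
      · simp only [if_true]; exact_mod_cast hF2 j) L K X1 (C * 2 ^ (1000 * u)) (2 ^ (962 * u)) (2 ^ (3000 * u)) α β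
      hX1 hα hβ hK (by positivity) (Nat.one_le_two_pow) hb1 (by
        have h5 : (((C * 2 ^ (1000 * u) : ℕ)) : ℝ) = C * U ^ 1000 := by push_cast; rw [pow_u]
        have h6 : (((2 ^ (962 * u) : ℕ)) : ℝ) = U ^ 962 := by push_cast; rw [pow_u]
        rw [h5, h6]
        calc 12 * (C * U ^ 1000) * K0 k (X1 + 2) * U ^ 10 * U ^ 962 * K = (12 * C * K0 k (X1 + 2) * K) * U ^ 1972 := by ring
          _ ≤ U * U ^ 1972 := by gcongr
          _ = U ^ 1973 := by ring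
          _ ≤ U ^ 3000 := pow_le_pow_right₀ hU1 (by norm_num)
          _ ≤ L := hL3000) hLb
    have hsplit := split_sum (fy L K X1 α β) (IsBad (fun b : Bool => if b then F2 else F1) (C * 2 ^ (1000 * u)) (2 ^ (962 * u)))
      (fun g3 => ∑ g2 ∈ slb (C * 2 ^ (1040 * u)), ∑ g1 ∈ slb (C * 2 ^ (1000 * u)),
        e (colA g1 g2 g3 * ev F2 (-(g3.b:ℝ)/g3.a) - colC g1 g2 g3 * ev F1 (-(g3.b:ℝ)/g3.a)))
      (Ka C * U ^ 4040) (3600 * (C:ℝ)^4 * U ^ 4080) (by positivity)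
      (fun g _ hg => good2 C u hC F1 F2 g hg)
      (fun g _ => triv_bound C u (fun g1 g2 => colA g1 g2 g * ev F2 (-(g.b:ℝ)/g.a) - colC g1 g2 g * ev F1 (-(g.b:ℝ)/g.a)))
    refine hsplit.trans ?_
    have h1 := hfin1 (Ka C) hKa0 (by linarith)
    have h2 : (((fy L K X1 α β).filter (IsBad (fun b : Bool => if b then F2 else F1) (C * 2 ^ (1000 * u)) (2 ^ (962 * u)))).card : ℝ) *
        (3600 * (C:ℝ)^4 * U ^ 4080) ≤ (L:ℝ)^2 * U^4041 / 2 := by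
      have h5 : (((C * 2 ^ (1000 * u) : ℕ)) : ℝ) = C * U ^ 1000 := by push_cast; rw [pow_u]
      have h6 : (((2 ^ (962 * u) : ℕ)) : ℝ) = U ^ 962 := by push_cast; rw [pow_u]
      rw [h5, h6, hbr, Fintype.card_bool] at hbad
      have h7 : (U ^ 962)^2 * (1 / ((C:ℝ) * U ^ 1000)^2 + (C * U ^ 1000) * U ^ 10 / U ^ 3000) ≤ 2 * C / U ^ 66 := by
        have e1 : (U ^ 962)^2 * (1 / ((C:ℝ) * U ^ 1000)^2) ≤ C / U ^ 66 := by
          have : (U ^ 962)^2 * (1 / ((C:ℝ) * U ^ 1000)^2) = 1 / ((C:ℝ)^2 * U ^ 76) := by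
            field_simp
          rw [this, div_le_div_iff₀ (by positivity) (by positivity)]
          calc 1 * U ^ 66 ≤ (C:ℝ)^3 * U ^ 76 := by
                gcongr
                · exact one_le_pow₀ hC'
                · norm_num
            _ = _ := by ring
        have e2 : (U ^ 962)^2 * ((C * U ^ 1000) * U ^ 10 / U ^ 3000) = C / U ^ 66 := by
          field_simp
        rw [mul_add, e2]
        calc _ ≤ C / U ^ 66 + C / U ^ 66 := by linarith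
          _ = _ := by ring
      calc _ ≤ (C2 k K X1 2 * (L:ℝ)^2 * (U ^ 962)^2 * (1 / ((C:ℝ) * U ^ 1000)^2 + (C * U ^ 1000) * U ^ 10 / U ^ 3000)) *
            (3600 * (C:ℝ)^4 * U ^ 4080) := by gcongr
        _ = (C2 k K X1 2 * (L:ℝ)^2) * ((U ^ 962)^2 * (1 / ((C:ℝ) * U ^ 1000)^2 + (C * U ^ 1000) * U ^ 10 / U ^ 3000)) *
            (3600 * (C:ℝ)^4 * U ^ 4080) := by ring
        _ ≤ (C2 k K X1 2 * (L:ℝ)^2) * (2 * C / U ^ 66) * (3600 * (C:ℝ)^4 * U ^ 4080) := by gcongr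
        _ = (14400 * (C:ℝ)^5 * C2 k K X1 2) * ((L:ℝ)^2 * U ^ 4014 / 2) := by field_simp; ring
        _ ≤ U * ((L:ℝ)^2 * U ^ 4014 / 2) := by
            gcongr
            refine le_trans ?_ hQ2
            gcongr
            linarith
        _ ≤ U * ((L:ℝ)^2 * U ^ 4040 / 2) := by gcongr <;> norm_num
        _ = _ := by ring
    linarith
  · -- rank one
    obtain ⟨y1, y2, F0, hcop, hF0, rfl, rfl, hy1, hy2, hF0b⟩ := hdep
    have hbad := bad_count (fun _ : Unit => F0) (by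
      intro h hh
      simp only [Finset.univ_unique, Finset.sum_singleton]
      intro h0
      apply hh
      rw [smul_eq_zero] at h0
      rcases h0 with h0 | h0
      · funext x; exact h0
      · exact absurd h0 hF0) (V := U ^ 10) hV1 (by
      intro i j
      rw [hU, ← pow_u]
      exact_mod_cast hF0b j) L K X1 (C * 2 ^ (1010 * u)) (2 ^ (480 * u)) (2 ^ (3000 * u)) α β
      hX1 hα hβ hK (by positivity) (Nat.one_le_two_pow) hb1 (by
        have h5 : (((C * 2 ^ (1010 * u) : ℕ)) : ℝ) = C * U ^ 1010 := by push_cast; rw [pow_u]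
        have h6 : (((2 ^ (480 * u) : ℕ)) : ℝ) = U ^ 480 := by push_cast; rw [pow_u]
        rw [h5, h6]
        calc 12 * (C * U ^ 1010) * K0 k (X1 + 2) * U ^ 10 * U ^ 480 * K = (12 * C * K0 k (X1 + 2) * K) * U ^ 1500 := by ring
          _ ≤ U * U ^ 1500 := by gcongr
          _ = U ^ 1501 := by ring
          _ ≤ U ^ 3000 := pow_le_pow_right₀ hU1 (by norm_num)
          _ ≤ L := hL3000) hLb
    have hev : ∀ x, ev (y1 • F0) x = y1 * ev F0 x := fun x => ev_smul _ _ _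
    have hev' : ∀ x, ev ((-y2) • F0) x = -y2 * ev F0 x := fun x => by rw [ev_smul]; push_cast; ring
    have hsplit := split_sum (fy L K X1 α β) (IsBad (fun _ : Unit => F0) (C * 2 ^ (1010 * u)) (2 ^ (480 * u)))
      (fun g3 => ∑ g2 ∈ slb (C * 2 ^ (1040 * u)), ∑ g1 ∈ slb (C * 2 ^ (1000 * u)),
        e (colA g1 g2 g3 * ev (y1 • F0) (-(g3.b:ℝ)/g3.a) - colC g1 g2 g3 * ev ((-y2) • F0) (-(g3.b:ℝ)/g3.a)))
      (Kb C * U ^ 4040) (3600 * (C:ℝ)^4 * U ^ 4080) (by positivity)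
      (fun g _ hg => by
        simp only [hev, hev']
        exact good1 C u hC F0 y1 y2 hcop (by exact_mod_cast hy1) (by exact_mod_cast hy2) g hg)
      (fun g _ => triv_bound C u _)
    refine hsplit.trans ?_
    have h1 := hfin1 (Kb C) hKb0 (by linarith)
    have h2 : (((fy L K X1 α β).filter (IsBad (fun _ : Unit => F0) (C * 2 ^ (1010 * u)) (2 ^ (480 * u)))).card : ℝ) *
        (3600 * (C:ℝ)^4 * U ^ 4080) ≤ (L:ℝ)^2 * U^4041 / 2 := by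
      have h5 : (((C * 2 ^ (1010 * u) : ℕ)) : ℝ) = C * U ^ 1010 := by push_cast; rw [pow_u]
      have h6 : (((2 ^ (480 * u) : ℕ)) : ℝ) = U ^ 480 := by push_cast; rw [pow_u]
      rw [h5, h6, hbr, Fintype.card_unit, pow_one] at hbad
      have h7 : (U ^ 480)^2 * (1 / ((C:ℝ) * U ^ 1010) + (C * U ^ 1010) * U ^ 10 / U ^ 3000) ≤ 2 * C / U ^ 50 := by
        have e1 : (U ^ 480)^2 * (1 / ((C:ℝ) * U ^ 1010)) ≤ C / U ^ 50 := by
          have : (U ^ 480)^2 * (1 / ((C:ℝ) * U ^ 1010)) = 1 / ((C:ℝ) * U ^ 50) := by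
            field_simp
          rw [this, div_le_div_iff₀ (by positivity) (by positivity)]
          calc 1 * U ^ 50 ≤ (C:ℝ)^2 * U ^ 50 := by
                gcongr
                exact one_le_pow₀ hC'
            _ = _ := by ring
        have e2 : (U ^ 480)^2 * ((C * U ^ 1010) * U ^ 10 / U ^ 3000) ≤ C / U ^ 50 := by
          have : (U ^ 480)^2 * ((C * U ^ 1010) * U ^ 10 / U ^ 3000) = C / U ^ 1020 := by
            field_simp
          rw [this]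
          gcongr
          norm_num
        rw [mul_add]
        calc _ ≤ C / U ^ 50 + C / U ^ 50 := by linarith
          _ = _ := by ring
      calc _ ≤ (C2 k K X1 1 * (L:ℝ)^2 * (U ^ 480)^2 * (1 / ((C:ℝ) * U ^ 1010) + (C * U ^ 1010) * U ^ 10 / U ^ 3000)) *
            (3600 * (C:ℝ)^4 * U ^ 4080) := by gcongr
        _ = (C2 k K X1 1 * (L:ℝ)^2) * ((U ^ 480)^2 * (1 / ((C:ℝ) * U ^ 1010) + (C * U ^ 1010) * U ^ 10 / U ^ 3000)) *
            (3600 * (C:ℝ)^4 * U ^ 4080) := by ring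
        _ ≤ (C2 k K X1 1 * (L:ℝ)^2) * (2 * C / U ^ 50) * (3600 * (C:ℝ)^4 * U ^ 4080) := by gcongr
        _ = (14400 * (C:ℝ)^5 * C2 k K X1 1) * ((L:ℝ)^2 * U ^ 4030 / 2) := by field_simp; ring
        _ ≤ U * ((L:ℝ)^2 * U ^ 4030 / 2) := by
            gcongr
            refine le_trans ?_ hQ2
            gcongr
            linarith
        _ ≤ U * ((L:ℝ)^2 * U ^ 4040 / 2) := by gcongr <;> norm_num
        _ = _ := by ring
    linarith

end MDiv
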