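import Mathlib
import Pool.Agent.Hhelper92.Mult.Near3
import Pool.Agent.Hhelper92.Mult.Count1
import Pool.Agent.Hhelper92.Mult.WeylC

set_option autoImplicit false

/-!
Counting close pairs of roots of two families of polynomials.
-/

namespace MDiv

open Finset

lemma big_exists (K δ : ℝ) (hδ : 0 < δ) :
    ∃ u0 : ℕ, ∀ u : ℕ, u0 ≤ u → 5 ≤ u ∧ K ≤ (2:ℝ)^u ∧ 1 ≤ δ * (2:ℝ)^u := by
  obtain ⟨n, hn⟩ := pow_unbounded_of_one_lt K (by norm_num : (1:ℝ) < 2)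
  obtain ⟨m, hm⟩ := pow_unbounded_of_one_lt (1/δ) (by norm_num : (1:ℝ) < 2)
  refine ⟨n + m + 5, fun u hu => ⟨by omega, ?_, ?_⟩⟩
  · exact hn.le.trans (pow_le_pow_right₀ (by norm_num) (by omega))
  · have h1 : 1 / δ ≤ (2:ℝ)^u := hm.le.trans (pow_le_pow_right₀ (by norm_num) (by omega))
    rw [div_le_iff₀ hδ] at h1
    linarith

lemma sum_trs (k L X1 u : ℕ) (α β : ℝ) (F1 F2 : Fin k → ℤ) :
    ∑ t ∈ trs L X1 u α β, e ((tm t).a * ev F2 (tx t) - (tm t).c * ev F1 (tx t)) =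
    ∑ g3 ∈ fy L 100 X1 α β, ∑ g2 ∈ slb (600 * 2 ^ (1040 * u)), ∑ g1 ∈ slb (600 * 2 ^ (1000 * u)),
        e (colA g1 g2 g3 * ev F2 (-(g3.b:ℝ)/g3.a) - colC g1 g2 g3 * ev F1 (-(g3.b:ℝ)/g3.a)) := by
  unfold trs
  rw [Finset.sum_product]
  apply Finset.sum_congr rfl
  intro g3 _
  rw [Finset.sum_product]
  apply Finset.sum_congr rfl
  intro g2 _
  apply Finset.sum_congr rfl
  intro g1 _
  rw [tm_a, tm_c]
  rfl

/-- the count of triples plus the error term -/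
lemma total_count {k X1 u L : ℕ} {c0 δ α β A B ρ : ℝ} (cfg : Cfg k X1 u L c0 δ α β A B ρ)
    (hu5 : 5 ≤ u) (hδU : 1 ≤ δ * (2:ℝ)^u) (hδL : 200 ≤ δ * (L:ℝ)^2) :
    ((trs L X1 u α β).card : ℝ) + (((2 ^ (8 * u) : ℕ)) : ℝ) ^ 4 * ((L:ℝ)^2 * ((2:ℝ)^u)^4041) ≤
      3 * 10 ^ 15 * (β - α) * ((L:ℝ) * ((2:ℝ)^u) ^ 2040)^2 := by
  have h1 := card_trs L X1 u α β cfg.hX1 cfg.hα cfg.hβ (by linarith [cfg.hδ, cfg.hδ'])
  have hδ := cfg.hδ
  have hδ' := cfg.hδ'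
  push_cast
  rw [pow_u]
  set U : ℝ := (2:ℝ)^u with hU
  have hU1 : (1:ℝ) ≤ U := one_le_pow₀ (by norm_num)
  have hU0 : (0:ℝ) < U := by linarith
  clear cfg
  have h2 : 1 ≤ (β - α) * (L:ℝ)^2 := by
    have : δ * (L:ℝ)^2 ≤ (β - α) * (L:ℝ)^2 := by gcongr
    linarith
  have hp : (0:ℝ) ≤ U ^ 4073 := pow_nonneg hU0.le _
  have hp2 : (0:ℝ) ≤ U ^ 4080 := pow_nonneg hU0.le _
  have h3 : U ^ 4073 ≤ (β - α) * U ^ 4080 := by
    have h4 : (1:ℝ) ≤ (β - α) * U ^ 7 := by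
      calc (1:ℝ) ≤ δ * U := hδU
        _ ≤ (β - α) * U ^ 7 := by
          apply mul_le_mul hδ' _ hU0.le (by linarith)
          exact le_self_pow₀ hU1 (by norm_num)
    calc U ^ 4073 = U ^ 4073 * 1 := (mul_one _).symm
      _ ≤ U ^ 4073 * ((β - α) * U ^ 7) := mul_le_mul_of_nonneg_left h4 hp
      _ = (β - α) * (U ^ 4073 * U ^ 7) := by ring
      _ = _ := by rw [← pow_add]
  have e1 : (U ^ 8)^4 * ((L:ℝ)^2 * U ^ 4041) = (L:ℝ)^2 * U ^ 4073 := by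
    rw [← pow_mul]
    calc U ^ (8 * 4) * ((L:ℝ)^2 * U ^ 4041) = (L:ℝ)^2 * (U ^ (8*4) * U ^ 4041) := by ring
      _ = _ := by rw [← pow_add]
  have e2 : ((L:ℝ) * U ^ 2040)^2 = (L:ℝ)^2 * U ^ 4080 := by rw [mul_pow, ← pow_mul]
  rw [e1, e2]
  have hL2 : (0:ℝ) ≤ (L:ℝ)^2 := by positivity
  have h5 : (L:ℝ)^2 * U^4073 ≤ (L:ℝ)^2 * ((β - α) * U ^ 4080) := mul_le_mul_of_nonneg_left h3 hL2
  have h6 : 10 ^ 15 * ((β - α) * (L:ℝ)^2 + 1) * U ^ 4080 ≤ 10 ^ 15 * (2 * ((β - α) * (L:ℝ)^2)) * U ^ 4080 := by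
    apply mul_le_mul_of_nonneg_right _ hp2
    linarith
  have h7 : 0 ≤ (L:ℝ)^2 * ((β - α) * U ^ 4080) := by
    apply mul_nonneg hL2
    apply mul_nonneg _ hp2
    linarith
  have e3 : 3 * 10 ^ 15 * (β - α) * ((L:ℝ)^2 * U ^ 4080) = 3 * 10^15 * ((L:ℝ)^2 * ((β - α) * U ^ 4080)) := by ring
  have e4 : 10 ^ 15 * (2 * ((β - α) * (L:ℝ)^2)) * U ^ 4080 = 2 * 10^15 * ((L:ℝ)^2 * ((β - α) * U ^ 4080)) := by ring
  rw [e3]
  rw [e4] at h6
  linarith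

lemma param_facts {k X1 u L : ℕ} {c0 δ α β A B ρ : ℝ} (cfg : Cfg k X1 u L c0 δ α β A B ρ)
    (hu5 : 5 ≤ u) :
    1 ≤ ((2:ℝ)^u)^7 * (305 * A / (L * ((2:ℝ)^u) ^ 2040)) ∧
    1 ≤ ((2:ℝ)^u)^7 * (305 * B / (L * ((2:ℝ)^u) ^ 2040)) ∧
    (305 * A / (L * ((2:ℝ)^u) ^ 2040)) + 305 * B / (L * ((2:ℝ)^u) ^ 2040) ≤
      ((2:ℝ)^u)^7 * (2 * (A * B * ρ)) * (305 / (2:ℝ)^u) := by
  have hL1 : 1 ≤ L := le_trans Nat.one_le_two_pow cfg.hL
  have hL1' : (1:ℝ) ≤ L := by exact_mod_cast hL1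
  have hU1 : (1:ℝ) ≤ (2:ℝ)^u := one_le_pow₀ (by norm_num)
  have hUp : (1:ℝ) ≤ ((2:ℝ)^u) ^ 2040 := one_le_pow₀ hU1
  have hA0 := cfg.hA0
  have hB0 := cfg.hB0
  have hρ := cfg.hρ
  have hc1 := cfg.hc1
  have hc0 := cfg.hc0
  have hAΛ := cfg.hAΛ
  have hBΛ := cfg.hBΛ
  have hAρ := cfg.hAρ
  have hBρ := cfg.hBρ
  clear cfg
  set U : ℝ := (2:ℝ)^u with hU
  set Λ : ℝ := L * U ^ 2040 with hΛ
  have hΛ0 : 0 < Λ := by
    have := one_le_mul_of_one_le_of_one_le hL1' hUp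
    linarith
  have hU0 : 0 < U := by linarith
  have hcA : c0 * A ≤ A := mul_le_of_le_one_left hA0.le hc1
  have hcB : c0 * B ≤ B := mul_le_of_le_one_left hB0.le hc1
  refine ⟨?_, ?_, ?_⟩
  · rw [← mul_div_assoc, le_div_iff₀ hΛ0, one_mul]
    calc Λ ≤ c0 * A * U^6 := hAΛ
      _ ≤ A * U^6 := by gcongr
      _ ≤ (A * U^6) * (305 * U) := by
          apply le_mul_of_one_le_right (by positivity)
          linarith
      _ = _ := by ring
  · rw [← mul_div_assoc, le_div_iff₀ hΛ0, one_mul]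
    calc Λ ≤ c0 * B * U^6 := hBΛ
      _ ≤ B * U^6 := by gcongr
      _ ≤ (B * U^6) * (305 * U) := by
          apply le_mul_of_one_le_right (by positivity)
          linarith
      _ = _ := by ring
  · rw [← add_div, div_le_iff₀ hΛ0]
    have e1 : U^7 * (2 * (A * B * ρ)) * (305 / U) * Λ = 305 * (A * (B * ρ * Λ * U^6)) + 305 * (B * (A * ρ * Λ * U^6)) := by
      field_simp
      ring
    rw [e1]
    have h1 : A * 1 ≤ A * (B * ρ * Λ * U^6) := by gcongr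
    have h2 : B * 1 ≤ B * (A * ρ * Λ * U^6) := by gcongr
    linarith

theorem near_indep (k X1 : ℕ) (hX1 : 1 ≤ X1) (c0 δ : ℝ) (hδ : 0 < δ) :
    ∃ u0 : ℕ, ∀ u : ℕ, u0 ≤ u → ∀ (L : ℕ) (α β A B ρ : ℝ), Cfg k X1 u L c0 δ α β A B ρ →
      ∀ h h' : Fin k → ℤ, (∀ i, |(h i : ℝ)| ≤ (2:ℝ)^u) → (∀ i, |(h' i : ℝ)| ≤ (2:ℝ)^u) →
      (∀ m m' : ℤ, m • h + m' • h' = 0 → m = 0 ∧ m' = 0) →
      ∀ S0 : Finset (ℝ × ℝ), (∀ p ∈ S0, PairOK u L c0 δ α β A B ρ h h' p) →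
      (S0.card : ℝ) ≤ 10 ^ 28 * (β - α) * (A * B) * (A * B * ρ) := by
  classical
  obtain ⟨u1, hu1⟩ := weyl_total k 100 X1 600 hX1 (by norm_num) (by norm_num)
  obtain ⟨u2, hu2⟩ := big_exists (1000 * K0 k X1) δ hδ
  refine ⟨u1 + u2, ?_⟩
  intro u hu L α β A B ρ cfg h h' hh hh' hind S0 hS0
  obtain ⟨hu5, hK, hδU⟩ := hu2 u (by omega)
  have hwt := hu1 u (by omega) L cfg.hL α β cfg.hα (by linarith [cfg.hδ, cfg.hδ']) cfg.hβ
  have hUL : 200 ≤ δ * (L:ℝ)^2 := by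
    have h1 : (2:ℝ)^u * 256 ≤ (L:ℝ) := by
      have h2 : (2:ℕ)^(u+8) ≤ L := by
        refine le_trans (Nat.pow_le_pow_right (by norm_num) ?_) cfg.hL
        have h3 : 3000 * u ≤ 3000 * (6 * k + 1) * u := by
          apply Nat.mul_le_mul_right
          omega
        omega
      have h3 : (((2:ℕ)^(u+8) : ℕ) : ℝ) ≤ L := by exact_mod_cast h2
      push_cast at h3
      rw [pow_add] at h3
      norm_num at h3
      exact h3
    have hU0 : (0:ℝ) < (2:ℝ)^u := by positivity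
    have hL1 : (1:ℝ) ≤ L := by
      have : 1 ≤ L := le_trans Nat.one_le_two_pow cfg.hL
      exact_mod_cast this
    calc (200:ℝ) ≤ 1 * 256 := by norm_num
      _ ≤ (δ * (2:ℝ)^u) * 256 := by gcongr
      _ = δ * ((2:ℝ)^u * 256) := by ring
      _ ≤ δ * L := by gcongr
      _ ≤ δ * (L:ℝ)^2 := by
        gcongr
        exact le_self_pow₀ hL1 (by norm_num)
  obtain ⟨S, hcard, hS⟩ := embed cfg (by omega) hK hUL hh hh' S0 hS0
  rw [hcard]
  obtain ⟨pf1, pf2, pf3⟩ := param_facts cfg hu5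
  have htot := total_count cfg hu5 hδU hUL
  have hA0 := cfg.hA0
  have hB0 := cfg.hB0
  have hρ := cfg.hρ
  have hβα : 0 ≤ β - α := by linarith [cfg.hδ, cfg.hδ']
  have hL1 : (1:ℝ) ≤ L := by
    have : 1 ≤ L := le_trans Nat.one_le_two_pow cfg.hL
    exact_mod_cast this
  have hMcast : (((2 ^ (8 * u) : ℕ)) : ℝ) = ((2:ℝ)^u)^8 := by push_cast; rw [pow_u]
  have hU32 : (32:ℝ) ≤ (2:ℝ)^u := by
    calc (32:ℝ) = 2^5 := by norm_num
      _ ≤ 2^u := pow_le_pow_right₀ (by norm_num) hu5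
  have hU0 : (0:ℝ) < (2:ℝ)^u := by linarith
  have hΛp : (0:ℝ) < (L:ℝ) * ((2:ℝ)^u) ^ 2040 := mul_pos (by linarith) (pow_pos hU0 _)
  have hcount := count_rank2 (trs L X1 u α β) (fun t => -((tm t).c * ev h (tx t))) (fun t => (tm t).a * ev h (tx t))
    (fun t => -((tm t).c * ev h' (tx t))) (fun t => (tm t).a * ev h' (tx t)) (2 ^ (8 * u)) (by positivity)
    ((L:ℝ)^2 * ((2:ℝ)^u)^4041) (mul_nonneg (by positivity) (pow_nonneg hU0.le _)) (by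
      intro h1 h2 h3 h4 hne b1 b2 b3 b4
      have hb : ∀ (m m' : ℤ), |m| < ((2 ^ (8 * u) : ℕ) : ℤ) → |m'| < ((2 ^ (8 * u) : ℕ) : ℤ) → ∀ j,
          |(m • h + m' • h') j| ≤ 2 ^ (10 * u) := by
        intro m m' hm hm' j
        rw [Pi.add_apply, Pi.smul_apply, Pi.smul_apply, smul_eq_mul, smul_eq_mul]
        have c1 : |h j| ≤ 2 ^ u := by exact_mod_cast hh j
        have c2 : |h' j| ≤ 2 ^ u := by exact_mod_cast hh' j
        push_cast at hm hm'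
        calc |m * h j + m' * h' j| ≤ |m * h j| + |m' * h' j| := abs_add_le _ _
          _ ≤ 2 ^ (8 * u) * 2 ^ u + 2 ^ (8 * u) * 2 ^ u := by
            rw [abs_mul, abs_mul]; gcongr
          _ = 2 ^ (9 * u + 1) := by
            have : 9 * u + 1 = 8 * u + u + 1 := by ring
            rw [this, pow_succ, pow_add]; ring
          _ ≤ 2 ^ (10 * u) := pow_le_pow_right₀ (by norm_num) (by omega)
      have hw := hwt (h1 • h + h3 • h') (h2 • h + h4 • h') (hb _ _ b1 b3) (hb _ _ b2 b4) (by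
        rintro ⟨c1, c2⟩
        obtain ⟨d1, d3⟩ := hind _ _ c1
        obtain ⟨d2, d4⟩ := hind _ _ c2
        exact hne ⟨d1, d2, d3, d4⟩)
      rw [← sum_trs] at hw
      refine le_trans (le_of_eq ?_) hw
      congr 1
      apply Finset.sum_congr rfl
      intro t _
      congr 1
      rw [ev_add, ev_add, ev_smul, ev_smul, ev_smul, ev_smul]
      ring)
    (305 * A / (L * ((2:ℝ)^u) ^ 2040)) (305 * B / (L * ((2:ℝ)^u) ^ 2040)) (2 * (A * B * ρ))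
    (by
      rw [hMcast]
      refine pf1.trans ?_
      apply mul_le_mul_of_nonneg_right _ (by
        apply div_nonneg _ hΛp.le
        positivity)
      exact pow_le_pow_right₀ (by linarith) (by norm_num))
    (by
      rw [hMcast]
      refine pf2.trans ?_
      apply mul_le_mul_of_nonneg_right _ (by
        apply div_nonneg _ hΛp.le
        positivity)
      exact pow_le_pow_right₀ (by linarith) (by norm_num))
    (by
      rw [hMcast]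
      refine pf3.trans ?_
      have e1 : ((2:ℝ)^u)^7 * (2 * (A * B * ρ)) * (305 / (2:ℝ)^u) = ((2:ℝ)^u)^6 * 305 * (2 * (A * B * ρ)) := by
        field_simp
      rw [e1]
      apply mul_le_mul_of_nonneg_right _ (by positivity)
      calc ((2:ℝ)^u)^6 * 305 ≤ ((2:ℝ)^u)^6 * ((2:ℝ)^u)^2 := by
            gcongr
            nlinarith
        _ = _ := by rw [← pow_add])
    S (by
      intro s hs
      obtain ⟨v1, v2, v3, v4, v5, v6, v7, _⟩ := hS s hs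
      refine ⟨v1, v2, v3, v4, v5, v6, ?_⟩
      have h78 : 1 / (((2 ^ (8 * u) : ℕ)) : ℝ) ≤ 1 / ((2:ℝ)^u)^7 := by
        rw [hMcast]
        apply one_div_le_one_div_of_le (by positivity)
        exact pow_le_pow_right₀ (by linarith) (by norm_num)
      rcases v7 with h | h
      · left; exact h78.trans h
      · right; exact h78.trans h)
  refine hcount.trans ?_
  set Λ : ℝ := (L:ℝ) * ((2:ℝ)^u) ^ 2040 with hΛ
  set Q : ℝ := ((trs L X1 u α β).card : ℝ) + (((2 ^ (8 * u) : ℕ)) : ℝ) ^ 4 * ((L:ℝ)^2 * ((2:ℝ)^u)^4041)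
  calc 6 * 10 ^ 6 * (305 * A / Λ * (305 * B / Λ) * (2 * (A * B * ρ))) * Q
      ≤ 6 * 10 ^ 6 * (305 * A / Λ * (305 * B / Λ) * (2 * (A * B * ρ))) * (3 * 10 ^ 15 * (β - α) * Λ^2) := by
        apply mul_le_mul_of_nonneg_left htot
        positivity
    _ = (6 * 10^6 * 305^2 * 2 * 3 * 10^15) * ((β - α) * (A * B) * (A * B * ρ)) := by
        field_simp
    _ ≤ 10 ^ 28 * ((β - α) * (A * B) * (A * B * ρ)) := by
        apply mul_le_mul_of_nonneg_right _ (by positivity)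
        norm_num
    _ = _ := by ring

theorem near_prop (k X1 : ℕ) (hX1 : 1 ≤ X1) (c0 δ : ℝ) (hδ : 0 < δ) :
    ∃ u0 : ℕ, ∀ u : ℕ, u0 ≤ u → ∀ (L : ℕ) (α β A B ρ : ℝ), Cfg k X1 u L c0 δ α β A B ρ →
      ∀ (h0 : Fin k → ℤ) (m m' : ℤ), h0 ≠ 0 → m ≠ 0 → m' ≠ 0 → IsCoprime m m' →
      (∀ i, |((m • h0) i : ℝ)| ≤ (2:ℝ)^u) → (∀ i, |((m' • h0) i : ℝ)| ≤ (2:ℝ)^u) →
      ∀ S0 : Finset (ℝ × ℝ), (∀ p ∈ S0, PairOK u L c0 δ α β A B ρ (m • h0) (m' • h0) p) →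
      (S0.card : ℝ) ≤ 10 ^ 28 * (β - α) * (A * B) * (A * B * ρ + 1 / (|(m:ℝ)| * |(m':ℝ)|)) := by
  classical
  obtain ⟨u1, hu1⟩ := weyl_total k 100 X1 600 hX1 (by norm_num) (by norm_num)
  obtain ⟨u2, hu2⟩ := big_exists (1000 * K0 k X1) δ hδ
  refine ⟨u1 + u2, ?_⟩
  intro u hu L α β A B ρ cfg h0 m m' hh0 hm hm' hcop hh hh' S0 hS0
  obtain ⟨hu5, hK, hδU⟩ := hu2 u (by omega)
  have hwt := hu1 u (by omega) L cfg.hL α β cfg.hα (by linarith [cfg.hδ, cfg.hδ']) cfg.hβ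
  have hUL : 200 ≤ δ * (L:ℝ)^2 := by
    have h1 : (2:ℝ)^u * 256 ≤ (L:ℝ) := by
      have h2 : (2:ℕ)^(u+8) ≤ L := by
        refine le_trans (Nat.pow_le_pow_right (by norm_num) ?_) cfg.hL
        have h3 : 3000 * u ≤ 3000 * (6 * k + 1) * u := by
          apply Nat.mul_le_mul_right
          omega
        omega
      have h3 : (((2:ℕ)^(u+8) : ℕ) : ℝ) ≤ L := by exact_mod_cast h2
      push_cast at h3
      rw [pow_add] at h3
      norm_num at h3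
      exact h3
    have hU0 : (0:ℝ) < (2:ℝ)^u := by positivity
    have hL1 : (1:ℝ) ≤ L := by
      have : 1 ≤ L := le_trans Nat.one_le_two_pow cfg.hL
      exact_mod_cast this
    calc (200:ℝ) ≤ 1 * 256 := by norm_num
      _ ≤ (δ * (2:ℝ)^u) * 256 := by gcongr
      _ = δ * ((2:ℝ)^u * 256) := by ring
      _ ≤ δ * L := by gcongr
      _ ≤ δ * (L:ℝ)^2 := by
        gcongr
        exact le_self_pow₀ hL1 (by norm_num)
  obtain ⟨S, hcard, hS⟩ := embed cfg (by omega) hK hUL hh hh' S0 hS0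
  rw [hcard]
  obtain ⟨pf1, pf2, pf3⟩ := param_facts cfg hu5
  have htot := total_count cfg hu5 hδU hUL
  have hA0 := cfg.hA0
  have hB0 := cfg.hB0
  have hρ := cfg.hρ
  have hβα : 0 ≤ β - α := by linarith [cfg.hδ, cfg.hδ']
  have hL1 : (1:ℝ) ≤ L := by
    have : 1 ≤ L := le_trans Nat.one_le_two_pow cfg.hL
    exact_mod_cast this
  have hMcast : (((2 ^ (8 * u) : ℕ)) : ℝ) = ((2:ℝ)^u)^8 := by push_cast; rw [pow_u]
  have hU32 : (32:ℝ) ≤ (2:ℝ)^u := by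
    calc (32:ℝ) = 2^5 := by norm_num
      _ ≤ 2^u := pow_le_pow_right₀ (by norm_num) hu5
  have hU0 : (0:ℝ) < (2:ℝ)^u := by linarith
  have hΛp : (0:ℝ) < (L:ℝ) * ((2:ℝ)^u) ^ 2040 := mul_pos (by linarith) (pow_pos hU0 _)
  have hm1 : (1:ℝ) ≤ |(m:ℝ)| := by exact_mod_cast Int.one_le_abs hm
  have hm1' : (1:ℝ) ≤ |(m':ℝ)| := by exact_mod_cast Int.one_le_abs hm'
  obtain ⟨i0, hi0⟩ : ∃ i, h0 i ≠ 0 := by
    by_contra hcon
    push Not at hcon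
    exact hh0 (funext hcon)
  have hi1 : (1:ℝ) ≤ |(h0 i0 : ℝ)| := by exact_mod_cast Int.one_le_abs hi0
  have hmU : |(m:ℝ)| ≤ (2:ℝ)^u := by
    have := hh i0
    rw [Pi.smul_apply, smul_eq_mul] at this
    push_cast at this
    rw [abs_mul] at this
    calc |(m:ℝ)| = |(m:ℝ)| * 1 := (mul_one _).symm
      _ ≤ |(m:ℝ)| * |(h0 i0 : ℝ)| := by gcongr
      _ ≤ _ := this
  have hmU' : |(m':ℝ)| ≤ (2:ℝ)^u := by
    have := hh' i0
    rw [Pi.smul_apply, smul_eq_mul] at this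
    push_cast at this
    rw [abs_mul] at this
    calc |(m':ℝ)| = |(m':ℝ)| * 1 := (mul_one _).symm
      _ ≤ |(m':ℝ)| * |(h0 i0 : ℝ)| := by gcongr
      _ ≤ _ := this
  have hh0U : ∀ i, |h0 i| ≤ 2 ^ u := by
    intro i
    have := hh i
    rw [Pi.smul_apply, smul_eq_mul] at this
    push_cast at this
    rw [abs_mul] at this
    have h2 : |(h0 i : ℝ)| ≤ (2:ℝ)^u := by
      calc |(h0 i : ℝ)| = 1 * |(h0 i : ℝ)| := (one_mul _).symm
        _ ≤ |(m:ℝ)| * |(h0 i : ℝ)| := by gcongr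
        _ ≤ _ := this
    exact_mod_cast h2
  have hR1p : 0 ≤ 305 * A / (L * ((2:ℝ)^u) ^ 2040) := div_nonneg (by positivity) hΛp.le
  have hR2p : 0 ≤ 305 * B / (L * ((2:ℝ)^u) ^ 2040) := div_nonneg (by positivity) hΛp.le
  have hcount := count_rank1 (trs L X1 u α β) (fun t => -((tm t).c * ev h0 (tx t))) (fun t => (tm t).a * ev h0 (tx t))
    (2 ^ (8 * u)) (by positivity)
    ((L:ℝ)^2 * ((2:ℝ)^u)^4041) (mul_nonneg (by positivity) (pow_nonneg hU0.le _)) (by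
      intro h1 h2 hne b1 b2
      have hb : ∀ (n : ℤ), |n| < ((2 ^ (8 * u) : ℕ) : ℤ) → ∀ j, |(n • h0) j| ≤ 2 ^ (10 * u) := by
        intro n hn j
        rw [Pi.smul_apply, smul_eq_mul]
        push_cast at hn
        calc |n * h0 j| = |n| * |h0 j| := abs_mul _ _
          _ ≤ 2 ^ (8 * u) * 2 ^ u := by
            have := hh0U j
            gcongr
          _ = 2 ^ (9 * u) := by
            rw [← pow_add]; congr 1; ring
          _ ≤ 2 ^ (10 * u) := pow_le_pow_right₀ (by norm_num) (by omega)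
      have hz : ∀ n : ℤ, n • h0 = 0 → n = 0 := by
        intro n hn
        have := congrFun hn i0
        rw [Pi.smul_apply, smul_eq_mul, Pi.zero_apply, mul_eq_zero] at this
        exact this.resolve_right hi0
      have hw := hwt (h1 • h0) (h2 • h0) (hb _ b1) (hb _ b2) (by
        rintro ⟨c1, c2⟩
        exact hne ⟨hz _ c1, hz _ c2⟩)
      rw [← sum_trs] at hw
      refine le_trans (le_of_eq ?_) hw
      congr 1
      apply Finset.sum_congr rfl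
      intro t _
      congr 1
      rw [ev_smul, ev_smul]
      ring)
    m m' hm hm' hcop
    (305 * A / (L * ((2:ℝ)^u) ^ 2040)) (305 * B / (L * ((2:ℝ)^u) ^ 2040)) (2 * (A * B * ρ))
    (by
      rw [hMcast]
      calc |(m:ℝ)| ≤ (2:ℝ)^u * 1 := by rw [mul_one]; exact hmU
        _ ≤ (2:ℝ)^u * (((2:ℝ)^u)^7 * (305 * A / (L * ((2:ℝ)^u) ^ 2040))) := by gcongr
        _ = (2:ℝ)^u * ((2:ℝ)^u)^7 * (305 * A / (L * ((2:ℝ)^u) ^ 2040)) := by rw [mul_assoc]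
        _ = _ := by rw [← pow_succ'])
    (by
      rw [hMcast]
      calc |(m':ℝ)| ≤ (2:ℝ)^u * 1 := by rw [mul_one]; exact hmU'
        _ ≤ (2:ℝ)^u * (((2:ℝ)^u)^7 * (305 * B / (L * ((2:ℝ)^u) ^ 2040))) := by gcongr
        _ = (2:ℝ)^u * ((2:ℝ)^u)^7 * (305 * B / (L * ((2:ℝ)^u) ^ 2040)) := by rw [mul_assoc]
        _ = _ := by rw [← pow_succ'])
    (by
      rw [hMcast]
      set R1 := (305 * A / (L * ((2:ℝ)^u) ^ 2040))
      set R2 := (305 * B / (L * ((2:ℝ)^u) ^ 2040))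
      calc |(m':ℝ)| * R1 + |(m:ℝ)| * R2 ≤ (2:ℝ)^u * R1 + (2:ℝ)^u * R2 := by gcongr
        _ = (2:ℝ)^u * (R1 + R2) := by ring
        _ ≤ (2:ℝ)^u * (((2:ℝ)^u)^7 * (2 * (A * B * ρ)) * (305 / (2:ℝ)^u)) := by gcongr
        _ = ((2:ℝ)^u)^7 * 305 * (2 * (A * B * ρ)) := by field_simp
        _ ≤ ((2:ℝ)^u)^8 * (2 * (A * B * ρ)) := by
          apply mul_le_mul_of_nonneg_right _ (by positivity)
          have h305 : (305:ℝ) ≤ (2:ℝ)^u := by
            have := K0_pos k (X1:ℝ) (by exact_mod_cast hX1)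
            linarith
          calc ((2:ℝ)^u)^7 * 305 ≤ ((2:ℝ)^u)^7 * (2:ℝ)^u := by gcongr
            _ = _ := by rw [← pow_succ])
    S (by
      intro s hs
      obtain ⟨v1, v2, v3, v4, v5, v6, v7, v8⟩ := hS s hs
      have e1 : ∀ n : ℤ, -(((tm s.1).c:ℝ) * ev (n • h0) (tx s.1)) = n * -((tm s.1).c * ev h0 (tx s.1)) := by
        intro n; rw [ev_smul]; ring
      have e2 : ∀ n : ℤ, ((tm s.1).a:ℝ) * ev (n • h0) (tx s.1) = n * ((tm s.1).a * ev h0 (tx s.1)) := by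
        intro n; rw [ev_smul]; ring
      rw [e1] at v2 v4
      rw [e2] at v3 v5
      rw [e1, e2, e1, e2] at v6
      rw [e1, e2] at v7 v8
      have h78 : ∀ n : ℤ, |(n:ℝ)| ≤ (2:ℝ)^u → |(n:ℝ)| / (((2 ^ (8 * u) : ℕ)) : ℝ) ≤ 1 / ((2:ℝ)^u)^7 := by
        intro n hn
        rw [hMcast, div_le_div_iff₀ (by positivity) (by positivity), one_mul]
        calc |(n:ℝ)| * ((2:ℝ)^u)^7 ≤ (2:ℝ)^u * ((2:ℝ)^u)^7 := by gcongr
          _ = _ := by rw [← pow_succ']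
      refine ⟨v1, v2, v3, v4, v5, v6, ?_, ?_⟩
      · rcases v7 with h | h
        · left; exact (h78 m hmU).trans h
        · right; exact (h78 m hmU).trans h
      · rcases v8 with h | h
        · left; exact (h78 m' hmU').trans h
        · right; exact (h78 m' hmU').trans h)
  refine hcount.trans ?_
  set Λ : ℝ := (L:ℝ) * ((2:ℝ)^u) ^ 2040 with hΛ
  set Q : ℝ := ((trs L X1 u α β).card : ℝ) + (((2 ^ (8 * u) : ℕ)) : ℝ) ^ 4 * ((L:ℝ)^2 * ((2:ℝ)^u)^4041)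
  have hmm0 : 0 ≤ 1 / (|(m:ℝ)| * |(m':ℝ)|) := by positivity
  calc 6 * 10 ^ 6 * (305 * A / Λ * (305 * B / Λ) * (2 * (A * B * ρ) + 1 / (|(m:ℝ)| * |(m':ℝ)|))) * Q
      ≤ 6 * 10 ^ 6 * (305 * A / Λ * (305 * B / Λ) * (2 * (A * B * ρ) + 1 / (|(m:ℝ)| * |(m':ℝ)|))) *
          (3 * 10 ^ 15 * (β - α) * Λ^2) := by
        apply mul_le_mul_of_nonneg_left htot
        positivity
    _ = (6 * 10^6 * 305^2 * 3 * 10^15) * ((β - α) * (A * B)) * (2 * (A * B * ρ) + 1 / (|(m:ℝ)| * |(m':ℝ)|)) := by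
        field_simp
    _ ≤ (6 * 10^6 * 305^2 * 3 * 10^15) * ((β - α) * (A * B)) * (2 * (A * B * ρ + 1 / (|(m:ℝ)| * |(m':ℝ)|))) := by
        apply mul_le_mul_of_nonneg_left _ (by positivity)
        linarith
    _ = (6 * 10^6 * 305^2 * 3 * 10^15 * 2) * ((β - α) * (A * B) * (A * B * ρ + 1 / (|(m:ℝ)| * |(m':ℝ)|))) := by
        ring
    _ ≤ 10 ^ 28 * ((β - α) * (A * B) * (A * B * ρ + 1 / (|(m:ℝ)| * |(m':ℝ)|))) := by
        apply mul_le_mul_of_nonneg_right _ (by positivity)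
        norm_num
    _ = _ := by ring

end MDiv
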