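import Mathlib
import Pool.Agent.Hhelper92.Mult.Near2
import Pool.Agent.Hhelper92.Mult.Latt

set_option autoImplicit false

/-!
Shapes, parameters and the count of close pairs of roots for two shapes.
-/

namespace MDiv

open Finset

variable {k : ℕ}

abbrev Shp (k : ℕ) := ℕ × (Fin k → ℕ)

def sg (s : Shp k) : ℕ := ∑ i, s.2 i

def MM (s : Shp k) : Fin (k+1) → ℕ := Fin.cons (s.1 - sg s) s.2

def TT (s : Shp k) : ℕ := s.1 + MM s 0

def Hk (k : ℕ) : ℕ := 40000 * (k + 1)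

lemma MM_zero (s : Shp k) : MM s 0 = s.1 - sg s := rfl

lemma MM_succ (s : Shp k) (i : Fin k) : MM s i.succ = s.2 i := rfl

lemma sum_MM_succ (s : Shp k) : ∑ i : Fin k, MM s i.succ = sg s := rfl

lemma sum_MM (s : Shp k) (hs : sg s ≤ s.1) : ∑ i, MM s i = s.1 := by
  rw [Fin.sum_univ_succ, sum_MM_succ, MM_zero]; omega

lemma TT_eq (s : Shp k) (hs : sg s ≤ s.1) : 2 * MM s 0 + sg s = TT s := by
  unfold TT; rw [MM_zero]; omega

/-- parameter choice satisfies all requirements -/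
lemma cfg_of {X1 κ u a b T σs σt τ : ℕ} {c0 δ α β ρ : ℝ} (hX1 : 1 ≤ X1) (hc0 : 0 < c0) (hc1 : c0 ≤ 1)
    (hκ : 1 ≤ c0 * 2 ^ κ) (hα : -(X1:ℝ) ≤ α) (hβ : β ≤ X1) (hδ : 0 < δ) (hδ' : δ ≤ β - α)
    (ha : 2 * a + σs = T) (hσs : σs ≤ u) (hb : 2 * b + σt + τ = T) (hσt : σt ≤ u) (hτ : τ ≤ u)
    (hT : 40000 * (k + 1) * u ≤ T) (hκu : κ ≤ u) (hu : 8 ≤ u)
    (hρ1 : 1 / 2 ^ (T + u) ≤ ρ) (hρ2 : ρ ≤ 2 / 2 ^ T) :
    Cfg k X1 u (2 ^ (T / 2 - 2041 * u)) c0 δ α β (2 ^ a) (2 ^ b) ρ := by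
  have hT2 : 40000 * u ≤ T := by
    refine le_trans ?_ hT
    apply Nat.mul_le_mul_right; omega
  have hL : (((2 ^ (T / 2 - 2041 * u) : ℕ)) : ℝ) = (2:ℝ) ^ (T / 2 - 2041 * u) := by push_cast; rfl
  have hU : ∀ n : ℕ, ((2:ℝ) ^ u) ^ n = 2 ^ (u * n) := fun n => by rw [← pow_mul]
  have hg : (2:ℝ) ^ (T / 2 - 2041 * u) * ((2:ℝ) ^ u) ^ 2040 = 2 ^ (T / 2 - u) := by
    rw [hU, ← pow_add]; congr 1; omega
  have hρ0 : 0 < ρ := lt_of_lt_of_le (by positivity) hρ1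
  have hc : ∀ n m : ℕ, n + κ ≤ m → (2:ℝ) ^ n ≤ c0 * 2 ^ m := by
    intro n m h
    calc (2:ℝ) ^ n ≤ (c0 * 2 ^ κ) * 2 ^ n := le_mul_of_one_le_left (by positivity) hκ
      _ = c0 * 2 ^ (n + κ) := by rw [pow_add]; ring
      _ ≤ c0 * 2 ^ m := by
        gcongr
        norm_num
  have hcρ : ∀ n m : ℕ, n + T + u ≤ m → (2:ℝ) ^ n ≤ 2 ^ m * ρ := by
    intro n m h
    calc (2:ℝ) ^ n = 2 ^ (n + T + u) * (1 / 2 ^ (T + u)) := by
          rw [show n + T + u = n + (T + u) by ring, pow_add]; field_simp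
      _ ≤ 2 ^ m * ρ := by
        gcongr
        norm_num
  refine ⟨hX1, hc0, hc1, hα, hβ, hδ, hδ', ?_, by positivity, by positivity, hρ0, ?_, ?_, ?_, ?_, ?_, ?_, ?_, ?_, ?_⟩
  · apply Nat.pow_le_pow_right (by norm_num)
    have h1 : 3000 * (6 * k + 1) * u + 2041 * u ≤ 20000 * (k + 1) * u := by
      have : 3000 * (6 * k + 1) * u + 2041 * u = (18000 * k + 5041) * u := by ring
      rw [this]
      apply Nat.mul_le_mul_right; omega
    have h2 : 40000 * (k + 1) * u = 2 * (20000 * (k + 1) * u) := by ring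
    rw [h2] at hT
    omega
  · rw [hL, hg, ← pow_mul]
    calc 8 * (2:ℝ) ^ ((T / 2 - u) * 2) * ρ ≤ 8 * (2:ℝ) ^ ((T / 2 - u) * 2) * (2 / 2 ^ T) := by gcongr
      _ = 2 ^ ((T / 2 - u) * 2 + 4) / 2 ^ T := by rw [pow_add]; ring
      _ ≤ 1 := by
        rw [div_le_one (by positivity)]
        apply pow_le_pow_right₀ (by norm_num)
        omega
  · rw [hU]; apply hc; omega
  · rw [hU]; apply hc; omega
  · rw [hL, hg, hU, mul_assoc, ← pow_add]; apply hc; omega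
  · rw [hL, hg, hU, mul_assoc, ← pow_add]; apply hc; omega
  · rw [hL, hg, hU]
    have := hcρ 0 (a + (T / 2 - u) + u * 6) (by omega)
    rw [pow_zero, pow_add, pow_add] at this
    linarith
  · rw [hL, hg, hU]
    have := hcρ 0 (b + (T / 2 - u) + u * 6) (by omega)
    rw [pow_zero, pow_add, pow_add] at this
    linarith
  · rw [hL, hU, ← pow_mul]
    have := hcρ (u * 2) (a + (T / 2 - 2041 * u) * 2) (by omega)
    rw [pow_add] at this
    linarith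
  · rw [hL, hU, ← pow_mul]
    have := hcρ (u * 2) (b + (T / 2 - 2041 * u) * 2) (by omega)
    rw [pow_add] at this
    linarith

lemma prop_decomp {h h' : Fin k → ℤ} (hh : h ≠ 0) (hh' : h' ≠ 0)
    (hdep : ¬ ∀ m m' : ℤ, m • h + m' • h' = 0 → m = 0 ∧ m' = 0) :
    ∃ (u v : ℤ) (e : Fin k → ℤ), u ≠ 0 ∧ v ≠ 0 ∧ IsCoprime u v ∧ h = u • e ∧ h' = v • e := by
  push Not at hdep
  obtain ⟨m, m', hmm, hne⟩ := hdep
  have hz : ∀ (n : ℤ) (g : Fin k → ℤ), g ≠ 0 → n • g = 0 → n = 0 := by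
    intro n g hg hng
    obtain ⟨i, hi⟩ : ∃ i, g i ≠ 0 := by
      by_contra hcon
      push Not at hcon
      exact hg (funext hcon)
    have := congrFun hng i
    rw [Pi.smul_apply, smul_eq_mul, Pi.zero_apply, mul_eq_zero] at this
    exact this.resolve_right hi
  have hm0 : m ≠ 0 := by
    intro h0
    have h1 := hne h0
    rw [h0, zero_smul, zero_add] at hmm
    exact h1 (hz m' h' hh' hmm)
  have hm0' : m' ≠ 0 := by
    intro h0
    rw [h0, zero_smul, add_zero] at hmm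
    exact hm0 (hz m h hh hmm)
  have hg : Int.gcd m m' ≠ 0 := by
    intro h0
    rw [Int.gcd_eq_zero_iff] at h0
    exact hm0 h0.1
  obtain ⟨m1, hm1⟩ := Int.gcd_dvd_left m m'
  obtain ⟨m2, hm2⟩ := Int.gcd_dvd_right m m'
  have hgz : (Int.gcd m m' : ℤ) ≠ 0 := by exact_mod_cast hg
  have hm1ne : m1 ≠ 0 := by intro h0; rw [h0, mul_zero] at hm1; exact hm0 hm1
  have hm2ne : m2 ≠ 0 := by intro h0; rw [h0, mul_zero] at hm2; exact hm0' hm2
  have hcop : IsCoprime m1 m2 := by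
    rw [Int.isCoprime_iff_gcd_eq_one]
    have h1 : Int.gcd m m' = Int.gcd m m' * Int.gcd m1 m2 := by
      calc Int.gcd m m' = Int.gcd ((Int.gcd m m' : ℤ) * m1) ((Int.gcd m m' : ℤ) * m2) := by
            rw [← hm1, ← hm2]
        _ = _ := by rw [Int.gcd_mul_left]; simp
    have h2 : Int.gcd m m' * 1 = Int.gcd m m' * Int.gcd m1 m2 := by rw [mul_one]; exact h1
    exact (Nat.eq_of_mul_eq_mul_left (Nat.pos_of_ne_zero hg) h2).symm
  have hsol : ∀ i, ∃ j, h i = (-m2) * j ∧ h' i = m1 * j := by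
    intro i
    apply coprime_solve (by simpa using hm2ne) hcop.symm.neg_left
    have h1 := congrFun hmm i
    rw [Pi.add_apply, Pi.smul_apply, Pi.smul_apply, smul_eq_mul, smul_eq_mul, Pi.zero_apply] at h1
    have h2 : (Int.gcd m m' : ℤ) * (m1 * h i + m2 * h' i) = 0 := by
      calc (Int.gcd m m' : ℤ) * (m1 * h i + m2 * h' i) = ((Int.gcd m m' : ℤ) * m1) * h i + ((Int.gcd m m' : ℤ) * m2) * h' i := by ring
        _ = 0 := by rw [← hm1, ← hm2]; exact h1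
    have h3 := (mul_eq_zero.mp h2).resolve_left hgz
    linarith
  choose e he1 he2 using hsol
  exact ⟨-m2, m1, e, by simpa using hm2ne, hm1ne, hcop.symm.neg_left, funext he1, funext he2⟩

end MDiv
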