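import Mathlib
import Pool.Agent.Hhelper92.Mult.Near

set_option autoImplicit false

/-!
Most points are well placed at a given level.
-/

namespace MDiv

open Finset MeasureTheory

lemma vol_cover {ι : Type*} (A : Set ℝ) (s : Finset ι) (c r : ι → ℝ) (hr : ∀ i ∈ s, 0 ≤ r i)
    (hA : ∀ x ∈ A, ∃ i ∈ s, |x - c i| ≤ r i) : volume A ≤ ENNReal.ofReal (∑ i ∈ s, 2 * r i) := by
  have h1 : A ⊆ ⋃ i ∈ s, Metric.closedBall (c i) (r i) := by
    intro x hx
    obtain ⟨i, hi, hxi⟩ := hA x hx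
    exact Set.mem_biUnion hi (by rw [Metric.mem_closedBall, Real.dist_eq]; exact hxi)
  calc volume A ≤ volume (⋃ i ∈ s, Metric.closedBall (c i) (r i)) := measure_mono h1
    _ ≤ ∑ i ∈ s, volume (Metric.closedBall (c i) (r i)) := measure_biUnion_finset_le _ _
    _ = ∑ i ∈ s, ENNReal.ofReal (2 * r i) := by
        apply Finset.sum_congr rfl
        intro i _
        rw [Real.volume_closedBall]
    _ = _ := (ENNReal.ofReal_sum_of_nonneg (fun i hi => by have := hr i hi; positivity)).symm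

/-- strict version of `Good` -/
def GoodS (Λ : ℕ) (x : ℝ) : Prop := ∃ g : M2, g.a * g.d - g.b * g.c = 1 ∧ 1 ≤ g.a ∧ g.a ≤ Λ ∧
  (Λ:ℤ) ≤ 100 * g.a ∧ 0 ≤ g.c ∧ g.c ≤ g.a ∧ |(g.a:ℝ) * x + g.b| ≤ 1 / Λ

lemma complete_matrix (a b : ℤ) (ha : 1 ≤ a) (hab : IsCoprime a b) :
    ∃ g : M2, g.a = a ∧ g.b = b ∧ g.a * g.d - g.b * g.c = 1 ∧ 0 ≤ g.c ∧ g.c ≤ g.a := by
  obtain ⟨u, v, huv⟩ := hab
  -- u a + v b = 1 ; want a d - b c = 1, c = -v mod a
  refine ⟨⟨a, b, (-v) % a, u - b * ((-v) / a)⟩, rfl, rfl, ?_, ?_, ?_⟩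
  · show a * (u - b * ((-v) / a)) - b * ((-v) % a) = 1
    have h1 := Int.emod_add_mul_ediv (-v) a
    linear_combination huv - b * h1
  · exact Int.emod_nonneg _ (by omega)
  · exact (Int.emod_lt_of_pos _ (by omega)).le

lemma not_goodS {Λ : ℕ} (hΛ : 0 < Λ) {x : ℝ} (hx : ¬ GoodS Λ x) :
    ∃ q : ℕ, ∃ p : ℤ, 1 ≤ q ∧ 100 * q < Λ ∧ |x - (p:ℝ) / q| ≤ 1 / (Λ * q) := by
  obtain ⟨r, hr1, hr2⟩ := Real.exists_rat_abs_sub_le_and_den_le x hΛ
  have hd : 0 < r.den := r.den_pos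
  have hd' : (0:ℝ) < r.den := by exact_mod_cast hd
  have hΛ' : (0:ℝ) < Λ := by exact_mod_cast hΛ
  have hrr : (r:ℝ) = (r.num:ℝ) / (r.den:ℝ) := by exact_mod_cast (Rat.num_div_den r).symm
  have h1 : |x - (r.num:ℝ) / (r.den:ℝ)| ≤ 1 / (Λ * r.den) := by
    rw [← hrr]
    refine hr1.trans ?_
    apply one_div_le_one_div_of_le (by positivity)
    gcongr
    linarith
  by_contra hcon
  push Not at hcon
  apply hx
  have h100 : Λ ≤ 100 * r.den := by
    by_contra h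
    push Not at h
    have := hcon r.den r.num (by omega) h
    linarith
  have hcop : IsCoprime (r.den : ℤ) (-r.num) := by
    have h2 := r.reduced
    have h3 : IsCoprime (r.num) (r.den : ℤ) := by
      rw [Int.isCoprime_iff_gcd_eq_one]
      exact h2
    exact h3.symm.neg_right
  obtain ⟨g, ha, hb, hdet, hc0, hca⟩ := complete_matrix (r.den) (-r.num) (by exact_mod_cast hd) hcop
  refine ⟨g, hdet, ?_, ?_, ?_, hc0, hca, ?_⟩
  · rw [ha]; exact_mod_cast hd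
  · rw [ha]; exact_mod_cast hr2
  · rw [ha]; exact_mod_cast h100
  · rw [ha, hb]
    push_cast
    have e : (r.den:ℝ) * x + -(r.num:ℝ) = r.den * (x - (r.num:ℝ)/r.den) := by field_simp; ring
    rw [e, abs_mul, abs_of_pos hd']
    calc (r.den:ℝ) * |x - (r.num:ℝ)/r.den| ≤ r.den * (1 / (Λ * r.den)) := by gcongr
      _ = _ := by field_simp

lemma harmonic_le (D0 N : ℕ) (hD0 : 0 < D0) : ∑ q ∈ Finset.Icc 1 N, (1:ℝ) / q ≤ D0 + N / D0 := by
  have hD0' : (0:ℝ) < D0 := by exact_mod_cast hD0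
  calc ∑ q ∈ Finset.Icc 1 N, (1:ℝ) / q ≤ ∑ q ∈ Finset.Icc 1 N, ((if q ≤ D0 then 1 else 0) + 1 / (D0:ℝ)) := by
        apply Finset.sum_le_sum
        intro q hq
        rw [Finset.mem_Icc] at hq
        have hq1 : (1:ℝ) ≤ q := by exact_mod_cast hq.1
        split_ifs with h
        · have : 1 / (q:ℝ) ≤ 1 := by rw [div_le_one (by linarith)]; exact hq1
          have : 0 ≤ 1 / (D0:ℝ) := by positivity
          linarith
        · rw [zero_add]
          apply one_div_le_one_div_of_le hD0'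
          exact_mod_cast (by omega : D0 ≤ q)
    _ = (((Finset.Icc 1 N).filter (fun q => q ≤ D0)).card : ℝ) + N * (1 / D0) := by
        rw [Finset.sum_add_distrib, Finset.sum_const, Nat.card_Icc, nsmul_eq_mul, ← Finset.sum_filter,
          Finset.sum_const, nsmul_eq_mul, mul_one]
        simp
    _ ≤ D0 + N / D0 := by
        have h1 : ((Finset.Icc 1 N).filter (fun q => q ≤ D0)).card ≤ D0 := by
          calc ((Finset.Icc 1 N).filter (fun q => q ≤ D0)).card ≤ (Finset.Icc 1 D0).card := by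
                apply Finset.card_le_card
                intro q hq
                rw [Finset.mem_filter, Finset.mem_Icc] at hq
                rw [Finset.mem_Icc]; exact ⟨hq.1.1, hq.2⟩
            _ = D0 := by rw [Nat.card_Icc]; omega
        have h2 : (((Finset.Icc 1 N).filter (fun q => q ≤ D0)).card : ℝ) ≤ D0 := by exact_mod_cast h1
        have h3 : (N:ℝ) * (1 / D0) = N / D0 := by ring
        rw [h3]; linarith

lemma card_int_range (x y : ℝ) (hxy : x ≤ y) : ((Finset.Icc ⌈x⌉ ⌊y⌋).card : ℝ) ≤ y - x + 1 := by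
  rw [Int.card_Icc]
  have h1 := Int.le_ceil x
  have h2 := Int.floor_le y
  have h3 : (((⌊y⌋ + 1 - ⌈x⌉).toNat : ℤ) : ℝ) ≤ y - x + 1 := by
    rw [Int.toNat_eq_max]
    push_cast
    apply max_le
    · linarith
    · linarith
  exact_mod_cast h3

theorem bad_level (α β : ℝ) (hαβ : α < β) : ∃ Λ0 : ℕ, ∀ Λ : ℕ, Λ0 ≤ Λ →
    volume {x : ℝ | α ≤ x ∧ x ≤ β ∧ ¬ GoodS Λ x} ≤ ENNReal.ofReal ((β - α) / 25) := by
  set δ := β - α with hδ
  have hδ0 : 0 < δ := by rw [hδ]; linarith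
  obtain ⟨D0, hD0⟩ := exists_nat_gt (6 / δ)
  have hD0p : (0:ℝ) < D0 := lt_trans (by positivity) hD0
  obtain ⟨Λ0, hΛ0⟩ := exists_nat_gt (600 * D0 / δ)
  refine ⟨Λ0, fun Λ hΛ => ?_⟩
  have hΛr : 600 * (D0:ℝ) / δ < Λ := lt_of_lt_of_le hΛ0 (by exact_mod_cast hΛ)
  have hΛp : (0:ℝ) < Λ := lt_trans (by positivity) hΛr
  have hΛp' : 0 < Λ := by exact_mod_cast hΛp
  set s : Finset (Σ _ : ℕ, ℤ) := (Finset.Icc 1 (Λ / 100)).sigma (fun q => Finset.Icc ⌈(q:ℝ) * α - 1⌉ ⌊(q:ℝ) * β + 1⌋) with hs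
  have hcov := vol_cover {x : ℝ | α ≤ x ∧ x ≤ β ∧ ¬ GoodS Λ x} s (fun i => (i.2:ℝ) / (i.1:ℝ))
    (fun i => 1 / ((Λ:ℝ) * i.1)) (fun i _ => by positivity) (by
      rintro x ⟨h1, h2, h3⟩
      obtain ⟨q, p, hq1, hq2, hqp⟩ := not_goodS hΛp' h3
      have hq1' : (1:ℝ) ≤ q := by exact_mod_cast hq1
      have hΛ1 : (1:ℝ) ≤ Λ := by exact_mod_cast hΛp'
      refine ⟨⟨q, p⟩, ?_, hqp⟩
      rw [hs, Finset.mem_sigma, Finset.mem_Icc, Finset.mem_Icc, Int.ceil_le, Int.le_floor]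
      have hqx : |(q:ℝ) * x - p| ≤ 1 := by
        have e : (q:ℝ) * x - p = q * (x - p / q) := by field_simp
        rw [e, abs_mul, abs_of_pos (by linarith : (0:ℝ) < q)]
        calc (q:ℝ) * |x - p / q| ≤ q * (1 / (Λ * q)) := by gcongr
          _ = 1 / Λ := by field_simp
          _ ≤ 1 := by rw [div_le_one hΛp]; exact hΛ1
      rw [abs_le] at hqx
      refine ⟨⟨hq1, (by show q ≤ Λ / 100; omega)⟩, ?_, ?_⟩
      · show (q:ℝ) * α - 1 ≤ p
        have : (q:ℝ) * α ≤ q * x := by gcongr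
        linarith
      · show (p:ℝ) ≤ (q:ℝ) * β + 1
        have : (q:ℝ) * x ≤ q * β := by gcongr
        linarith)
  refine hcov.trans (ENNReal.ofReal_le_ofReal ?_)
  rw [hs, Finset.sum_sigma]
  calc ∑ q ∈ Finset.Icc 1 (Λ / 100), ∑ _p ∈ Finset.Icc ⌈(q:ℝ) * α - 1⌉ ⌊(q:ℝ) * β + 1⌋, 2 * (1 / ((Λ:ℝ) * q))
      ≤ ∑ q ∈ Finset.Icc 1 (Λ / 100), (2 * δ / Λ + 6 / Λ * (1 / q)) := by
        apply Finset.sum_le_sum
        intro q hq
        rw [Finset.mem_Icc] at hq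
        have hq1 : (1:ℝ) ≤ q := by exact_mod_cast hq.1
        rw [Finset.sum_const, nsmul_eq_mul]
        have h1 := card_int_range ((q:ℝ) * α - 1) ((q:ℝ) * β + 1) (by nlinarith)
        have h2 : (q:ℝ) * β + 1 - ((q:ℝ) * α - 1) + 1 = q * δ + 3 := by rw [hδ]; ring
        rw [h2] at h1
        calc _ ≤ ((q:ℝ) * δ + 3) * (2 * (1 / ((Λ:ℝ) * q))) := by gcongr
          _ = _ := by field_simp; ring
    _ = ((Λ / 100 : ℕ) : ℝ) * (2 * δ / Λ) + 6 / Λ * ∑ q ∈ Finset.Icc 1 (Λ / 100), (1:ℝ) / q := by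
        rw [Finset.sum_add_distrib, Finset.sum_const, Nat.card_Icc, nsmul_eq_mul, Finset.mul_sum]
        simp
    _ ≤ (Λ / 100) * (2 * δ / Λ) + 6 / Λ * (D0 + (Λ / 100) / D0) := by
        have h1 : ((Λ / 100 : ℕ) : ℝ) ≤ (Λ:ℝ) / 100 := by
          have := Nat.cast_div_le (α := ℝ) (m := Λ) (n := 100)
          simpa using this
        have h2 := harmonic_le D0 (Λ / 100) (by exact_mod_cast hD0p)
        gcongr
        refine h2.trans ?_
        gcongr
    _ = δ / 50 + 6 * D0 / Λ + 6 / (100 * D0) := by field_simp; ring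
    _ ≤ δ / 25 := by
        have h1 : 6 * (D0:ℝ) / Λ ≤ δ / 100 := by
          rw [div_le_div_iff₀ hΛp (by norm_num)]
          rw [div_lt_iff₀ hδ0] at hΛr
          linarith
        have h2 : 6 / (100 * (D0:ℝ)) ≤ δ / 100 := by
          rw [div_le_div_iff₀ (by positivity) (by norm_num)]
          rw [div_lt_iff₀ hδ0] at hD0
          linarith
        linarith

end MDiv
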