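import Mathlib
import Pool.Agent.Hhelper92.Mult.Poly
import Pool.Agent.Hhelper92.Mult.Farey
import Pool.Agent.Hhelper92.Mult.Ubi1

set_option autoImplicit false

/-!
Pigeonhole, root finding, separated sets and measure of exceptional sets.
-/

namespace MDiv

open Finset MeasureTheory

variable {k : ℕ}

/-- the tail of a coefficient vector -/
def tl (w : Fin (k+1) → ℤ) : Fin k → ℤ := fun i => w i.succ

/-- the polynomial without constant term attached to `w` -/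
noncomputable def G (w : Fin (k+1) → ℤ) (x : ℝ) : ℝ := (w 0 : ℝ) * x + ev (tl w) x

def RootOK (M : Fin (k+1) → ℕ) (c0 : ℝ) (w : Fin (k+1) → ℤ) (a0 : ℤ) (x : ℝ) : Prop :=
  (w 0 : ℝ) * x + a0 + ev (tl w) x = 0 ∧ (∀ i, |(w i : ℝ)| ≤ 2 ^ (M i)) ∧
    (∀ i, c0 * 2 ^ (M i) ≤ |(w i : ℝ)|)

lemma G_sub (w w' : Fin (k+1) → ℤ) (x : ℝ) : G (w - w') x = G w x - G w' x := by
  unfold G ev tl
  rw [add_sub_add_comm, ← Finset.sum_sub_distrib]
  simp only [Pi.sub_apply]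
  push_cast
  congr 1
  · ring
  · apply Finset.sum_congr rfl; intro i _; ring

lemma continuous_ev (h : Fin k → ℤ) : Continuous (ev h) := by
  unfold ev
  fun_prop

lemma dirichlet_poly (M : Fin (k+1) → ℕ) (ξ : ℝ) :
    ∃ w : Fin (k+1) → ℤ, w ≠ 0 ∧ (∀ i, |w i| ≤ 2 ^ (M i)) ∧ ∃ a0 : ℤ, |G w ξ + a0| < 1 / 2 ^ (∑ i, M i) := by
  classical
  set L := ∑ i, M i with hL
  set S : Finset (Fin (k+1) → ℤ) := Fintype.piFinset (fun i => Finset.Icc (0:ℤ) (2 ^ (M i))) with hS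
  have hcard : (Finset.range (2 ^ L)).card < S.card := by
    rw [Finset.card_range, hS, Fintype.card_piFinset]
    have h1 : ∀ i, (Finset.Icc (0:ℤ) (2 ^ (M i))).card = 2 ^ (M i) + 1 := by
      intro i
      have : ((2:ℤ) ^ (M i)) = ((2 ^ (M i) : ℕ) : ℤ) := by push_cast; rfl
      rw [this, Int.card_Icc]
      generalize (2 ^ (M i) : ℕ) = n
      omega
    simp only [h1]
    rw [hL, ← Finset.prod_pow_eq_pow_sum, Fin.prod_univ_succ, Fin.prod_univ_succ]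
    have h2 : ∏ i : Fin k, 2 ^ (M i.succ) ≤ ∏ i : Fin k, (2 ^ (M i.succ) + 1) :=
      Finset.prod_le_prod (fun _ _ => Nat.zero_le _) (fun i _ => by omega)
    have h3 : 0 < ∏ i : Fin k, 2 ^ (M i.succ) := Finset.prod_pos (fun i _ => by positivity)
    calc 2 ^ (M 0) * ∏ i : Fin k, 2 ^ (M i.succ) < (2 ^ (M 0) + 1) * ∏ i : Fin k, 2 ^ (M i.succ) := by
          nlinarith
      _ ≤ _ := Nat.mul_le_mul_left _ h2
  have hmaps : ∀ w ∈ S, ⌊(2:ℝ) ^ L * Int.fract (G w ξ)⌋₊ ∈ Finset.range (2 ^ L) := by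
    intro w _
    rw [Finset.mem_range, Nat.floor_lt (by have := Int.fract_nonneg (G w ξ); positivity)]
    push_cast
    have h1 := Int.fract_lt_one (G w ξ)
    have h2 : (0:ℝ) < 2 ^ L := by positivity
    nlinarith
  obtain ⟨w, hw, w', hw', hne, heq⟩ := Finset.exists_ne_map_eq_of_card_lt_of_maps_to hcard hmaps
  refine ⟨w - w', sub_ne_zero.mpr hne, ?_, -(⌊G w ξ⌋ - ⌊G w' ξ⌋), ?_⟩
  · intro i
    rw [hS, Fintype.mem_piFinset] at hw hw'
    have h1 := hw i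
    have h2 := hw' i
    rw [Finset.mem_Icc] at h1 h2
    rw [Pi.sub_apply, abs_le]
    constructor <;> linarith [h1.1, h1.2, h2.1, h2.2]
  · rw [G_sub]
    push_cast
    have e : G w ξ - G w' ξ + -((⌊G w ξ⌋:ℝ) - ⌊G w' ξ⌋) = Int.fract (G w ξ) - Int.fract (G w' ξ) := by
      unfold Int.fract; ring
    rw [e]
    have h2 : (0:ℝ) < 2 ^ L := by positivity
    rw [lt_div_iff₀ h2]
    have a1 := Nat.floor_le (show 0 ≤ (2:ℝ) ^ L * Int.fract (G w ξ) by have := Int.fract_nonneg (G w ξ); positivity)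
    have a2 := Nat.lt_floor_add_one ((2:ℝ) ^ L * Int.fract (G w ξ))
    have a3 := Nat.floor_le (show 0 ≤ (2:ℝ) ^ L * Int.fract (G w' ξ) by have := Int.fract_nonneg (G w' ξ); positivity)
    have a4 := Nat.lt_floor_add_one ((2:ℝ) ^ L * Int.fract (G w' ξ))
    rw [heq] at a1 a2
    have e2 : |Int.fract (G w ξ) - Int.fract (G w' ξ)| * 2 ^ L =
        |(2:ℝ) ^ L * Int.fract (G w ξ) - 2 ^ L * Int.fract (G w' ξ)| := by
      rw [← mul_sub, abs_mul, abs_of_pos h2, mul_comm]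
    rw [e2, abs_lt]
    constructor <;> linarith

lemma G_lip {w : Fin (k+1) → ℤ} {V X0 x y : ℝ} (hV0 : 0 ≤ V) (hV : ∀ i, |(tl w i : ℝ)| ≤ V)
    (hX : 1 ≤ X0) (hx : |x| ≤ X0) (hy : |y| ≤ X0) (ha : 2 * (K0 k X0 * V) ≤ |(w 0 : ℝ)|) :
    |(w 0 : ℝ)| * |x - y| / 2 ≤ |G w x - G w y| ∧ |G w x - G w y| ≤ 2 * |(w 0 : ℝ)| * |x - y| := by
  have h1 := ev_sub_le hV0 hV hX hy hx
  have h2 : K0 k X0 * V * |x - y| ≤ |(w 0 : ℝ)| / 2 * |x - y| := by
    gcongr
    linarith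
  have e : G w x - G w y = w 0 * (x - y) + (ev (tl w) x - ev (tl w) y) := by unfold G; ring
  have h3 : |(w 0 : ℝ) * (x - y)| = |(w 0 : ℝ)| * |x - y| := abs_mul _ _
  have h0 : 0 ≤ |(w 0 : ℝ)| * |x - y| := by positivity
  constructor
  · have h4 : |(w 0 : ℝ) * (x - y)| ≤ |G w x - G w y| + |ev (tl w) x - ev (tl w) y| := by
      have e2 : (w 0 : ℝ) * (x - y) = (G w x - G w y) - (ev (tl w) x - ev (tl w) y) := by rw [e]; ring
      rw [e2]; exact abs_sub _ _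
    rw [h3] at h4
    linarith
  · rw [e]
    calc _ ≤ |(w 0 : ℝ) * (x - y)| + |ev (tl w) x - ev (tl w) y| := abs_add_le _ _
      _ ≤ _ := by rw [h3]; linarith

lemma root_near {w : Fin (k+1) → ℤ} {a0 : ℤ} {V X0 ξ ε : ℝ} (hV0 : 0 ≤ V) (hV : ∀ i, |(tl w i : ℝ)| ≤ V)
    (hX : 1 ≤ X0) (ha : 2 * (K0 k X0 * V) ≤ |(w 0 : ℝ)|) (ha0 : w 0 ≠ 0) (hε : 0 < ε)
    (hξ : |ξ| + 2 * ε / |(w 0 : ℝ)| ≤ X0) (h : |G w ξ + a0| ≤ ε) :
    ∃ x, (w 0 : ℝ) * x + a0 + ev (tl w) x = 0 ∧ |x - ξ| ≤ 2 * ε / |(w 0 : ℝ)| := by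
  have hap : 0 < |(w 0 : ℝ)| := by rw [abs_pos]; exact_mod_cast ha0
  set r := 2 * ε / |(w 0 : ℝ)| with hr
  have hr0 : 0 < r := by positivity
  set f : ℝ → ℝ := fun x => (w 0 : ℝ) * x + a0 + ev (tl w) x with hf
  have hfc : Continuous f := by
    rw [hf]
    have := continuous_ev (tl w)
    fun_prop
  have hfG : ∀ x, f x = G w x + a0 := by intro x; rw [hf]; unfold G; ring
  have hξ' : |ξ| ≤ X0 := by linarith
  have hx1 : |ξ + r| ≤ X0 := by
    calc |ξ + r| ≤ |ξ| + |r| := abs_add_le _ _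
      _ ≤ X0 := by rw [abs_of_pos hr0]; exact hξ
  have hx2 : |ξ - r| ≤ X0 := by
    calc |ξ - r| ≤ |ξ| + |r| := abs_sub _ _
      _ ≤ X0 := by rw [abs_of_pos hr0]; exact hξ
  have h1 := ev_sub_le hV0 hV hX hξ' hx1
  have h2 := ev_sub_le hV0 hV hX hξ' hx2
  have e1 : |ξ + r - ξ| = r := by rw [add_sub_cancel_left, abs_of_pos hr0]
  have e2 : |ξ - r - ξ| = r := by rw [show ξ - r - ξ = -r by ring, abs_neg, abs_of_pos hr0]
  rw [e1] at h1
  rw [e2] at h2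
  have h3 : K0 k X0 * V * r ≤ ε := by
    calc K0 k X0 * V * r ≤ (|(w 0 : ℝ)| / 2) * r := by gcongr; linarith
      _ = ε := by rw [hr]; field_simp
  have h4 : |(w 0 : ℝ)| * r = 2 * ε := by rw [hr]; field_simp
  have h5 : |f ξ| ≤ ε := by rw [hfG]; exact h
  rw [abs_le] at h1 h2 h5
  have d1 : f (ξ + r) = f ξ + w 0 * r + (ev (tl w) (ξ + r) - ev (tl w) ξ) := by rw [hf]; ring
  have d2 : f (ξ - r) = f ξ - w 0 * r + (ev (tl w) (ξ - r) - ev (tl w) ξ) := by rw [hf]; ring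
  have hle : ξ - r ≤ ξ + r := by linarith
  have hgoal : ∃ x ∈ Set.Icc (ξ - r) (ξ + r), f x = 0 := by
    rcases lt_or_gt_of_ne ha0 with hneg | hpos
    · have hneg' : (w 0 : ℝ) < 0 := by exact_mod_cast hneg
      rw [abs_of_neg hneg'] at h4
      have := intermediate_value_Icc' hle hfc.continuousOn
      obtain ⟨x, hx, hx0⟩ := this (show (0:ℝ) ∈ Set.Icc (f (ξ + r)) (f (ξ - r)) by
        constructor
        · rw [d1]; linarith [h1.1, h1.2, h5.1, h5.2]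
        · rw [d2]; linarith [h2.1, h2.2, h5.1, h5.2])
      exact ⟨x, hx, hx0⟩
    · have hpos' : (0:ℝ) < w 0 := by exact_mod_cast hpos
      rw [abs_of_pos hpos'] at h4
      have := intermediate_value_Icc hle hfc.continuousOn
      obtain ⟨x, hx, hx0⟩ := this (show (0:ℝ) ∈ Set.Icc (f (ξ - r)) (f (ξ + r)) by
        constructor
        · rw [d2]; linarith [h2.1, h2.2, h5.1, h5.2]
        · rw [d1]; linarith [h1.1, h1.2, h5.1, h5.2])
      exact ⟨x, hx, hx0⟩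
  obtain ⟨x, hx, hx0⟩ := hgoal
  refine ⟨x, hx0, ?_⟩
  rw [abs_le]
  constructor <;> linarith [hx.1, hx.2]

lemma exists_sep (X : Set ℝ) (α β σ : ℝ) (hσ : 0 < σ) (hX : ∀ x ∈ X, α ≤ x ∧ x ≤ β) :
    ∃ R : Finset ℝ, (∀ x ∈ R, x ∈ X) ∧ (∀ x ∈ R, ∀ y ∈ R, |x - y| < σ → x = y) ∧
      ∀ x ∈ X, ∃ y ∈ R, |x - y| < σ := by
  classical
  rcases X.eq_empty_or_nonempty with hemp | ⟨x0, hx0⟩
  · refine ⟨∅, ?_, ?_, ?_⟩
    · intro x hx; simp at hx
    · intro x hx; simp at hx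
    · intro x hx; rw [hemp] at hx; exact absurd hx (Set.notMem_empty x)
  have hαβ : α ≤ β := (hX x0 hx0).1.trans (hX x0 hx0).2
  set P : ℕ → Prop := fun n => ∃ R : Finset ℝ, (∀ x ∈ R, x ∈ X) ∧ (∀ x ∈ R, ∀ y ∈ R, |x - y| < σ → x = y) ∧
    R.card = n with hP
  have hbd : ∀ n, P n → n ≤ ⌊(β - α) / σ + 1⌋₊ := by
    rintro n ⟨R, hR1, hR2, rfl⟩
    apply Nat.le_floor
    exact card_sep_real R α (β - α) σ hσ (fun x hx => by
      have := hX x (hR1 x hx)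
      constructor <;> linarith [this.1, this.2]) (by linarith) hR2
  have h0 : P 0 := ⟨∅, by simp, by simp, rfl⟩
  have hsp : P (Nat.findGreatest P ⌊(β - α) / σ + 1⌋₊) := Nat.findGreatest_spec (Nat.zero_le _) h0
  obtain ⟨R, hR1, hR2, hR3⟩ := hsp
  refine ⟨R, hR1, hR2, ?_⟩
  intro x hx
  by_contra hcon
  push Not at hcon
  have hxR : x ∉ R := by
    intro h
    have := hcon x h
    rw [sub_self, abs_zero] at this
    linarith
  have hP1 : P (Nat.findGreatest P ⌊(β - α) / σ + 1⌋₊ + 1) := by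
    refine ⟨insert x R, ?_, ?_, ?_⟩
    · intro y hy
      rw [Finset.mem_insert] at hy
      rcases hy with rfl | hy
      · exact hx
      · exact hR1 y hy
    · intro y hy z hz hyz
      rw [Finset.mem_insert] at hy hz
      rcases hy with rfl | hy
      · rcases hz with rfl | hz
        · rfl
        · have := hcon z hz
          linarith
      · rcases hz with rfl | hz
        · have := hcon y hy
          rw [abs_sub_comm] at this
          linarith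
        · exact hR2 y hy z hz hyz
    · rw [Finset.card_insert_of_notMem hxR, hR3]
  have h1 := hbd _ hP1
  have h2 := Nat.le_findGreatest h1 hP1
  omega

lemma sublevel_G (w : Fin (k+1) → ℤ) (hw : w ≠ 0) (u : ℤ) :
    ∃ Z : Finset ℝ, Z.card ≤ k + 1 ∧ ∀ τ : ℝ, 0 < τ → τ ≤ 1 → ∀ x : ℝ,
      ((k+2).factorial : ℝ) * |G w x + u| < τ ^ (k+1) → ∃ z ∈ Z, |x - z| < τ := by
  set N : ℕ := (k+2).factorial with hN
  have hNpos : 0 < N := Nat.factorial_pos _
  obtain ⟨cf, hdvd⟩ : ∃ cf : ℕ → ℕ, ∀ j : ℕ, 1 ≤ j → j ≤ k + 2 → (cf j) * j = N ∧ 0 < cf j := by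
    refine ⟨fun j => N / j, ?_⟩
    intro j h1 h2
    have h3 : j ∣ N := Nat.dvd_factorial h1 h2
    refine ⟨Nat.div_mul_cancel h3, Nat.div_pos (Nat.le_of_dvd hNpos h3) h1⟩
  set ht : Fin (k+1) → ℤ := fun i => ((cf ((i:ℕ) + 2) : ℕ) : ℤ) * w i with hht
  -- relation: ev' ht x would have coefficients N * w i on x^(i+1)
  have hne : ht ≠ 0 := by
    intro h0
    apply hw
    funext i
    have h1 := congrFun h0 i
    rw [hht] at h1
    simp only [Pi.zero_apply] at h1 ⊢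
    have hi := i.isLt
    have h2 := (hdvd ((i:ℕ)+2) (by omega) (by omega)).2
    rcases mul_eq_zero.mp h1 with h3 | h3
    · have : cf ((i:ℕ)+2) = 0 := by exact_mod_cast h3
      omega
    · exact h3
  obtain ⟨Z, hZ1, hZ2⟩ := sublevel ht hne (-(N:ℤ) * u)
  refine ⟨Z, hZ1, fun τ hτ0 hτ1 x hx => hZ2 τ hτ0 hτ1 x ?_⟩
  have e : ev' ht x - ((-(N:ℤ) * u : ℤ) : ℝ) = N * (G w x + u) := by
    have e1 : ev' ht x = N * G w x := by
      unfold ev' G ev tl
      rw [Fin.sum_univ_succ, mul_add, Finset.mul_sum]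
      congr 1
      · have h2 := (hdvd 2 (by omega) (by omega)).1
        have h2' : ((cf 2 : ℕ) : ℝ) * 2 = N := by exact_mod_cast h2
        rw [hht]
        simp only [Fin.val_zero, zero_add]
        push_cast
        rw [pow_one]
        linear_combination (w 0 : ℝ) * x * h2'
      · apply Finset.sum_congr rfl
        intro i _
        have hi := i.isLt
        have h2 := (hdvd ((i:ℕ) + 1 + 2) (by omega) (by omega)).1
        have h2' : ((cf ((i:ℕ) + 1 + 2) : ℕ) : ℝ) * (((i:ℕ) + 1 + 2 : ℕ) : ℝ) = N := by exact_mod_cast h2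
        rw [hht]
        simp only [Fin.val_succ]
        rw [show (i:ℕ) + 1 + 1 = (i:ℕ) + 2 by ring]
        push_cast at h2' ⊢
        linear_combination (w i.succ : ℝ) * x ^ ((i:ℕ) + 2) * h2'
    rw [e1]; push_cast; ring
  rw [e, abs_mul, abs_of_nonneg (by positivity : (0:ℝ) ≤ N)]
  exact hx

end MDiv
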