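import Mathlib
import Pool.Agent.Hhelper92.Mult.Ubi2

set_option autoImplicit false

/-!
Measure of the set of points where a polynomial with a small coefficient is small.
-/

namespace MDiv

open Finset MeasureTheory

variable {k : ℕ}

def Aset (α β ε : ℝ) (w : Fin (k+1) → ℤ) : Set ℝ := {x | α ≤ x ∧ x ≤ β ∧ ∃ a0 : ℤ, |G w x + a0| < ε}

lemma vol_A_sub {α β ε : ℝ} (w : Fin (k+1) → ℤ) (hw : w ≠ 0) (Bd τ : ℝ) (hBd0 : 0 ≤ Bd)
    (hBd : ∀ x, α ≤ x → x ≤ β → |G w x| ≤ Bd) (hτ0 : 0 < τ) (hτ1 : τ ≤ 1)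
    (hN : ((k+2).factorial : ℝ) * ε ≤ τ ^ (k+1)) (hε : ε ≤ 1) :
    volume (Aset α β ε w) ≤ ENNReal.ofReal ((2 * Bd + 3) * ((k:ℝ) + 1) * (2 * τ)) := by
  classical
  choose Z hZ1 hZ2 using sublevel_G w hw
  set s : Finset (Σ _ : ℤ, ℝ) := (Finset.Icc ⌈-Bd - 1⌉ ⌊Bd + 1⌋).sigma (fun u => Z u) with hs
  have hcov := vol_cover (Aset α β ε w) s (fun i => i.2) (fun _ => τ) (fun _ _ => hτ0.le) (by
    rintro x ⟨h1, h2, a0, h3⟩
    have hNp : (0:ℝ) < ((k+2).factorial : ℝ) := by exact_mod_cast Nat.factorial_pos _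
    obtain ⟨z, hz, hxz⟩ := hZ2 a0 τ hτ0 hτ1 x (by
      calc ((k+2).factorial : ℝ) * |G w x + a0| < ((k+2).factorial : ℝ) * ε := by gcongr
        _ ≤ _ := hN)
    refine ⟨⟨a0, z⟩, ?_, hxz.le⟩
    rw [hs, Finset.mem_sigma, Finset.mem_Icc, Int.ceil_le, Int.le_floor]
    have h4 := hBd x h1 h2
    rw [abs_le] at h4
    rw [abs_lt] at h3
    refine ⟨⟨?_, ?_⟩, hz⟩
    · show -Bd - 1 ≤ (a0:ℝ)
      linarith
    · show (a0:ℝ) ≤ Bd + 1
      linarith)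
  refine hcov.trans (ENNReal.ofReal_le_ofReal ?_)
  rw [hs, Finset.sum_sigma]
  calc ∑ u ∈ Finset.Icc ⌈-Bd - 1⌉ ⌊Bd + 1⌋, ∑ _z ∈ Z u, 2 * τ ≤
      ∑ _u ∈ Finset.Icc ⌈-Bd - 1⌉ ⌊Bd + 1⌋, ((k:ℝ) + 1) * (2 * τ) := by
        apply Finset.sum_le_sum
        intro u _
        rw [Finset.sum_const, nsmul_eq_mul]
        have : ((Z u).card : ℝ) ≤ (k:ℝ) + 1 := by exact_mod_cast hZ1 u
        gcongr
    _ = ((Finset.Icc ⌈-Bd - 1⌉ ⌊Bd + 1⌋).card : ℝ) * (((k:ℝ) + 1) * (2 * τ)) := by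
        rw [Finset.sum_const, nsmul_eq_mul]
    _ ≤ (2 * Bd + 3) * (((k:ℝ) + 1) * (2 * τ)) := by
        have h1 := card_int_range (-Bd - 1) (Bd + 1) (by linarith)
        have h2 : Bd + 1 - (-Bd - 1) + 1 = 2 * Bd + 3 := by ring
        rw [h2] at h1
        gcongr
    _ = _ := by ring

lemma vol_A_mono {α β ε V X0 : ℝ} (w : Fin (k+1) → ℤ) (hV0 : 0 ≤ V) (hV : ∀ i, |(tl w i : ℝ)| ≤ V)
    (hX : 1 ≤ X0) (hα : -X0 ≤ α) (hαβ : α < β) (hβ : β ≤ X0) (ha : 2 * (K0 k X0 * V) ≤ |(w 0 : ℝ)|)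
    (ha2 : 24 / (β - α) ≤ |(w 0 : ℝ)|) (hε0 : 0 < ε) (hε : ε ≤ 1) :
    volume (Aset α β ε w) ≤ ENNReal.ofReal (33 * ε * (β - α)) := by
  classical
  set δ := β - α with hδ
  have hδ0 : 0 < δ := by rw [hδ]; linarith
  have hap : 0 < |(w 0 : ℝ)| := lt_of_lt_of_le (by positivity) ha2
  set s : Finset ℤ := Finset.Icc ⌈-G w α - 2 * |(w 0 : ℝ)| * δ - 1⌉ ⌊-G w α + 2 * |(w 0 : ℝ)| * δ + 1⌋ with hs
  have hex : ∀ a0 : ℤ, ∃ c : ℝ, (∃ x, α ≤ x ∧ x ≤ β ∧ |G w x + a0| < ε) → (α ≤ c ∧ c ≤ β ∧ |G w c + a0| < ε) := by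
    intro a0
    by_cases h : ∃ x, α ≤ x ∧ x ≤ β ∧ |G w x + a0| < ε
    · obtain ⟨x, hx⟩ := h
      exact ⟨x, fun _ => hx⟩
    · exact ⟨0, fun h' => absurd h' h⟩
  choose c hc using hex
  have habs : ∀ x, α ≤ x → x ≤ β → |x| ≤ X0 := by
    intro x h1 h2; rw [abs_le]; constructor <;> linarith
  have hcov := vol_cover (Aset α β ε w) s c (fun _ => 4 * ε / |(w 0 : ℝ)|) (fun _ _ => by positivity) (by
    rintro x ⟨h1, h2, a0, h3⟩
    have hcx := hc a0 ⟨x, h1, h2, h3⟩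
    obtain ⟨c1, c2, c3⟩ := hcx
    refine ⟨a0, ?_, ?_⟩
    · rw [hs, Finset.mem_Icc, Int.ceil_le, Int.le_floor]
      have h4 := (G_lip hV0 hV hX (habs x h1 h2) (habs α le_rfl hαβ.le) ha).2
      have h5 : 2 * |(w 0 : ℝ)| * |x - α| ≤ 2 * |(w 0 : ℝ)| * δ := by
        have : |x - α| ≤ δ := by rw [abs_of_nonneg (by linarith), hδ]; linarith
        gcongr
      have h6 := h4.trans h5
      rw [abs_le] at h6
      rw [abs_lt] at h3
      constructor <;> linarith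
    · have h4 := (G_lip hV0 hV hX (habs x h1 h2) (habs _ c1 c2) ha).1
      have h5 : |G w x - G w (c a0)| ≤ 2 * ε := by
        calc |G w x - G w (c a0)| = |(G w x + a0) - (G w (c a0) + a0)| := by congr 1; ring
          _ ≤ |G w x + a0| + |G w (c a0) + a0| := abs_sub _ _
          _ ≤ 2 * ε := by linarith
      rw [le_div_iff₀ hap]
      linarith)
  refine hcov.trans (ENNReal.ofReal_le_ofReal ?_)
  rw [Finset.sum_const, nsmul_eq_mul]
  have h1 := card_int_range (-G w α - 2 * |(w 0 : ℝ)| * δ - 1) (-G w α + 2 * |(w 0 : ℝ)| * δ + 1)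
    (by have : 0 ≤ |(w 0 : ℝ)| * δ := by positivity
        linarith)
  have h2 : -G w α + 2 * |(w 0 : ℝ)| * δ + 1 - (-G w α - 2 * |(w 0 : ℝ)| * δ - 1) + 1 = 4 * |(w 0 : ℝ)| * δ + 3 := by ring
  rw [h2] at h1
  calc (s.card : ℝ) * (2 * (4 * ε / |(w 0 : ℝ)|)) ≤ (4 * |(w 0 : ℝ)| * δ + 3) * (2 * (4 * ε / |(w 0 : ℝ)|)) := by
        gcongr
    _ = 32 * ε * δ + ε * (24 / |(w 0 : ℝ)|) := by field_simp; ring
    _ ≤ 32 * ε * δ + ε * δ := by
        have : 24 / |(w 0 : ℝ)| ≤ δ := by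
          rw [div_le_iff₀ hap]
          rw [div_le_iff₀ hδ0] at ha2
          linarith
        gcongr
    _ = _ := by ring

lemma int_le_floorU {p : ℤ} {B : ℝ} (h : |(p:ℝ)| ≤ B) : |p| ≤ (⌊B⌋₊ : ℤ) := by
  have h1 : p.natAbs ≤ ⌊B⌋₊ := by
    apply Nat.le_floor
    rw [Nat.cast_natAbs]; push_cast; exact h
  rw [Int.abs_eq_natAbs]; exact_mod_cast h1

/-- coefficient box -/
noncomputable def cb (M : Fin (k+1) → ℕ) : Finset (Fin (k+1) → ℤ) :=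
  Fintype.piFinset (fun i => Finset.Icc (-(2 ^ (M i) : ℤ)) (2 ^ (M i)))

lemma mem_cb {M : Fin (k+1) → ℕ} {w : Fin (k+1) → ℤ} : w ∈ cb M ↔ ∀ i, |w i| ≤ 2 ^ (M i) := by
  unfold cb
  rw [Fintype.mem_piFinset]
  constructor
  · intro h i; rw [abs_le]; exact Finset.mem_Icc.mp (h i)
  · intro h i; rw [Finset.mem_Icc, ← abs_le]; exact h i

lemma card_Icc_sym (n : ℕ) : ((Finset.Icc (-(n:ℤ)) n).card : ℝ) = 2 * n + 1 := by
  rw [Int.card_Icc]
  have : ((n:ℤ) + 1 - -(n:ℤ)).toNat = 2 * n + 1 := by omega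
  rw [this]; push_cast; ring

lemma card_Icc_pow (n : ℕ) : ((Finset.Icc (-(2 ^ n : ℤ)) (2 ^ n)).card : ℝ) ≤ 3 * 2 ^ n := by
  have h := card_Icc_sym (2 ^ n)
  push_cast at h
  rw [h]
  have : (1:ℝ) ≤ 2 ^ n := one_le_pow₀ (by norm_num)
  linarith

lemma card_small_one (M : Fin (k+1) → ℕ) (c0 : ℝ) (hc0 : 0 < c0) (j : Fin (k+1))
    (hj : 1 ≤ c0 * 2 ^ (M j)) :
    (((cb M).filter (fun w => |(w j : ℝ)| < c0 * 2 ^ (M j))).card : ℝ) ≤ c0 * 3 ^ (k+1) * 2 ^ (∑ i, M i) := by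
  classical
  have hsub : (cb M).filter (fun w => |(w j : ℝ)| < c0 * 2 ^ (M j)) ⊆
      Fintype.piFinset (fun i => if i = j then Finset.Icc (-(⌊c0 * 2 ^ (M j)⌋₊ : ℤ)) ⌊c0 * 2 ^ (M j)⌋₊ else
        Finset.Icc (-(2 ^ (M i) : ℤ)) (2 ^ (M i))) := by
    intro w hw
    rw [Finset.mem_filter, mem_cb] at hw
    rw [Fintype.mem_piFinset]
    intro i
    split_ifs with hij
    · rw [hij, Finset.mem_Icc, ← abs_le]
      exact int_le_floorU hw.2.le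
    · rw [Finset.mem_Icc, ← abs_le]; exact hw.1 i
  have h1 : (((cb M).filter (fun w => |(w j : ℝ)| < c0 * 2 ^ (M j))).card : ℝ) ≤
      ∏ i, (((if i = j then Finset.Icc (-(⌊c0 * 2 ^ (M j)⌋₊ : ℤ)) ⌊c0 * 2 ^ (M j)⌋₊ else
        Finset.Icc (-(2 ^ (M i) : ℤ)) (2 ^ (M i))).card : ℕ) : ℝ) := by
    have := Finset.card_le_card hsub
    rw [Fintype.card_piFinset] at this
    exact_mod_cast this
  refine h1.trans ?_
  calc _ ≤ ∏ i, ((if i = j then c0 else 1) * (3 * 2 ^ (M i))) := by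
        apply Finset.prod_le_prod
        · intro i _; positivity
        · intro i _
          split_ifs with hij
          · rw [hij, card_Icc_sym]
            have h2 := Nat.floor_le (show 0 ≤ c0 * 2 ^ (M j) by positivity)
            linarith
          · rw [one_mul]; exact card_Icc_pow _
    _ = _ := by
        rw [Finset.prod_mul_distrib, Finset.prod_mul_distrib, Finset.prod_ite_eq' Finset.univ j (fun _ => c0)]
        rw [Finset.prod_const, Finset.card_univ, Fintype.card_fin, ← Finset.prod_pow_eq_pow_sum]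
        simp
        ring

lemma card_small (M : Fin (k+1) → ℕ) (c0 : ℝ) (hc0 : 0 < c0) (hM : ∀ j, 1 ≤ c0 * 2 ^ (M j)) :
    (((cb M).filter (fun w => ∃ j, |(w j : ℝ)| < c0 * 2 ^ (M j))).card : ℝ) ≤
      ((k:ℝ) + 1) * (c0 * 3 ^ (k+1) * 2 ^ (∑ i, M i)) := by
  classical
  have h1 : (cb M).filter (fun w => ∃ j, |(w j : ℝ)| < c0 * 2 ^ (M j)) ⊆
      Finset.univ.biUnion (fun j => (cb M).filter (fun w => |(w j : ℝ)| < c0 * 2 ^ (M j))) := by
    intro w hw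
    rw [Finset.mem_filter] at hw
    obtain ⟨hw1, j, hj⟩ := hw
    rw [Finset.mem_biUnion]
    exact ⟨j, Finset.mem_univ _, Finset.mem_filter.mpr ⟨hw1, hj⟩⟩
  have h2 : (((cb M).filter (fun w => ∃ j, |(w j : ℝ)| < c0 * 2 ^ (M j))).card : ℝ) ≤
      ∑ j : Fin (k+1), (((cb M).filter (fun w => |(w j : ℝ)| < c0 * 2 ^ (M j))).card : ℝ) := by
    exact_mod_cast (Finset.card_le_card h1).trans Finset.card_biUnion_le
  refine h2.trans ?_
  calc _ ≤ ∑ _j : Fin (k+1), c0 * 3 ^ (k+1) * 2 ^ (∑ i, M i) :=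
        Finset.sum_le_sum fun j _ => card_small_one M c0 hc0 j (hM j)
    _ = _ := by rw [Finset.sum_const, Finset.card_univ, Fintype.card_fin, nsmul_eq_mul]; push_cast; ring

lemma card_head (M : Fin (k+1) → ℕ) (B1 : ℕ) (hB1 : 1 ≤ B1) :
    (((cb M).filter (fun w => |(w 0 : ℝ)| < B1)).card : ℝ) ≤ 3 * B1 * (3 ^ k * 2 ^ (∑ i : Fin k, M i.succ)) := by
  classical
  have hsub : (cb M).filter (fun w => |(w 0 : ℝ)| < B1) ⊆
      Fintype.piFinset (Fin.cons (Finset.Icc (-(B1:ℤ)) B1) (fun i : Fin k => Finset.Icc (-(2 ^ (M i.succ) : ℤ)) (2 ^ (M i.succ)))) := by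
    intro w hw
    rw [Finset.mem_filter, mem_cb] at hw
    rw [Fintype.mem_piFinset]
    intro i
    refine Fin.cases ?_ (fun i => ?_) i
    · rw [Fin.cons_zero, Finset.mem_Icc, ← abs_le]
      exact_mod_cast hw.2.le
    · rw [Fin.cons_succ, Finset.mem_Icc, ← abs_le]; exact hw.1 _
  have h1 := Finset.card_le_card hsub
  rw [Fintype.card_piFinset, Fin.prod_univ_succ] at h1
  simp only [Fin.cons_zero, Fin.cons_succ] at h1
  have h2 : (((cb M).filter (fun w => |(w 0 : ℝ)| < B1)).card : ℝ) ≤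
      ((Finset.Icc (-(B1:ℤ)) B1).card : ℝ) * ∏ i : Fin k, ((Finset.Icc (-(2 ^ (M i.succ) : ℤ)) (2 ^ (M i.succ))).card : ℝ) := by
    exact_mod_cast h1
  refine h2.trans ?_
  rw [card_Icc_sym]
  have hB1' : (1:ℝ) ≤ B1 := by exact_mod_cast hB1
  have h3 : ∏ i : Fin k, ((Finset.Icc (-(2 ^ (M i.succ) : ℤ)) (2 ^ (M i.succ))).card : ℝ) ≤
      3 ^ k * 2 ^ (∑ i : Fin k, M i.succ) := by
    calc _ ≤ ∏ i : Fin k, (3 * (2:ℝ) ^ (M i.succ)) := by
          apply Finset.prod_le_prod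
          · intro i _; positivity
          · intro i _; exact card_Icc_pow _
      _ = _ := by
          rw [Finset.prod_mul_distrib, Finset.prod_const, Finset.card_univ, Fintype.card_fin,
            ← Finset.prod_pow_eq_pow_sum]
  gcongr
  linarith

end MDiv
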