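import Mathlib
import Pool.Agent.Hhelper92.Mult.Shapes
import Pool.Agent.Hhelper92.Mult.Ubi3

set_option autoImplicit false

/-!
Boxes of coefficient vectors attached to shapes.
-/

namespace MDiv

open Finset

variable {k : ℕ}

noncomputable def Zs (N : ℕ) : Finset ℤ := (Finset.Icc (-(N:ℤ)) N).erase 0

noncomputable def eb (m : Fin k → ℕ) : Finset (Fin k → ℤ) :=
  Fintype.piFinset (fun i => Finset.Icc (-(2 ^ (m i) : ℤ)) (2 ^ (m i)))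

lemma mem_eb {m : Fin k → ℕ} {h : Fin k → ℤ} : h ∈ eb m ↔ ∀ i, |h i| ≤ 2 ^ (m i) := by
  unfold eb
  rw [Fintype.mem_piFinset]
  constructor
  · intro hh i; rw [abs_le]; exact Finset.mem_Icc.mp (hh i)
  · intro hh i; rw [Finset.mem_Icc, ← abs_le]; exact hh i

lemma mem_Zs {N : ℕ} {u : ℤ} : u ∈ Zs N ↔ u ≠ 0 ∧ |u| ≤ N := by
  unfold Zs
  rw [Finset.mem_erase, Finset.mem_Icc, abs_le]

noncomputable def Bx (c0 : ℝ) (m : Fin k → ℕ) : Finset (Fin k → ℤ) :=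
  (eb m).filter (fun h => ∀ i, c0 * 2 ^ (m i) ≤ |(h i : ℝ)|)

lemma mem_Bx {c0 : ℝ} {m : Fin k → ℕ} {h : Fin k → ℤ} :
    h ∈ Bx c0 m ↔ (∀ i, |h i| ≤ 2 ^ (m i)) ∧ ∀ i, c0 * 2 ^ (m i) ≤ |(h i : ℝ)| := by
  unfold Bx
  rw [Finset.mem_filter, mem_eb]

lemma card_Bx (c0 : ℝ) (m : Fin k → ℕ) : ((Bx c0 m).card : ℝ) ≤ 3 ^ k * 2 ^ (∑ i, m i) := by
  have h1 : ((Bx c0 m).card : ℝ) ≤ ((eb m).card : ℝ) := by
    exact Nat.cast_le.mpr (Finset.card_filter_le _ _)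
  refine h1.trans ?_
  unfold eb
  rw [Fintype.card_piFinset]
  push_cast
  calc ∏ i : Fin k, ((Finset.Icc (-(2 ^ (m i) : ℤ)) (2 ^ (m i))).card : ℝ) ≤ ∏ i : Fin k, (3 * (2:ℝ) ^ (m i)) := by
        apply Finset.prod_le_prod
        · intro i _; positivity
        · intro i _; exact card_Icc_pow _
    _ = _ := by
        rw [Finset.prod_mul_distrib, Finset.prod_const, Finset.card_univ, Fintype.card_fin,
          ← Finset.prod_pow_eq_pow_sum]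

noncomputable def XX (c0 : ℝ) (s t : Shp k) : ℝ :=
  ∑ u ∈ Zs (2 ^ TT s), ∑ v ∈ Zs (2 ^ TT s), ∑ e ∈ eb s.2,
    if (u • e ∈ Bx c0 s.2 ∧ v • e ∈ Bx c0 t.2) then
      (2:ℝ) ^ (MM s 0) * 2 ^ (MM t 0) / (|(u:ℝ)| * |(v:ℝ)|) else 0

lemma XX_nonneg (c0 : ℝ) (s t : Shp k) : 0 ≤ XX c0 s t := by
  unfold XX
  apply Finset.sum_nonneg; intro u _
  apply Finset.sum_nonneg; intro v _
  apply Finset.sum_nonneg; intro e _
  split_ifs <;> positivity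

lemma triple_single_le {ι1 ι2 ι3 : Type*} (S1 : Finset ι1) (S2 : Finset ι2) (S3 : Finset ι3)
    (f : ι1 → ι2 → ι3 → ℝ) (hf : ∀ a b c, 0 ≤ f a b c) {a : ι1} {b : ι2} {c : ι3} (ha : a ∈ S1)
    (hb : b ∈ S2) (hc : c ∈ S3) : f a b c ≤ ∑ x ∈ S1, ∑ y ∈ S2, ∑ z ∈ S3, f x y z := by
  have h1 : f a b c ≤ ∑ z ∈ S3, f a b z :=
    Finset.single_le_sum (f := fun z => f a b z) (fun z _ => hf a b z) hc
  have h2 : ∑ z ∈ S3, f a b z ≤ ∑ y ∈ S2, ∑ z ∈ S3, f a y z :=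
    Finset.single_le_sum (f := fun y => ∑ z ∈ S3, f a y z)
      (fun y _ => Finset.sum_nonneg (fun z _ => hf a y z)) hb
  have h3 : ∑ y ∈ S2, ∑ z ∈ S3, f a y z ≤ ∑ x ∈ S1, ∑ y ∈ S2, ∑ z ∈ S3, f x y z :=
    Finset.single_le_sum (f := fun x => ∑ y ∈ S2, ∑ z ∈ S3, f x y z)
      (fun x _ => Finset.sum_nonneg (fun y _ => Finset.sum_nonneg (fun z _ => hf x y z))) ha
  exact h1.trans (h2.trans h3)

/-- level of a shape -/
def uu (s : Shp k) : ℕ := TT s / Hk k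

def lev (s : Shp k) : ℕ := 2 ^ (TT s / 2 - 2041 * uu s)

end MDiv
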