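import Mathlib
import Pool.Agent.Hhelper92.Mult.ShapeBox
import Pool.Agent.Hhelper92.Mult.Near4
import Pool.Agent.Hhelper92.Mult.Moment

set_option autoImplicit false

/-!
Number of close pairs of roots attached to two shapes.
-/

namespace MDiv

open Finset

variable {k : ℕ}

theorem pair_count (hk : 1 ≤ k) (X1 : ℕ) (hX1 : 1 ≤ X1) (κ : ℕ) (c0 : ℝ) (hc0 : 0 < c0) (hc1 : c0 ≤ 1)
    (hκ : 1 ≤ c0 * 2 ^ κ) (δ : ℝ) (hδ : 0 < δ) :
    ∃ u0 : ℕ, ∀ α β : ℝ, -(X1:ℝ) ≤ α → β ≤ X1 → δ ≤ β - α → ∀ s t : Shp k,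
      Hk k * sg s ≤ s.1 → Hk k * sg t ≤ t.1 → TT t ≤ TT s → TT s - TT t ≤ uu s → u0 ≤ uu s →
      ∀ ρ : ℝ, 1 / 2 ^ (TT s + uu s) ≤ ρ → ρ ≤ 2 / 2 ^ (TT s) → ∀ R R' : Finset ℝ,
      (∀ x ∈ R, α + δ ≤ x ∧ x ≤ β - δ ∧ Good (lev s) x ∧ Good (lev s * 2 ^ (1040 * uu s)) x ∧
        Good (lev s * 2 ^ (2040 * uu s)) x ∧ ∃ w a0, RootOK (MM s) c0 w a0 x) →
      (∀ y ∈ R', α ≤ y ∧ y ≤ β ∧ ∃ w a0, RootOK (MM t) c0 w a0 y) →
      ((prs R R' ρ).card : ℝ) ≤ 10 ^ 28 * (β - α) * (9 ^ k * (2 ^ (TT s) * 2 ^ (TT t)) * ρ + XX c0 s t) := by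
  classical
  obtain ⟨u1, hu1⟩ := near_indep k X1 hX1 c0 δ hδ
  obtain ⟨u2, hu2⟩ := near_prop k X1 hX1 c0 δ hδ
  refine ⟨u1 + u2 + κ + 8, ?_⟩
  intro α β hα hβ hδ' s t hs ht hts hτ hu0 ρ hρ1 hρ2 R R' hR hR'
  set u := uu s with hu
  have hHk : 0 < Hk k := by unfold Hk; omega
  have hH1 : 1 ≤ Hk k := hHk
  have hsg : sg s ≤ s.1 := by
    calc sg s = 1 * sg s := (one_mul _).symm
      _ ≤ Hk k * sg s := Nat.mul_le_mul_right _ hH1
      _ ≤ s.1 := hs
  have hsgt : sg t ≤ t.1 := by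
    calc sg t = 1 * sg t := (one_mul _).symm
      _ ≤ Hk k * sg t := Nat.mul_le_mul_right _ hH1
      _ ≤ t.1 := ht
  have hTs := TT_eq s hsg
  have hTt := TT_eq t hsgt
  have hsu : sg s ≤ u := by
    rw [hu]; unfold uu
    rw [Nat.le_div_iff_mul_le hHk, mul_comm]
    refine hs.trans ?_
    unfold TT; omega
  have htu : sg t ≤ u := by
    rw [hu]; unfold uu
    rw [Nat.le_div_iff_mul_le hHk, mul_comm]
    refine ht.trans (le_trans ?_ hts)
    unfold TT; omega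
  have hTu : 40000 * (k + 1) * u ≤ TT s := by
    have := Nat.div_mul_le_self (TT s) (Hk k)
    rw [mul_comm] at this
    exact this
  have cfg : Cfg k X1 u (lev s) c0 δ α β (2 ^ (MM s 0)) (2 ^ (MM t 0)) ρ :=
    cfg_of hX1 hc0 hc1 hκ hα hβ hδ hδ' hTs hsu (by omega : 2 * MM t 0 + sg t + (TT s - TT t) = TT s) htu hτ hTu
      (by omega) (by omega) hρ1 hρ2
  -- choose polynomials
  have hexR : ∀ x, ∃ w : Fin (k+1) → ℤ, x ∈ R → ∃ a0, RootOK (MM s) c0 w a0 x := by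
    intro x
    by_cases hx : x ∈ R
    · obtain ⟨_, _, _, _, _, w, a0, h⟩ := hR x hx
      exact ⟨w, fun _ => ⟨a0, h⟩⟩
    · exact ⟨0, fun h => absurd h hx⟩
  have hexR' : ∀ y, ∃ w : Fin (k+1) → ℤ, y ∈ R' → ∃ a0, RootOK (MM t) c0 w a0 y := by
    intro y
    by_cases hy : y ∈ R'
    · obtain ⟨_, _, w, a0, h⟩ := hR' y hy
      exact ⟨w, fun _ => ⟨a0, h⟩⟩
    · exact ⟨0, fun h => absurd h hy⟩
  choose ws hws using hexR
  choose wt hwt using hexR'
  have hBs : ∀ x ∈ R, tl (ws x) ∈ Bx c0 s.2 := by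
    intro x hx
    obtain ⟨a0, _, h2, h3⟩ := hws x hx
    rw [mem_Bx]
    constructor
    · intro i
      have := h2 i.succ
      rw [MM_succ] at this
      exact_mod_cast this
    · intro i
      have := h3 i.succ
      rw [MM_succ] at this
      exact this
  have hBt : ∀ y ∈ R', tl (wt y) ∈ Bx c0 t.2 := by
    intro x hx
    obtain ⟨a0, _, h2, h3⟩ := hwt x hx
    rw [mem_Bx]
    constructor
    · intro i
      have := h2 i.succ
      rw [MM_succ] at this
      exact_mod_cast this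
    · intro i
      have := h3 i.succ
      rw [MM_succ] at this
      exact this
  have hmap : ∀ p ∈ prs R R' ρ, (tl (ws p.1), tl (wt p.2)) ∈ Bx c0 s.2 ×ˢ Bx c0 t.2 := by
    intro p hp
    unfold prs at hp
    rw [Finset.mem_filter, Finset.mem_product] at hp
    rw [Finset.mem_product]
    exact ⟨hBs _ hp.1.1, hBt _ hp.1.2⟩
  rw [Finset.card_eq_sum_card_fiberwise hmap]
  push_cast
  have hβα : 0 ≤ β - α := by linarith
  have hne : ∀ (m : Fin k → ℕ) (h : Fin k → ℤ), h ∈ Bx c0 m → ∀ i, h i ≠ 0 := by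
    intro m h hh i h0
    rw [mem_Bx] at hh
    have := hh.2 i
    rw [h0, Int.cast_zero, abs_zero] at this
    have h2 : 0 < c0 * 2 ^ (m i) := by positivity
    linarith
  have hle2u : ∀ (m : Fin k → ℕ) (h : Fin k → ℤ), h ∈ Bx c0 m → ∑ i, m i ≤ u → ∀ i, |(h i : ℝ)| ≤ (2:ℝ) ^ u := by
    intro m h hh hm i
    rw [mem_Bx] at hh
    have h1 : |((h i : ℤ) : ℝ)| ≤ 2 ^ (m i) := by exact_mod_cast hh.1 i
    refine h1.trans (pow_le_pow_right₀ (by norm_num) (le_trans ?_ hm))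
    exact Finset.single_le_sum (f := m) (fun _ _ => Nat.zero_le _) (Finset.mem_univ i)
  set A : ℝ := 2 ^ (MM s 0) with hA
  set B : ℝ := 2 ^ (MM t 0) with hB
  have hA0 : 0 < A := by positivity
  have hB0 : 0 < B := by positivity
  have hρ0 : 0 < ρ := lt_of_lt_of_le (by positivity) hρ1
  set wgt : (Fin k → ℤ) × (Fin k → ℤ) → ℝ := fun hh =>
    ∑ a ∈ Zs (2 ^ TT s), ∑ b ∈ Zs (2 ^ TT s), ∑ e ∈ eb s.2,
      if (a • e = hh.1 ∧ b • e = hh.2) then 1 / (|(a:ℝ)| * |(b:ℝ)|) else 0 with hwgt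
  have hwgt0 : ∀ hh, 0 ≤ wgt hh := by
    intro hh
    apply Finset.sum_nonneg; intro a _
    apply Finset.sum_nonneg; intro b _
    apply Finset.sum_nonneg; intro e _
    split_ifs <;> positivity
  have hfib : ∀ hh ∈ Bx c0 s.2 ×ˢ Bx c0 t.2,
      (((prs R R' ρ).filter (fun p => (tl (ws p.1), tl (wt p.2)) = hh)).card : ℝ) ≤
        10 ^ 28 * (β - α) * (A * B) * (A * B * ρ + wgt hh) := by
    rintro ⟨h, h'⟩ hhh
    rw [Finset.mem_product] at hhh
    obtain ⟨hh, hh'⟩ : h ∈ Bx c0 s.2 ∧ h' ∈ Bx c0 t.2 := hhh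
    have hhs := hle2u _ _ hh hsu
    have hhs' := hle2u _ _ hh' htu
    set S0 := (prs R R' ρ).filter (fun p => (tl (ws p.1), tl (wt p.2)) = (h, h')) with hS0
    have hOK : ∀ p ∈ S0, PairOK u (lev s) c0 δ α β A B ρ h h' p := by
      intro p hp
      rw [hS0, Finset.mem_filter] at hp
      unfold prs at hp
      rw [Finset.mem_filter, Finset.mem_product, Prod.mk.injEq] at hp
      obtain ⟨⟨⟨hp1, hp2⟩, hp3⟩, hp4, hp5⟩ := hp
      obtain ⟨r1, r2, r3, r4, r5, _⟩ := hR _ hp1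
      obtain ⟨r1', r2', _⟩ := hR' _ hp2
      refine ⟨r1, r2, r1', r2', hp3, r3, r4, r5, ?_, ?_⟩
      · obtain ⟨a0, q1, q2, q3⟩ := hws _ hp1
        rw [hp4] at q1
        exact ⟨ws p.1 0, a0, q1, q3 0, q2 0⟩
      · obtain ⟨a0, q1, q2, q3⟩ := hwt _ hp2
        rw [hp5] at q1
        exact ⟨wt p.2 0, a0, q1, q3 0, q2 0⟩
    by_cases hind : ∀ m m' : ℤ, m • h + m' • h' = 0 → m = 0 ∧ m' = 0
    · have h1 := hu1 u (by omega) (lev s) α β A B ρ cfg h h' hhs hhs' hind S0 hOK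
      refine h1.trans ?_
      have := hwgt0 (h, h')
      have h0 : 0 ≤ 10 ^ 28 * (β - α) * (A * B) := by positivity
      apply mul_le_mul_of_nonneg_left _ h0
      linarith
    · have i0 : Fin k := ⟨0, hk⟩
      have hhne : h ≠ 0 := by
        intro h0; exact hne _ _ hh i0 (by rw [h0]; rfl)
      have hhne' : h' ≠ 0 := by
        intro h0; exact hne _ _ hh' i0 (by rw [h0]; rfl)
      obtain ⟨a, b, e, ha0, hb0, hcop, hae, hbe⟩ := prop_decomp hhne hhne' hind
      have hei : ∀ i, e i ≠ 0 := by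
        intro i h0
        apply hne _ _ hh i
        show h i = 0
        rw [hae, Pi.smul_apply, h0, smul_zero]
      have he0 : e ≠ 0 := by
        intro h0; exact hei i0 (by rw [h0]; rfl)
      have h1 := hu2 u (by omega) (lev s) α β A B ρ cfg e a b he0 ha0 hb0 hcop
        (by intro i; rw [← hae]; exact hhs i) (by intro i; rw [← hbe]; exact hhs' i) S0
        (by rw [← hae, ← hbe]; exact hOK)
      refine h1.trans ?_
      have h0 : 0 ≤ 10 ^ 28 * (β - α) * (A * B) := by positivity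
      apply mul_le_mul_of_nonneg_left _ h0
      have hw : 1 / (|(a:ℝ)| * |(b:ℝ)|) ≤ wgt (h, h') := by
        have hh1 := (mem_Bx.mp hh).1
        have hh1' := (mem_Bx.mp hh').1
        have hei1 : ∀ i, 1 ≤ |e i| := fun i => Int.one_le_abs (hei i)
        have haZ : a ∈ Zs (2 ^ TT s) := by
          rw [mem_Zs]
          refine ⟨ha0, ?_⟩
          have h2 := hh1 i0
          rw [hae, Pi.smul_apply, smul_eq_mul, abs_mul] at h2
          have h3 : |a| ≤ 2 ^ (s.2 i0) := by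
            calc |a| = |a| * 1 := (mul_one _).symm
              _ ≤ |a| * |e i0| := by have := hei1 i0; gcongr
              _ ≤ _ := h2
          refine h3.trans ?_
          push_cast
          apply pow_le_pow_right₀ (by norm_num)
          have : s.2 i0 ≤ sg s := Finset.single_le_sum (f := s.2) (fun _ _ => Nat.zero_le _) (Finset.mem_univ i0)
          unfold TT; omega
        have hbZ : b ∈ Zs (2 ^ TT s) := by
          rw [mem_Zs]
          refine ⟨hb0, ?_⟩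
          have h2 := hh1' i0
          rw [hbe, Pi.smul_apply, smul_eq_mul, abs_mul] at h2
          have h3 : |b| ≤ 2 ^ (t.2 i0) := by
            calc |b| = |b| * 1 := (mul_one _).symm
              _ ≤ |b| * |e i0| := by have := hei1 i0; gcongr
              _ ≤ _ := h2
          refine h3.trans ?_
          push_cast
          apply pow_le_pow_right₀ (by norm_num)
          have : t.2 i0 ≤ sg t := Finset.single_le_sum (f := t.2) (fun _ _ => Nat.zero_le _) (Finset.mem_univ i0)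
          have : t.1 ≤ TT t := by unfold TT; omega
          omega
        have heZ : e ∈ eb s.2 := by
          rw [mem_eb]
          intro i
          have h2 := hh1 i
          rw [hae, Pi.smul_apply, smul_eq_mul, abs_mul] at h2
          have ha1 : 1 ≤ |a| := Int.one_le_abs ha0
          calc |e i| = 1 * |e i| := (one_mul _).symm
            _ ≤ |a| * |e i| := by gcongr
            _ ≤ _ := h2
        rw [hwgt]
        have t1 : 1 / (|(a:ℝ)| * |(b:ℝ)|) = (if (a • e = h ∧ b • e = h') then 1 / (|(a:ℝ)| * |(b:ℝ)|) else 0) := by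
          rw [if_pos ⟨hae.symm, hbe.symm⟩]
        rw [t1]
        exact triple_single_le _ _ _ (fun (a b : ℤ) (e : Fin k → ℤ) =>
          (if (a • e = h ∧ b • e = h') then 1 / (|(a:ℝ)| * |(b:ℝ)|) else (0:ℝ)))
          (fun a b e => by split_ifs <;> positivity) haZ hbZ heZ
      linarith
  refine (Finset.sum_le_sum hfib).trans ?_
  rw [← Finset.mul_sum, Finset.sum_add_distrib, Finset.sum_const, nsmul_eq_mul, Finset.card_product]
  push_cast
  have hX : ∑ hh ∈ Bx c0 s.2 ×ˢ Bx c0 t.2, wgt hh = ∑ a ∈ Zs (2 ^ TT s), ∑ b ∈ Zs (2 ^ TT s), ∑ e ∈ eb s.2,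
      if (a • e ∈ Bx c0 s.2 ∧ b • e ∈ Bx c0 t.2) then 1 / (|(a:ℝ)| * |(b:ℝ)|) else 0 := by
    rw [hwgt]
    rw [Finset.sum_comm]
    apply Finset.sum_congr rfl; intro a _
    rw [Finset.sum_comm]
    apply Finset.sum_congr rfl; intro b _
    rw [Finset.sum_comm]
    apply Finset.sum_congr rfl; intro e _
    by_cases hc : (a • e ∈ Bx c0 s.2 ∧ b • e ∈ Bx c0 t.2)
    · rw [if_pos hc, Finset.sum_eq_single (a • e, b • e)]
      · simp
      · intro hh _ hne2
        rw [if_neg]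
        rintro ⟨h1, h2⟩
        apply hne2
        exact Prod.ext h1.symm h2.symm
      · intro hnot
        exact absurd (Finset.mem_product.mpr hc) hnot
    · rw [if_neg hc]
      apply Finset.sum_eq_zero
      intro hh hmem
      rw [if_neg]
      rintro ⟨h1, h2⟩
      rw [Finset.mem_product] at hmem
      apply hc
      rw [h1, h2]; exact hmem
  have hXX : A * B * ∑ hh ∈ Bx c0 s.2 ×ˢ Bx c0 t.2, wgt hh = XX c0 s t := by
    rw [hX]
    unfold XX
    rw [Finset.mul_sum]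
    apply Finset.sum_congr rfl; intro a _
    rw [Finset.mul_sum]
    apply Finset.sum_congr rfl; intro b _
    rw [Finset.mul_sum]
    apply Finset.sum_congr rfl; intro e _
    rw [mul_ite, mul_zero, mul_one_div]
  have hb1 := card_Bx c0 s.2
  have hb2 := card_Bx c0 t.2
  have e1 : A * A * 2 ^ (∑ i, s.2 i) = 2 ^ (TT s) := by
    rw [hA, ← pow_add, ← pow_add, ← hTs]; congr 1; unfold sg; ring
  have e2 : B * B * 2 ^ (∑ i, t.2 i) = 2 ^ (TT t) := by
    rw [hB, ← pow_add, ← pow_add, ← hTt]; congr 1; unfold sg; ring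
  calc 10 ^ 28 * (β - α) * (A * B) * (((Bx c0 s.2).card : ℝ) * ((Bx c0 t.2).card : ℝ) * (A * B * ρ) +
        ∑ hh ∈ Bx c0 s.2 ×ˢ Bx c0 t.2, wgt hh)
      = 10 ^ 28 * (β - α) * ((((Bx c0 s.2).card : ℝ) * ((Bx c0 t.2).card : ℝ)) * ((A * A) * (B * B) * ρ) + XX c0 s t) := by
        rw [← hXX]; ring
    _ ≤ 10 ^ 28 * (β - α) * (((3 ^ k * 2 ^ (∑ i, s.2 i)) * (3 ^ k * 2 ^ (∑ i, t.2 i))) * ((A * A) * (B * B) * ρ) + XX c0 s t) := by
        gcongr
    _ = 10 ^ 28 * (β - α) * ((3 ^ k * 3 ^ k) * ((A * A * 2 ^ (∑ i, s.2 i)) * (B * B * 2 ^ (∑ i, t.2 i))) * ρ + XX c0 s t) := by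
        ring
    _ = _ := by
        rw [e1, e2, ← mul_pow]; norm_num

end MDiv
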