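import Mathlib
import Pool.Agent.Hhelper92.Mult.ShapeBox

set_option autoImplicit false

/-!
Summing the diagonal terms over all shapes.
-/

namespace MDiv

open Finset

variable {k : ℕ}

noncomputable def g3 (x : ℝ) : ℝ := 1 / (|x| * Real.sqrt |x|)

lemma g3_nonneg (x : ℝ) : 0 ≤ g3 x := by unfold g3; positivity

lemma g3_sum_nat (N : ℕ) : ∑ n ∈ Finset.range N, g3 ((n:ℝ) + 1) ≤ 3 := by
  have h : ∀ M : ℕ, ∑ n ∈ Finset.range (M+1), g3 ((n:ℝ) + 1) ≤ 3 - 2 / Real.sqrt ((M:ℝ) + 1) := by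
    intro M
    induction M with
    | zero => simp [g3]; norm_num
    | succ M ih =>
      rw [Finset.sum_range_succ]
      have hx : (0:ℝ) < (M:ℝ) + 1 := by positivity
      set a := Real.sqrt ((M:ℝ) + 1) with ha
      set b := Real.sqrt ((M:ℝ) + 1 + 1) with hb
      have ha0 : 0 < a := Real.sqrt_pos.mpr hx
      have hb0 : 0 < b := Real.sqrt_pos.mpr (by linarith)
      have ha2 : a * a = (M:ℝ) + 1 := Real.mul_self_sqrt hx.le
      have hb2 : b * b = (M:ℝ) + 1 + 1 := Real.mul_self_sqrt (by linarith)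
      have hab : a ≤ b := Real.sqrt_le_sqrt (by linarith)
      have e1 : g3 (((M+1:ℕ):ℝ) + 1) = 1 / (b * b * b) := by
        unfold g3
        push_cast
        rw [abs_of_pos (by linarith : (0:ℝ) < (M:ℝ) + 1 + 1), ← hb, hb2]
      rw [e1]
      push_cast
      have h2 : 1 / (b * b * b) ≤ 2 / a - 2 / b := by
        rw [div_sub_div _ _ ha0.ne' hb0.ne', div_le_div_iff₀ (by positivity) (by positivity)]
        have h3 : (b - a) * (b + a) = 1 := by nlinarith
        -- want: a b ≤ (2b - 2a) b^3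
        have h4 : 1 ≤ (b - a) * (2 * b) := by
          have : (b - a) * (b + a) ≤ (b - a) * (2 * b) := by
            apply mul_le_mul_of_nonneg_left _ (by linarith)
            linarith
          linarith
        calc 1 * (a * b) ≤ ((b - a) * (2 * b)) * (b * b) := by
              apply mul_le_mul h4 _ (by positivity) (by nlinarith)
              nlinarith
          _ = _ := by ring
      linarith
  rcases N with _ | N
  · simp
  · have h1 := h N
    have h2 : 0 ≤ 2 / Real.sqrt ((N:ℝ) + 1) := by positivity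
    linarith

lemma g3_sum (N : ℕ) : ∑ u ∈ Zs N, g3 (u:ℝ) ≤ 6 := by
  classical
  have h1 : Zs N ⊆ (Finset.range N).image (fun n : ℕ => ((n:ℤ) + 1)) ∪
      (Finset.range N).image (fun n : ℕ => (-((n:ℤ) + 1))) := by
    intro u hu
    rw [mem_Zs] at hu
    rw [Finset.mem_union, Finset.mem_image, Finset.mem_image]
    obtain ⟨hu0, hu1⟩ := hu
    rw [abs_le] at hu1
    rcases lt_or_gt_of_ne hu0 with h | h
    · right
      refine ⟨(-u - 1).toNat, ?_, ?_⟩
      · rw [Finset.mem_range]; omega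
      · omega
    · left
      refine ⟨(u - 1).toNat, ?_, ?_⟩
      · rw [Finset.mem_range]; omega
      · omega
  calc ∑ u ∈ Zs N, g3 (u:ℝ) ≤ ∑ u ∈ ((Finset.range N).image (fun n : ℕ => ((n:ℤ) + 1)) ∪
      (Finset.range N).image (fun n : ℕ => (-((n:ℤ) + 1)))), g3 (u:ℝ) :=
        Finset.sum_le_sum_of_subset_of_nonneg h1 (fun _ _ _ => g3_nonneg _)
    _ ≤ ∑ u ∈ (Finset.range N).image (fun n : ℕ => ((n:ℤ) + 1)), g3 (u:ℝ) +
        ∑ u ∈ (Finset.range N).image (fun n : ℕ => (-((n:ℤ) + 1))), g3 (u:ℝ) := by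
        rw [← Finset.sum_union_inter]
        have : 0 ≤ ∑ u ∈ ((Finset.range N).image (fun n : ℕ => ((n:ℤ) + 1)) ∩
            (Finset.range N).image (fun n : ℕ => (-((n:ℤ) + 1)))), g3 (u:ℝ) :=
          Finset.sum_nonneg (fun _ _ => g3_nonneg _)
        linarith
    _ ≤ 3 + 3 := by
        apply add_le_add
        · rw [Finset.sum_image (by intro a _ b _ h; simpa using h)]
          push_cast
          exact g3_sum_nat N
        · rw [Finset.sum_image (by intro a _ b _ h; simpa using h)]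
          push_cast
          have : ∀ n : ℕ, g3 (-((n:ℝ) + 1)) = g3 ((n:ℝ) + 1) := by
            intro n; unfold g3; rw [abs_neg]
          simp only [this]
          exact g3_sum_nat N
    _ = 6 := by norm_num

/-- number of `e` with `u • e` in the box of the shape -/
lemma card_e (c0 : ℝ) (hc0 : 0 < c0) (m : Fin k → ℕ) (u : ℤ) (hu : u ≠ 0) :
    (((eb m).filter (fun e => u • e ∈ Bx c0 m)).card : ℝ) ≤ 2 ^ k * 2 ^ (∑ i, m i) / |(u:ℝ)| ^ k := by
  classical
  have hu1 : (1:ℝ) ≤ |(u:ℝ)| := by exact_mod_cast Int.one_le_abs hu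
  have huN : 0 < u.natAbs := Int.natAbs_pos.mpr hu
  have h1 : (eb m).filter (fun e => u • e ∈ Bx c0 m) ⊆
      Fintype.piFinset (fun i => (Finset.Icc (-((2 ^ (m i) / u.natAbs : ℕ) : ℤ)) ((2 ^ (m i) / u.natAbs : ℕ) : ℤ)).erase 0) := by
    intro e he
    rw [Finset.mem_filter, mem_Bx] at he
    rw [Fintype.mem_piFinset]
    intro i
    rw [Finset.mem_erase, Finset.mem_Icc, ← abs_le]
    obtain ⟨_, h2, h3⟩ := he
    constructor
    · intro h0
      have := h3 i
      rw [Pi.smul_apply, h0, smul_zero, Int.cast_zero, abs_zero] at this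
      have h4 : 0 < c0 * 2 ^ (m i) := by positivity
      linarith
    · have h4 := h2 i
      rw [Pi.smul_apply, smul_eq_mul, abs_mul, Int.abs_eq_natAbs, Int.abs_eq_natAbs] at h4
      rw [Int.abs_eq_natAbs]
      have h5 : (e i).natAbs * u.natAbs ≤ 2 ^ (m i) := by
        have : (((e i).natAbs * u.natAbs : ℕ) : ℤ) ≤ 2 ^ (m i) := by push_cast; push_cast at h4; linarith
        exact_mod_cast this
      exact_mod_cast (Nat.le_div_iff_mul_le huN).mpr h5
  have h2 : (((eb m).filter (fun e => u • e ∈ Bx c0 m)).card : ℝ) ≤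
      ∏ i : Fin k, (((Finset.Icc (-((2 ^ (m i) / u.natAbs : ℕ) : ℤ)) ((2 ^ (m i) / u.natAbs : ℕ) : ℤ)).erase 0).card : ℝ) := by
    have := Finset.card_le_card h1
    rw [Fintype.card_piFinset] at this
    exact_mod_cast this
  refine h2.trans ?_
  calc _ ≤ ∏ i : Fin k, (2 * (2:ℝ) ^ (m i) / |(u:ℝ)|) := by
        apply Finset.prod_le_prod
        · intro i _; positivity
        · intro i _
          have h3 : ((Finset.Icc (-((2 ^ (m i) / u.natAbs : ℕ) : ℤ)) ((2 ^ (m i) / u.natAbs : ℕ) : ℤ)).erase 0).card =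
              2 * (2 ^ (m i) / u.natAbs) := by
            generalize 2 ^ (m i) / u.natAbs = n
            rw [Finset.card_erase_of_mem (by rw [Finset.mem_Icc]; omega), Int.card_Icc]
            omega
          rw [h3]
          push_cast
          have h4 := Nat.cast_div_le (α := ℝ) (m := 2 ^ (m i)) (n := u.natAbs)
          rw [Nat.cast_natAbs] at h4
          push_cast at h4
          have h5 : 2 * (2:ℝ) ^ (m i) / |(u:ℝ)| = 2 * (2 ^ (m i) / |(u:ℝ)|) := by ring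
          rw [h5]
          linarith
    _ = _ := by
        rw [Finset.prod_div_distrib, Finset.prod_mul_distrib, Finset.prod_const, Finset.prod_const,
          Finset.card_univ, Fintype.card_fin, ← Finset.prod_pow_eq_pow_sum]

/-- bound for the other shape -/
lemma B_bound (c0 : ℝ) (hc0 : 0 < c0) (s t : Shp k) (hs : sg s ≤ s.1) (ht : sg t ≤ t.1)
    (hts : TT t ≤ TT s) (u v : ℤ) (hu : u ≠ 0) (hv : v ≠ 0) (e : Fin k → ℤ)
    (h1 : u • e ∈ Bx c0 s.2) (h2 : v • e ∈ Bx c0 t.2) :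
    (2:ℝ) ^ (MM t 0) ≤ 2 ^ (MM s 0) * Real.sqrt ((|(u:ℝ)| / (c0 * |(v:ℝ)|)) ^ k) * (3/4) ^ (TT s - TT t) := by
  have hu1 : (0:ℝ) < |(u:ℝ)| := by rw [abs_pos]; exact_mod_cast hu
  have hv1 : (0:ℝ) < |(v:ℝ)| := by rw [abs_pos]; exact_mod_cast hv
  set Q : ℝ := |(u:ℝ)| / (c0 * |(v:ℝ)|) with hQ
  have hQ0 : 0 < Q := by positivity
  set Y := Real.sqrt (Q ^ k) with hY
  have hY0 : 0 ≤ Y := Real.sqrt_nonneg _
  have hY2 : Y ^ 2 = Q ^ k := Real.sq_sqrt (by positivity)
  rw [mem_Bx] at h1 h2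
  -- each coordinate
  have hco : ∀ i, (2:ℝ) ^ (s.2 i) / Q ≤ 2 ^ (t.2 i) := by
    intro i
    have a1 := h1.2 i
    have a2 := h2.1 i
    rw [Pi.smul_apply, smul_eq_mul] at a1 a2
    push_cast at a1
    rw [abs_mul] at a1
    have a2' : |(v:ℝ)| * |(e i : ℝ)| ≤ 2 ^ (t.2 i) := by
      have : |((v * e i : ℤ) : ℝ)| ≤ 2 ^ (t.2 i) := by exact_mod_cast a2
      push_cast at this
      rwa [abs_mul] at this
    rw [hQ, div_div_eq_mul_div, div_le_iff₀ hu1]
    calc (2:ℝ) ^ (s.2 i) * (c0 * |(v:ℝ)|) = (c0 * 2 ^ (s.2 i)) * |(v:ℝ)| := by ring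
      _ ≤ (|(u:ℝ)| * |(e i : ℝ)|) * |(v:ℝ)| := by gcongr
      _ = (|(v:ℝ)| * |(e i : ℝ)|) * |(u:ℝ)| := by ring
      _ ≤ _ := by gcongr
  have hprod : (2:ℝ) ^ (sg s) / Q ^ k ≤ 2 ^ (sg t) := by
    unfold sg
    rw [← Finset.prod_pow_eq_pow_sum, ← Finset.prod_pow_eq_pow_sum]
    calc (∏ i, (2:ℝ) ^ (s.2 i)) / Q ^ k = ∏ i : Fin k, ((2:ℝ) ^ (s.2 i) / Q) := by
          rw [Finset.prod_div_distrib, Finset.prod_const, Finset.card_univ, Fintype.card_fin]
      _ ≤ _ := Finset.prod_le_prod (fun i _ => by positivity) (fun i _ => hco i)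
  have eA : (2:ℝ) ^ (MM s 0) ^ 1 * 2 ^ (MM s 0) * 2 ^ (sg s) = 2 ^ (TT s) := by
    rw [pow_one, ← pow_add, ← pow_add, ← TT_eq s hs]; congr 1; ring
  have eB : (2:ℝ) ^ (MM t 0) ^ 1 * 2 ^ (MM t 0) * 2 ^ (sg t) = 2 ^ (TT t) := by
    rw [pow_one, ← pow_add, ← pow_add, ← TT_eq t ht]; congr 1; ring
  rw [pow_one] at eA eB
  set A : ℝ := 2 ^ (MM s 0) with hA
  set B : ℝ := 2 ^ (MM t 0) with hB
  have hA0 : 0 < A := by positivity
  have hB0 : 0 < B := by positivity
  -- B^2 * 2^(sg s) / Q^k ≤ 2^(TT t)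
  have h3 : B * B * (2 ^ (sg s) / Q ^ k) ≤ 2 ^ (TT t) := by
    rw [← eB]; gcongr
  have h4 : (2:ℝ) ^ (TT t) = A * A * 2 ^ (sg s) * (1/2) ^ (TT s - TT t) := by
    rw [eA, one_div, inv_pow]
    rw [← div_eq_mul_inv, eq_div_iff (by positivity), ← pow_add]
    congr 1; omega
  rw [h4] at h3
  have hsg0 : (0:ℝ) < 2 ^ (sg s) := by positivity
  have hQk : 0 < Q ^ k := by positivity
  have h5 : B * B ≤ A * A * Q ^ k * (1/2) ^ (TT s - TT t) := by
    have e1 : B * B * (2 ^ (sg s) / Q ^ k) = (B * B) * (2 ^ (sg s) / Q ^ k) := rfl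
    have h6 : (0:ℝ) < 2 ^ (sg s) / Q ^ k := by positivity
    have e2 : A * A * 2 ^ (sg s) * (1/2) ^ (TT s - TT t) = (A * A * Q ^ k * (1/2) ^ (TT s - TT t)) * (2 ^ (sg s) / Q ^ k) := by
      field_simp
    rw [e2] at h3
    exact le_of_mul_le_mul_right h3 h6
  have h7 : B ^ 2 ≤ (A * Y * (3/4) ^ (TT s - TT t)) ^ 2 := by
    have e3 : (A * Y * (3/4) ^ (TT s - TT t)) ^ 2 = A * A * Q ^ k * ((3/4 : ℝ) ^ (TT s - TT t)) ^ 2 := by
      rw [mul_pow, mul_pow, hY2]; ring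
    rw [e3, sq]
    refine h5.trans ?_
    have : ((1:ℝ)/2) ^ (TT s - TT t) ≤ ((3/4 : ℝ) ^ (TT s - TT t)) ^ 2 := by
      rw [← pow_mul, mul_comm, pow_mul]
      apply pow_le_pow_left₀ (by norm_num)
      norm_num
    gcongr
  exact le_of_sq_le_sq h7 (by positivity)

end MDiv
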