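import Mathlib
import Pool.Agent.Hhelper92.Mult.XSum

set_option autoImplicit false

/-!
Summing the diagonal terms over all shapes, conclusion.
-/

namespace MDiv

open Finset

variable {k : ℕ}

lemma geom34 (N : ℕ) : ∑ τ ∈ Finset.range N, ((3:ℝ)/4) ^ τ ≤ 4 := by
  have h : ∑ τ ∈ Finset.range N, ((3:ℝ)/4) ^ τ = (1 - (3/4) ^ N) / (1 - 3/4) := by
    rw [geom_sum_eq (by norm_num)]
    rw [← neg_div_neg_eq]; congr 1 <;> ring
  rw [h]
  have : (0:ℝ) ≤ (3/4) ^ N := by positivity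
  rw [div_le_iff₀ (by norm_num)]
  linarith

/-- sum over the second shape for a fixed vector -/
lemma t_sum (κ : ℕ) (c0 : ℝ) (hc0 : 0 < c0) (hκ : 1 ≤ c0 * 2 ^ κ) (T0 : ℕ) (f : Fin k → ℤ)
    (F : Finset (Shp k)) (hF : ∀ t ∈ F, sg t ≤ t.1 ∧ TT t ≤ T0 ∧ f ∈ Bx c0 t.2) :
    ∑ t ∈ F, ((3:ℝ)/4) ^ (T0 - TT t) ≤ 4 * ((κ:ℝ) + 1) ^ k := by
  classical
  set n : Fin k → ℕ := fun i => Nat.clog 2 (f i).natAbs with hn
  have hwin : ∀ t ∈ F, ∀ i, n i ≤ t.2 i ∧ t.2 i ≤ n i + κ := by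
    intro t ht i
    obtain ⟨_, _, h3⟩ := hF t ht
    rw [mem_Bx] at h3
    have a1 := h3.1 i
    have a2 := h3.2 i
    have a1' : (f i).natAbs ≤ 2 ^ (t.2 i) := by
      rw [Int.abs_eq_natAbs] at a1; exact_mod_cast a1
    constructor
    · exact Nat.clog_le_of_le_pow a1'
    · have h4 : (f i).natAbs ≤ 2 ^ (n i) := Nat.le_pow_clog (by norm_num) _
      have h5 : |(f i : ℝ)| ≤ 2 ^ (n i) := by
        have : ((f i).natAbs : ℝ) ≤ 2 ^ (n i) := by exact_mod_cast h4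
        rwa [Nat.cast_natAbs, Int.cast_abs] at this
      have h6 : (2:ℝ) ^ (t.2 i) ≤ 2 ^ (n i + κ) := by
        calc (2:ℝ) ^ (t.2 i) ≤ (c0 * 2 ^ κ) * 2 ^ (t.2 i) := le_mul_of_one_le_left (by positivity) hκ
          _ = (c0 * 2 ^ (t.2 i)) * 2 ^ κ := by ring
          _ ≤ 2 ^ (n i) * 2 ^ κ := by
            have := a2.trans h5
            gcongr
          _ = _ := by rw [pow_add]
      exact (pow_le_pow_iff_right₀ (by norm_num : (1:ℝ) < 2)).mp h6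
  set φ : Shp k → ℕ × (Fin k → ℕ) := fun t => (T0 - TT t, fun i => t.2 i - n i) with hφ
  have hinj : Set.InjOn φ (F : Set (Shp k)) := by
    intro t ht t' ht' he
    rw [hφ] at he
    simp only [Prod.mk.injEq] at he
    obtain ⟨e1, e2⟩ := he
    obtain ⟨b1, b2, _⟩ := hF t ht
    obtain ⟨b1', b2', _⟩ := hF t' ht'
    have h2 : t.2 = t'.2 := by
      funext i
      have := congrFun e2 i
      have w1 := hwin t ht i
      have w2 := hwin t' ht' i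
      omega
    have h3 : sg t = sg t' := by unfold sg; rw [h2]
    have h1 : t.1 = t'.1 := by
      have c1 := TT_eq t b1
      have c2 := TT_eq t' b1'
      rw [MM_zero] at c1 c2
      omega
    exact Prod.ext h1 h2
  calc ∑ t ∈ F, ((3:ℝ)/4) ^ (T0 - TT t) = ∑ y ∈ F.image φ, ((3:ℝ)/4) ^ y.1 := by
        rw [Finset.sum_image hinj]
    _ ≤ ∑ y ∈ (Finset.range (T0 + 1)) ×ˢ (Fintype.piFinset (fun _ : Fin k => Finset.range (κ + 1))), ((3:ℝ)/4) ^ y.1 := by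
        apply Finset.sum_le_sum_of_subset_of_nonneg
        · intro y hy
          rw [Finset.mem_image] at hy
          obtain ⟨t, ht, rfl⟩ := hy
          rw [Finset.mem_product, Finset.mem_range, Fintype.mem_piFinset]
          refine ⟨?_, ?_⟩
          · show T0 - TT t < T0 + 1
            omega
          · intro i
            rw [Finset.mem_range]
            show t.2 i - n i < κ + 1
            have := hwin t ht i
            omega
        · intro _ _ _; positivity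
    _ = (∑ τ ∈ Finset.range (T0 + 1), ((3:ℝ)/4) ^ τ) * ((κ:ℝ) + 1) ^ k := by
        rw [Finset.sum_product, Finset.sum_mul]
        apply Finset.sum_congr rfl
        intro τ _
        show ∑ _y ∈ Fintype.piFinset (fun _ : Fin k => Finset.range (κ + 1)), ((3:ℝ)/4) ^ τ = _
        rw [Finset.sum_const, Fintype.card_piFinset, nsmul_eq_mul]
        simp
        ring
    _ ≤ 4 * ((κ:ℝ) + 1) ^ k := by
        have := geom34 (T0 + 1)
        gcongr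

lemma uv_bound (hk : 1 ≤ k) (c0 : ℝ) (hc0 : 0 < c0) (u v : ℤ) (hu : u ≠ 0) (hv : v ≠ 0) :
    Real.sqrt ((|(u:ℝ)| / (c0 * |(v:ℝ)|)) ^ k) / (|(u:ℝ)| ^ k * (|(u:ℝ)| * |(v:ℝ)|)) ≤
      Real.sqrt ((1 / c0) ^ k) * (g3 u * g3 v) := by
  have hu1 : (1:ℝ) ≤ |(u:ℝ)| := by exact_mod_cast Int.one_le_abs hu
  have hv1 : (1:ℝ) ≤ |(v:ℝ)| := by exact_mod_cast Int.one_le_abs hv
  have hu0 : (0:ℝ) < |(u:ℝ)| := by linarith
  have hv0 : (0:ℝ) < |(v:ℝ)| := by linarith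
  set x := |(u:ℝ)|
  set y := |(v:ℝ)|
  have e1 : (x / (c0 * y)) ^ k = (1 / c0) ^ k * (x ^ k * (1 / y) ^ k) := by
    rw [← mul_pow, ← mul_pow]; congr 1; field_simp
  rw [e1, Real.sqrt_mul (by positivity), Real.sqrt_mul (by positivity)]
  have hx : Real.sqrt (x ^ k) * Real.sqrt x ≤ x ^ k := by
    rw [← Real.sqrt_mul (by positivity)]
    rw [Real.sqrt_le_left (by positivity)]
    calc x ^ k * x = x ^ (k+1) := by rw [pow_succ]
      _ ≤ x ^ (k * 2) := pow_le_pow_right₀ hu1 (by omega)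
      _ = (x ^ k) ^ 2 := by rw [pow_mul]
  have hy : Real.sqrt ((1 / y) ^ k) ≤ 1 / Real.sqrt y := by
    rw [← Real.sqrt_one, ← Real.sqrt_div (by norm_num)]
    apply Real.sqrt_le_sqrt
    rw [Real.sqrt_one]
    have : (1 / y) ^ k ≤ (1 / y) ^ 1 := by
      apply pow_le_pow_of_le_one (by positivity) _ hk
      rw [div_le_one hv0]; exact hv1
    simpa using this
  have hsx : 0 < Real.sqrt x := Real.sqrt_pos.mpr hu0
  have hsy : 0 < Real.sqrt y := Real.sqrt_pos.mpr hv0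
  have hS0 : 0 ≤ Real.sqrt ((1 / c0) ^ k) := Real.sqrt_nonneg _
  have hx2 : Real.sqrt (x ^ k) / (x ^ k * x) ≤ 1 / (x * Real.sqrt x) := by
    rw [div_le_div_iff₀ (by positivity) (by positivity)]
    calc Real.sqrt (x ^ k) * (x * Real.sqrt x) = (Real.sqrt (x ^ k) * Real.sqrt x) * x := by ring
      _ ≤ x ^ k * x := by gcongr
      _ = _ := by ring
  have hy2 : Real.sqrt ((1 / y) ^ k) / y ≤ 1 / (y * Real.sqrt y) := by
    calc Real.sqrt ((1 / y) ^ k) / y ≤ (1 / Real.sqrt y) / y := by gcongr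
      _ = _ := by field_simp
  have eg : g3 (u:ℝ) = 1 / (x * Real.sqrt x) := rfl
  have eg' : g3 (v:ℝ) = 1 / (y * Real.sqrt y) := rfl
  rw [eg, eg']
  calc Real.sqrt ((1 / c0) ^ k) * (Real.sqrt (x ^ k) * Real.sqrt ((1 / y) ^ k)) / (x ^ k * (x * y)) =
      Real.sqrt ((1 / c0) ^ k) * ((Real.sqrt (x ^ k) / (x ^ k * x)) * (Real.sqrt ((1 / y) ^ k) / y)) := by
        field_simp
    _ ≤ _ := by gcongr

theorem X_sum (hk : 1 ≤ k) (κ : ℕ) (c0 : ℝ) (hc0 : 0 < c0) (hκ : 1 ≤ c0 * 2 ^ κ) :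
    ∃ C : ℝ, 0 ≤ C ∧ ∀ s : Shp k, sg s ≤ s.1 → ∀ F : Finset (Shp k), (∀ t ∈ F, sg t ≤ t.1 ∧ TT t ≤ TT s) →
      ∑ t ∈ F, XX c0 s t ≤ C * 2 ^ (TT s) := by
  classical
  refine ⟨2 ^ k * (4 * ((κ:ℝ) + 1) ^ k) * Real.sqrt ((1 / c0) ^ k) * 36, by positivity, ?_⟩
  intro s hs F hF
  obtain ⟨A, hA⟩ : ∃ A : ℝ, A = 2 ^ (MM s 0) := ⟨_, rfl⟩
  have hA0 : 0 < A := by rw [hA]; positivity
  have eA : A * A * 2 ^ (sg s) = 2 ^ (TT s) := by
    rw [hA, ← pow_add, ← pow_add, ← TT_eq s hs]; congr 1; ring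
  -- swap sums
  have hswap : ∑ t ∈ F, XX c0 s t = ∑ u ∈ Zs (2 ^ TT s), ∑ v ∈ Zs (2 ^ TT s), ∑ e ∈ eb s.2, ∑ t ∈ F,
      (if (u • e ∈ Bx c0 s.2 ∧ v • e ∈ Bx c0 t.2) then
        (2:ℝ) ^ (MM s 0) * 2 ^ (MM t 0) / (|(u:ℝ)| * |(v:ℝ)|) else 0) := by
    unfold XX
    rw [Finset.sum_comm]
    apply Finset.sum_congr rfl; intro u _
    rw [Finset.sum_comm]
    apply Finset.sum_congr rfl; intro v _
    rw [Finset.sum_comm]
  rw [hswap]
  clear hswap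
  obtain ⟨c4, hc4⟩ : ∃ c4 : ℝ, c4 = 4 * ((κ:ℝ) + 1) ^ k := ⟨_, rfl⟩
  have hc40 : 0 ≤ c4 := by rw [hc4]; positivity
  obtain ⟨S, hS⟩ : ∃ S : ℝ, S = Real.sqrt ((1 / c0) ^ k) := ⟨_, rfl⟩
  have hS0 : 0 ≤ S := by rw [hS]; exact Real.sqrt_nonneg _
  obtain ⟨k2, hk2⟩ : ∃ k2 : ℝ, k2 = 2 ^ k := ⟨_, rfl⟩
  have hk20 : 0 < k2 := by rw [hk2]; positivity
  rw [← hc4, ← hS, ← hk2]
  have hinner : ∀ u ∈ Zs (2 ^ TT s), ∀ v ∈ Zs (2 ^ TT s), ∑ e ∈ eb s.2, ∑ t ∈ F,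
      (if (u • e ∈ Bx c0 s.2 ∧ v • e ∈ Bx c0 t.2) then
        (2:ℝ) ^ (MM s 0) * 2 ^ (MM t 0) / (|(u:ℝ)| * |(v:ℝ)|) else 0) ≤
      (k2 * c4 * S * 2 ^ (TT s)) * (g3 u * g3 v) := by
    intro u hu v hv
    rw [mem_Zs] at hu hv
    have hu0 := hu.1
    have hv0 := hv.1
    have hu1 : (0:ℝ) < |(u:ℝ)| := by rw [abs_pos]; exact_mod_cast hu0
    have hv1 : (0:ℝ) < |(v:ℝ)| := by rw [abs_pos]; exact_mod_cast hv0
    obtain ⟨Y, hY⟩ : ∃ Y : ℝ, Y = Real.sqrt ((|(u:ℝ)| / (c0 * |(v:ℝ)|)) ^ k) := ⟨_, rfl⟩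
    have hY0 : 0 ≤ Y := by rw [hY]; exact Real.sqrt_nonneg _
    obtain ⟨uv, huvd⟩ : ∃ uv : ℝ, uv = |(u:ℝ)| * |(v:ℝ)| := ⟨_, rfl⟩
    have huv0 : 0 < uv := by rw [huvd]; positivity
    rw [← huvd]
    have he : ∀ e ∈ eb s.2, ∑ t ∈ F, (if (u • e ∈ Bx c0 s.2 ∧ v • e ∈ Bx c0 t.2) then
        (2:ℝ) ^ (MM s 0) * 2 ^ (MM t 0) / uv else 0) ≤
        if u • e ∈ Bx c0 s.2 then A * (A * Y) / uv * c4 else 0 := by
      intro e _
      by_cases h1 : u • e ∈ Bx c0 s.2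
      · rw [if_pos h1]
        have h2 : ∑ t ∈ F, (if (u • e ∈ Bx c0 s.2 ∧ v • e ∈ Bx c0 t.2) then
            (2:ℝ) ^ (MM s 0) * 2 ^ (MM t 0) / uv else 0) =
            ∑ t ∈ F.filter (fun t => v • e ∈ Bx c0 t.2), A * 2 ^ (MM t 0) / uv := by
          rw [Finset.sum_filter]
          apply Finset.sum_congr rfl; intro t _
          by_cases h3 : v • e ∈ Bx c0 t.2
          · rw [if_pos ⟨h1, h3⟩, if_pos h3, hA]
          · rw [if_neg (fun h => h3 h.2), if_neg h3]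
        rw [h2]
        calc ∑ t ∈ F.filter (fun t => v • e ∈ Bx c0 t.2), A * 2 ^ (MM t 0) / uv ≤
            ∑ t ∈ F.filter (fun t => v • e ∈ Bx c0 t.2), A * (A * Y) / uv * (3/4) ^ (TT s - TT t) := by
              apply Finset.sum_le_sum
              intro t ht
              rw [Finset.mem_filter] at ht
              have h3 := B_bound c0 hc0 s t hs (hF t ht.1).1 (hF t ht.1).2 u v hu0 hv0 e h1 ht.2
              rw [← hY, ← hA] at h3
              calc A * 2 ^ (MM t 0) / uv ≤ A * (A * Y * (3/4) ^ (TT s - TT t)) / uv := by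
                    gcongr
                _ = _ := by ring
          _ = A * (A * Y) / uv * ∑ t ∈ F.filter (fun t => v • e ∈ Bx c0 t.2), ((3:ℝ)/4) ^ (TT s - TT t) := by
              rw [Finset.mul_sum]
          _ ≤ _ := by
              rw [hc4]
              have h3 := t_sum κ c0 hc0 hκ (TT s) (v • e) (F.filter (fun t => v • e ∈ Bx c0 t.2)) (by
                intro t ht
                rw [Finset.mem_filter] at ht
                exact ⟨(hF t ht.1).1, (hF t ht.1).2, ht.2⟩)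
              gcongr
      · rw [if_neg h1]
        apply le_of_eq
        apply Finset.sum_eq_zero
        intro t _
        rw [if_neg (fun h => h1 h.1)]
    refine (Finset.sum_le_sum he).trans ?_
    rw [← Finset.sum_filter, Finset.sum_const, nsmul_eq_mul]
    have hce := card_e c0 hc0 s.2 u hu0
    have huv := uv_bound hk c0 hc0 u v hu0 hv0
    rw [← hY, ← hS, ← huvd] at huv
    have hsg : (2:ℝ) ^ (∑ i, s.2 i) = 2 ^ (sg s) := rfl
    rw [hsg, ← hk2] at hce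
    calc (((eb s.2).filter (fun e => u • e ∈ Bx c0 s.2)).card : ℝ) * (A * (A * Y) / uv * c4)
        ≤ (k2 * 2 ^ (sg s) / |(u:ℝ)| ^ k) * (A * (A * Y) / uv * c4) := by
          gcongr
      _ = (k2 * c4 * (A * A * 2 ^ (sg s))) * (Y / (|(u:ℝ)| ^ k * uv)) := by
          field_simp
      _ ≤ (k2 * c4 * (A * A * 2 ^ (sg s))) * (S * (g3 u * g3 v)) := by
          gcongr
      _ = _ := by rw [eA]; ring
  calc _ ≤ ∑ u ∈ Zs (2 ^ TT s), ∑ v ∈ Zs (2 ^ TT s),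
        (k2 * c4 * S * 2 ^ (TT s)) * (g3 u * g3 v) :=
        Finset.sum_le_sum fun u hu => Finset.sum_le_sum fun v hv => hinner u hu v hv
    _ = (k2 * c4 * S * 2 ^ (TT s)) *
        ((∑ u ∈ Zs (2 ^ TT s), g3 u) * ∑ v ∈ Zs (2 ^ TT s), g3 v) := by
        rw [Finset.sum_mul_sum, Finset.mul_sum]
        apply Finset.sum_congr rfl; intro u _
        rw [Finset.mul_sum]
    _ ≤ (k2 * c4 * S * 2 ^ (TT s)) * (6 * 6) := by
        have h1 := g3_sum (2 ^ TT s)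
        have h0 : 0 ≤ ∑ u ∈ Zs (2 ^ TT s), g3 (u:ℝ) := Finset.sum_nonneg (fun _ _ => g3_nonneg _)
        gcongr
    _ = _ := by ring

end MDiv
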