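import Mathlib
import Pool.Agent.Hhelper92.Mult.XSum2
import Pool.Agent.Hhelper92.Mult.PairCount
import Pool.Agent.Hhelper92.Mult.Diverge

set_option autoImplicit false

/-!
Unified statement on close pairs, including the case of linear polynomials.
-/

namespace MDiv

open Finset

variable {k : ℕ}

/-- the conclusion on close pairs for given data -/
def NearProp (k : ℕ) (κ : ℕ) (c0 C1 : ℝ) (X : Shp k → Shp k → ℝ) : Prop :=
  (∀ s t, 0 ≤ X s t) ∧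
  (∀ s : Shp k, sg s ≤ s.1 → ∀ F : Finset (Shp k), (∀ t ∈ F, sg t ≤ t.1 ∧ TT t ≤ TT s) →
    ∑ t ∈ F, X s t ≤ C1 * 2 ^ (TT s)) ∧
  (∀ X1 : ℕ, 1 ≤ X1 → ∀ δ : ℝ, 0 < δ →
    ∃ u0 : ℕ, ∀ α β : ℝ, -(X1:ℝ) ≤ α → β ≤ X1 → δ ≤ β - α → ∀ s t : Shp k,
      Hk k * sg s ≤ s.1 → Hk k * sg t ≤ t.1 → TT t ≤ TT s → TT s - TT t ≤ uu s → u0 ≤ uu s →
      1 ≤ 2 ^ (TT t) * (β - α) →
      ∀ ρ : ℝ, 1 / 2 ^ (TT s + uu s) ≤ ρ → ρ ≤ 2 / 2 ^ (TT s) → ∀ R R' : Finset ℝ,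
      (∀ x ∈ R, ∀ y ∈ R, |x - y| < 1 / 2 ^ (TT s) → x = y) →
      (∀ x ∈ R', ∀ y ∈ R', |x - y| < 1 / 2 ^ (TT t) → x = y) →
      (∀ x ∈ R, α + δ ≤ x ∧ x ≤ β - δ ∧ Good (lev s) x ∧ Good (lev s * 2 ^ (1040 * uu s)) x ∧
        Good (lev s * 2 ^ (2040 * uu s)) x ∧ ∃ w a0, RootOK (MM s) c0 w a0 x) →
      (∀ y ∈ R', α ≤ y ∧ y ≤ β ∧ ∃ w a0, RootOK (MM t) c0 w a0 y) →
      ((prs R R' ρ).card : ℝ) ≤ C1 * (β - α) * (ρ * (2 ^ (TT s) * 2 ^ (TT t)) + X s t))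

lemma sum_pow_two (N : ℕ) : ∑ j ∈ Finset.range (N + 1), (2:ℝ) ^ j ≤ 2 * 2 ^ N := by
  rw [geom_sum_eq (by norm_num)]
  rw [pow_succ]
  have : (0:ℝ) < 2 ^ N := by positivity
  norm_num
  linarith

theorem near_prop_exists (k : ℕ) (κ : ℕ) (c0 : ℝ) (hc0 : 0 < c0) (hc1 : c0 ≤ 1) (hκ : 1 ≤ c0 * 2 ^ κ) :
    ∃ C1 : ℝ, 0 ≤ C1 ∧ ∃ X : Shp k → Shp k → ℝ, NearProp k κ c0 C1 X := by
  rcases Nat.eq_zero_or_pos k with hk | hk
  · subst hk
    have hsg0 : ∀ s : Shp 0, sg s = 0 := by intro s; unfold sg; simp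
    have hTT : ∀ s : Shp 0, TT s = 2 * s.1 := by
      intro s
      unfold TT
      rw [MM_zero, hsg0]; omega
    refine ⟨4, by norm_num, fun _ t => 2 ^ (TT t), ?_, ?_, ?_⟩
    · intro s t; positivity
    · intro s _ F hF
      have hinj : Set.InjOn (fun t : Shp 0 => TT t) (F : Set (Shp 0)) := by
        intro t _ t' _ he
        have he' : TT t = TT t' := he
        rw [hTT, hTT] at he'
        exact Prod.ext (by omega) (Subsingleton.elim _ _)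
      calc ∑ t ∈ F, (2:ℝ) ^ (TT t) = ∑ j ∈ F.image (fun t : Shp 0 => TT t), (2:ℝ) ^ j := by
            rw [Finset.sum_image hinj]
        _ ≤ ∑ j ∈ Finset.range (TT s + 1), (2:ℝ) ^ j := by
            apply Finset.sum_le_sum_of_subset_of_nonneg
            · intro j hj
              rw [Finset.mem_image] at hj
              obtain ⟨t, ht, rfl⟩ := hj
              rw [Finset.mem_range]
              have := (hF t ht).2
              omega
            · intro _ _ _; positivity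
        _ ≤ 2 * 2 ^ (TT s) := sum_pow_two _
        _ ≤ 4 * 2 ^ (TT s) := by gcongr; norm_num
    · intro X1 _ δ hδ
      refine ⟨0, ?_⟩
      intro α β _ _ hδ' s t _ _ _ _ _ hTt ρ hρ1 hρ2 R R' hsep hsep' _ hR'
      have hρ0 : 0 < ρ := lt_of_lt_of_le (by positivity) hρ1
      have h1 := prs_sep R R' ρ (1 / 2 ^ (TT s)) (by positivity) hρ0.le hsep
      have h2 : 2 * ρ / (1 / 2 ^ (TT s)) = 2 * (ρ * 2 ^ (TT s)) := by field_simp
      rw [h2] at h1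
      have h3 := card_sep_real R' α (β - α) (1 / 2 ^ (TT t)) (by positivity) (by
        intro x hx
        obtain ⟨a1, a2, _⟩ := hR' x hx
        constructor <;> linarith) (by linarith) hsep'
      have h4 : (β - α) / (1 / 2 ^ (TT t)) = 2 ^ (TT t) * (β - α) := by field_simp
      rw [h4] at h3
      have h5 : (R'.card : ℝ) ≤ 2 * (2 ^ (TT t) * (β - α)) := by linarith
      calc ((prs R R' ρ).card : ℝ) ≤ R'.card * (2 * (ρ * 2 ^ (TT s)) + 1) := h1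
        _ ≤ (2 * (2 ^ (TT t) * (β - α))) * (2 * (ρ * 2 ^ (TT s)) + 1) := by gcongr
        _ = 4 * (β - α) * (ρ * (2 ^ (TT s) * 2 ^ (TT t))) + 2 * ((β - α) * 2 ^ (TT t)) := by ring
        _ ≤ 4 * (β - α) * (ρ * (2 ^ (TT s) * 2 ^ (TT t)) + 2 ^ (TT t)) := by
          have h6 : 0 ≤ (β - α) * 2 ^ (TT t) := by
            have : 0 ≤ β - α := by linarith
            positivity
          nlinarith
  · obtain ⟨C, hC0, hC⟩ := X_sum hk κ c0 hc0 hκ
    refine ⟨10 ^ 28 * 9 ^ k + C, by positivity, XX c0, XX_nonneg c0, ?_, ?_⟩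
    · intro s hs F hF
      refine (hC s hs F hF).trans ?_
      have : (0:ℝ) ≤ 10 ^ 28 * 9 ^ k := by positivity
      gcongr
      linarith
    · intro X1 hX1 δ hδ
      obtain ⟨u0, hu0⟩ := pair_count hk X1 hX1 κ c0 hc0 hc1 hκ δ hδ
      refine ⟨u0, ?_⟩
      intro α β hα hβ hδ' s t hs ht hts hτ hu _ ρ hρ1 hρ2 R R' _ _ hR hR'
      have h1 := hu0 α β hα hβ hδ' s t hs ht hts hτ hu ρ hρ1 hρ2 R R' hR hR'
      refine h1.trans ?_
      have hρ0 : 0 < ρ := lt_of_lt_of_le (by positivity) hρ1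
      have hβα : 0 ≤ β - α := by linarith
      have hX := XX_nonneg c0 s t
      have h9 : (1:ℝ) ≤ 9 ^ k := one_le_pow₀ (by norm_num)
      have hP : 0 ≤ (2:ℝ) ^ (TT s) * 2 ^ (TT t) * ρ := by positivity
      calc 10 ^ 28 * (β - α) * (9 ^ k * (2 ^ (TT s) * 2 ^ (TT t)) * ρ + XX c0 s t)
          ≤ 10 ^ 28 * (β - α) * (9 ^ k * (2 ^ (TT s) * 2 ^ (TT t) * ρ) + 9 ^ k * XX c0 s t) := by
            have e : 9 ^ k * (2 ^ (TT s) * 2 ^ (TT t)) * ρ = 9 ^ k * (2 ^ (TT s) * 2 ^ (TT t) * ρ) := by ring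
            rw [e]
            have : XX c0 s t ≤ 9 ^ k * XX c0 s t := le_mul_of_one_le_left hX h9
            gcongr
        _ = (10 ^ 28 * 9 ^ k) * ((β - α) * (ρ * (2 ^ (TT s) * 2 ^ (TT t)) + XX c0 s t)) := by ring
        _ ≤ (10 ^ 28 * 9 ^ k + C) * ((β - α) * (ρ * (2 ^ (TT s) * 2 ^ (TT t)) + XX c0 s t)) := by
            apply mul_le_mul_of_nonneg_right _ (by positivity)
            linarith
        _ = _ := by ring

/-- growth -/
lemma growth (k : ℕ) : ∃ u0 : ℕ, ∀ u : ℕ, u0 ≤ u → 4 * ((Hk k * (u + 1) : ℕ) : ℝ) ^ (k+2) ≤ 2 ^ u := by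
  have h1 := tendsto_pow_const_div_const_pow_of_one_lt (k+2) (by norm_num : (1:ℝ) < 2)
  have hH : (0:ℝ) < (Hk k : ℝ) := by
    have : 0 < Hk k := by unfold Hk; omega
    exact_mod_cast this
  have h2 := h1.eventually_lt_const (show (0:ℝ) < 1 / (8 * (Hk k : ℝ) ^ (k+2)) by positivity)
  obtain ⟨N, hN⟩ := h2.exists_forall_of_atTop
  refine ⟨N, fun u hu => ?_⟩
  have h3 := hN (u+1) (by omega)
  rw [div_lt_div_iff₀ (by positivity) (by positivity), one_mul] at h3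
  push_cast at h3 ⊢
  rw [mul_pow]
  have e : (2:ℝ) ^ (u+1) = 2 * 2 ^ u := by ring
  rw [e] at h3
  nlinarith

end MDiv
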