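import Mathlib
import Pool.Agent.Hhelper92.Mult.Ubi3

set_option autoImplicit false

/-!
The exceptional set of small coefficients has small measure.
-/

namespace MDiv

open Finset MeasureTheory

variable {k : ℕ}

lemma ball_bound {α β X0 : ℝ} (hα : -X0 ≤ α) (hβ : β ≤ X0) {x : ℝ} (h1 : α ≤ x) (h2 : x ≤ β) :
    |x| ≤ X0 := by rw [abs_le]; constructor <;> linarith

theorem bad_coef (k X1 : ℕ) (hX1 : 1 ≤ X1) (α β : ℝ) (hα : -(X1:ℝ) ≤ α) (hαβ : α < β) (hβ : β ≤ X1)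
    (c0 : ℝ) (hc0 : 0 < c0) (hc1 : 330 * ((k:ℝ) + 1) * 3 ^ (k+1) * c0 ≤ 1) :
    ∃ L0 : ℕ, ∀ L : ℕ, L0 ≤ L → ∀ M : Fin (k+1) → ℕ, ∑ i, M i = L → (∀ i, 1 ≤ c0 * 2 ^ (M i)) →
      6 * (k+1) * ∑ i : Fin k, M i.succ ≤ L →
      volume {x : ℝ | α ≤ x ∧ x ≤ β ∧ ∃ w : Fin (k+1) → ℤ, w ≠ 0 ∧ (∀ i, |w i| ≤ 2 ^ (M i)) ∧
        (∃ j, |(w j : ℝ)| < c0 * 2 ^ (M j)) ∧ ∃ a0 : ℤ, |G w x + a0| < 1 / 2 ^ L} ≤
        ENNReal.ofReal ((β - α) / 5) := by
  classical
  set δ := β - α with hδ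
  have hδ0 : 0 < δ := by rw [hδ]; linarith
  have hX1' : (1:ℝ) ≤ X1 := by exact_mod_cast hX1
  set K := K0 k X1 with hK
  have hK1 : 1 ≤ K := K0_pos k _ hX1'
  obtain ⟨Kn, hKn⟩ := exists_nat_gt (2 * K + 24 / δ + 1)
  have h24 : 0 < 24 / δ := by positivity
  have hKn1 : (1:ℝ) ≤ Kn := by linarith
  set C : ℝ := 3 * Kn * 3 ^ k * (2 * (X1 * Kn + K) + 3) * ((k:ℝ) + 1) * 2 with hC
  have hC0 : 0 ≤ C := by rw [hC]; positivity
  obtain ⟨ν', hν'⟩ := pow_unbounded_of_one_lt (10 * C / δ) (by norm_num : (1:ℝ) < 2)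
  obtain ⟨ν, hν⟩ := pow_unbounded_of_one_lt (((k+2).factorial : ℕ) : ℝ) (by norm_num : (1:ℝ) < 2)
  refine ⟨2 * ((k+1) * ν' + ν), ?_⟩
  intro L hL M hM hMc hMσ
  set σ := ∑ i : Fin k, M i.succ with hσ
  set V : ℝ := 2 ^ σ with hV
  have hV1 : 1 ≤ V := one_le_pow₀ (by norm_num)
  set ε : ℝ := 1 / 2 ^ L with hε
  have hε0 : 0 < ε := by positivity
  have hε1 : ε ≤ 1 := by
    rw [hε, div_le_one (by positivity)]; exact one_le_pow₀ (by norm_num)
  set B1 : ℕ := Kn * 2 ^ σ with hB1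
  have hB1r : (B1:ℝ) = Kn * V := by rw [hB1]; push_cast; rfl
  have hKnN : 1 ≤ Kn := by exact_mod_cast hKn1
  have hB1n : 1 ≤ B1 := Nat.mul_pos hKnN (by positivity)
  set S := cb M with hS
  set Va := (S.filter (fun w => ∃ j, |(w j : ℝ)| < c0 * 2 ^ (M j))).filter (fun w => (B1:ℝ) ≤ |(w 0 : ℝ)|) with hVa
  set Vb := (S.filter (fun w => |(w 0 : ℝ)| < B1)).filter (fun w => w ≠ 0) with hVb
  have htl : ∀ w ∈ S, ∀ i, |(tl w i : ℝ)| ≤ V := by
    intro w hw i
    rw [hS, mem_cb] at hw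
    have h1 := hw i.succ
    have h2 : |((w i.succ : ℤ) : ℝ)| ≤ 2 ^ (M i.succ) := by exact_mod_cast h1
    refine h2.trans ?_
    rw [hV]
    apply pow_le_pow_right₀ (by norm_num)
    rw [hσ]
    exact Finset.single_le_sum (f := fun i : Fin k => M i.succ) (fun _ _ => Nat.zero_le _) (Finset.mem_univ i)
  have hcover : {x : ℝ | α ≤ x ∧ x ≤ β ∧ ∃ w : Fin (k+1) → ℤ, w ≠ 0 ∧ (∀ i, |w i| ≤ 2 ^ (M i)) ∧
        (∃ j, |(w j : ℝ)| < c0 * 2 ^ (M j)) ∧ ∃ a0 : ℤ, |G w x + a0| < ε} ⊆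
      (⋃ w ∈ Va, Aset α β ε w) ∪ (⋃ w ∈ Vb, Aset α β ε w) := by
    rintro x ⟨h1, h2, w, hw0, hwM, hws, a0, h3⟩
    have hwS : w ∈ S := mem_cb.mpr hwM
    by_cases hb : (B1:ℝ) ≤ |(w 0 : ℝ)|
    · left
      refine Set.mem_iUnion₂.mpr ⟨w, ?_, ⟨h1, h2, a0, h3⟩⟩
      rw [hVa, Finset.mem_filter, Finset.mem_filter]
      exact ⟨⟨hwS, hws⟩, hb⟩
    · right
      refine Set.mem_iUnion₂.mpr ⟨w, ?_, ⟨h1, h2, a0, h3⟩⟩
      rw [hVb, Finset.mem_filter, Finset.mem_filter]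
      exact ⟨⟨hwS, not_le.mp hb⟩, hw0⟩
  -- first part
  have hpa : volume (⋃ w ∈ Va, Aset α β ε w) ≤ ENNReal.ofReal (δ / 10) := by
    calc volume (⋃ w ∈ Va, Aset α β ε w) ≤ ∑ w ∈ Va, volume (Aset α β ε w) := measure_biUnion_finset_le _ _
      _ ≤ ∑ _w ∈ Va, ENNReal.ofReal (33 * ε * δ) := by
          apply Finset.sum_le_sum
          intro w hw
          rw [hVa, Finset.mem_filter, Finset.mem_filter] at hw
          have hw0 : (Kn:ℝ) * V ≤ |(w 0 : ℝ)| := by rw [← hB1r]; exact hw.2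
          have hKnV : (Kn:ℝ) ≤ Kn * V := le_mul_of_one_le_right (by linarith) hV1
          have h2K : 2 * (K * V) ≤ Kn * V := by
            have : 2 * K * V ≤ Kn * V := by
              apply mul_le_mul_of_nonneg_right _ (by linarith)
              linarith
            linarith
          exact vol_A_mono w (by linarith) (htl w hw.1.1) hX1' hα hαβ hβ (by linarith) (by linarith) hε0 hε1
      _ = ENNReal.ofReal ((Va.card : ℝ) * (33 * ε * δ)) := by
          rw [Finset.sum_const, nsmul_eq_mul, ← ENNReal.ofReal_natCast, ← ENNReal.ofReal_mul (by positivity)]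
      _ ≤ ENNReal.ofReal (δ / 10) := by
          apply ENNReal.ofReal_le_ofReal
          have h1 : (Va.card : ℝ) ≤ ((k:ℝ) + 1) * (c0 * 3 ^ (k+1) * 2 ^ L) := by
            have h2 := card_small M c0 hc0 hMc
            rw [hM] at h2
            refine le_trans ?_ h2
            exact Nat.cast_le.mpr (Finset.card_filter_le _ _)
          calc (Va.card : ℝ) * (33 * ε * δ) ≤ (((k:ℝ) + 1) * (c0 * 3 ^ (k+1) * 2 ^ L)) * (33 * ε * δ) := by gcongr
            _ = (330 * ((k:ℝ) + 1) * 3 ^ (k+1) * c0) * (δ / 10) := by rw [hε]; field_simp; ring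
            _ ≤ 1 * (δ / 10) := by gcongr
            _ = _ := one_mul _
  -- second part
  have hpb : volume (⋃ w ∈ Vb, Aset α β ε w) ≤ ENNReal.ofReal (δ / 10) := by
    set τ : ℝ := 1 / 2 ^ (3 * σ + ν') with hτ
    have hτ0 : 0 < τ := by positivity
    have hτ1 : τ ≤ 1 := by
      rw [hτ, div_le_one (by positivity)]; exact one_le_pow₀ (by norm_num)
    set Bd : ℝ := (X1 * Kn + K) * V with hBd
    have hBd0 : 0 ≤ Bd := by positivity
    have hNε : ((k+2).factorial : ℝ) * ε ≤ τ ^ (k+1) := by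
      have h1 : (k+1) * (3 * σ + ν') + ν ≤ L := by
        have e1 : 6 * (k+1) * σ = 2 * ((k+1) * (3 * σ)) := by ring
        rw [e1] at hMσ
        have e2 : (k+1) * (3 * σ + ν') = (k+1) * (3 * σ) + (k+1) * ν' := by ring
        rw [e2]
        omega
      calc ((k+2).factorial : ℝ) * ε ≤ 2 ^ ν * ε := by gcongr
        _ ≤ τ ^ (k+1) := by
          rw [hε, hτ, one_div_pow, ← pow_mul, mul_one_div, div_le_div_iff₀ (by positivity) (by positivity),
            one_mul, ← pow_add]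
          apply pow_le_pow_right₀ (by norm_num)
          have : (3 * σ + ν') * (k+1) = (k+1) * (3 * σ + ν') := by ring
          rw [this]; omega
    calc volume (⋃ w ∈ Vb, Aset α β ε w) ≤ ∑ w ∈ Vb, volume (Aset α β ε w) := measure_biUnion_finset_le _ _
      _ ≤ ∑ _w ∈ Vb, ENNReal.ofReal ((2 * Bd + 3) * ((k:ℝ) + 1) * (2 * τ)) := by
          apply Finset.sum_le_sum
          intro w hw
          rw [hVb, Finset.mem_filter, Finset.mem_filter] at hw
          obtain ⟨⟨hwS, hwB⟩, hwne⟩ := hw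
          apply vol_A_sub w hwne Bd τ hBd0 _ hτ0 hτ1 hNε hε1
          intro x hx1 hx2
          have hxa : |x| ≤ X1 := ball_bound hα hβ hx1 hx2
          have h1 := ev_abs_le (by linarith : (0:ℝ) ≤ V) (htl w hwS) hX1' hxa
          unfold G
          calc |(w 0 : ℝ) * x + ev (tl w) x| ≤ |(w 0 : ℝ) * x| + |ev (tl w) x| := abs_add_le _ _
            _ ≤ (Kn * V) * X1 + K * V := by
              rw [abs_mul]
              rw [hB1r] at hwB
              gcongr
            _ = _ := by rw [hBd]; ring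
      _ = ENNReal.ofReal ((Vb.card : ℝ) * ((2 * Bd + 3) * ((k:ℝ) + 1) * (2 * τ))) := by
          rw [Finset.sum_const, nsmul_eq_mul, ← ENNReal.ofReal_natCast, ← ENNReal.ofReal_mul (by positivity)]
      _ ≤ ENNReal.ofReal (δ / 10) := by
          apply ENNReal.ofReal_le_ofReal
          have h1 : (Vb.card : ℝ) ≤ 3 * B1 * (3 ^ k * V) := by
            refine le_trans ?_ (card_head M B1 hB1n)
            exact Nat.cast_le.mpr (Finset.card_filter_le _ _)
          rw [hB1r] at h1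
          have h2 : 2 * Bd + 3 ≤ (2 * (X1 * Kn + K) + 3) * V := by
            rw [hBd]; nlinarith
          calc (Vb.card : ℝ) * ((2 * Bd + 3) * ((k:ℝ) + 1) * (2 * τ)) ≤
              (3 * (Kn * V) * (3 ^ k * V)) * (((2 * (X1 * Kn + K) + 3) * V) * ((k:ℝ) + 1) * (2 * τ)) := by gcongr
            _ = C * (V ^ 3 * τ) := by rw [hC]; ring
            _ = C / 2 ^ ν' := by
                rw [hV, hτ, ← pow_mul, pow_add]
                have : σ * 3 = 3 * σ := by ring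
                rw [this]
                field_simp
            _ ≤ δ / 10 := by
                rw [div_le_iff₀ (by positivity)]
                rw [div_lt_iff₀ hδ0] at hν'
                linarith
  calc _ ≤ volume ((⋃ w ∈ Va, Aset α β ε w) ∪ (⋃ w ∈ Vb, Aset α β ε w)) := measure_mono hcover
    _ ≤ volume (⋃ w ∈ Va, Aset α β ε w) + volume (⋃ w ∈ Vb, Aset α β ε w) := measure_union_le _ _
    _ ≤ ENNReal.ofReal (δ / 10) + ENNReal.ofReal (δ / 10) := add_le_add hpa hpb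
    _ = ENNReal.ofReal (δ / 5) := by
        rw [← ENNReal.ofReal_add (by positivity) (by positivity)]; congr 1; ring

end MDiv
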