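import Mathlib
import Pool.Agent.Hhelper92.Mult.Ubi4

set_option autoImplicit false

/-!
The ubiquity statement: many well separated, well placed roots.
-/

namespace MDiv

open Finset MeasureTheory

variable {k : ℕ}

lemma good_of_goodS {Λ : ℕ} {ξ x r : ℝ} (hΛ : 0 < Λ) (h : GoodS Λ ξ) (hr : |x - ξ| ≤ r)
    (hΛr : (Λ:ℝ)^2 * r ≤ 1) : Good Λ x := by
  obtain ⟨g, h1, h2, h3, h4, h5, h6, h7⟩ := h
  refine ⟨g, h1, h2, h3, h4, h5, h6, ?_⟩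
  have hΛ' : (0:ℝ) < Λ := by exact_mod_cast hΛ
  have hr0 : 0 ≤ r := (abs_nonneg _).trans hr
  have h2' : (0:ℝ) ≤ g.a := by exact_mod_cast (by omega : 0 ≤ g.a)
  have h3' : (g.a:ℝ) ≤ Λ := by exact_mod_cast h3
  calc |(g.a:ℝ) * x + g.b| = |((g.a:ℝ) * ξ + g.b) + g.a * (x - ξ)| := by congr 1; ring
    _ ≤ |(g.a:ℝ) * ξ + g.b| + |(g.a:ℝ) * (x - ξ)| := abs_add_le _ _
    _ ≤ 1 / Λ + Λ * r := by
        rw [abs_mul, abs_of_nonneg h2']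
        gcongr
    _ ≤ 1 / Λ + 1 / Λ := by
        have : (Λ:ℝ) * r ≤ 1 / Λ := by
          rw [le_div_iff₀ hΛ']
          calc (Λ:ℝ) * r * Λ = (Λ:ℝ)^2 * r := by ring
            _ ≤ 1 := hΛr
        linarith
    _ = 2 / Λ := by ring

lemma c0_le_one {c0 : ℝ} (hc0 : 0 < c0) (hc1 : 330 * ((k:ℝ) + 1) * 3 ^ (k+1) * c0 ≤ 1) : c0 ≤ 1 := by
  have h2 : (1:ℝ) ≤ 3 ^ (k+1) := one_le_pow₀ (by norm_num)
  have h3 : (1:ℝ) ≤ 330 * ((k:ℝ) + 1) := by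
    have : (0:ℝ) ≤ k := Nat.cast_nonneg k
    linarith
  have h1 : (1:ℝ) ≤ 330 * ((k:ℝ) + 1) * 3 ^ (k+1) := one_le_mul_of_one_le_of_one_le h3 h2
  exact (le_mul_of_one_le_left hc0.le h1).trans hc1

theorem ubiquity (k X1 : ℕ) (hX1 : 1 ≤ X1) (α β : ℝ) (hα : -(X1:ℝ) ≤ α) (hαβ : α < β) (hβ : β ≤ X1)
    (c0 : ℝ) (hc0 : 0 < c0) (hc1 : 330 * ((k:ℝ) + 1) * 3 ^ (k+1) * c0 ≤ 1) :
    ∃ L0 : ℕ, ∀ L : ℕ, L0 ≤ L → ∀ M : Fin (k+1) → ℕ, ∑ i, M i = L → (∀ i, 1 ≤ c0 * 2 ^ (M i)) →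
      6 * (k+1) * ∑ i : Fin k, M i.succ ≤ L →
      ∀ Λ1 Λ2 Λ3 : ℕ, L0 ≤ Λ1 → L0 ≤ Λ2 → L0 ≤ Λ3 → (Λ1:ℝ)^2 * 2 ≤ c0 * 2 ^ (L + M 0) →
      (Λ2:ℝ)^2 * 2 ≤ c0 * 2 ^ (L + M 0) → (Λ3:ℝ)^2 * 2 ≤ c0 * 2 ^ (L + M 0) →
      ∃ R : Finset ℝ, (∀ x ∈ R, α ≤ x ∧ x ≤ β ∧ Good Λ1 x ∧ Good Λ2 x ∧ Good Λ3 x ∧
          ∃ w a0, RootOK M c0 w a0 x) ∧
        (∀ x ∈ R, ∀ y ∈ R, |x - y| < 1 / 2 ^ (L + M 0) → x = y) ∧
        c0 / 20 * 2 ^ (L + M 0) * (β - α) ≤ R.card := by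
  classical
  obtain ⟨δ, hδ⟩ : ∃ δ, δ = β - α := ⟨_, rfl⟩
  have hδ0 : 0 < δ := by rw [hδ]; linarith
  have hX1' : (1:ℝ) ≤ X1 := by exact_mod_cast hX1
  obtain ⟨La, hLa⟩ := bad_coef k X1 hX1 α β hα hαβ hβ c0 hc0 hc1
  obtain ⟨Lb, hLb⟩ := bad_level α β hαβ
  rw [← hδ] at hLa hLb ⊢
  obtain ⟨K, hK⟩ : ∃ K, K = K0 k ((X1:ℝ) + 1) := ⟨_, rfl⟩
  have hK1 : 1 ≤ K := by rw [hK]; exact K0_pos k _ (by linarith)
  obtain ⟨n1, hn1⟩ := pow_unbounded_of_one_lt (2 * K / c0) (by norm_num : (1:ℝ) < 2)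
  obtain ⟨n2, hn2⟩ := pow_unbounded_of_one_lt (16 / δ) (by norm_num : (1:ℝ) < 2)
  refine ⟨La + Lb + 2 * n1 + n2 + 1, ?_⟩
  intro L hL M hM hMc hMσ Λ1 Λ2 Λ3 hΛ1 hΛ2 hΛ3 hΛ1' hΛ2' hΛ3'
  have hc01 : c0 ≤ 1 := c0_le_one hc0 hc1
  obtain ⟨T, hT⟩ : ∃ T, T = L + M 0 := ⟨_, rfl⟩
  rw [← hT] at hΛ1' hΛ2' hΛ3' ⊢
  obtain ⟨σ, hσ⟩ : ∃ σ : ℝ, σ = 1 / 2 ^ T := ⟨_, rfl⟩
  have hσ0 : 0 < σ := by rw [hσ]; positivity
  obtain ⟨ε, hε⟩ : ∃ ε : ℝ, ε = 1 / 2 ^ L := ⟨_, rfl⟩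
  have hε0 : 0 < ε := by rw [hε]; positivity
  obtain ⟨sm, hsm⟩ : ∃ sm : ℕ, sm = ∑ i : Fin k, M i.succ := ⟨_, rfl⟩
  have hML : M 0 + sm = L := by rw [← hM, Fin.sum_univ_succ, hsm]
  have hsmL : 6 * sm ≤ L := by
    rw [← hsm] at hMσ
    calc 6 * sm ≤ 6 * (k+1) * sm := by
          apply Nat.mul_le_mul_right; omega
      _ ≤ L := hMσ
  obtain ⟨V, hV⟩ : ∃ V : ℝ, V = 2 ^ sm := ⟨_, rfl⟩
  have hV1 : 1 ≤ V := by rw [hV]; exact one_le_pow₀ (by norm_num)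
  have hKV : 2 * (K * V) ≤ c0 * 2 ^ (M 0) := by
    have h1 : 2 * K / c0 ≤ 2 ^ (M 0 - sm) := by
      refine hn1.le.trans (pow_le_pow_right₀ (by norm_num) (by omega))
    rw [div_le_iff₀ hc0] at h1
    have h2 : (2:ℝ) ^ (M 0) = 2 ^ (M 0 - sm) * V := by
      rw [hV, ← pow_add]; congr 1; omega
    rw [h2]
    calc 2 * (K * V) = (2 * K) * V := by ring
      _ ≤ (2 ^ (M 0 - sm) * c0) * V := by gcongr
      _ = _ := by ring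
  have hεδ : 2 * ε ≤ δ / 8 := by
    have h1 : 16 / δ ≤ 2 ^ L := hn2.le.trans (pow_le_pow_right₀ (by norm_num) (by omega))
    rw [div_le_iff₀ hδ0] at h1
    rw [hε, mul_one_div, div_le_div_iff₀ (by positivity) (by norm_num)]
    linarith
  have hε1 : 2 * ε ≤ 1 := by
    rw [hε, mul_one_div, div_le_one (by positivity)]
    calc (2:ℝ) = 2^1 := by norm_num
      _ ≤ 2^L := pow_le_pow_right₀ (by norm_num) (by omega)
  set X : Set ℝ := {x | α ≤ x ∧ x ≤ β ∧ Good Λ1 x ∧ Good Λ2 x ∧ Good Λ3 x ∧ ∃ w a0, RootOK M c0 w a0 x} with hX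
  obtain ⟨R, hR1, hR2, hR3⟩ := exists_sep X α β σ hσ0 (fun x hx => ⟨hx.1, hx.2.1⟩)
  refine ⟨R, fun x hx => hR1 x hx, by rw [← hσ]; exact hR2, ?_⟩
  -- the bad set
  set Bc : Set ℝ := {x : ℝ | α ≤ x ∧ x ≤ β ∧ ∃ w : Fin (k+1) → ℤ, w ≠ 0 ∧ (∀ i, |w i| ≤ 2 ^ (M i)) ∧
        (∃ j, |(w j : ℝ)| < c0 * 2 ^ (M j)) ∧ ∃ a0 : ℤ, |G w x + a0| < 1 / 2 ^ L} with hBc
  have hvc : volume Bc ≤ ENNReal.ofReal (δ / 5) := hLa L (by omega) M hM hMc hMσ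
  have hv1 := hLb Λ1 (by omega)
  have hv2 := hLb Λ2 (by omega)
  have hv3 := hLb Λ3 (by omega)
  set B1 : Set ℝ := {x : ℝ | α ≤ x ∧ x ≤ β ∧ ¬ GoodS Λ1 x} with hB1
  set B2 : Set ℝ := {x : ℝ | α ≤ x ∧ x ≤ β ∧ ¬ GoodS Λ2 x} with hB2
  set B3 : Set ℝ := {x : ℝ | α ≤ x ∧ x ≤ β ∧ ¬ GoodS Λ3 x} with hB3
  set J : Set ℝ := {x : ℝ | α + δ/8 ≤ x ∧ x ≤ β - δ/8 ∧ ∃ y ∈ R, |x - y| ≤ 3 / c0 * σ} with hJ
  have hcov : Set.Icc (α + δ/8) (β - δ/8) ⊆ J ∪ (Bc ∪ (B1 ∪ (B2 ∪ B3))) := by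
    intro ξ hξ
    have hξα : α ≤ ξ := by linarith [hξ.1]
    have hξβ : ξ ≤ β := by linarith [hξ.2]
    by_cases hbc : ξ ∈ Bc
    · right; left; exact hbc
    by_cases hb1 : ξ ∈ B1
    · right; right; left; exact hb1
    by_cases hb2 : ξ ∈ B2
    · right; right; right; left; exact hb2
    by_cases hb3 : ξ ∈ B3
    · right; right; right; right; exact hb3
    left
    have hg1 : GoodS Λ1 ξ := by by_contra h; exact hb1 ⟨hξα, hξβ, h⟩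
    have hg2 : GoodS Λ2 ξ := by by_contra h; exact hb2 ⟨hξα, hξβ, h⟩
    have hg3 : GoodS Λ3 ξ := by by_contra h; exact hb3 ⟨hξα, hξβ, h⟩
    obtain ⟨w, hw0, hwM, a0, ha0⟩ := dirichlet_poly M ξ
    rw [hM, ← hε] at ha0
    have hwc : ∀ j, c0 * 2 ^ (M j) ≤ |(w j : ℝ)| := by
      intro j
      by_contra h
      push Not at h
      exact hbc ⟨hξα, hξβ, w, hw0, hwM, ⟨j, h⟩, a0, hε ▸ ha0⟩
    have hwM' : ∀ i, |(w i : ℝ)| ≤ 2 ^ (M i) := by intro i; exact_mod_cast hwM i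
    have htl : ∀ i, |(tl w i : ℝ)| ≤ V := by
      intro i
      refine (hwM' i.succ).trans ?_
      rw [hV]
      apply pow_le_pow_right₀ (by norm_num)
      rw [hsm]
      exact Finset.single_le_sum (f := fun i : Fin k => M i.succ) (fun _ _ => Nat.zero_le _) (Finset.mem_univ i)
    have hw01 : 1 ≤ |(w 0 : ℝ)| := (hMc 0).trans (hwc 0)
    have hw0ne : w 0 ≠ 0 := by
      intro h
      rw [h] at hw01
      norm_num at hw01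
    have hw0pos : 0 < |(w 0 : ℝ)| := by linarith
    have hrle : 2 * ε / |(w 0 : ℝ)| ≤ 2 * ε := div_le_self (by positivity) hw01
    have hξabs : |ξ| ≤ X1 := ball_bound hα hβ hξα hξβ
    obtain ⟨x, hx0, hxξ⟩ := root_near (by linarith : (0:ℝ) ≤ V) htl (by linarith : (1:ℝ) ≤ (X1:ℝ) + 1)
      (hK ▸ hKV.trans (hwc 0)) hw0ne hε0 (by linarith) ha0.le
    have hrσ : 2 * ε / |(w 0 : ℝ)| ≤ 2 / c0 * σ := by
      rw [div_le_iff₀ hw0pos]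
      calc 2 * ε = 2 / c0 * σ * (c0 * 2 ^ (M 0)) := by
            rw [hε, hσ, hT, pow_add]; field_simp
        _ ≤ 2 / c0 * σ * |(w 0 : ℝ)| := by
            have := hwc 0
            gcongr
    have hxξ2 : |x - ξ| ≤ 2 * ε := hxξ.trans hrle
    have hxαβ : α ≤ x ∧ x ≤ β := by
      rw [abs_le] at hxξ2
      constructor
      · linarith [hξ.1]
      · linarith [hξ.2]
    have hΛc : ∀ Λ : ℕ, (Λ:ℝ)^2 * 2 ≤ c0 * 2 ^ T → (Λ:ℝ)^2 * (2 / c0 * σ) ≤ 1 := by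
      intro Λ h
      have e : (Λ:ℝ)^2 * (2 / c0 * σ) = ((Λ:ℝ)^2 * 2) / (c0 * 2 ^ T) := by rw [hσ]; field_simp
      rw [e, div_le_one (by positivity)]
      exact h
    have hxX : x ∈ X := by
      refine ⟨hxαβ.1, hxαβ.2, ?_, ?_, ?_, w, a0, hx0, hwM', hwc⟩
      · exact good_of_goodS (by omega) hg1 (hxξ.trans hrσ) (hΛc _ hΛ1')
      · exact good_of_goodS (by omega) hg2 (hxξ.trans hrσ) (hΛc _ hΛ2')
      · exact good_of_goodS (by omega) hg3 (hxξ.trans hrσ) (hΛc _ hΛ3')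
    obtain ⟨y, hyR, hxy⟩ := hR3 x hxX
    refine ⟨hξ.1, hξ.2, y, hyR, ?_⟩
    have h1 : σ ≤ 1 / c0 * σ :=
      le_mul_of_one_le_left hσ0.le (by rw [le_div_iff₀ hc0, one_mul]; exact hc01)
    calc |ξ - y| = |(x - y) - (x - ξ)| := by congr 1; ring
      _ ≤ |x - y| + |x - ξ| := abs_sub _ _
      _ ≤ 1 / c0 * σ + 2 / c0 * σ := by
        have := hxξ.trans hrσ
        linarith
      _ = 3 / c0 * σ := by ring
  have hvJ : volume J ≤ ENNReal.ofReal (∑ _y ∈ R, 2 * (3 / c0 * σ)) :=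
    vol_cover J R (fun y => y) (fun _ => 3 / c0 * σ) (fun _ _ => by positivity) (fun x hx => hx.2.2)
  have h1 : ENNReal.ofReal (3 * δ / 4) ≤ ENNReal.ofReal ((∑ _y ∈ R, 2 * (3 / c0 * σ)) + (δ / 5 + (δ / 25 + (δ / 25 + δ / 25)))) := by
    have hs0 : 0 ≤ ∑ _y ∈ R, 2 * (3 / c0 * σ) := Finset.sum_nonneg (fun _ _ => by positivity)
    calc ENNReal.ofReal (3 * δ / 4) = volume (Set.Icc (α + δ/8) (β - δ/8)) := by
          rw [Real.volume_Icc]; congr 1; rw [hδ]; ring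
      _ ≤ volume (J ∪ (Bc ∪ (B1 ∪ (B2 ∪ B3)))) := measure_mono hcov
      _ ≤ volume J + (volume Bc + (volume B1 + (volume B2 + volume B3))) := by
          refine (measure_union_le _ _).trans (add_le_add le_rfl ?_)
          refine (measure_union_le _ _).trans (add_le_add le_rfl ?_)
          refine (measure_union_le _ _).trans (add_le_add le_rfl ?_)
          exact measure_union_le _ _
      _ ≤ ENNReal.ofReal (∑ _y ∈ R, 2 * (3 / c0 * σ)) + (ENNReal.ofReal (δ / 5) + (ENNReal.ofReal (δ / 25) +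
          (ENNReal.ofReal (δ / 25) + ENNReal.ofReal (δ / 25)))) := by gcongr
      _ = _ := by
          rw [← ENNReal.ofReal_add (by positivity) (by positivity), ← ENNReal.ofReal_add (by positivity) (by positivity),
            ← ENNReal.ofReal_add (by positivity) (by positivity), ← ENNReal.ofReal_add hs0 (by positivity)]
  have h2 : 3 * δ / 4 ≤ (∑ _y ∈ R, 2 * (3 / c0 * σ)) + (δ / 5 + (δ / 25 + (δ / 25 + δ / 25))) := by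
    rwa [ENNReal.ofReal_le_ofReal_iff] at h1
    have hs0 : 0 ≤ ∑ _y ∈ R, 2 * (3 / c0 * σ) := Finset.sum_nonneg (fun _ _ => by positivity)
    positivity
  rw [Finset.sum_const, nsmul_eq_mul] at h2
  have h3 : (R.card : ℝ) * (2 * (3 / c0 * σ)) = (R.card : ℝ) * 6 / (c0 * 2 ^ T) := by
    rw [hσ]; field_simp; ring
  rw [h3] at h2
  have h4 : 43 * δ / 100 ≤ (R.card : ℝ) * 6 / (c0 * 2 ^ T) := by linarith
  rw [le_div_iff₀ (by positivity)] at h4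
  have h5 : 0 ≤ c0 * 2 ^ T * δ := by positivity
  have e1 : c0 / 20 * 2 ^ T * δ = 1 / 20 * (c0 * 2 ^ T * δ) := by ring
  have e2 : 43 * δ / 100 * (c0 * 2 ^ T) = 43 / 100 * (c0 * 2 ^ T * δ) := by ring
  rw [e2] at h4
  rw [e1]
  linarith

end MDiv
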