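import Mathlib
import Pool.Agent.Hhelper92.Mult.Final1
import Pool.Agent.Hhelper92.Mult.Ubi5

set_option autoImplicit false

/-!
Lower bound for the measure of finite unions.
-/

namespace MDiv

open Finset MeasureTheory

variable {k : ℕ}

lemma Hk_pos (k : ℕ) : 0 < Hk k := by unfold Hk; omega

lemma uu_ge (s : Shp k) (n : ℕ) (h : Hk k * n ≤ s.1) : n ≤ uu s := by
  unfold uu
  rw [Nat.le_div_iff_mul_le (Hk_pos k), mul_comm]
  refine h.trans ?_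
  unfold TT; omega

lemma TT_lt (s : Shp k) : TT s ≤ Hk k * (uu s + 1) := by
  unfold uu
  exact (Nat.lt_mul_div_succ (TT s) (Hk_pos k)).le

lemma R_exists (k X1 : ℕ) (hX1 : 1 ≤ X1) (α β : ℝ) (hα : -(X1:ℝ) ≤ α) (hαβ : α < β) (hβ : β ≤ X1)
    (c0 : ℝ) (hc0 : 0 < c0) (hc1 : 330 * ((k:ℝ) + 1) * 3 ^ (k+1) * c0 ≤ 1) (κ : ℕ) (hκ : 1 ≤ c0 * 2 ^ κ) :
    ∃ N0 : ℕ, ∀ s : Shp k, N0 ≤ s.1 → (∀ i, κ ≤ s.2 i) → Hk k * sg s ≤ s.1 →
      ∃ R : Finset ℝ, (∀ x ∈ R, α ≤ x ∧ x ≤ β ∧ Good (lev s) x ∧ Good (lev s * 2 ^ (1040 * uu s)) x ∧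
        Good (lev s * 2 ^ (2040 * uu s)) x ∧ ∃ w a0, RootOK (MM s) c0 w a0 x) ∧
        (∀ x ∈ R, ∀ y ∈ R, |x - y| < 1 / 2 ^ (TT s) → x = y) ∧
        c0 / 20 * 2 ^ (TT s) * (β - α) ≤ R.card := by
  obtain ⟨L0, hL0⟩ := ubiquity k X1 hX1 α β hα hαβ hβ c0 hc0 hc1
  refine ⟨4 * L0 + 4 + Hk k * (κ + 1) + 2 * κ, ?_⟩
  intro s hs hm hadm
  have hH := Hk_pos k
  have hu : κ + 1 ≤ uu s := uu_ge s (κ + 1) (by omega)
  have hsg : sg s ≤ s.1 := by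
    calc sg s = 1 * sg s := (one_mul _).symm
      _ ≤ Hk k * sg s := Nat.mul_le_mul_right _ hH
      _ ≤ s.1 := hadm
  have hsg2 : 2 * sg s ≤ s.1 := by
    calc 2 * sg s ≤ Hk k * sg s := Nat.mul_le_mul_right _ (by unfold Hk; omega)
      _ ≤ s.1 := hadm
  have hTu : 40000 * uu s ≤ TT s := by
    have h1 := Nat.div_mul_le_self (TT s) (Hk k)
    have h2 : 40000 * uu s ≤ Hk k * uu s := Nat.mul_le_mul_right _ (by unfold Hk; omega)
    have h3 : TT s / Hk k * Hk k = Hk k * uu s := by unfold uu; ring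
    omega
  have hTs : s.1 ≤ TT s := by unfold TT; omega
  have hlev : L0 ≤ lev s := by
    unfold lev
    have h1 := Nat.lt_two_pow_self (n := TT s / 2 - 2041 * uu s)
    omega
  have h2 : L0 ≤ lev s * 2 ^ (1040 * uu s) := hlev.trans (Nat.le_mul_of_pos_right _ (by positivity))
  have h3 : L0 ≤ lev s * 2 ^ (2040 * uu s) := hlev.trans (Nat.le_mul_of_pos_right _ (by positivity))
  have hsq : ∀ n : ℕ, n ≤ TT s / 2 - uu s → ((2:ℝ) ^ n) ^ 2 * 2 ≤ c0 * 2 ^ (TT s) := by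
    intro n hn
    have e1 : ((2:ℝ) ^ n) ^ 2 * 2 = 2 ^ (n * 2 + 1) := by rw [← pow_mul, pow_succ]
    rw [e1]
    calc (2:ℝ) ^ (n * 2 + 1) ≤ 2 ^ (TT s - κ) := pow_le_pow_right₀ (by norm_num) (by omega)
      _ ≤ (c0 * 2 ^ κ) * 2 ^ (TT s - κ) := le_mul_of_one_le_left (by positivity) hκ
      _ = c0 * 2 ^ (κ + (TT s - κ)) := by rw [pow_add]; ring
      _ = _ := by congr 2; omega
  have hTT : s.1 + MM s 0 = TT s := rfl
  have := hL0 s.1 (by omega) (MM s) (sum_MM s hsg) (by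
    intro i
    have hκi : κ ≤ MM s i := by
      refine Fin.cases ?_ (fun i => ?_) i
      · rw [MM_zero]; omega
      · rw [MM_succ]; exact hm i
    refine hκ.trans ?_
    gcongr
    norm_num) (by
    rw [sum_MM_succ]
    refine le_trans ?_ hadm
    apply Nat.mul_le_mul_right
    unfold Hk; omega) (lev s) (lev s * 2 ^ (1040 * uu s)) (lev s * 2 ^ (2040 * uu s)) hlev h2 h3
    (by
      rw [hTT]; unfold lev; push_cast
      exact hsq _ (by omega))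
    (by
      rw [hTT]; unfold lev; push_cast
      rw [← pow_add]
      exact hsq _ (by omega))
    (by
      rw [hTT]; unfold lev; push_cast
      rw [← pow_add]
      exact hsq _ (by omega))
  rw [hTT] at this
  exact this

lemma qlow (Ψ : ℝ → ℝ) (L u : ℕ) (hL : 1 ≤ L) (hq : qq k Ψ L ≠ 0)
    (hu : 4 * ((Hk k * (u + 1) : ℕ) : ℝ) ^ (k+2) ≤ 2 ^ u) (hLu : L ≤ Hk k * (u + 1)) :
    4 ≤ qq k Ψ L * 2 ^ u := by
  have h1 := qq_ge k Ψ L hq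
  have hL' : (1:ℝ) ≤ L := by exact_mod_cast hL
  have h2 : (L:ℝ) ^ (k+2) ≤ ((Hk k * (u + 1) : ℕ) : ℝ) ^ (k+2) := by
    apply pow_le_pow_left₀ (by positivity)
    exact_mod_cast hLu
  have h3 : 4 * (L:ℝ) ^ (k+2) ≤ 2 ^ u := by linarith
  have hLp : (0:ℝ) < (L:ℝ) ^ (k+2) := by positivity
  calc (4:ℝ) = 1 / (L:ℝ) ^ (k+2) * (4 * (L:ℝ) ^ (k+2)) := by field_simp
    _ ≤ qq k Ψ L * 2 ^ u := by
        have : 0 ≤ 1 / (L:ℝ) ^ (k+2) := by positivity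
        apply mul_le_mul h1 h3 (by positivity) (this.trans h1)

/-- the finite family of shapes with levels in `[N, N2)` -/
noncomputable def fam (k κ D : ℕ) (Ψ : ℝ → ℝ) (N N2 : ℕ) : Finset (Shp k) := by
  classical
  exact (((Finset.Ico N N2).filter (fun L => qq k Ψ L ≠ 0)).sigma
    (fun L => Fintype.piFinset (fun _ : Fin k => Finset.Ico κ (κ + L / D)))).image (fun x => (x.1, x.2))

lemma mem_fam {κ D : ℕ} {Ψ : ℝ → ℝ} {N N2 : ℕ} {s : Shp k} (hs : s ∈ fam k κ D Ψ N N2) :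
    N ≤ s.1 ∧ qq k Ψ s.1 ≠ 0 ∧ (∀ i, κ ≤ s.2 i) ∧ ∀ i, s.2 i < κ + s.1 / D := by
  classical
  unfold fam at hs
  rw [Finset.mem_image] at hs
  obtain ⟨x, hx, rfl⟩ := hs
  rw [Finset.mem_sigma, Finset.mem_filter, Finset.mem_Ico, Fintype.mem_piFinset] at hx
  obtain ⟨⟨⟨h1, _⟩, h2⟩, h3⟩ := hx
  refine ⟨h1, h2, ?_, ?_⟩
  · intro i; exact (Finset.mem_Ico.mp (h3 i)).1
  · intro i; exact (Finset.mem_Ico.mp (h3 i)).2

lemma sum_fam (κ D : ℕ) (Ψ : ℝ → ℝ) (N N2 : ℕ) :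
    ∑ s ∈ fam k κ D Ψ N N2, qq k Ψ s.1 = ∑ L ∈ Finset.Ico N N2, ((L / D : ℕ) : ℝ) ^ k * qq k Ψ L := by
  classical
  unfold fam
  rw [Finset.sum_image, Finset.sum_sigma, Finset.sum_filter]
  · apply Finset.sum_congr rfl
    intro L _
    by_cases h : qq k Ψ L ≠ 0
    · rw [if_pos h]
      show ∑ _m ∈ Fintype.piFinset (fun _ : Fin k => Finset.Ico κ (κ + L / D)), qq k Ψ L = _
      rw [Finset.sum_const, Fintype.card_piFinset, nsmul_eq_mul]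
      simp
    · rw [if_neg h]
      push Not at h
      rw [h, mul_zero]
  · rintro ⟨a, b⟩ _ ⟨a', b'⟩ _ he
    simp only [Prod.mk.injEq] at he
    obtain ⟨h1, h2⟩ := he
    subst h1; subst h2; rfl

lemma adm_fam {κ D : ℕ} {s : Shp k} (hD : D = 2 * (Hk k * (k+1))) (h1 : ∀ i, s.2 i < κ + s.1 / D)
    (h2 : 2 * (Hk k * (k * κ)) ≤ s.1) : Hk k * sg s ≤ s.1 := by
  have h3 : sg s ≤ k * (κ + s.1 / D) := by
    unfold sg
    calc ∑ i, s.2 i ≤ ∑ _i : Fin k, (κ + s.1 / D) := Finset.sum_le_sum fun i _ => (h1 i).le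
      _ = k * (κ + s.1 / D) := by rw [Finset.sum_const, Finset.card_univ, Fintype.card_fin, smul_eq_mul]
  have h4 : Hk k * sg s ≤ Hk k * (k * κ) + Hk k * (k * (s.1 / D)) := by
    calc Hk k * sg s ≤ Hk k * (k * (κ + s.1 / D)) := Nat.mul_le_mul_left _ h3
      _ = _ := by ring
  have h5 : 2 * (Hk k * (k * (s.1 / D))) ≤ D * (s.1 / D) := by
    rw [hD]
    calc 2 * (Hk k * (k * (s.1 / (2 * (Hk k * (k+1)))))) = (2 * (Hk k * k)) * (s.1 / (2 * (Hk k * (k+1)))) := by ring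
      _ ≤ _ := by
        apply Nat.mul_le_mul_right
        apply Nat.mul_le_mul_left
        apply Nat.mul_le_mul_left
        omega
  have h6 := Nat.mul_div_le s.1 D
  omega

attribute [local irreducible] Hk

/-- lower bound for the measure of a finite union -/
theorem finite_lower (k : ℕ) : ∃ (c c0 : ℝ) (κ : ℕ), 0 < c ∧ 0 < c0 ∧ c0 ≤ 1 ∧ 1 ≤ c0 * 2 ^ κ ∧
    ∀ Ψ : ℝ → ℝ, AntitoneOn Ψ (Set.Ici 1) → (∀ x : ℝ, 1 ≤ x → 0 < Ψ x) →
    ¬ Summable (fun h : ℕ => Real.log ((h : ℝ) + 1) ^ k * Ψ ((h : ℝ) + 1)) →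
    ∀ α β : ℝ, α < β → ∃ (N0 : ℕ) (R : Shp k → Finset ℝ),
      (∀ s : Shp k, N0 ≤ s.1 → (∀ i, κ ≤ s.2 i) → Hk k * sg s ≤ s.1 →
        (∀ x ∈ R s, α + (β - α) / 4 ≤ x ∧ x ≤ β - (β - α) / 4 ∧ ∃ w a0, RootOK (MM s) c0 w a0 x)) ∧
      ∀ N : ℕ, N0 ≤ N → ∃ F : Finset (Shp k), (∀ s ∈ F, N ≤ s.1 ∧ (∀ i, κ ≤ s.2 i) ∧ Hk k * sg s ≤ s.1 ∧
        qq k Ψ s.1 ≠ 0) ∧
        c * (β - α) ≤ (volume (⋃ s ∈ F, EE (R s) (qq k Ψ s.1 / 4 / 2 ^ (TT s)))).toReal := by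
  classical
  -- constants
  set c0 : ℝ := 1 / (330 * ((k:ℝ) + 1) * 3 ^ (k+1)) with hc0d
  have hk0 : (0:ℝ) ≤ k := Nat.cast_nonneg k
  have hden : (1:ℝ) ≤ 330 * ((k:ℝ) + 1) * 3 ^ (k+1) := by
    have h2 : (1:ℝ) ≤ 3 ^ (k+1) := one_le_pow₀ (by norm_num)
    nlinarith
  have hc0 : 0 < c0 := by positivity
  have hc1 : 330 * ((k:ℝ) + 1) * 3 ^ (k+1) * c0 ≤ 1 := by
    rw [hc0d]
    apply le_of_eq
    field_simp
  have hc01 : c0 ≤ 1 := by rw [hc0d, div_le_one (by linarith)]; exact hden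
  obtain ⟨κ, hκ'⟩ := pow_unbounded_of_one_lt (1 / c0) (by norm_num : (1:ℝ) < 2)
  have hκ : 1 ≤ c0 * 2 ^ κ := by
    rw [div_lt_iff₀ hc0] at hκ'
    linarith
  obtain ⟨C1, hC10, X, hX0, hXs, hXn⟩ := near_prop_exists k κ c0 hc0 hc01 hκ
  refine ⟨(c0 / 40) ^ 2 / (16 * (C1 + 1) ^ 2), c0, κ, by positivity, hc0, hc01, hκ, ?_⟩
  intro Ψ hanti hpos hdiv α β hαβ
  set δ := (β - α) / 4 with hδ
  have hδ0 : 0 < δ := by rw [hδ]; linarith
  obtain ⟨X1, hX1⟩ := exists_nat_ge (max |α| |β|)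
  have hX1' : 1 ≤ X1 + 1 := by omega
  have hα : -((X1 + 1 : ℕ):ℝ) ≤ α := by
    push_cast
    have := (le_max_left |α| |β|).trans hX1
    have := neg_abs_le α
    linarith
  have hβ : β ≤ ((X1 + 1 : ℕ):ℝ) := by
    push_cast
    have := (le_max_right |α| |β|).trans hX1
    have := le_abs_self β
    linarith
  obtain ⟨u0, hu0⟩ := hXn (X1 + 1) hX1' δ hδ0
  obtain ⟨Na, hNa⟩ := R_exists k (X1 + 1) hX1' (α + δ) (β - δ) (by linarith) (by linarith) (by linarith)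
    c0 hc0 hc1 κ hκ
  obtain ⟨u1, hu1⟩ := growth k
  obtain ⟨n3, hn3⟩ := pow_unbounded_of_one_lt (4 / (β - α)) (by norm_num : (1:ℝ) < 2)
  -- choose the finite sets
  have hchoice : ∀ s : Shp k, ∃ R : Finset ℝ, (Na ≤ s.1 → (∀ i, κ ≤ s.2 i) → Hk k * sg s ≤ s.1 →
      (∀ x ∈ R, α + δ ≤ x ∧ x ≤ β - δ ∧ Good (lev s) x ∧ Good (lev s * 2 ^ (1040 * uu s)) x ∧
        Good (lev s * 2 ^ (2040 * uu s)) x ∧ ∃ w a0, RootOK (MM s) c0 w a0 x) ∧
        (∀ x ∈ R, ∀ y ∈ R, |x - y| < 1 / 2 ^ (TT s) → x = y) ∧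
        c0 / 20 * 2 ^ (TT s) * (β - δ - (α + δ)) ≤ R.card) := by
    intro s
    by_cases h : Na ≤ s.1 ∧ (∀ i, κ ≤ s.2 i) ∧ Hk k * sg s ≤ s.1
    · obtain ⟨R, hR⟩ := hNa s h.1 h.2.1 h.2.2
      exact ⟨R, fun _ _ _ => hR⟩
    · exact ⟨∅, fun h1 h2 h3 => absurd ⟨h1, h2, h3⟩ h⟩
  choose R hR using hchoice
  set D := 2 * (Hk k * (k+1)) with hD
  have hDpos : 0 < D := by rw [hD]; have := Hk_pos k; positivity
  refine ⟨Na + Hk k * (u0 + u1) + n3 + 2 * (Hk k * (k * κ)) + 1, R, ?_, ?_⟩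
  · intro s hs hm hadm x hx
    obtain ⟨r1, r2, _, _, _, r6⟩ := (hR s (by omega) hm hadm).1 x hx
    exact ⟨r1, r2, r6⟩
  · intro N hN
    obtain ⟨N2, hN2⟩ := diverge2 k Ψ hanti hpos hdiv D hDpos N
    have hF : ∀ s ∈ fam k κ D Ψ N N2, N ≤ s.1 ∧ (∀ i, κ ≤ s.2 i) ∧ Hk k * sg s ≤ s.1 ∧ qq k Ψ s.1 ≠ 0 := by
      intro s hs
      obtain ⟨h1, h2, h3, h4⟩ := mem_fam hs
      exact ⟨h1, h3, adm_fam hD h4 (by omega), h2⟩
    refine ⟨fam k κ D Ψ N N2, hF, ?_⟩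
    have hFR : ∀ s ∈ fam k κ D Ψ N N2, _ := fun s hs =>
      hR s (by have := (hF s hs).1; omega) (hF s hs).2.1 (hF s hs).2.2.1
    have huu : ∀ s ∈ fam k κ D Ψ N N2, u0 + u1 ≤ uu s := fun s hs =>
      uu_ge s (u0 + u1) (by have := (hF s hs).1; omega)
    have hTT1 : ∀ s : Shp k, s.1 ≤ TT s := fun s => by unfold TT; omega
    have hsgs : ∀ s ∈ fam k κ D Ψ N N2, sg s ≤ s.1 := by
      intro s hs
      calc sg s = 1 * sg s := (one_mul _).symm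
        _ ≤ Hk k * sg s := Nat.mul_le_mul_right _ (Hk_pos k)
        _ ≤ s.1 := (hF s hs).2.2.1
    have hbig : ∀ s ∈ fam k κ D Ψ N N2, 1 ≤ (2:ℝ) ^ (TT s) * (β - α) := by
      intro s hs
      have h1 := (hF s hs).1
      have h2 : (2:ℝ) ^ n3 ≤ 2 ^ (TT s) := pow_le_pow_right₀ (by norm_num) (by have := hTT1 s; omega)
      have h3 : 4 / (β - α) ≤ (2:ℝ) ^ (TT s) := hn3.le.trans h2
      rw [div_le_iff₀ (by linarith)] at h3
      linarith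
    have hqlow : ∀ s ∈ fam k κ D Ψ N N2, ∀ t ∈ fam k κ D Ψ N N2, TT t ≤ TT s → 4 ≤ qq k Ψ t.1 * 2 ^ (uu s) := by
      intro s hs t ht hts
      apply qlow Ψ t.1 (uu s) (by have := (hF t ht).1; omega) (hF t ht).2.2.2
      · exact hu1 _ (by have := huu s hs; omega)
      · exact (hTT1 t).trans (hts.trans (TT_lt s))
    apply moment (fam k κ D Ψ N N2) TT (fun s => qq k Ψ s.1) R X α β (c0 / 40) C1 hαβ (by positivity) hC10
    · intro s hs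
      exact lt_of_le_of_ne (qq_nonneg k Ψ hpos _) (hF s hs).2.2.2.symm
    · intro s _; exact qq_le_one k Ψ _
    · intro s hs x hx
      obtain ⟨r1, r2, _⟩ := (hFR s hs).1 x hx
      constructor <;> linarith
    · intro s hs; exact (hFR s hs).2.1
    · intro s hs
      have h1 := (hFR s hs).2.2
      have e : c0 / 20 * 2 ^ (TT s) * (β - δ - (α + δ)) = c0 / 40 * 2 ^ (TT s) * (β - α) := by rw [hδ]; ring
      rw [e] at h1
      exact h1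
    · exact hbig
    · exact hX0
    · intro s hs t ht hts hnear
      have hqs := qq_nonneg k Ψ hpos s.1
      have hqt := qq_nonneg k Ψ hpos t.1
      have hqs1 := qq_le_one k Ψ s.1
      have h4s := hqlow s hs s hs le_rfl
      have h4t := hqlow s hs t ht hts
      have hTs0 : (0:ℝ) < 2 ^ (TT s) := by positivity
      have hTt0 : (0:ℝ) < 2 ^ (TT t) := by positivity
      have hτ : TT s - TT t ≤ uu s := by
        by_contra hcon
        push Not at hcon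
        have h1 : (2:ℝ) ^ (TT t) * 2 ^ (uu s) ≤ 2 ^ (TT s) := by
          rw [← pow_add]
          exact pow_le_pow_right₀ (by norm_num) (by omega)
        have h2 : (1:ℝ) ≤ qq k Ψ t.1 / 4 / 2 ^ (TT t) * 2 ^ (TT s) := by
          calc (1:ℝ) ≤ (qq k Ψ t.1 * 2 ^ (uu s)) / 4 := by linarith
            _ = qq k Ψ t.1 / 4 / 2 ^ (TT t) * (2 ^ (TT t) * 2 ^ (uu s)) := by field_simp
            _ ≤ _ := by gcongr
        linarith
      apply hu0 α β hα hβ (by rw [hδ]; linarith) s t (hF s hs).2.2.1 (hF t ht).2.2.1 hts hτ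
        (by have := huu s hs; omega) (hbig t ht)
      · have h1 : 1 / (2:ℝ) ^ (TT s + uu s) ≤ qq k Ψ s.1 / 4 / 2 ^ (TT s) := by
          rw [pow_add, div_le_div_iff₀ (by positivity) (by positivity)]
          calc 1 * (2:ℝ) ^ (TT s) ≤ (qq k Ψ s.1 * 2 ^ (uu s) / 4) * 2 ^ (TT s) := by
                gcongr; linarith
            _ = _ := by ring
        have h2 : 0 ≤ qq k Ψ t.1 / 4 / 2 ^ (TT t) := by positivity
        linarith
      · have h1 : qq k Ψ s.1 / 4 / 2 ^ (TT s) ≤ 1 / 2 ^ (TT s) := by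
          gcongr
          linarith
        have h2 : qq k Ψ t.1 / 4 / 2 ^ (TT t) ≤ 1 / 2 ^ (TT s) := by
          rw [le_div_iff₀ hTs0]; exact hnear.le
        calc _ ≤ 1 / (2:ℝ) ^ (TT s) + 1 / 2 ^ (TT s) := add_le_add h1 h2
          _ = _ := by ring
      · exact (hFR s hs).2.1
      · exact (hFR t ht).2.1
      · exact (hFR s hs).1
      · intro y hy
        obtain ⟨r1, r2, _, _, _, r6⟩ := (hFR t ht).1 y hy
        exact ⟨by linarith, by linarith, r6⟩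
    · intro s hs
      apply hXs s (hsgs s hs)
      intro t ht
      rw [Finset.mem_filter] at ht
      exact ⟨hsgs t ht.1, ht.2⟩
    · rw [sum_fam]; exact hN2

end MDiv
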