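import Mathlib
import Pool.Agent.Hhelper92.Mult.Final2

set_option autoImplicit false

/-!
The limsup set and the final statement.
-/

namespace MDiv

open Finset MeasureTheory Filter Topology

variable {k : ℕ}

def Sol (k : ℕ) (Ψ : ℝ → ℝ) (ξ : ℝ) : Set (Fin (k+1+1) → ℤ) :=
  {a | |∑ i : Fin (k+1+1), (a i : ℝ) * ξ ^ (i : ℕ)| < Ψ (∏ i : Fin (k+1), max 1 |((a i.succ : ℤ) : ℝ)|)}

def WW (k : ℕ) (Ψ : ℝ → ℝ) : Set ℝ := {ξ | Set.Infinite (Sol k Ψ ξ)}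

lemma measurable_WW (k : ℕ) (Ψ : ℝ → ℝ) : MeasurableSet (WW k Ψ) := by
  have h1 : WW k Ψ = ⋂ t : Finset (Fin (k+1+1) → ℤ), ⋃ a : {a : Fin (k+1+1) → ℤ // a ∉ t},
      {ξ : ℝ | a.1 ∈ Sol k Ψ ξ} := by
    ext ξ
    rw [Set.mem_iInter]
    constructor
    · intro h t
      obtain ⟨a, ha1, ha2⟩ := Set.Infinite.exists_notMem_finset h t
      rw [Set.mem_iUnion]
      exact ⟨⟨a, ha2⟩, ha1⟩
    · intro h hfin
      have := h (Set.Finite.toFinset hfin)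
      rw [Set.mem_iUnion] at this
      obtain ⟨⟨a, ha⟩, ha2⟩ := this
      apply ha
      rw [Set.Finite.mem_toFinset]
      exact ha2
  rw [h1]
  apply MeasurableSet.iInter
  intro t
  apply MeasurableSet.iUnion
  rintro ⟨a, ha⟩
  show MeasurableSet {ξ : ℝ | |∑ i : Fin (k+1+1), (a i : ℝ) * ξ ^ (i : ℕ)| < Ψ (∏ i : Fin (k+1), max 1 |((a i.succ : ℤ) : ℝ)|)}
  apply measurableSet_lt _ measurable_const
  have : Continuous (fun ξ : ℝ => |∑ i : Fin (k+1+1), (a i : ℝ) * ξ ^ (i : ℕ)|) := by fun_prop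
  exact this.measurable

lemma sum_cons (w : Fin (k+1) → ℤ) (a0 : ℤ) (ξ : ℝ) :
    ∑ i : Fin (k+1+1), ((Fin.cons a0 w : Fin (k+1+1) → ℤ) i : ℝ) * ξ ^ (i : ℕ) = G w ξ + a0 := by
  rw [Fin.sum_univ_succ, Fin.sum_univ_succ]
  unfold G ev tl
  simp only [Fin.cons_zero, Fin.cons_succ, Fin.val_zero, Fin.val_succ, pow_zero, mul_one, zero_add, pow_one]
  have : ∀ i : Fin k, ξ ^ ((i:ℕ) + 1 + 1) = ξ ^ ((i:ℕ) + 2) := fun i => rfl
  ring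

lemma sol_mem (Ψ : ℝ → ℝ) (hanti : AntitoneOn Ψ (Set.Ici 1)) (hpos : ∀ x : ℝ, 1 ≤ x → 0 < Ψ x)
    (s : Shp k) (hsg : sg s ≤ s.1) (c0 : ℝ) (w : Fin (k+1) → ℤ) (a0 : ℤ) (x ξ X0 : ℝ)
    (hroot : RootOK (MM s) c0 w a0 x) (hX : 1 ≤ X0) (hx : |x| ≤ X0) (hξ : |ξ| ≤ X0)
    (hK : 2 * (K0 k X0 * 2 ^ (sg s)) ≤ c0 * 2 ^ (MM s 0))
    (hdist : |ξ - x| ≤ qq k Ψ s.1 / 4 / 2 ^ (TT s)) : (Fin.cons a0 w : Fin (k+1+1) → ℤ) ∈ Sol k Ψ ξ := by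
  obtain ⟨h1, h2, h3⟩ := hroot
  have htl : ∀ i, |(tl w i : ℝ)| ≤ 2 ^ (sg s) := by
    intro i
    refine (h2 i.succ).trans ?_
    apply pow_le_pow_right₀ (by norm_num)
    rw [MM_succ]
    exact Finset.single_le_sum (f := s.2) (fun _ _ => Nat.zero_le _) (Finset.mem_univ i)
  have hlip := (G_lip (by positivity : (0:ℝ) ≤ 2 ^ (sg s)) htl hX hξ hx (hK.trans (h3 0))).2
  show |∑ i : Fin (k+1+1), ((Fin.cons a0 w : Fin (k+1+1) → ℤ) i : ℝ) * ξ ^ (i : ℕ)| <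
    Ψ (∏ i : Fin (k+1), max 1 |(((Fin.cons a0 w : Fin (k+1+1) → ℤ) i.succ : ℤ) : ℝ)|)
  rw [sum_cons]
  simp only [Fin.cons_succ]
  have e1 : G w ξ + a0 = G w ξ - G w x := by
    have : G w x = (w 0 : ℝ) * x + ev (tl w) x := rfl
    rw [this]; linarith
  rw [e1]
  have hprod1 : (1:ℝ) ≤ ∏ i : Fin (k+1), max 1 |(w i : ℝ)| := by
    calc (1:ℝ) = ∏ _i : Fin (k+1), (1:ℝ) := by rw [Finset.prod_const_one]
      _ ≤ _ := Finset.prod_le_prod (fun _ _ => zero_le_one) (fun i _ => le_max_left _ _)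
  have hprod2 : ∏ i : Fin (k+1), max 1 |(w i : ℝ)| ≤ 2 ^ s.1 := by
    calc ∏ i : Fin (k+1), max 1 |(w i : ℝ)| ≤ ∏ i : Fin (k+1), (2:ℝ) ^ (MM s i) := by
          apply Finset.prod_le_prod
          · intro i _; positivity
          · intro i _; exact max_le (one_le_pow₀ (by norm_num)) (h2 i)
      _ = 2 ^ s.1 := by rw [Finset.prod_pow_eq_pow_sum, sum_MM s hsg]
  have h2L : (1:ℝ) ≤ 2 ^ s.1 := one_le_pow₀ (by norm_num)
  have hΨ : Ψ (2 ^ s.1) ≤ Ψ (∏ i : Fin (k+1), max 1 |(w i : ℝ)|) := hanti hprod1 h2L hprod2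
  have hΨ0 := hpos _ h2L
  have hq := qq_le_pp k Ψ hpos s.1
  have hq0 := qq_nonneg k Ψ hpos s.1
  unfold pp at hq
  have hTT : (2:ℝ) ^ (TT s) = 2 ^ s.1 * 2 ^ (MM s 0) := by
    unfold TT; rw [pow_add]
  calc |G w ξ - G w x| ≤ 2 * |(w 0 : ℝ)| * |ξ - x| := hlip
    _ ≤ 2 * 2 ^ (MM s 0) * (qq k Ψ s.1 / 4 / 2 ^ (TT s)) := by
        have := h2 0
        gcongr
    _ = qq k Ψ s.1 / 2 ^ s.1 / 2 := by
        rw [hTT]; field_simp; ring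
    _ ≤ (2 ^ s.1 * Ψ (2 ^ s.1)) / 2 ^ s.1 / 2 := by gcongr
    _ = Ψ (2 ^ s.1) / 2 := by field_simp
    _ < Ψ (2 ^ s.1) := by linarith
    _ ≤ _ := hΨ

def SS (k κ : ℕ) (Ψ : ℝ → ℝ) (N : ℕ) : Set (Shp k) :=
  {s | N ≤ s.1 ∧ (∀ i, κ ≤ s.2 i) ∧ Hk k * sg s ≤ s.1 ∧ qq k Ψ s.1 ≠ 0}

theorem local_lower (k : ℕ) : ∃ c : ℝ, 0 < c ∧
    ∀ Ψ : ℝ → ℝ, AntitoneOn Ψ (Set.Ici 1) → (∀ x : ℝ, 1 ≤ x → 0 < Ψ x) →
    ¬ Summable (fun h : ℕ => Real.log ((h : ℝ) + 1) ^ k * Ψ ((h : ℝ) + 1)) →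
    ∀ α β : ℝ, α < β → ENNReal.ofReal (c * (β - α)) ≤ volume (WW k Ψ ∩ Set.Icc α β) := by
  classical
  obtain ⟨c, c0, κ, hc, hc0, hc01, hκ, hmain⟩ := finite_lower k
  refine ⟨c, hc, ?_⟩
  intro Ψ hanti hpos hdiv α β hαβ
  obtain ⟨N0, R, hR, hF⟩ := hmain Ψ hanti hpos hdiv α β hαβ
  obtain ⟨n5, hn5⟩ := pow_unbounded_of_one_lt (4 / (β - α)) (by norm_num : (1:ℝ) < 2)
  obtain ⟨X1, hX1⟩ := exists_nat_ge (max |α| |β|)
  set X0 : ℝ := (X1:ℝ) + 1 with hX0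
  have hX01 : 1 ≤ X0 := by rw [hX0]; have : (0:ℝ) ≤ X1 := Nat.cast_nonneg _; linarith
  have hα0 : -X0 ≤ α := by
    have := (le_max_left |α| |β|).trans hX1
    have := neg_abs_le α
    linarith
  have hβ0 : β ≤ X0 := by
    have := (le_max_right |α| |β|).trans hX1
    have := le_abs_self β
    linarith
  obtain ⟨n6, hn6⟩ := pow_unbounded_of_one_lt (2 * K0 k X0 / c0) (by norm_num : (1:ℝ) < 2)
  set r : Shp k → ℝ := fun s => qq k Ψ s.1 / 4 / 2 ^ (TT s) with hr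
  set N1 := N0 + n5 + 3 * n6 with hN1
  set V : ℕ → Set ℝ := fun j => ⋃ s ∈ SS k κ Ψ (N1 + j), EE (R s) (r s) with hV
  have hTT1 : ∀ s : Shp k, s.1 ≤ TT s := fun s => by unfold TT; omega
  have hr1 : ∀ s : Shp k, N1 ≤ s.1 → r s ≤ (β - α) / 4 := by
    intro s hs
    have h1 := qq_le_one k Ψ s.1
    have h2 : (2:ℝ) ^ n5 ≤ 2 ^ (TT s) := pow_le_pow_right₀ (by norm_num) (by have := hTT1 s; omega)
    have h3 : 4 / (β - α) ≤ (2:ℝ) ^ (TT s) := hn5.le.trans h2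
    rw [div_le_iff₀ (by linarith)] at h3
    rw [hr]
    simp only
    rw [div_le_iff₀ (by positivity)]
    nlinarith
  have hsub : ∀ s ∈ SS k κ Ψ N1, EE (R s) (r s) ⊆ Set.Icc α β := by
    intro s hs ξ hξ
    obtain ⟨h1, h2, h3, h4⟩ := hs
    unfold EE at hξ
    rw [Set.mem_iUnion₂] at hξ
    obtain ⟨x, hx, hxξ⟩ := hξ
    obtain ⟨b1, b2, _⟩ := hR s (by omega) h2 h3 x hx
    rw [Metric.mem_ball, Real.dist_eq] at hxξ
    have := hr1 s h1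
    rw [abs_lt] at hxξ
    exact ⟨by linarith [hxξ.1], by linarith [hxξ.2]⟩
  have hVmeas : ∀ j, MeasurableSet (V j) := by
    intro j
    apply MeasurableSet.biUnion (Set.to_countable _)
    intro s _
    exact measurable_EE _ _
  have hVanti : Antitone V := by
    intro i j hij
    apply Set.biUnion_subset_biUnion_left
    rintro s ⟨h1, h2, h3, h4⟩
    exact ⟨by omega, h2, h3, h4⟩
  have hVsub : ∀ j, V j ⊆ Set.Icc α β := by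
    intro j
    apply Set.iUnion₂_subset
    rintro s ⟨h1, h2, h3, h4⟩
    exact hsub s ⟨by omega, h2, h3, h4⟩
  have hVlow : ∀ j, ENNReal.ofReal (c * (β - α)) ≤ volume (V j) := by
    intro j
    obtain ⟨F, hF1, hF2⟩ := hF (N1 + j) (by omega)
    refine (ENNReal.ofReal_le_of_le_toReal hF2).trans (measure_mono ?_)
    apply Set.biUnion_subset_biUnion_left
    intro s hs
    exact hF1 s hs
  have hlim := tendsto_measure_iInter_atTop (μ := (volume : Measure ℝ)) (s := V)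
    (fun j => (hVmeas j).nullMeasurableSet) hVanti ⟨0, by
      apply ne_of_lt
      calc volume (V 0) ≤ volume (Set.Icc α β) := measure_mono (hVsub 0)
        _ < ⊤ := by rw [Real.volume_Icc]; exact ENNReal.ofReal_lt_top⟩
  have hge : ENNReal.ofReal (c * (β - α)) ≤ volume (⋂ j, V j) := ge_of_tendsto' hlim hVlow
  refine hge.trans (measure_mono ?_)
  intro ξ hξ
  rw [Set.mem_iInter] at hξ
  have hξI : ξ ∈ Set.Icc α β := hVsub 0 (hξ 0)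
  refine ⟨?_, hξI⟩
  intro hfin
  obtain ⟨Bd, hBd⟩ := (hfin.image (fun a : Fin (k+1+1) → ℤ => |((a (Fin.succ 0) : ℤ) : ℝ)|)).bddAbove
  obtain ⟨n7, hn7⟩ := pow_unbounded_of_one_lt (Bd / c0) (by norm_num : (1:ℝ) < 2)
  have h1 := hξ (2 * n7)
  rw [hV] at h1
  simp only [Set.mem_iUnion₂] at h1
  obtain ⟨s, ⟨s1, s2, s3, s4⟩, hs⟩ := h1
  unfold EE at hs
  rw [Set.mem_iUnion₂] at hs
  obtain ⟨x, hx, hxξ⟩ := hs
  obtain ⟨b1, b2, w, a0, hroot⟩ := hR s (by omega) s2 s3 x hx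
  rw [Metric.mem_ball, Real.dist_eq] at hxξ
  have hsg3 : 3 * sg s ≤ s.1 := by
    refine le_trans (Nat.mul_le_mul_right _ ?_) s3
    unfold Hk; omega
  have hsg : sg s ≤ s.1 := by omega
  have hxabs : |x| ≤ X0 := by
    rw [abs_le]; constructor <;> linarith
  have hξabs : |ξ| ≤ X0 := by
    rw [abs_le]; constructor <;> linarith [hξI.1, hξI.2]
  have hM0 : MM s 0 = s.1 - sg s := rfl
  have hK : 2 * (K0 k X0 * 2 ^ (sg s)) ≤ c0 * 2 ^ (MM s 0) := by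
    have h1 : 2 * K0 k X0 / c0 ≤ 2 ^ (MM s 0 - sg s) :=
      hn6.le.trans (pow_le_pow_right₀ (by norm_num) (by omega))
    rw [div_le_iff₀ hc0] at h1
    have h2 : (2:ℝ) ^ (MM s 0) = 2 ^ (MM s 0 - sg s) * 2 ^ (sg s) := by
      rw [← pow_add]; congr 1; omega
    rw [h2]
    calc 2 * (K0 k X0 * 2 ^ (sg s)) = (2 * K0 k X0) * 2 ^ (sg s) := by ring
      _ ≤ (2 ^ (MM s 0 - sg s) * c0) * 2 ^ (sg s) := by gcongr
      _ = _ := by ring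
  have hsol := sol_mem Ψ hanti hpos s hsg c0 w a0 x ξ X0 hroot hX01 hxabs hξabs hK hxξ.le
  have h2 : |((w 0 : ℤ) : ℝ)| ≤ Bd := by
    apply hBd
    exact ⟨_, hsol, rfl⟩
  have h3 := hroot.2.2 0
  have h4 : (2:ℝ) ^ n7 ≤ 2 ^ (MM s 0) := pow_le_pow_right₀ (by norm_num) (by omega)
  rw [div_lt_iff₀ hc0] at hn7
  have h5 : c0 * 2 ^ n7 ≤ c0 * 2 ^ (MM s 0) := by gcongr
  linarith

theorem main (n : ℕ) (hn : 1 ≤ n) (Ψ : ℝ → ℝ) (hanti : AntitoneOn Ψ (Set.Ici 1))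
    (hpos : ∀ x : ℝ, 1 ≤ x → 0 < Ψ x)
    (hdiv : ¬ Summable (fun h : ℕ => Real.log ((h : ℝ) + 1) ^ (n - 1) * Ψ ((h : ℝ) + 1))) :
    ∀ᵐ ξ : ℝ ∂MeasureTheory.volume,
        Set.Infinite {a : Fin (n + 1) → ℤ |
          |∑ i : Fin (n + 1), (a i : ℝ) * ξ ^ (i : ℕ)| <
            Ψ (∏ i : Fin n, max 1 |((a i.succ : ℤ) : ℝ)|)} := by
  obtain ⟨k, rfl⟩ : ∃ k, n = k + 1 := ⟨n - 1, by omega⟩
  obtain ⟨c, hc, hloc⟩ := local_lower k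
  have h1 := full_of_proportion (WW k Ψ) (measurable_WW k Ψ) c hc (hloc Ψ hanti hpos hdiv)
  exact h1

end MDiv
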